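import Pool.Agent.P.MP_c09211_an.Sh.AreaA

/-!
The area inequality in polar coordinates.
-/

set_option autoImplicit false

namespace Pool.Agent.P.MP_c09211_an.Sh

open Metric Set Complex Filter Topology MeasureTheory PowerSeries Real
open scoped ContDiff

theorem area_cut {K U : Set ℂ} (hK : IsCompact K) (hU : IsOpen U) (h : K ⊆ U) :
    ∃ χ : ℂ → ℝ, ContDiff ℝ ∞ χ ∧ HasCompactSupport χ ∧ tsupport χ ⊆ U ∧
      (∀ t ∈ K, χ t = 1) ∧ ∀ t, 0 ≤ χ t ∧ χ t ≤ 1 := by
  obtain ⟨L, hL, h1, h2⟩ := exists_compact_between hK hU h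
  obtain ⟨f, f0, f1, f2⟩ := exists_contMDiffMap_zero_one_of_isClosed (n := ⊤)
    (modelWithCornersSelf ℝ ℂ) (isOpen_interior (s := L)).isClosed_compl hK.isClosed
    (disjoint_compl_left_iff_subset.mpr h1)
  have hs : tsupport f ⊆ L := by
    refine closure_minimal (fun t ht => ?_) hL.isClosed
    by_contra hn
    exact ht (f0 fun h' => hn (interior_subset h'))
  exact ⟨f, f.contMDiff.contDiff, hL.of_isClosed_subset (isClosed_tsupport _) hs, hs.trans h2,
    fun t ht => f1 ht, fun t => f2 t⟩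

theorem area_tst {χ : ℂ → ℝ} (h1 : ContDiff ℝ ∞ χ) (h2 : HasCompactSupport χ)
    (h0 : (0 : ℂ) ∉ tsupport χ) {F : ℂ → ℂ} (hF : ∀ t, t ≠ 0 → ContDiffAt ℝ ∞ F t) :
    Tst fun t => χ t • F t := by
  refine ⟨contDiff_iff_contDiffAt.mpr fun t => ?_, h2.smul_right⟩
  by_cases ht : t = 0
  · have : (fun t => χ t • F t) =ᶠ[𝓝 t] fun _ => 0 := by
      filter_upwards [notMem_tsupport_iff_eventuallyEq.mp (ht ▸ h0)] with s hs
      simp [hs]
    exact contDiffAt_const.congr_of_eventuallyEq this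
  · exact h1.contDiffAt.smul (hF t ht)

theorem area_real {q e : ℝ} (hq : 0 ≤ q) (he : 0 < e) :
    q ≤ (√(q ^ 2 + e ^ 2))⁻¹ * q ^ 2 + e ∧ (√(q ^ 2 + e ^ 2))⁻¹ * q ≤ 1 := by
  have hs : 0 < √(q ^ 2 + e ^ 2) := Real.sqrt_pos.mpr (by positivity)
  have h1 : √(q ^ 2 + e ^ 2) ≤ q + e := Real.sqrt_le_iff.mpr ⟨by positivity, by nlinarith⟩
  have h2 : q ≤ √(q ^ 2 + e ^ 2) := Real.le_sqrt_of_sq_le (by nlinarith)
  constructor
  · rw [← sub_le_iff_le_add, le_inv_mul_iff₀ hs]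
    rcases le_total q e with h | h
    · nlinarith
    · nlinarith
  · rw [inv_mul_le_iff₀ hs]; linarith

theorem area_compact {Ω U : Set ℂ} (hΩ : IsOpen Ω) (h0 : (0 : ℂ) ∈ Ω)
    (hb : Bornology.IsBounded Ω) (hU : IsOpen U) (hd : Disjoint U Ω) {J : ℕ} (hJ : 1 ≤ J)
    {l : ℕ → ℂ} {B : ℝ} (hB : FB Ω J l B) {K : Set ℂ} (hK : IsCompact K) (hKU : K ⊆ U) {e : ℝ}
    (he : 0 < e) : ∫⁻ t in K, ‖∑ i ∈ Finset.Icc 2 J, l i / t ^ (i + 1)‖ₑ ≤
      ENNReal.ofReal (2 * π * (B - ‖l 1‖)) + ENNReal.ofReal e * volume K := by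
  obtain ⟨χ, c1, c2, c3, c4, c5⟩ := area_cut hK hU hKU
  set Q : ℂ → ℂ := fun t => ∑ i ∈ Finset.Icc 2 J, l i / t ^ (i + 1) with hQ
  have hcl : Disjoint U (closure Ω) := hd.closure_right hU
  have c0 : (0 : ℂ) ∉ tsupport χ := fun h => Set.disjoint_left.mp hd (c3 h) h0
  have dQ : ∀ t, t ≠ 0 → ContDiffAt ℝ ∞ Q t := fun t ht => by
    have : ContDiffAt ℂ ∞ Q t := ContDiffAt.sum fun i _ =>
      ContDiffAt.div (f := fun _ => l i) (g := fun t : ℂ => t ^ (i + 1)) contDiffAt_const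
        (contDiffAt_id.pow _) (pow_ne_zero _ ht)
    exact this.restrict_scalars ℝ
  set s : ℂ → ℝ := fun t => (√(‖Q t‖ ^ 2 + e ^ 2))⁻¹ with hs
  have ds : ∀ t, t ≠ 0 → ContDiffAt ℝ ∞ s t := fun t ht => by
    have h1 : ContDiffAt ℝ ∞ (fun t => ‖Q t‖ ^ 2 + e ^ 2) t :=
      ((dQ t ht).norm_sq ℝ).add contDiffAt_const
    have h2 : 0 < ‖Q t‖ ^ 2 + e ^ 2 := by positivity
    exact (h1.sqrt h2.ne').inv (Real.sqrt_pos.mpr h2).ne'
  have s0 : ∀ t, 0 ≤ s t := fun t => inv_nonneg.mpr (Real.sqrt_nonneg _)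
  have dF : ∀ t, t ≠ 0 → ContDiffAt ℝ ∞ (fun t => s t • conjCLE (Q t)) t := fun t ht =>
    (ds t ht).smul (conjCLE.contDiff.contDiffAt.comp t (dQ t ht))
  have T1 := area_tst c1 c2 c0 dF
  have T2 := area_tst c1 c2 c0 (F := fun t => (s t • conjCLE (Q t)) * Q t)
    fun t ht => (dF t ht).mul (dQ t ht)
  set g : ℂ → ℝ := fun t => χ t * (s t * ‖Q t‖ ^ 2) with hg
  have g0 : ∀ t, 0 ≤ g t := fun t => mul_nonneg (c5 t).1 (mul_nonneg (s0 t) (sq_nonneg _))
  have e1 : ∀ t, χ t • ((s t • conjCLE (Q t)) * Q t) = (g t : ℂ) := fun t => by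
    rw [smul_mul_assoc, conjCLE_apply, conj_mul', hg, real_smul, real_smul]
    push_cast
    ring
  have gi : Integrable g := by
    have := T2.1.continuous.integrable_of_hasCompactSupport (μ := volume) T2.2
    simp only [e1] at this
    simpa using this.re
  have key := motion_ineq hΩ h0 hb hJ hB T1 (fun w => ?_)
    (Set.disjoint_of_subset_left ((tsupport_smul_subset_left _ _).trans c3) hcl)
  · have e2 : ∫ t : ℂ, (χ t • s t • conjCLE (Q t)) * ∑ i ∈ Finset.Icc 2 J, l i / t ^ (i + 1) =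
        ((∫ t : ℂ, g t : ℝ) : ℂ) := by
      rw [← integral_complex_ofReal]
      refine integral_congr_ae (Eventually.of_forall fun t => ?_)
      exact (smul_mul_assoc _ _ _).trans (e1 t)
    rw [e2, norm_real, Real.norm_eq_abs] at key
    calc ∫⁻ t in K, ‖Q t‖ₑ ≤ ∫⁻ t in K, (ENNReal.ofReal (g t) + ENNReal.ofReal e) := by
          refine setLIntegral_mono' hK.measurableSet fun t ht => ?_
          rw [← ofReal_norm, ← ENNReal.ofReal_add (g0 t) he.le]
          refine ENNReal.ofReal_le_ofReal ?_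
          rw [hg]
          simp only [c4 t ht, one_mul]
          exact (area_real (norm_nonneg _) he).1
      _ = (∫⁻ t in K, ENNReal.ofReal (g t)) + ENNReal.ofReal e * volume K := by
          rw [lintegral_add_right _ measurable_const, setLIntegral_const]
      _ ≤ _ := by
          gcongr
          refine (setLIntegral_le_lintegral _ _).trans ?_
          rw [← ofReal_integral_eq_lintegral_ofReal gi (Eventually.of_forall g0)]
          exact ENNReal.ofReal_le_ofReal ((le_abs_self _).trans key)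
  · rw [norm_smul, norm_smul, conjCLE_apply, norm_conj, Real.norm_of_nonneg (c5 w).1,
      Real.norm_of_nonneg (s0 w)]
    exact mul_le_one₀ (c5 w).2 (mul_nonneg (s0 w) (norm_nonneg _))
      (area_real (norm_nonneg _) he).2

theorem area_ineq {Ω U : Set ℂ} (hΩ : IsOpen Ω) (h0 : (0 : ℂ) ∈ Ω) (hb : Bornology.IsBounded Ω)
    (hU : IsOpen U) (hd : Disjoint U Ω) {J : ℕ} (hJ : 1 ≤ J) {l : ℕ → ℂ} {B : ℝ}
    (hB : FB Ω J l B) : ∫⁻ t in U, ‖∑ i ∈ Finset.Icc 2 J, l i / t ^ (i + 1)‖ₑ ≤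
      ENNReal.ofReal (2 * π * (B - ‖l 1‖)) := by
  have hK : ∀ K : Set ℂ, IsCompact K → K ⊆ U →
      ∫⁻ t in K, ‖∑ i ∈ Finset.Icc 2 J, l i / t ^ (i + 1)‖ₑ ≤
        ENNReal.ofReal (2 * π * (B - ‖l 1‖)) := by
    intro K hK hKU
    refine ENNReal.le_of_forall_pos_le_add fun ε hε _ => ?_
    have hV : 0 ≤ (volume K).toReal := ENNReal.toReal_nonneg
    have hε' : (0 : ℝ) < ε := hε
    refine (area_compact hΩ h0 hb hU hd hJ hB hK hKU
      (e := ε / ((volume K).toReal + 1)) (by positivity)).trans ?_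
    gcongr
    rw [← ENNReal.ofReal_toReal hK.measure_lt_top.ne, ← ENNReal.ofReal_mul (by positivity),
      ← ENNReal.ofReal_coe_nnreal]
    refine ENNReal.ofReal_le_ofReal ?_
    rw [ENNReal.toReal_ofReal hV, div_mul_eq_mul_div, div_le_iff₀ (by positivity)]
    nlinarith
  obtain ⟨F, f1, f2, f3, f4⟩ := hU.exists_iUnion_isClosed
  have hm : Monotone fun n : ℕ => F n ∩ closedBall (0 : ℂ) n := fun m n h =>
    inter_subset_inter (f4 h) (closedBall_subset_closedBall (by exact_mod_cast h))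
  have hu : U = ⋃ n : ℕ, F n ∩ closedBall (0 : ℂ) n := by
    refine Subset.antisymm (fun t ht => ?_) (iUnion_subset fun n => inter_subset_left.trans (f2 n))
    rw [← f3] at ht
    obtain ⟨n, hn⟩ := mem_iUnion.mp ht
    obtain ⟨m, hm'⟩ := exists_nat_ge ‖t‖
    refine mem_iUnion.mpr ⟨max n m, f4 (le_max_left _ _) hn, mem_closedBall_zero_iff.mpr ?_⟩
    exact hm'.trans (by exact_mod_cast le_max_right n m)
  rw [hu, setLIntegral_iUnion_of_directed _ hm.directed_le]
  exact iSup_le fun n => hK _ ((isCompact_closedBall _ _).inter_left (f1 n))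
    (inter_subset_left.trans (f2 n))

theorem area_avg {H : ℂ → ℝ} (H0 : ∀ z, 0 ≤ H z) {r : ℝ} (hr : 0 < r) :
    ENNReal.ofReal (2 * π) * ‖circleAverage H 0 r / r‖ₑ ≤
      ∫⁻ θ in Ioo (-π) π, ENNReal.ofReal (H (circleMap 0 r θ) / r) := by
  have hp : 0 < 2 * π := Real.two_pi_pos
  have e1 : 2 * π * (circleAverage H 0 r / r) = ∫ θ in Ioo (-π) π, H (circleMap 0 r θ) / r := by
    rw [circleAverage_eq_integral_add (-π),
      intervalIntegral.integral_comp_add_right (fun θ => H (circleMap 0 r θ)), zero_add,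
      show 2 * π + -π = π by ring, intervalIntegral.integral_of_le (by linarith [Real.pi_pos]),
      integral_Ioc_eq_integral_Ioo, integral_div, smul_eq_mul]
    field_simp
  rw [← Real.enorm_eq_ofReal hp.le, ← enorm_mul, e1]
  refine (enorm_integral_le_lintegral_enorm _).trans (le_of_eq (lintegral_congr fun θ => ?_))
  exact Real.enorm_eq_ofReal (div_nonneg (H0 _) hr.le)

theorem area_pol {H : ℂ → ℝ} (hH : Measurable H) (H0 : ∀ z, 0 ≤ H z) {ρ : ℝ} (ρ0 : 0 < ρ)
    (ρ1 : ρ < 1) : ENNReal.ofReal (2 * π * ∫ r in ρ..1, circleAverage H 0 r / r) ≤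
      ∫⁻ z in ball (0 : ℂ) 1 \ closedBall 0 ρ, ENNReal.ofReal (H z / ‖z‖ ^ 2) := by
  have hp : 0 < 2 * π := Real.two_pi_pos
  have hA : MeasurableSet (ball (0 : ℂ) 1 \ closedBall 0 ρ) :=
    measurableSet_ball.diff measurableSet_closedBall
  have hm : Measurable fun p : ℝ × ℝ => ENNReal.ofReal (H (circleMap 0 p.1 p.2) / p.1) := by
    refine ((hH.comp ?_).div measurable_fst).ennreal_ofReal
    unfold circleMap
    fun_prop
  calc ENNReal.ofReal (2 * π * ∫ r in ρ..1, circleAverage H 0 r / r)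
      ≤ ENNReal.ofReal (2 * π) * ∫⁻ r in Ioo ρ 1, ‖circleAverage H 0 r / r‖ₑ := by
        rw [ENNReal.ofReal_mul hp.le, intervalIntegral.integral_of_le ρ1.le,
          integral_Ioc_eq_integral_Ioo]
        gcongr
        exact (Real.ofReal_le_enorm _).trans (enorm_integral_le_lintegral_enorm _)
    _ ≤ ∫⁻ r in Ioo ρ 1, ∫⁻ θ in Ioo (-π) π, ENNReal.ofReal (H (circleMap 0 r θ) / r) := by
        rw [← lintegral_const_mul' _ _ ENNReal.ofReal_ne_top]
        exact setLIntegral_mono' measurableSet_Ioo fun r hr => area_avg H0 (ρ0.trans hr.1)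
    _ = ∫⁻ p in Ioo ρ 1 ×ˢ Ioo (-π) π, ENNReal.ofReal (H (circleMap 0 p.1 p.2) / p.1) := by
        rw [Measure.volume_eq_prod, ← Measure.prod_restrict, lintegral_prod _ hm.aemeasurable]
    _ = ∫⁻ p in Ioo ρ 1 ×ˢ Ioo (-π) π, ENNReal.ofReal p.1 •
          (ball (0 : ℂ) 1 \ closedBall 0 ρ).indicator (fun z => ENNReal.ofReal (H z / ‖z‖ ^ 2))
            (Complex.polarCoord.symm p) := by
        refine setLIntegral_congr_fun (measurableSet_Ioo.prod measurableSet_Ioo) fun p hp' => ?_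
        have h1 : 0 < p.1 := ρ0.trans hp'.1.1
        have h2 : ‖Complex.polarCoord.symm p‖ = p.1 := by
          rw [Complex.norm_polarCoord_symm, abs_of_pos h1]
        have h3 : Complex.polarCoord.symm p = circleMap 0 p.1 p.2 := by
          rw [Complex.polarCoord_symm_apply, circleMap, zero_add, exp_mul_I]
          push_cast
          rfl
        have h4 : Complex.polarCoord.symm p ∈ ball (0 : ℂ) 1 \ closedBall 0 ρ := by
          rw [Set.mem_sdiff, mem_ball_zero_iff, mem_closedBall_zero_iff, h2]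
          exact ⟨hp'.1.2, not_le.mpr hp'.1.1⟩
        rw [indicator_of_mem h4, h2, h3, smul_eq_mul, ← ENNReal.ofReal_mul h1.le]
        congr 1
        field_simp
    _ ≤ ∫⁻ p in polarCoord.target, ENNReal.ofReal p.1 •
          (ball (0 : ℂ) 1 \ closedBall 0 ρ).indicator (fun z => ENNReal.ofReal (H z / ‖z‖ ^ 2))
            (Complex.polarCoord.symm p) :=
        lintegral_mono_set (prod_mono (fun r hr => ρ0.trans hr.1) Subset.rfl)
    _ = _ := by rw [Complex.lintegral_comp_polarCoord_symm, lintegral_indicator hA]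

theorem area_det (a : ℂ) :
    ((ContinuousLinearMap.toSpanSingleton ℂ a).restrictScalars ℝ).det = ‖a‖ ^ 2 := by
  simp [ContinuousLinearMap.det, LinearMap.det_restrictScalars, Algebra.norm_complex_eq,
    Complex.normSq_eq_norm_sq]

theorem area_polar {P : ℂ → ℂ} (hP : Differentiable ℂ P) {R ρ : ℝ} (hR : 1 < R)
    (hi : InjOn P (ball 0 R)) (h0 : P 0 = 0) (ρ0 : 0 < ρ) (ρ1 : ρ < 1) {J : ℕ} (hJ : 1 ≤ J)
    {l : ℕ → ℂ} {B : ℝ} (hB : FB (P '' ball 0 ρ) J l B) :
    ∫ r in ρ..1, circleAverage (fun z => ‖(∑ i ∈ Finset.Icc 2 J, l i * (P z)⁻¹ ^ (i - 1)) *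
      (z * deriv P z / P z) ^ 2‖) 0 r / r ≤ B - ‖l 1‖ := by
  have hp : 0 < 2 * π := Real.two_pi_pos
  have hop : ∀ s ⊆ ball (0 : ℂ) R, IsOpen s → IsOpen (P '' s) := by
    refine (AnalyticOnNhd.is_constant_or_isOpen (fun z _ => hP.analyticAt z)
      (convex_ball (0 : ℂ) R).isPreconnected).resolve_left ?_
    rintro ⟨w, hw⟩
    have a0 : (0 : ℂ) ∈ ball (0 : ℂ) R := mem_ball_self (by linarith)
    have a1 : (1 : ℂ) ∈ ball (0 : ℂ) R := by simpa using hR
    exact zero_ne_one (hi a0 a1 ((hw 0 a0).trans (hw 1 a1).symm))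
  have s1 : ball (0 : ℂ) ρ ⊆ ball 0 R := ball_subset_ball (by linarith)
  have s2 : ball (0 : ℂ) 1 \ closedBall 0 ρ ⊆ ball 0 R :=
    sdiff_subset.trans (ball_subset_ball hR.le)
  have oA : IsOpen (ball (0 : ℂ) 1 \ closedBall 0 ρ) := isOpen_ball.sdiff isClosed_closedBall
  have m0 : (0 : ℂ) ∈ P '' ball 0 ρ := ⟨0, mem_ball_self ρ0, h0⟩
  have hb : Bornology.IsBounded (P '' ball 0 ρ) :=
    ((isCompact_closedBall (0 : ℂ) ρ).image hP.continuous).isBounded.subset
      (image_mono ball_subset_closedBall)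
  have hd : Disjoint (P '' (ball (0 : ℂ) 1 \ closedBall 0 ρ)) (P '' ball 0 ρ) := by
    rw [Set.disjoint_left]
    rintro _ ⟨z, hz, rfl⟩ ⟨w, hw, e⟩
    have := hi (s1 hw) (s2 hz) e
    exact hz.2 (this ▸ ball_subset_closedBall hw)
  have hB1 : ‖l 1‖ ≤ B := by
    obtain ⟨C, hC⟩ := hb.subset_ball 0
    have := hB (fun z => z) differentiableOn_id (injOn_id _) rfl (by simp)
      ⟨C, fun w hw => mem_ball_zero_iff.mp (hC hw)⟩
    rw [tay_id, Finset.sum_eq_single 1 (fun i _ hi' => by rw [coeff_X, if_neg hi', zero_mul])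
      (fun h => absurd (Finset.mem_range.mpr (by omega)) h), coeff_one_X, one_mul] at this
    exact this
  have key := area_ineq (hop _ s1 isOpen_ball) m0 hb (hop _ s2 oA) hd hJ hB
  rw [lintegral_image_eq_lintegral_abs_det_fderiv_mul volume oA.measurableSet
    (f' := fun z => (ContinuousLinearMap.toSpanSingleton ℂ (deriv P z)).restrictScalars ℝ)
    (fun z _ => ((hP z).hasDerivAt.hasFDerivAt.restrictScalars ℝ).hasFDerivWithinAt)
    (hi.mono s2)] at key
  have hm : Measurable fun z : ℂ => ‖(∑ i ∈ Finset.Icc 2 J, l i * (P z)⁻¹ ^ (i - 1)) *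
      (z * deriv P z / P z) ^ 2‖ := by
    have m1 : Measurable P := hP.continuous.measurable
    have m2 : Measurable (deriv P) := measurable_deriv P
    fun_prop
  have k2 := (area_pol hm (fun z => norm_nonneg _) ρ0 ρ1).trans
    ((le_of_eq (setLIntegral_congr_fun oA.measurableSet fun z hz => ?_)).trans key)
  · exact le_of_mul_le_mul_left
      ((ENNReal.ofReal_le_ofReal_iff (mul_nonneg hp.le (sub_nonneg.mpr hB1))).mp k2) hp
  · have z0 : z ≠ 0 := by
      rintro rfl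
      exact hz.2 (mem_closedBall_self ρ0.le)
    have p0 : P z ≠ 0 := fun h => z0 (hi (s2 hz) (mem_ball_self (by linarith)) (h.trans h0.symm))
    have e1 : ∑ i ∈ Finset.Icc 2 J, l i / P z ^ (i + 1) =
        (∑ i ∈ Finset.Icc 2 J, l i * (P z)⁻¹ ^ (i - 1)) / P z ^ 2 := by
      rw [Finset.sum_div]
      refine Finset.sum_congr rfl fun i hi' => ?_
      have : i + 1 = (i - 1) + 2 := by have := (Finset.mem_Icc.mp hi').1; omega
      rw [this, pow_add, inv_pow]
      field_simp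
    have n0 : ‖z‖ ≠ 0 := norm_ne_zero_iff.mpr z0
    have n1 : ‖P z‖ ≠ 0 := norm_ne_zero_iff.mpr p0
    rw [area_det, e1, ← ofReal_norm, abs_of_nonneg (sq_nonneg _),
      ← ENNReal.ofReal_mul (sq_nonneg _)]
    congr 1
    simp only [norm_mul, norm_div, norm_pow]
    field_simp

end Pool.Agent.P.MP_c09211_an.Sh
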