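import Pool.Agent.P.MP_c09211_an.Sh.Conc

/-!
Omitted values.
-/

set_option autoImplicit false

namespace Pool.Agent.P.MP_c09211_an.Sh

open Metric Set Finset PowerSeries Complex Filter Topology Real
open scoped ComplexConjugate

variable {n J : ℕ} {P : Polynomial ℂ}

/-- Moving the pole to an omitted value. -/
noncomputable def Hs (P : Polynomial ℂ) (s z : ℂ) : ℂ := P.eval z / (1 - s * P.eval z)

theorem Hyp.om_ev0 (H : Hyp n P) : P.eval 0 = 0 := by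
  rw [← Polynomial.coeff_zero_eq_eval_zero, H.2.1]

theorem Hyp.Hs_sr (H : Hyp n P) {ρ : ℝ} (h0 : 0 < ρ) {z₁ : ℂ} (h1 : ρ < ‖z₁‖) (h2 : ‖z₁‖ ≤ 1) :
    Sr ρ (Hs P (P.eval z₁)⁻¹) ∧ ∀ z : ℂ, ‖z‖ ≤ ρ → 1 - (P.eval z₁)⁻¹ * P.eval z ≠ 0 := by
  obtain ⟨R, hR, hi⟩ := H.2.2.2
  have mem : ∀ z : ℂ, ‖z‖ ≤ 1 → z ∈ ball (0 : ℂ) R := fun z hz =>
    mem_ball_zero_iff.mpr (hz.trans_lt hR)
  have e0 := H.om_ev0
  have p1 : P.eval z₁ ≠ 0 := fun h => by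
    have : z₁ = 0 := hi (mem _ h2) (mem 0 (by simp)) (h.trans e0.symm)
    rw [this, norm_zero] at h1
    exact absurd h0 h1.not_gt
  have ne : ∀ z : ℂ, ‖z‖ ≤ ρ → 1 - (P.eval z₁)⁻¹ * P.eval z ≠ 0 := fun z hz h => by
    have e : P.eval z = P.eval z₁ := by
      have := congrArg (fun t => P.eval z₁ * t) h
      simp only [mul_sub, mul_one, mul_zero, mul_inv_cancel_left₀ p1] at this
      exact (sub_eq_zero.mp this).symm
    have : z = z₁ := hi (mem _ (hz.trans (h1.le.trans h2))) (mem _ h2) e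
    rw [this] at hz
    exact absurd h1 hz.not_gt
  have dif : ∀ z : ℂ, ‖z‖ ≤ ρ → DifferentiableAt ℂ (Hs P (P.eval z₁)⁻¹) z := fun z hz =>
    (P.differentiable z).div
      ((differentiableAt_const _).sub ((P.differentiable z).const_mul _)) (ne z hz)
  refine ⟨⟨fun z hz => (dif z (mem_ball_zero_iff.mp hz).le).differentiableWithinAt,
    fun z hz w hw e => ?_, by simp [Hs, e0], ?_, ?_⟩, ne⟩
  · have hz' := (mem_ball_zero_iff.mp hz).le
    have hw' := (mem_ball_zero_iff.mp hw).le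
    refine hi (mem _ (hz'.trans (h1.le.trans h2))) (mem _ (hw'.trans (h1.le.trans h2))) ?_
    rw [Hs, Hs, div_eq_div_iff (ne z hz') (ne w hw')] at e
    show P.eval z = P.eval w
    linear_combination e
  · have d : HasDerivAt (fun z => P.eval z) 1 0 := by
      have := P.hasDerivAt 0
      rwa [← Polynomial.coeff_zero_eq_eval_zero, Polynomial.coeff_derivative, zero_add, H.2.2.1,
        Nat.cast_zero, zero_add, mul_one] at this
    have := (d.div ((hasDerivAt_const (0 : ℂ) (1 : ℂ)).sub (d.const_mul (P.eval z₁)⁻¹))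
      (ne 0 (by simpa using h0.le))).deriv
    refine Eq.trans this ?_
    simp [e0]
  · obtain ⟨C, hC⟩ := (isCompact_closedBall (0 : ℂ) ρ).exists_bound_of_continuousOn
      (f := Hs P (P.eval z₁)⁻¹) fun z hz =>
        (dif z (mem_closedBall_zero_iff.mp hz)).continuousAt.continuousWithinAt
    exact ⟨C + 1, fun z hz => (hC z (ball_subset_closedBall hz)).trans_lt (lt_add_one C)⟩

theorem Hyp.Hs_tay (H : Hyp n P) (s : ℂ) :
    tay (Hs P s) * (1 - C s * (P : ℂ⟦X⟧)) = (P : ℂ⟦X⟧) := by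
  have e0 := H.om_ev0
  have aP : AnalyticAt ℂ (fun z => P.eval z) 0 := P.differentiable.analyticAt 0
  have aD : AnalyticAt ℂ (fun z => 1 + -s * P.eval z) 0 :=
    analyticAt_const.fun_add (analyticAt_const.fun_mul aP)
  have n0 : (1 : ℂ) + -s * P.eval 0 ≠ 0 := by simp [e0]
  have eH : Hs P s = fun z => P.eval z / (1 + -s * P.eval z) := by
    funext z
    rw [Hs, neg_mul, sub_eq_add_neg]
  have aH : AnalyticAt ℂ (Hs P s) 0 := by
    rw [eH]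
    exact aP.fun_div aD n0
  have t1 : tay (fun z => 1 + -s * P.eval z) = 1 - C s * (P : ℂ⟦X⟧) := by
    rw [tay_add analyticAt_const (analyticAt_const.fun_mul aP), tay_const, tay_cmul _ aP, tay_poly,
      map_one, map_neg]
    ring
  rw [← t1, ← tay_mul aH aD, ← tay_poly]
  refine tay_congr ?_
  filter_upwards [aD.continuousAt.eventually_ne n0] with z hz
  rw [eH]
  exact div_mul_cancel₀ _ hz

theorem om_Lam_add (w : ℂ → ℂ) (A B : ℂ⟦X⟧) : Lam J w (A + B) = Lam J w A + Lam J w B := by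
  simp only [Lam, map_add, mul_add]

theorem om_Lam_sub (w : ℂ → ℂ) (A B : ℂ⟦X⟧) : Lam J w (A - B) = Lam J w A - Lam J w B := by
  simp only [Lam, map_sub, mul_sub]

theorem om_Lam_C (w : ℂ → ℂ) (c : ℂ) (A : ℂ⟦X⟧) : Lam J w (C c * A) = c * Lam J w A := by
  have e : d⁄dX ℂ (C c * A) = C c * d⁄dX ℂ A := by
    ext k
    rw [coeff_derivative, coeff_C_mul, coeff_C_mul, coeff_derivative, mul_assoc]
  rw [Lam, Lam, e, mul_left_comm, coeff_C_mul]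

theorem om_Lam_sum (w : ℂ → ℂ) (N : ℕ) (A : ℕ → ℂ⟦X⟧) :
    Lam J w (∑ i ∈ range N, A i) = ∑ i ∈ range N, Lam J w (A i) := by
  simp only [Lam, map_sum, mul_sum]

theorem om_Lam_high (hJ : 1 ≤ J) (w : ℂ → ℂ) {A : ℂ⟦X⟧} (hA : X ^ (J + 1) ∣ A) :
    Lam J w A = 0 := by
  have d : X ^ J ∣ d⁄dX ℂ A := X_pow_dvd_iff.mpr fun m hm => by
    rw [coeff_derivative, X_pow_dvd_iff.mp hA (m + 1) (by omega), zero_mul]
  exact X_pow_dvd_iff.mp (d.mul_left (tay w)) (J - 1) (by omega)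

theorem om_Lam_one (k : ℕ) (A : ℂ⟦X⟧) :
    Lam (k + 1) (fun _ => 1) A = coeff (k + 1) A * ((k : ℂ) + 1) := by
  rw [Lam, tay_const, map_one, one_mul, Nat.add_sub_cancel, coeff_derivative]

theorem om_schur_one : Schur fun _ => 1 := ⟨differentiableOn_const _, fun _ _ => by simp⟩

theorem Hyp.om_dvd (H : Hyp n P) : X ∣ (P : ℂ⟦X⟧) := by
  rw [X_dvd_iff, ← coeff_zero_eq_constantCoeff_apply, Polynomial.coeff_coe, H.2.1]

theorem Hyp.Hs_lam (H : Hyp n P) (hJ : 1 ≤ J) (w : ℂ → ℂ) (s : ℂ) :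
    ∑ i ∈ Finset.Icc 2 J, Lam J w ((P : ℂ⟦X⟧) ^ i) * s ^ (i - 1) =
      Lam J w (tay (Hs P s)) - Lam J w (P : ℂ⟦X⟧) := by
  have e := H.Hs_tay s
  set A := tay (Hs P s)
  set p := (P : ℂ⟦X⟧) with hp
  have dA : X ∣ A := by
    have : A = p * (1 + C s * A) := by linear_combination e
    rw [this]
    exact H.om_dvd.mul_right _
  have g := mul_neg_geom_sum (C s * p) J
  have e1 : A = ∑ i ∈ range J, C (s ^ i) * p ^ (i + 1) + C s ^ J * (p ^ J * A) := by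
    have : ∑ i ∈ range J, C (s ^ i) * p ^ (i + 1) = p * ∑ i ∈ range J, (C s * p) ^ i := by
      rw [mul_sum]
      exact sum_congr rfl fun i _ => by rw [map_pow]; ring
    rw [this]
    linear_combination (∑ i ∈ range J, (C s * p) ^ i) * e - A * g
  have d : X ^ (J + 1) ∣ C s ^ J * (p ^ J * A) := by
    rw [pow_succ]
    exact (mul_dvd_mul (pow_dvd_pow_of_dvd H.om_dvd J) dA).mul_left _
  obtain ⟨m, rfl⟩ : ∃ m, J = m + 1 := ⟨J - 1, by omega⟩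
  have e2 := congrArg (Lam (m + 1) w) e1
  rw [om_Lam_add, om_Lam_high hJ w d, add_zero, om_Lam_sum, sum_range_succ'] at e2
  rw [e2, pow_zero, map_one, one_mul, zero_add, pow_one, add_sub_cancel_right,
    ← Finset.Ico_add_one_right_eq_Icc, sum_Ico_eq_sum_range, show m + 1 + 1 - 2 = m by omega]
  refine sum_congr rfl fun i _ => ?_
  rw [om_Lam_C, show 2 + i - 1 = i + 1 by omega, show 2 + i = i + 1 + 1 by omega, mul_comm]

theorem Hyp.yf_eq (H : Hyp n P) (hJ : 1 ≤ J) (s : ℂ) :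
    yf n J P s = Lam J (om n P) (tay (Hs P s)) - Lam J (om n P) (P : ℂ⟦X⟧) :=
  H.Hs_lam hJ _ s

theorem Hyp.om_lam_le (H : Hyp n P) (hJ : 1 ≤ J) {w : ℂ → ℂ} (hw : Schur w) :
    ‖Lam J w (P : ℂ⟦X⟧)‖ ≤ (J : ℝ) ^ 2 := by
  have := pair_scaled (H.sr le_rfl) one_pos le_rfl hw hJ
  rwa [one_pow, one_mul, tay_poly] at this

theorem Hyp.inv_le (H : Hyp n P) {z : ℂ} (h1 : 1 / 2 < ‖z‖) (h2 : ‖z‖ ≤ 1) :
    ‖(P.eval z)⁻¹‖ ≤ 8 := by
  have a := pair_scaled (H.Hs_sr (by norm_num) h1 h2).1 (by norm_num) (by norm_num) om_schur_one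
    (J := 2) (by norm_num)
  have b := H.om_lam_le (J := 2) (by norm_num) om_schur_one
  have c := H.Hs_lam (J := 2) (by norm_num) (fun _ => 1) (P.eval z)⁻¹
  have d : Lam 2 (fun _ => 1) ((P : ℂ⟦X⟧) ^ 2) = 2 := by
    rw [om_Lam_one 1, sq, coeff_mul, Finset.Nat.sum_antidiagonal_succ,
      Finset.Nat.sum_antidiagonal_succ]
    simp [H.2.1, H.2.2.1]
    norm_num
  rw [Finset.Icc_self, sum_singleton, d] at c
  have e := norm_sub_le (Lam 2 (fun _ => 1) (tay (Hs P (P.eval z)⁻¹)))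
    (Lam 2 (fun _ => 1) (P : ℂ⟦X⟧))
  rw [← c, norm_mul, pow_one] at e
  norm_num at a b e ⊢
  linarith

theorem om_half {ρ : ℝ} (h0 : 0 < ρ) (h1 : ρ ≤ 1) (hρ : 1 / 2 ≤ ρ ^ J) {k : ℕ} (hk : k ≤ J)
    {x y : ℝ} (hx : 0 ≤ x) (h : ρ ^ k * x ≤ y) : x ≤ 2 * y := by
  have := mul_le_mul_of_nonneg_right (hρ.trans (pow_le_pow_of_le_one h0.le h1 hk)) hx
  linarith

theorem Hyp.yf_le (H : Hyp n P) (hJ : 1 ≤ J) {ρ : ℝ} (h0 : 0 < ρ) (hρ : 1 / 2 ≤ ρ ^ J) {z : ℂ}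
    (h1 : ρ < ‖z‖) (h2 : ‖z‖ ≤ 1) : ‖yf n J P (P.eval z)⁻¹‖ ≤ 3 * (J : ℝ) ^ 2 := by
  have r1 := h1.le.trans h2
  have a := om_half h0 r1 hρ (Nat.sub_le J 1) (norm_nonneg _)
    (pair_scaled (H.Hs_sr h0 h1 h2).1 h0 r1 H.schur hJ)
  have b := H.om_lam_le hJ H.schur
  rw [H.yf_eq hJ]
  exact (norm_sub_le _ _).trans (by linarith)

theorem om_coeff_le {ρ : ℝ} {f : ℂ → ℂ} (hf : Sr ρ f) (h0 : 0 < ρ) (h1 : ρ ≤ 1)
    (hρ : 1 / 2 ≤ ρ ^ J) : ∀ k ≤ J, ‖coeff k (tay f)‖ ≤ 2 * k := by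
  intro k hk
  cases k with
  | zero => simp [tay_coeff_zero, hf.2.2.1]
  | succ k =>
    have a := om_half h0 h1 hρ ((Nat.sub_le (k + 1) 1).trans hk) (norm_nonneg _)
      (pair_scaled hf h0 h1 om_schur_one (J := k + 1) (by omega))
    have e : ‖(k : ℂ) + 1‖ = ((k + 1 : ℕ) : ℝ) := by
      rw [← Complex.norm_natCast]
      push_cast
      rfl
    rw [om_Lam_one, norm_mul, e] at a
    have p : (0 : ℝ) < ((k + 1 : ℕ) : ℝ) := by positivity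
    refine le_of_mul_le_mul_right (a.trans (le_of_eq ?_)) p
    ring

theorem Hyp.yf_lip (H : Hyp n P) (hJ : 1 ≤ J) {ρ : ℝ} (h0 : 0 < ρ) (hρ : 1 / 2 ≤ ρ ^ J) {z z' : ℂ}
    (h1 : ρ < ‖z‖) (h2 : ‖z‖ ≤ 1) (h1' : ρ < ‖z'‖) (h2' : ‖z'‖ ≤ 1) :
    ‖yf n J P (P.eval z)⁻¹ - yf n J P (P.eval z')⁻¹‖ ≤
      4 * (J : ℝ) ^ 4 * ‖(P.eval z)⁻¹ - (P.eval z')⁻¹‖ := by
  have r1 := h1.le.trans h2
  have a := lam_prod H.schur hJ (om_coeff_le (H.Hs_sr h0 h1 h2).1 h0 r1 hρ)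
    (om_coeff_le (H.Hs_sr h0 h1' h2').1 h0 r1 hρ)
  rw [H.yf_eq hJ, H.yf_eq hJ, sub_sub_sub_cancel_right, ← om_Lam_sub]
  set s := (P.eval z)⁻¹
  set t := (P.eval z')⁻¹
  have e1 := H.Hs_tay s
  have e2 := H.Hs_tay t
  have ne : ∀ u : ℂ, (1 : ℂ⟦X⟧) - C u * (P : ℂ⟦X⟧) ≠ 0 := fun u h => by
    have := congrArg (coeff 0) h
    rw [map_sub, coeff_C_mul, Polynomial.coeff_coe, H.2.1] at this
    simp at this
  have e : tay (Hs P s) - tay (Hs P t) = C (s - t) * (tay (Hs P s) * tay (Hs P t)) := by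
    refine mul_right_cancel₀ (ne s) ?_
    rw [map_sub]
    linear_combination (1 - (C s - C t) * tay (Hs P t)) * e1 - e2
  rw [e, om_Lam_C, norm_mul, mul_comm]
  exact mul_le_mul_of_nonneg_right a (norm_nonneg _)

end Pool.Agent.P.MP_c09211_an.Sh
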