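import Pool.Agent.P.MP_c09211_an.Sh.StabA

/-!
Size of a nearly extremal function near the peak, and continuity along arcs.
-/

set_option autoImplicit false

namespace Pool.Agent.P.MP_c09211_an.Sh

open Metric Set Finset PowerSeries Complex Filter Topology Real
open scoped ComplexConjugate

theorem net_milin {h g : ℂ⟦X⟧} (H : LM h g) {y : ℝ} (h0 : 0 ≤ y) (h1 : y < 1) (N : ℕ) :
    ∑ k ∈ range N, ‖coeff (k + 1) g‖ ^ 2 / (k + 1) * y ^ (k + 1) ≤ -Real.log (1 - y) := by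
  set a : ℕ → ℝ := fun k => ‖coeff (k + 1) g‖ ^ 2 / (k + 1) with ha
  set V : ℕ → ℕ → ℝ := fun n k => y ^ k - y ^ n * (1 + ((n : ℝ) - k) * (1 - y)) with hV
  have a0 : ∀ k, 0 ≤ a k := fun k => by simp only [ha]; positivity
  have M : ∀ n : ℕ, ∑ k ∈ range n, (a k - 1 / (k + 1)) * ((n : ℝ) - k) ≤ 0 := fun n => by
    have := mul_nonpos_of_nonneg_of_nonpos (show (0 : ℝ) ≤ n + 1 by positivity) (H.2.2.2 n)
    rw [mul_sum] at this
    refine le_of_eq_of_le (sum_congr rfl fun k _ => ?_) this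
    simp only [ha]
    field_simp
    ring
  have step : ∀ n k : ℕ,
      V (n + 1) k = V n k + y ^ n * (1 - y) ^ 2 * (((n + 1 : ℕ) : ℝ) - k) := fun n k => by
    simp only [hV]
    push_cast
    ring
  have self : ∀ n, V n n = 0 := fun n => by simp [hV]
  have I : ∀ n : ℕ, ∑ k ∈ range n, (a k - 1 / (k + 1)) * V n k ≤ 0 := fun n => by
    induction n with
    | zero => simp
    | succ n ih =>
      have e : ∑ k ∈ range (n + 1), (a k - 1 / (k + 1)) * V (n + 1) k =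
          ∑ k ∈ range (n + 1), (a k - 1 / (k + 1)) * V n k + y ^ n * (1 - y) ^ 2 *
            ∑ k ∈ range (n + 1), (a k - 1 / (k + 1)) * (((n + 1 : ℕ) : ℝ) - k) := by
        rw [mul_sum, ← sum_add_distrib]
        exact sum_congr rfl fun k _ => by rw [step]; ring
      rw [e, sum_range_succ, self, mul_zero, add_zero]
      exact add_nonpos ih (mul_nonpos_of_nonneg_of_nonpos (by positivity) (M _))
  have V0 : ∀ k n, k ≤ n → 0 ≤ V n k := fun k n hk => by
    induction n, hk using Nat.le_induction with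
    | base => rw [self]
    | succ n hn ih =>
      rw [step]
      have : (k : ℝ) ≤ ((n + 1 : ℕ) : ℝ) := by exact_mod_cast hn.trans n.le_succ
      exact add_nonneg ih (mul_nonneg (by positivity) (sub_nonneg.mpr this))
  have V1 : ∀ k n, k ≤ n → V n k ≤ y ^ k := fun k n hk => by
    have : (0 : ℝ) ≤ (n : ℝ) - k := sub_nonneg.mpr (by exact_mod_cast hk)
    have b : 0 ≤ 1 - y := sub_nonneg.mpr h1.le
    exact sub_le_self _ (by positivity)
  have hl := Real.hasSum_pow_div_log_of_abs_lt_one (x := y) (by rwa [abs_of_nonneg h0])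
  have B : ∀ n ≥ N, ∑ k ∈ range N, a k * (y * V n k) ≤ -Real.log (1 - y) := fun n hn => by
    have b1 : ∑ k ∈ range N, a k * (y * V n k) ≤ ∑ k ∈ range n, a k * (y * V n k) :=
      sum_le_sum_of_subset_of_nonneg (range_subset_range.mpr hn) fun k hk _ =>
        mul_nonneg (a0 k) (mul_nonneg h0 (V0 k n (mem_range.mp hk).le))
    have b2 := mul_nonpos_of_nonneg_of_nonpos h0 (I n)
    have b3 : ∑ k ∈ range n, a k * (y * V n k) = y * ∑ k ∈ range n, (a k - 1 / (k + 1)) * V n k +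
        ∑ k ∈ range n, y * V n k / (k + 1) := by
      rw [mul_sum, ← sum_add_distrib]
      exact sum_congr rfl fun k _ => by ring
    have b4 : ∑ k ∈ range n, y * V n k / (k + 1) ≤ ∑ k ∈ range n, y ^ (k + 1) / (k + 1) :=
      sum_le_sum fun k hk => by
        rw [pow_succ']
        exact div_le_div_of_nonneg_right
          (mul_le_mul_of_nonneg_left (V1 k n (mem_range.mp hk).le) h0) (by positivity)
    have b5 := sum_le_hasSum (range n) (fun k _ => by positivity) hl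
    linarith
  have t1 := tendsto_pow_atTop_nhds_zero_of_lt_one h0 h1
  have t2 := tendsto_self_mul_const_pow_of_lt_one h0 h1
  have T : Tendsto (fun n => ∑ k ∈ range N, a k * (y * V n k)) atTop
      (𝓝 (∑ k ∈ range N, a k * y ^ (k + 1))) := by
    refine tendsto_finsetSum _ fun k _ => Tendsto.const_mul _ ?_
    have := ((t1.add ((t2.sub (t1.const_mul (k : ℝ))).mul_const (1 - y))).const_sub
      (y ^ k)).const_mul y
    simp only [mul_zero, sub_zero, zero_mul, add_zero] at this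
    rw [pow_succ']
    exact this.congr fun n => by simp only [hV]; ring
  exact le_of_tendsto T (eventually_atTop.mpr ⟨N, B⟩)

/-- Convergence of a power series in the unit disc. -/
def NetCv (S : ℂ⟦X⟧) : Prop := ∀ z : ℂ, ‖z‖ < 1 → Summable fun k => ‖coeff k S * z ^ k‖

theorem NetCv.deriv {S : ℂ⟦X⟧} (H : NetCv S) {z : ℂ} (hz : ‖z‖ < 1) :
    (Summable fun k => ‖coeff k (d⁄dX ℂ S) * z ^ k‖) ∧
      HasDerivAt (ev S) (ev (d⁄dX ℂ S) z) z := by
  obtain ⟨ρ, r1, r2⟩ := exists_between hz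
  have r0 : 0 ≤ ρ := (norm_nonneg z).trans r1.le
  have hu := H ρ (by rwa [norm_real, Real.norm_eq_abs, abs_of_nonneg r0])
  have hd : ∀ k : ℕ, DifferentiableOn ℂ (fun w : ℂ => coeff k S * w ^ k) (ball 0 ρ) :=
    fun k => by fun_prop
  have hb : ∀ (k : ℕ) (w : ℂ), w ∈ ball (0 : ℂ) ρ →
      ‖coeff k S * w ^ k‖ ≤ ‖coeff k S * (ρ : ℂ) ^ k‖ := fun k w hw => by
    rw [norm_mul, norm_mul, norm_pow, norm_pow, norm_real, Real.norm_eq_abs, abs_of_nonneg r0]
    exact mul_le_mul_of_nonneg_left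
      (pow_le_pow_left₀ (norm_nonneg _) (mem_ball_zero_iff.mp hw).le k) (norm_nonneg _)
  have m : z ∈ ball (0 : ℂ) ρ := mem_ball_zero_iff.mpr r1
  have s := Complex.hasSum_deriv_of_summable_norm hu hd isOpen_ball hb m
  have d := (Complex.differentiableOn_tsum_of_summable_norm hu hd isOpen_ball hb).differentiableAt
    (isOpen_ball.mem_nhds m)
  have e : ∀ k : ℕ, _root_.deriv (fun w : ℂ => coeff k S * w ^ k) z =
      coeff k S * (k * z ^ (k - 1)) := fun k => ((hasDerivAt_pow k z).const_mul _).deriv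
  simp only [e] at s
  have s' := (hasSum_nat_add_iff' 1).mpr s
  simp only [range_one, sum_singleton, Nat.cast_zero, zero_mul, mul_zero, sub_zero,
    Nat.add_sub_cancel] at s'
  have e' : (fun k => coeff k (d⁄dX ℂ S) * z ^ k) =
      fun n => coeff (n + 1) S * (((n + 1 : ℕ) : ℂ) * z ^ n) := funext fun k => by
    rw [coeff_derivative]
    push_cast
    ring
  rw [← e'] at s'
  refine ⟨summable_norm_iff.mpr s'.summable, ?_⟩
  rw [ev, s'.tsum_eq]
  exact d.hasDerivAt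

theorem net_ev_mul {S T : ℂ⟦X⟧} {z : ℂ} (hS : Summable fun k => ‖coeff k S * z ^ k‖)
    (hT : Summable fun k => ‖coeff k T * z ^ k‖) : ev (S * T) z = ev S z * ev T z := by
  rw [ev, ev, ev, tsum_mul_tsum_eq_tsum_sum_antidiagonal_of_summable_norm hS hT]
  refine tsum_congr fun n => ?_
  rw [coeff_mul, sum_mul]
  refine sum_congr rfl fun p hp => ?_
  rw [← Finset.HasAntidiagonal.mem_antidiagonal.mp hp, pow_add]
  ring

theorem net_ev_zero (S : ℂ⟦X⟧) : ev S 0 = coeff 0 S := by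
  rw [ev, tsum_eq_single 0 fun k hk => by simp [hk]]
  simp

/-- The logarithm of the root. -/
noncomputable def netLg (g : ℂ⟦X⟧) : ℂ⟦X⟧ := PowerSeries.mk fun k => coeff k g / k

theorem netLg_zero (g : ℂ⟦X⟧) : coeff 0 (netLg g) = 0 := by simp [netLg]

theorem netLg_norm (g : ℂ⟦X⟧) (k : ℕ) :
    ‖coeff (k + 1) (netLg g)‖ = ‖coeff (k + 1) g‖ / (k + 1) := by
  rw [netLg, coeff_mk, norm_div, Complex.norm_natCast]
  push_cast
  rfl

theorem net_amgm (g : ℂ⟦X⟧) (z : ℂ) (k : ℕ) : ‖coeff (k + 1) (netLg g) * z ^ (k + 1)‖ ≤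
    (‖coeff (k + 1) g‖ ^ 2 / (k + 1) * ‖z‖ ^ (k + 1) + ‖z‖ ^ (k + 1) / (k + 1)) / 2 := by
  rw [norm_mul, norm_pow, netLg_norm]
  have : 0 ≤ (‖coeff (k + 1) g‖ - 1) ^ 2 * (‖z‖ ^ (k + 1) / (k + 1)) := by positivity
  have e : ∀ u v w : ℝ, (u ^ 2 / w * v + v / w) / 2 - u / w * v = (u - 1) ^ 2 * (v / w) / 2 :=
    fun u v w => by ring
  linarith [e ‖coeff (k + 1) g‖ (‖z‖ ^ (k + 1)) (k + 1)]

theorem net_sum {h g : ℂ⟦X⟧} (H : LM h g) {y : ℝ} (h0 : 0 ≤ y) (h1 : y < 1) :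
    Summable fun k => ‖coeff (k + 1) g‖ ^ 2 / (k + 1) * y ^ (k + 1) :=
  summable_of_sum_range_le (fun k => by positivity) (net_milin H h0 h1)

theorem netLg_cv {h g : ℂ⟦X⟧} (H : LM h g) : NetCv (netLg g) := fun z hz => by
  have hl := Real.hasSum_pow_div_log_of_abs_lt_one (x := ‖z‖) (by rwa [abs_norm])
  rw [← summable_nat_add_iff 1]
  exact Summable.of_nonneg_of_le (fun _ => norm_nonneg _) (net_amgm g z)
    (((net_sum H (norm_nonneg z) hz).add hl.summable).div_const 2)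

theorem exp_netLg {h g : ℂ⟦X⟧} (H : LM h g) {z : ℂ} (hz : ‖z‖ < 1) :
    ev h z = Complex.exp (ev (netLg g) z) := by
  have ch : NetCv h := fun w hw => (ev_hasSum H.ss hw).1
  have cl := netLg_cv H
  have e1 : th (netLg g) = g := by
    ext k
    rw [coeff_th, netLg, coeff_mk]
    rcases eq_or_ne k 0 with rfl | hk
    · simp only [Nat.cast_zero, zero_mul, H.1]
    · exact mul_div_cancel₀ _ (by exact_mod_cast hk)
  have e2 : d⁄dX ℂ h = h * d⁄dX ℂ (netLg g) := by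
    have := H.2.2.1
    rw [← e1, th, th, netLg] at this
    refine mul_left_cancel₀ X_ne_zero (this.trans ?_)
    rw [netLg]
    ring
  have D : ∀ w ∈ ball (0 : ℂ) 1,
      HasDerivAt (fun w => ev h w * Complex.exp (-ev (netLg g) w)) 0 w := fun w hw => by
    rw [mem_ball_zero_iff] at hw
    have a := (ch.deriv hw).2.mul (cl.deriv hw).2.neg.cexp
    rw [e2, net_ev_mul (ch w hw) (cl.deriv hw).1] at a
    refine HasDerivAt.congr_deriv a ?_
    simp only [Pi.neg_apply]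
    ring
  have c := isOpen_ball.is_const_of_deriv_eq_zero (convex_ball (0 : ℂ) 1).isPreconnected
    (fun w hw => (D w hw).differentiableAt.differentiableWithinAt) (fun w hw => (D w hw).deriv)
    (mem_ball_zero_iff.mpr hz) (mem_ball_self one_pos)
  rw [net_ev_zero, net_ev_zero, netLg_zero, H.2.1, neg_zero, Complex.exp_zero, mul_one, Complex.exp_neg,
    mul_inv_eq_one₀ (Complex.exp_ne_zero _)] at c
  exact c

theorem net_gap {h g : ℂ⟦X⟧} (H : LM h g) {x y : ℝ} (h0 : 0 ≤ x) (hxy : x ≤ y) (h1 : y < 1)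
    (hx : 1 / (2 * (1 - x)) ≤ ‖ev h x‖) (N : ℕ) :
    ∑ k ∈ range N, ‖coeff (k + 1) g‖ ^ 2 / (k + 1) * (y ^ (k + 1) - x ^ (k + 1)) ≤
      Real.log (1 - x) + 2 - Real.log (1 - y) := by
  have x1 : x < 1 := hxy.trans_lt h1
  have nx : ‖(x : ℂ)‖ = x := by rw [norm_real, Real.norm_eq_abs, abs_of_nonneg h0]
  have sx := (net_sum H h0 x1).hasSum
  have sy := (net_sum H (h0.trans hxy) h1).hasSum
  have hl := Real.hasSum_pow_div_log_of_abs_lt_one (x := x) (by rwa [abs_of_nonneg h0])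
  have b1 := sum_le_hasSum (range N) (fun k _ => by
    rw [← mul_sub]
    exact mul_nonneg (by positivity) (sub_nonneg.mpr (pow_le_pow_left₀ h0 hxy _))) (sy.sub sx)
  have b2 := Real.tsum_le_of_sum_range_le (fun k => by have := h0.trans hxy; positivity)
    (net_milin H (h0.trans hxy) h1)
  have b3 := tsum_of_norm_bounded ((sx.add hl).div_const 2) fun k => by
    have := net_amgm g x k
    rwa [nx] at this
  have b4 : ev (netLg g) x = ∑' k, coeff (k + 1) (netLg g) * (x : ℂ) ^ (k + 1) := by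
    rw [ev, (netLg_cv H x (nx.trans_lt x1)).of_norm.tsum_eq_zero_add, netLg_zero, zero_mul, zero_add]
  rw [← b4] at b3
  rw [exp_netLg H (nx.trans_lt x1), Complex.norm_exp] at hx
  have p : 0 < 1 - x := sub_pos.mpr x1
  have b5 := Real.log_le_log (by positivity) hx
  rw [Real.log_exp, one_div, Real.log_inv, Real.log_mul two_ne_zero p.ne'] at b5
  have b6 := Complex.re_le_norm (ev (netLg g) x)
  have b7 := Real.log_two_lt_d9
  simp only [← mul_sub] at b1
  linarith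

theorem net_alg {x : ℝ} (h0 : 0 ≤ x) (h1 : x ≤ 1) (n : ℕ) : ∃ G Q : ℝ, 0 ≤ G ∧ G ≤ n ∧
    1 - x ^ n = (1 - x) * G ∧ G - n * x ^ n = (1 - x) * Q ∧ G ^ 2 ≤ 2 * Q := by
  induction n with
  | zero => exact ⟨0, 0, by simp⟩
  | succ n ih =>
    obtain ⟨G, Q, a, b, c, d, e⟩ := ih
    have p0 : 0 ≤ x ^ n := by positivity
    have p1 : x ^ n ≤ 1 := pow_le_one₀ h0 h1
    refine ⟨G + x ^ n, Q + (n + 1) * x ^ n, by positivity, by push_cast; linarith,
      by linear_combination c, by push_cast; linear_combination d, ?_⟩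
    nlinarith [mul_le_mul_of_nonneg_right b p0, mul_le_mul_of_nonneg_right p1 p0]

theorem net_energy {h g : ℂ⟦X⟧} (H : LM h g) {x : ℝ} (h0 : 0 ≤ x) (h1 : x < 1)
    (hx : 1 / (2 * (1 - x)) ≤ ‖ev h x‖) (N : ℕ) :
    ∑ k ∈ range (N + 1), ‖coeff k (netLg g)‖ ^ 2 * (1 - x ^ k) ^ 2 ≤ 12 * (1 - x) := by
  have i1 : IntervalIntegrable (fun y => Real.log (1 - y)) MeasureTheory.volume x 1 := by
    simpa using (intervalIntegral.intervalIntegrable_log' (a := 1 - x) (b := 0)).comp_sub_left 1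
  have b := intervalIntegral.integral_mono_on_of_le_Ioo h1.le
    (Continuous.intervalIntegrable (by fun_prop) _ _) (intervalIntegrable_const.sub i1)
    fun y hy => net_gap H h0 hy.1.le hy.2 hx N
  rw [intervalIntegral.integral_sub intervalIntegrable_const i1,
    intervalIntegral.integral_comp_sub_left (fun y => Real.log y), integral_log,
    intervalIntegral.integral_const, intervalIntegral.integral_finsetSum
      fun k _ => Continuous.intervalIntegrable (by fun_prop) _ _] at b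
  simp only [sub_self, zero_mul, smul_eq_mul] at b
  rw [sum_range_succ', netLg_zero]
  have s : ∑ k ∈ range N, ‖coeff (k + 1) (netLg g)‖ ^ 2 * (1 - x ^ (k + 1)) ^ 2 ≤
      4 * ∑ k ∈ range N, ∫ y in x..1,
        ‖coeff (k + 1) g‖ ^ 2 / (k + 1) * (y ^ (k + 1) - x ^ (k + 1)) := by
    rw [mul_sum]
    refine sum_le_sum fun k _ => ?_
    rw [intervalIntegral.integral_const_mul, intervalIntegral.integral_sub
      (Continuous.intervalIntegrable (by fun_prop) _ _) intervalIntegrable_const, integral_pow,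
      intervalIntegral.integral_const, netLg_norm, smul_eq_mul, one_pow]
    obtain ⟨G, Q, a, -, c, d, e⟩ := net_alg h0 h1.le (k + 1)
    have Q0 : 0 ≤ Q := by nlinarith
    have f : (1 - x ^ (k + 1 + 1)) / (((k + 1 : ℕ) : ℝ) + 1) - (1 - x) * x ^ (k + 1) =
        (1 - x) ^ 2 * Q / (k + 2) := by
      have k2 : ((k + 1 : ℕ) : ℝ) + 1 = k + 2 := by push_cast; ring
      have k3 : (k : ℝ) + 2 ≠ 0 := by positivity
      push_cast at d
      rw [k2, eq_div_iff k3, sub_mul, div_mul_cancel₀ _ k3]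
      linear_combination c + (1 - x) * d
    rw [f, c]
    have m : G ^ 2 / (k + 1) ≤ 4 * (Q / (k + 2)) := by
      rw [← mul_div_assoc, div_le_div_iff₀ (by positivity) (by positivity)]
      have k0 : (0 : ℝ) ≤ k := k.cast_nonneg
      nlinarith [mul_le_mul_of_nonneg_right e k0, mul_nonneg Q0 k0]
    calc _ = ‖coeff (k + 1) g‖ ^ 2 / (k + 1) * (1 - x) ^ 2 * (G ^ 2 / (k + 1)) := by
          field_simp
      _ ≤ ‖coeff (k + 1) g‖ ^ 2 / (k + 1) * (1 - x) ^ 2 * (4 * (Q / (k + 2))) :=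
          mul_le_mul_of_nonneg_left m (by positivity)
      _ = _ := by ring
  simp only [norm_zero]
  nlinarith

theorem net_cells {Φ : ℝ → ℝ} (hΦ : Continuous Φ) (h0 : ∀ t, 0 ≤ Φ t) {σ m : ℝ} (hσ : 0 < σ)
    (T : Finset ℤ) (hT : ∀ j ∈ T, -π ≤ j * σ ∧ (j + 1) * σ ≤ π ∧
      ∀ t ∈ Set.Icc (j * σ) ((j + 1) * σ), m ≤ Φ t) :
    T.card * σ * m ≤ ∫ t in -π..π, Φ t := by
  have le : ∀ j : ℤ, j * σ ≤ (j + 1) * σ := fun j => by linarith
  have u := MeasureTheory.integral_biUnion_finset (μ := MeasureTheory.volume) (f := Φ) T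
    (s := fun j : ℤ => Set.Ioc (j * σ) ((j + 1) * σ)) (fun _ _ => measurableSet_Ioc)
    (fun i _ j _ hij => by
      simp only [Function.onFun, Set.Ioc_disjoint_Ioc]
      rcases lt_or_gt_of_ne hij with l | l
      · have : (i : ℝ) + 1 ≤ j := by exact_mod_cast l
        exact (min_le_left _ _).trans
          ((mul_le_mul_of_nonneg_right this hσ.le).trans (le_max_right _ _))
      · have : (j : ℝ) + 1 ≤ i := by exact_mod_cast l
        exact (min_le_right _ _).trans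
          ((mul_le_mul_of_nonneg_right this hσ.le).trans (le_max_left _ _)))
    fun j _ => (hΦ.intervalIntegrable _ _).1
  have v : ∫ t in ⋃ j ∈ T, Set.Ioc (j * σ) ((j + 1) * σ), Φ t ≤ ∫ t in -π..π, Φ t := by
    rw [intervalIntegral.integral_of_le (by linarith [Real.pi_pos])]
    refine MeasureTheory.setIntegral_mono_set (hΦ.intervalIntegrable _ _).1
      (Eventually.of_forall h0) (LE.le.eventuallyLE ?_)
    exact iUnion₂_subset fun j hj => Set.Ioc_subset_Ioc (hT j hj).1 (hT j hj).2.1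
  refine le_trans ?_ (u ▸ v)
  rw [mul_assoc, ← nsmul_eq_mul, ← sum_const]
  refine sum_le_sum fun j hj => ?_
  rw [← intervalIntegral.integral_of_le (le j)]
  have := intervalIntegral.integral_mono_on (le j) intervalIntegrable_const
    (hΦ.intervalIntegrable (μ := MeasureTheory.volume) _ _) (hT j hj).2.2
  rw [intervalIntegral.integral_const, smul_eq_mul] at this
  linarith

theorem net_psi {h g : ℂ⟦X⟧} (H : LM h g) {x r : ℝ} (h0 : 0 ≤ x) (h1 : x < 1)
    (hx : 1 / (2 * (1 - x)) ≤ ‖ev h x‖) (r0 : 0 ≤ r) (r1 : r < 1) {σ l : ℝ} (hσ : 0 < σ)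
    (hl : 0 < l) (T : Finset ℤ) (hT : ∀ j ∈ T, -π ≤ j * σ ∧ (j + 1) * σ ≤ π ∧
      ∀ t ∈ Set.Icc (j * σ) ((j + 1) * σ),
        2 * l ≤ ‖ev (netLg g) (circleMap 0 r t) - ev (netLg g) (x * circleMap 0 r t)‖) :
    T.card * σ * l ^ 2 ≤ 96 * (1 - x) := by
  set c : ℕ → ℂ := fun p => coeff p (netLg g) * (1 - (x : ℂ) ^ p) * (r : ℂ) ^ p with hc
  have nr : ‖(r : ℂ)‖ = r := by rw [norm_real, Real.norm_eq_abs, abs_of_nonneg r0]
  have n1 : ∀ p : ℕ, ‖1 - (x : ℂ) ^ p‖ = 1 - x ^ p := fun p => by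
    rw [← abs_of_nonneg (sub_nonneg.mpr (pow_le_one₀ h0 h1.le)), ← Real.norm_eq_abs, ← norm_real]
    push_cast
    rfl
  have n2 : ∀ t, ‖circleMap 0 1 t‖ = 1 := fun t => by simp
  have U := tendstoUniformly_tsum_nat (f := fun p t => c p * circleMap 0 1 t ^ p)
    (netLg_cv H r (nr.trans_lt r1)) fun p t => by
      rw [norm_mul, norm_pow, n2, one_pow, mul_one, hc, norm_mul, norm_mul, norm_mul, n1]
      have : 0 ≤ x ^ p := by positivity
      exact mul_le_mul_of_nonneg_right (mul_le_of_le_one_right (norm_nonneg _) (by linarith))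
        (norm_nonneg _)
  have E : ∀ t, ev (netLg g) (circleMap 0 r t) - ev (netLg g) (x * circleMap 0 r t) =
      ∑' p, c p * circleMap 0 1 t ^ p := fun t => by
    have a : ‖circleMap 0 r t‖ < 1 := by simpa [abs_of_nonneg r0] using r1
    have b : ‖x * circleMap 0 r t‖ < 1 := by
      rw [norm_mul, norm_real, Real.norm_eq_abs, abs_of_nonneg h0]
      exact mul_lt_one_of_nonneg_of_lt_one_right h1.le (norm_nonneg _) a
    rw [ev, ev, ← (netLg_cv H _ a).of_norm.tsum_sub (netLg_cv H _ b).of_norm]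
    refine tsum_congr fun p => ?_
    simp only [hc, circleMap_zero, mul_pow, ofReal_one, one_mul]
    ring
  obtain ⟨N, hN⟩ := eventually_atTop.mp (Metric.tendstoUniformly_iff.mp U l hl)
  have P := parseval (N + 1) c
  have per : Function.Periodic
      (fun t => ‖∑ p ∈ range (N + 1), c p * circleMap 0 1 t ^ p‖ ^ 2) (2 * π) := fun t => by
    simp only [periodic_circleMap 0 1 t]
  have P' := per.intervalIntegral_add_eq 0 (-π)
  rw [zero_add, P, show -π + 2 * π = π by ring] at P'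
  have a := net_cells (Φ := fun t => ‖∑ p ∈ range (N + 1), c p * circleMap 0 1 t ^ p‖ ^ 2)
    (by fun_prop) (fun t => by positivity) (m := l ^ 2) hσ T fun j hj =>
      ⟨(hT j hj).1, (hT j hj).2.1, fun t ht => by
        have b1 := (hT j hj).2.2 t ht
        have b2 := hN (N + 1) N.le_succ t
        rw [dist_eq_norm] at b2
        rw [E] at b1
        have b3 := norm_sub_norm_le (∑' p, c p * circleMap 0 1 t ^ p)
          (∑ p ∈ range (N + 1), c p * circleMap 0 1 t ^ p)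
        exact pow_le_pow_left₀ hl.le (by linarith) 2⟩
  have b : ∑ p ∈ range (N + 1), ‖c p‖ ^ 2 ≤ 12 * (1 - x) := by
    refine le_trans (sum_le_sum fun p _ => ?_) (net_energy H h0 h1 hx N)
    rw [hc, norm_mul, norm_mul, n1, norm_pow, nr, mul_pow, mul_pow]
    exact mul_le_of_le_one_right (by positivity) (pow_le_one₀ (by positivity)
      (pow_le_one₀ r0 r1.le))
  rw [← P'] at a
  have := mul_le_mul Real.pi_le_four b (by positivity) (by norm_num)
  linarith

theorem net_low {h : ℂ⟦X⟧} (hh : ∀ K, SS h K ≤ K) {J : ℕ} {Λ : ℝ} {a : ℂ} (hΛ : 30 ≤ Λ)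
    (hJ : Λ ≤ J) (hn : NK J (1 / (64 * Λ)) h 1 a) {w : ℂ} (hw : ‖w‖ ≤ 1 - Λ / J) :
    1 / ‖1 - w‖ - J / (4 * Λ) ≤ ‖ev h w‖ := by
  have L0 : 0 < Λ := by linarith
  have J0 : (0 : ℝ) < J := by linarith
  have p : 0 < Λ / J := by positivity
  have b := ev_near hh hn hw (by linarith)
  have e1 := Real.one_sub_div_pow_le_exp_neg hJ
  have e2 : Real.exp (-Λ) ≤ 1 / 256 := by
    have := Real.add_one_le_exp (Λ / 2)
    have e : Real.exp Λ = Real.exp (Λ / 2) * Real.exp (Λ / 2) := by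
      rw [← Real.exp_add, add_halves]
    rw [Real.exp_neg, ← one_div]
    exact one_div_le_one_div_of_le (by norm_num) (by nlinarith)
  have e3 : 8 * (1 - Λ / J) ^ J / (1 - (1 - Λ / J)) ^ 2 ≤ 8 * (1 / 256) / (1 - (1 - Λ / J)) ^ 2 :=
    div_le_div_of_nonneg_right (by linarith) (by positivity)
  have e4 : 2 * (1 / (64 * Λ) * J) / (1 - (1 - Λ / J)) + 8 * (1 / 256) / (1 - (1 - Λ / J)) ^ 2 =
      (J / (4 * Λ)) ^ 2 := by
    rw [sub_sub_cancel]
    field_simp
    ring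
  have e5 : ‖ev h w - a / (1 - 1 * w)‖ ≤ J / (4 * Λ) :=
    (pow_le_pow_iff_left₀ (norm_nonneg _) (by positivity) two_ne_zero).mp (by linarith)
  have e6 := norm_sub_norm_le (a / (1 - 1 * w)) (ev h w)
  rw [norm_sub_rev, norm_div, hn.2.1, one_mul] at e6
  rw [one_mul] at e5
  linarith

theorem net_pt {h g : ℂ⟦X⟧} (H : LM h g) {J : ℕ} {Λ A : ℝ} {a : ℂ} (hΛ : 30 ≤ Λ) (hA : A + 1 ≤ Λ)
    (hJ : Λ ≤ J) (hn : NK J (1 / (64 * Λ)) h 1 a) {r t l : ℝ} (r0 : 1 - 1 / (J : ℝ) ≤ r)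
    (r1 : r < 1) (ht : |t| ≤ A / J) (hl : ‖ev (netLg g) (circleMap 0 r t) -
      ev (netLg g) ((1 - Λ / J : ℝ) * circleMap 0 r t)‖ ≤ l) :
    Real.exp (-l) * (J / (4 * Λ)) ≤ ‖ev h (circleMap 0 r t)‖ ∧
      ‖ev h (circleMap 0 r t)‖ ≤ Real.exp l * (J / Λ) := by
  have L0 : 0 < Λ := by linarith
  have J0 : (0 : ℝ) < J := by linarith
  have p : 0 < Λ / J := by positivity
  have p1 : Λ / J ≤ 1 := (div_le_one J0).mpr hJ
  have p2 : 1 / (J : ℝ) ≤ 1 := (div_le_one J0).mpr (by linarith)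
  set x : ℝ := 1 - Λ / J with hx
  set z := circleMap 0 r t with hz
  have x0 : 0 ≤ x := by linarith
  have nz : ‖z‖ = r := by rw [hz, norm_circleMap_zero, abs_of_nonneg (by linarith)]
  have nx : ‖(x : ℂ)‖ = x := by rw [norm_real, Real.norm_eq_abs, abs_of_nonneg x0]
  have nw : ‖x * z‖ ≤ x := by
    rw [norm_mul, nx, nz]
    exact mul_le_of_le_one_right x0 r1.le
  have d1 : ‖1 - z‖ ≤ (1 + A) / J := by
    have e : 1 - z = ((1 - r : ℝ) : ℂ) - r * (Complex.exp (I * t) - 1) := by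
      rw [hz, circleMap_zero, mul_comm I]
      push_cast
      ring
    have b := Real.norm_exp_I_mul_ofReal_sub_one_le (x := t)
    rw [Real.norm_eq_abs] at b
    rw [e, add_div]
    refine (norm_sub_le _ _).trans (add_le_add ?_ ?_)
    · rw [norm_real, Real.norm_eq_abs, abs_of_nonneg (by linarith)]
      linarith
    · rw [norm_mul, norm_real, Real.norm_eq_abs, abs_of_nonneg (by linarith)]
      exact (mul_le_of_le_one_left (norm_nonneg _) r1.le).trans (b.trans ht)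
  have d2 : ‖1 - x * z‖ ≤ 2 * Λ / J := by
    have e : 1 - x * z = ((Λ / J : ℝ) : ℂ) + x * (1 - z) := by
      rw [hx]
      push_cast
      ring
    have b : (1 + A) / J ≤ Λ / J := div_le_div_of_nonneg_right (by linarith) J0.le
    rw [e, two_mul, add_div]
    refine (norm_add_le _ _).trans (add_le_add ?_ ?_)
    · rw [norm_real, Real.norm_eq_abs, abs_of_nonneg p.le]
    · rw [norm_mul, nx]
      exact (mul_le_of_le_one_left (norm_nonneg _) (by linarith)).trans (d1.trans b)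
  have d3 : 0 < ‖1 - x * z‖ := by
    have := norm_sub_norm_le (1 : ℂ) (x * z)
    rw [norm_one] at this
    linarith
  have b1 := net_low H.ss hΛ hJ hn nw
  have b2 := one_div_le_one_div_of_le d3 d2
  have b3 : 1 / (2 * Λ / J) = 2 * (J / (4 * Λ)) := by field_simp; ring
  have b4 := ev_le H.ss nw (by linarith)
  have b5 : 1 / (1 - x) = J / Λ := by rw [hx, sub_sub_cancel, one_div_div]
  have e : ‖ev h z‖ = Real.exp (ev (netLg g) z - ev (netLg g) (x * z)).re * ‖ev h (x * z)‖ := by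
    rw [exp_netLg H (nz.trans_lt r1), exp_netLg H (nw.trans_lt (by linarith)), ← Complex.norm_exp,
      ← norm_mul, ← Complex.exp_add, sub_add_cancel]
  have c := abs_le.mp ((Complex.abs_re_le_norm _).trans hl)
  rw [e]
  exact ⟨mul_le_mul (Real.exp_le_exp.mpr c.1) (by linarith) (by positivity) (by positivity),
    mul_le_mul (Real.exp_le_exp.mpr c.2) (by linarith) (by positivity) (by positivity)⟩

theorem net {A η : ℝ} (hA : 0 < A) (hη : 0 < η) : ∃ c : ℝ, 0 < c ∧ ∃ C : ℝ, ∃ ε : ℝ, 0 < ε ∧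
    ∃ J₀ : ℕ, ∀ J ≥ J₀, ∀ (f : ℂ → ℂ) (h g : ℂ⟦X⟧) (a : ℂ), DifferentiableOn ℂ f (ball 0 1) →
      X * h ^ 2 = tay f → LM h g → NK J ε h 1 a → ∀ r : ℝ, 1 - 1 / (J : ℝ) ≤ r → r < 1 →
      ∀ τ : ℝ, 0 < τ → ∀ T : Finset ℤ, (∀ j ∈ T, -A ≤ j * τ ∧ (j + 1) * τ ≤ A ∧
        ∀ θ ∈ Set.Icc (j * τ / J) ((j + 1) * τ / J), ¬ (c * (J : ℝ) ^ 2 ≤ ‖f (circleMap 0 r θ)‖ ∧
          ‖f (circleMap 0 r θ)‖ ≤ C * (J : ℝ) ^ 2)) → T.card * τ ≤ η := by
  set Λ : ℝ := A + 30 with hΛ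
  have L0 : 0 < Λ := by linarith
  have L1 : 30 ≤ Λ := by linarith
  set l : ℝ := √(96 * Λ / η) with hl
  have l0 : 0 < l := Real.sqrt_pos.mpr (by positivity)
  have l2 : l ^ 2 = 96 * Λ / η := Real.sq_sqrt (by positivity)
  refine ⟨(Real.exp (-(2 * l)) / (4 * Λ)) ^ 2 / 2, by positivity, (Real.exp (2 * l) / Λ) ^ 2,
    1 / (64 * Λ), by positivity, ⌈Λ⌉₊, fun J hJ f h g a hf e H hn r r0 r1 τ hτ T hT => ?_⟩
  have hJ' : Λ ≤ J := Nat.ceil_le.mp hJ
  have J0 : (0 : ℝ) < J := by linarith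
  have p : 0 < Λ / J := by positivity
  have p1 : Λ / J ≤ 1 := (div_le_one J0).mpr hJ'
  have p2 : 1 / (J : ℝ) ≤ 1 / 2 := one_div_le_one_div_of_le two_pos (by linarith)
  have p3 : A / J ≤ π := ((div_le_one J0).mpr (by linarith)).trans (by linarith [Real.pi_gt_three])
  have hx : 1 / (2 * (1 - (1 - Λ / J))) ≤ ‖ev h ((1 - Λ / J : ℝ) : ℂ)‖ := by
    have b := net_low H.ss L1 hJ' hn (w := ((1 - Λ / J : ℝ) : ℂ))
      (by rw [norm_real, Real.norm_eq_abs, abs_of_nonneg (by linarith)])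
    have e1 : ‖1 - ((1 - Λ / J : ℝ) : ℂ)‖ = Λ / J := by
      rw [← ofReal_one, ← ofReal_sub, sub_sub_cancel, norm_real, Real.norm_eq_abs,
        abs_of_pos p]
    have e2 : 1 / (Λ / J) = 4 * (J / (4 * Λ)) := by field_simp
    have e3 : 1 / (2 * (Λ / J)) = 2 * (J / (4 * Λ)) := by field_simp; ring
    have : 0 ≤ J / (4 * Λ) := by positivity
    rw [e1, e2] at b
    rw [sub_sub_cancel, e3]
    linarith
  have b := net_psi H (by linarith) (by linarith) hx (by linarith) r1 (σ := τ / J) (by positivity)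
    l0 T fun j hj => by
      obtain ⟨a1, a2, a3⟩ := hT j hj
      have c1 : -A / J ≤ j * (τ / J) := by
        rw [← mul_div_assoc]
        exact div_le_div_of_nonneg_right a1 J0.le
      have c2 : (j + 1) * (τ / J) ≤ A / J := by
        rw [← mul_div_assoc]
        exact div_le_div_of_nonneg_right a2 J0.le
      rw [neg_div] at c1
      refine ⟨by linarith, by linarith, fun t ht => ?_⟩
      by_contra hc
      obtain ⟨u, v⟩ := net_pt H L1 (A := A) (by linarith) hJ' hn r0 r1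
        (abs_le.mpr ⟨c1.trans ht.1, ht.2.trans c2⟩) (not_le.mp hc).le
      have nz : ‖circleMap 0 r t‖ = r := by rw [norm_circleMap_zero, abs_of_nonneg (by linarith)]
      refine a3 t (by simpa only [mul_div_assoc] using ht) ?_
      rw [ev_sq hf e H.ss (nz.trans_lt r1), norm_mul, norm_pow, nz]
      have u' := pow_le_pow_left₀ (by positivity) u 2
      have v' := pow_le_pow_left₀ (norm_nonneg _) v 2
      constructor
      · calc _ = 1 / 2 * (Real.exp (-(2 * l)) * (J / (4 * Λ))) ^ 2 := by ring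
          _ ≤ _ := mul_le_mul (by linarith) u' (by positivity) (by linarith)
      · calc _ ≤ 1 * (Real.exp (2 * l) * (J / Λ)) ^ 2 :=
            mul_le_mul r1.le v' (by positivity) zero_le_one
          _ = _ := by ring
  rw [l2, sub_sub_cancel] at b
  have e1 : T.card * (τ / J) * (96 * Λ / η) = T.card * τ / η * (96 * (Λ / J)) := by ring
  rw [e1] at b
  exact (div_le_one hη).mp (le_of_mul_le_mul_right (by linarith) (show 0 < 96 * (Λ / J) by linarith))

theorem net_arc_cs {φ φ' : ℝ → ℂ} {y : ℝ → ℝ} {a b k M D s t : ℝ}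
    (hφ : ∀ θ, HasDerivAt φ (φ' θ) θ) (hφ' : Continuous φ') (hy : Continuous y)
    (y0 : ∀ θ, 0 ≤ y θ) (hk : 0 < k) (hD : 0 ≤ D) (hM : ∫ θ in a..b, y θ ≤ M) (hs : a ≤ s)
    (hst : s ≤ t) (ht : t ≤ b) (h : ∀ θ ∈ Set.Ioo s t, k * ‖φ' θ‖ ^ 2 ≤ D * y θ) :
    k * ‖φ t - φ s‖ ^ 2 ≤ D * M * (t - s) := by
  rcases hst.eq_or_lt with rfl | lt
  · simp
  have d : 0 < t - s := sub_pos.mpr lt
  have n1 : ‖φ t - φ s‖ ≤ ∫ θ in s..t, ‖φ' θ‖ := by
    rw [← intervalIntegral.integral_eq_sub_of_hasDerivAt (fun θ _ => hφ θ)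
      (hφ'.intervalIntegrable _ _)]
    exact intervalIntegral.norm_integral_le_integral_norm hst
  set P := ∫ θ in s..t, ‖φ' θ‖ with hP
  have n2 := intervalIntegral.integral_mono_on_of_le_Ioo (μ := MeasureTheory.volume) hst
    (f := fun θ => 2 * k * (t - s) * P * ‖φ' θ‖) (g := fun θ => k * P ^ 2 + (t - s) ^ 2 * D * y θ)
    (Continuous.intervalIntegrable (by fun_prop) _ _)
    (Continuous.intervalIntegrable (by fun_prop) _ _) fun θ hθ => by
      have b1 := mul_le_mul_of_nonneg_left (h θ hθ) (sq_nonneg (t - s))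
      have b2 := mul_nonneg hk.le (sq_nonneg (P - (t - s) * ‖φ' θ‖))
      nlinarith
  rw [intervalIntegral.integral_const_mul, intervalIntegral.integral_add intervalIntegrable_const
    (Continuous.intervalIntegrable (by fun_prop) _ _), intervalIntegral.integral_const,
    intervalIntegral.integral_const_mul, smul_eq_mul, ← hP] at n2
  have n3 := (intervalIntegral.integral_mono_interval (μ := MeasureTheory.volume) hs hst ht
    (Eventually.of_forall y0) (hy.intervalIntegrable _ _)).trans hM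
  have n4 := mul_le_mul_of_nonneg_left n3 (show 0 ≤ (t - s) ^ 2 * D by positivity)
  have n5 : k * P ^ 2 ≤ D * M * (t - s) := le_of_mul_le_mul_left (by nlinarith) d
  exact (mul_le_mul_of_nonneg_left (pow_le_pow_left₀ (norm_nonneg _) n1 2) hk.le).trans n5

theorem arc_cont {φ φ' : ℝ → ℂ} {y : ℝ → ℝ} {a b c C k M θ₀ : ℝ} (hφ : ∀ θ, HasDerivAt φ (φ' θ) θ)
    (hφ' : Continuous φ') (hy : Continuous y) (y0 : ∀ θ, 0 ≤ y θ) (hc : 0 < c) (hk : 0 < k)
    (h : ∀ θ ∈ Set.Icc a b, c ≤ ‖φ θ‖ → ‖φ θ‖ ≤ C → k * ‖φ' θ‖ ^ 2 ≤ ‖φ θ‖ ^ 2 * y θ)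
    (hM : ∫ θ in a..b, y θ ≤ M) (h0 : θ₀ ∈ Set.Icc a b) (h1 : 2 * c ≤ ‖φ θ₀‖)
    (h2 : 2 * ‖φ θ₀‖ ≤ C) (hs : 32 * M * (b - a) ≤ k) :
    (∀ θ ∈ Set.Icc a b, c ≤ ‖φ θ‖ ∧ ‖φ θ‖ ≤ C) ∧ ∀ θ ∈ Set.Icc a b, ∀ θ' ∈ Set.Icc a b,
      k * ‖φ θ - φ θ'‖ ^ 2 ≤ C ^ 2 * M * |θ - θ'| := by
  have cs : ∀ D : ℝ, 0 ≤ D → ∀ t ∈ Set.Icc a b, ∀ s ∈ Set.Icc a b, (∀ θ ∈ Set.Icc a b,
      |θ - s| < |t - s| → k * ‖φ' θ‖ ^ 2 ≤ D * y θ) →
      k * ‖φ t - φ s‖ ^ 2 ≤ D * M * |t - s| := fun D hD t ht s hs H => by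
    rcases le_total s t with l | l
    · rw [abs_of_nonneg (sub_nonneg.mpr l)] at H ⊢
      exact net_arc_cs hφ hφ' hy y0 hk hD hM hs.1 l ht.2 fun θ hθ =>
        H θ ⟨hs.1.trans hθ.1.le, hθ.2.le.trans ht.2⟩
          (abs_lt.mpr ⟨by linarith [hθ.1, hθ.2], by linarith [hθ.2]⟩)
    · rw [abs_of_nonpos (sub_nonpos.mpr l), neg_sub] at H ⊢
      rw [norm_sub_rev]
      exact net_arc_cs hφ hφ' hy y0 hk hD hM ht.1 l hs.2 fun θ hθ =>
        H θ ⟨ht.1.trans hθ.1.le, hθ.2.le.trans hs.2⟩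
          (abs_lt.mpr ⟨by linarith [hθ.1], by linarith [hθ.1, hθ.2]⟩)
  have cφ : Continuous φ := continuous_iff_continuousAt.mpr fun θ => (hφ θ).continuousAt
  set m := ‖φ θ₀‖ with hm
  have m0 : 0 < m := by linarith
  have M0 : 0 ≤ M := (intervalIntegral.integral_nonneg (h0.1.trans h0.2) fun θ _ => y0 θ).trans hM
  have nb : ∀ θ, ‖φ θ - φ θ₀‖ < m / 2 → m / 2 ≤ ‖φ θ‖ ∧ ‖φ θ‖ ≤ 2 * m ∧ ‖φ θ‖ ≤ C :=
    fun θ hθ => by
      have := abs_le.mp (abs_norm_sub_norm_le (φ θ) (φ θ₀))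
      exact ⟨by linarith [this.1], by linarith [this.2], by linarith [this.2]⟩
  have key : ∀ θ ∈ Set.Icc a b, ‖φ θ - φ θ₀‖ < m / 2 := by
    by_contra hn
    push Not at hn
    have K : IsCompact (Set.Icc a b ∩ {θ | m / 2 ≤ ‖φ θ - φ θ₀‖}) :=
      isCompact_Icc.inter_right (isClosed_le continuous_const (by fun_prop))
    obtain ⟨t, ⟨ht, ht'⟩, hmin⟩ := K.exists_isMinOn hn (f := fun θ => |θ - θ₀|) (by fun_prop)
    have b1 := cs ((2 * m) ^ 2) (by positivity) t ht θ₀ h0 fun θ hθ l => by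
      obtain ⟨u, v, w⟩ := nb θ (not_le.mp fun hh => not_le.mpr l (hmin ⟨hθ, hh⟩))
      exact (h θ hθ (by linarith) w).trans
        (mul_le_mul_of_nonneg_right (pow_le_pow_left₀ (norm_nonneg _) v 2) (y0 θ))
    have b2 : |t - θ₀| ≤ b - a :=
      abs_le.mpr ⟨by linarith [ht.1, h0.2], by linarith [ht.2, h0.1]⟩
    have b3 := mul_le_mul_of_nonneg_left b2 (show 0 ≤ (2 * m) ^ 2 * M by positivity)
    have b4 := mul_le_mul_of_nonneg_left (pow_le_pow_left₀ (by positivity) ht' 2) hk.le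
    have b5 := mul_le_mul_of_nonneg_left hs (sq_nonneg m)
    have b6 : 0 < m ^ 2 * k := by positivity
    nlinarith
  have r : ∀ θ ∈ Set.Icc a b, c ≤ ‖φ θ‖ ∧ ‖φ θ‖ ≤ C := fun θ hθ =>
    ⟨by linarith [(nb θ (key θ hθ)).1], (nb θ (key θ hθ)).2.2⟩
  exact ⟨r, fun t ht s hs => cs _ (sq_nonneg C) t ht s hs fun θ hθ _ =>
    (h θ hθ (r θ hθ).1 (r θ hθ).2).trans
      (mul_le_mul_of_nonneg_right (pow_le_pow_left₀ (norm_nonneg _) (r θ hθ).2 2) (y0 θ))⟩

end Pool.Agent.P.MP_c09211_an.Sh
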