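import Pool.Agent.P.MP_c09211_an.Sh.LowE
import Pool.Agent.P.MP_c09211_an.Defs

/-!
The lower bound.
-/

set_option autoImplicit false

namespace Pool.Agent.P.MP_c09211_an.Sh

open Metric Set Complex Filter Topology Polynomial
open scoped Real ComplexConjugate

theorem LowF_apx_mono {r α τ τ' : ℝ} {p : ℂ[X]} (h : Apx r α τ p) (hτ : τ ≤ τ') :
    Apx r α τ' p := by
  obtain ⟨h1, ⟨c, h2⟩, h3⟩ := h
  exact ⟨h1, ⟨c, fun z hz => (h2 z hz).trans hτ⟩,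
    fun j a b z hz => (h3 j a b z hz).trans hτ⟩

theorem LowF_exp (a : ℝ) : ∃ w₀ : ℝ, ∀ w : ℝ, w₀ ≤ w →
    2 * 10 ^ 10 * a * w ^ 88 ≤ Real.exp (w / 8) := by
  have h := (Real.tendsto_exp_div_pow_atTop 88).eventually_ge_atTop (2 * 10 ^ 10 * a * 8 ^ 88)
  obtain ⟨x₀, hx⟩ := eventually_atTop.1 h
  refine ⟨max (8 * x₀) 1, fun w hw => ?_⟩
  have h1 : 8 * x₀ ≤ w := (le_max_left _ _).trans hw
  have h2 : 1 ≤ w := (le_max_right _ _).trans hw
  have h3 := hx (w / 8) (by linarith)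
  rw [le_div_iff₀ (by positivity)] at h3
  refine le_trans (le_of_eq ?_) h3
  rw [div_pow]
  field_simp

theorem LowF_num {s N y α k₁ κ₀ w : ℝ} (hs : 1 ≤ s) (hN : s ^ 2 ≤ N) (hN' : N ≤ s ^ 2 + κ₀ * s)
    (hκ : 0 ≤ κ₀) (hk : κ₀ < k₁) (hk1 : k₁ ≤ 1) (hy : 0 < y) (hw : s ^ 2 * y = w)
    (hα : α = y - y ^ 2 / 2 + k₁ / N) (hα0 : 0 ≤ α) (hα1 : α ≤ 2 * y)
    (hm : 1 + 5 / 2 * w ^ 2 + 8 * w < (k₁ - κ₀) * s) :
    N * (1 + 2 * α) < s ^ 2 * ((1 - s * y) * (1 + α * s)) := by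
  have s0 : 0 < s := by linarith
  have N0 : 0 < N := lt_of_lt_of_le (by positivity) hN
  have hN2 : N ≤ s ^ 2 + s := by nlinarith
  have hN3 : N ≤ 2 * s ^ 2 := by nlinarith
  have e1 : (s - 1) ≤ s ^ 3 / N := by
    rw [le_div_iff₀ N0]
    nlinarith
  have e2 : k₁ * s - 1 ≤ s ^ 3 * (k₁ / N) := by
    have : k₁ * (s - 1) ≤ k₁ * (s ^ 3 / N) := mul_le_mul_of_nonneg_left e1 (by linarith)
    have e : s ^ 3 * (k₁ / N) = k₁ * (s ^ 3 / N) := by ring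
    rw [e]; nlinarith
  have e3 : N * (2 * α) ≤ 8 * w := by
    have : N * (2 * α) ≤ (2 * s ^ 2) * (4 * y) :=
      mul_le_mul hN3 (by linarith) (by linarith) (by positivity)
    rw [← hw]; nlinarith
  have e4 : s ^ 4 * (α * y) ≤ 2 * w ^ 2 := by
    have : α * y ≤ 2 * y * y := mul_le_mul_of_nonneg_right hα1 hy.le
    have h2 : s ^ 4 * (α * y) ≤ s ^ 4 * (2 * y * y) :=
      mul_le_mul_of_nonneg_left this (by positivity)
    rw [← hw]; nlinarith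
  have e5 : s ^ 3 * y ^ 2 ≤ w ^ 2 := by
    rw [← hw]
    have : s ^ 3 ≤ s ^ 4 := pow_le_pow_right₀ hs (by norm_num)
    have h2 : s ^ 3 * y ^ 2 ≤ s ^ 4 * y ^ 2 := mul_le_mul_of_nonneg_right this (by positivity)
    nlinarith
  have e6 : s ^ 2 * ((1 - s * y) * (1 + α * s)) =
      s ^ 2 + s ^ 3 * (k₁ / N) - s ^ 3 * y ^ 2 / 2 - s ^ 4 * (α * y) := by
    have : s ^ 2 * ((1 - s * y) * (1 + α * s)) =
        s ^ 2 + s ^ 3 * (α - y) - s ^ 4 * (α * y) := by ring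
    rw [this]
    have e : α - y = k₁ / N - y ^ 2 / 2 := by rw [hα]; ring
    rw [e]; ring
  rw [e6]
  nlinarith

theorem LowF_ratio {r α : ℝ} {s : ℕ} {N : ℝ} (r0 : 0 < r) (r1 : r < 1) (α0 : 0 ≤ α)
    (α1 : α ≤ 1) (hs : 1 ≤ s) (N0 : 0 < N)
    (h : N * (1 + 2 * α) < (s : ℝ) ^ 2 * ((1 - s * (1 - r)) * (1 + α * s))) :
    0 < qk r α 1 ∧ N * qk r α 1 < s * qk r α s := by
  have q1 : qk r α 1 ≤ r * (1 + 2 * α) := by
    unfold qk
    rw [pow_one]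
    refine mul_le_mul_of_nonneg_left ?_ r0.le
    push_cast
    nlinarith
  have q0 : 0 < qk r α 1 := by
    unfold qk
    push_cast
    positivity
  have qs : r ^ s * (s * (1 + α * s)) ≤ qk r α s := by
    unfold qk
    refine mul_le_mul_of_nonneg_left ?_ (by positivity)
    have : 0 ≤ α ^ 2 * ((s : ℝ) ^ 3 + 2 * s) / 6 := by positivity
    nlinarith
  have hb : r * (1 - s * (1 - r)) ≤ r ^ s := by
    obtain ⟨m, rfl⟩ := Nat.exists_eq_add_of_le hs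
    rw [pow_add, pow_one]
    refine mul_le_mul_of_nonneg_left ?_ r0.le
    have := one_add_mul_le_pow (a := r - 1) (by linarith) m
    rw [add_sub_cancel] at this
    push_cast
    nlinarith
  refine ⟨q0, ?_⟩
  have s0 : (0 : ℝ) < s := by exact_mod_cast hs
  calc N * qk r α 1 ≤ N * (r * (1 + 2 * α)) := mul_le_mul_of_nonneg_left q1 N0.le
    _ = r * (N * (1 + 2 * α)) := by ring
    _ < r * ((s : ℝ) ^ 2 * ((1 - s * (1 - r)) * (1 + α * s))) := mul_lt_mul_of_pos_left h r0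
    _ = s * ((r * (1 - s * (1 - r))) * (s * (1 + α * s))) := by ring
    _ ≤ s * (r ^ s * (s * (1 + α * s))) :=
        mul_le_mul_of_nonneg_left (mul_le_mul_of_nonneg_right hb (by positivity)) s0.le
    _ ≤ s * qk r α s := mul_le_mul_of_nonneg_left qs s0.le

theorem LowF_norm {n J : ℕ} {Q : ℂ[X]} {c : ℝ} (hc : 0 < c) (hd : Q.natDegree ≤ n)
    (h1 : Q.coeff 1 = (c : ℂ)) (hi : InjOn (fun z => Q.eval z) (closedBall 0 1)) (hJ : J ≠ 0)
    (hb : c < ‖Q.coeff J‖) : ∃ P : ℂ[X], Univ n P ∧ 1 < ‖P.coeff J‖ := by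
  have c0 : (c : ℂ) ≠ 0 := by exact_mod_cast hc.ne'
  refine ⟨C (c : ℂ)⁻¹ * (Q - C (Q.coeff 0)), ⟨?_, ?_, ?_, ?_⟩, ?_⟩
  · refine (natDegree_C_mul_le _ _).trans ?_
    rw [natDegree_sub_C]; exact hd
  · simp
  · rw [coeff_C_mul, coeff_sub, coeff_C, if_neg one_ne_zero, sub_zero, h1, inv_mul_cancel₀ c0]
  · intro z hz w hw e
    simp only [eval_mul, eval_C, eval_sub] at e
    have e' := mul_left_cancel₀ (inv_ne_zero c0) e
    exact hi (ball_subset_closedBall hz) (ball_subset_closedBall hw) (sub_left_injective e')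
  · rw [coeff_C_mul, coeff_sub, coeff_C, if_neg hJ, sub_zero, norm_mul, norm_inv, norm_real,
      Real.norm_eq_abs, abs_of_pos hc, inv_mul_eq_div, one_lt_div hc]
    exact hb

theorem lower_sharp {t κ : ℝ} (t0 : 0 < t) (t1 : t < π / 2) (ht : Real.cos t ≤ t)
    (hκ : κ < 1 - Real.sin t) : ∃ s₀ : ℕ, ∀ s ≥ s₀, ∀ n : ℕ, s ^ 2 ≤ n + 1 →
      (n : ℝ) + 1 ≤ (s : ℝ) ^ 2 + κ * s → ∃ P : ℂ[X], Univ n P ∧ 1 < ‖P.coeff (n + 1 - s)‖ := by
  have hsin0 : 0 < Real.sin t := Real.sin_pos_of_pos_of_lt_pi t0 (by linarith [Real.pi_pos])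
  have hsin1 : Real.sin t < 1 := by
    have := Real.cos_pos_of_mem_Ioo (x := t) ⟨by linarith [Real.pi_pos], t1⟩
    nlinarith [Real.sin_sq_add_cos_sq t]
  set κ₀ := max κ 0 with hκ₀
  have k0 : 0 ≤ κ₀ := le_max_right _ _
  have k1 : κ₀ < 1 - Real.sin t := max_lt hκ (by linarith)
  obtain ⟨k₁, hk0, hk1⟩ := exists_between k1
  obtain ⟨a₀, ha₀⟩ := inj_PP t0 t1 ht hk1
  set a := max a₀ 2 with ha
  have a2 : 2 ≤ a := le_max_right _ _
  obtain ⟨w₀, hw₀⟩ := LowF_exp a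
  set W := max (max w₀ a) (12 / (k₁ - κ₀)) with hW
  obtain ⟨s₀, hs₀⟩ := exists_nat_ge (W ^ 4)
  refine ⟨s₀, fun s hs n h1 h2 => ?_⟩
  have W2 : 2 ≤ W := a2.trans ((le_max_right _ _).trans (le_max_left _ _))
  have sW : W ^ 4 ≤ (s : ℝ) := hs₀.trans (by exact_mod_cast hs)
  obtain ⟨w, w0, hw⟩ : ∃ w : ℝ, 0 ≤ w ∧ w ^ 4 = s :=
    ⟨(s : ℝ) ^ ((4 : ℕ)⁻¹ : ℝ), by positivity,
      Real.rpow_inv_natCast_pow (by positivity) (by norm_num)⟩
  have wW : W ≤ w := by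
    by_contra hc
    have := pow_lt_pow_left₀ (not_le.1 hc) w0 (n := 4) (by norm_num)
    linarith
  have w2 : 2 ≤ w := W2.trans wW
  have wa : a ≤ w := ((le_max_right _ _).trans (le_max_left _ _)).trans wW
  have ww₀ : w₀ ≤ w := ((le_max_left _ _).trans (le_max_left _ _)).trans wW
  have wδ : 12 ≤ w * (k₁ - κ₀) := by
    have : 12 / (k₁ - κ₀) ≤ w := (le_max_right _ _).trans wW
    rwa [div_le_iff₀ (by linarith)] at this
  have s16 : (16 : ℝ) ≤ s := by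
    have := pow_le_pow_left₀ (by norm_num) w2 4
    linarith
  have s16' : 16 ≤ s := by exact_mod_cast s16
  set N := n + 1 with hN
  have hNr : (N : ℝ) = n + 1 := by rw [hN]; push_cast; ring
  have N1 : (s : ℝ) ^ 2 ≤ N := by exact_mod_cast h1
  have N2 : (N : ℝ) ≤ s ^ 2 + κ₀ * s := by
    rw [hNr]
    have : κ * s ≤ κ₀ * s := mul_le_mul_of_nonneg_right (le_max_left _ _) (by positivity)
    linarith
  have s0 : (0 : ℝ) < s := by linarith
  have N0 : (0 : ℝ) < N := lt_of_lt_of_le (by positivity) N1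
  have N3 : (N : ℝ) ≤ 2 * s ^ 2 := by nlinarith
  obtain ⟨y, hy⟩ : ∃ y : ℝ, (s : ℝ) ^ 2 * y = w := ⟨w / s ^ 2, by field_simp⟩
  have y0 : 0 < y := by
    by_contra hc
    have : (s : ℝ) ^ 2 * y ≤ 0 := mul_nonpos_of_nonneg_of_nonpos (by positivity) (not_lt.1 hc)
    linarith
  have ws : w ≤ s := by
    have : w ^ 1 ≤ w ^ 4 := pow_le_pow_right₀ (by linarith) (by norm_num)
    rw [pow_one] at this; linarith
  have y1 : y ≤ 1 / 2 := by
    by_contra hc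
    have : (s : ℝ) ^ 2 * (1 / 2) < s ^ 2 * y := mul_lt_mul_of_pos_left (not_le.1 hc) (by positivity)
    nlinarith
  obtain ⟨r, hr⟩ : ∃ r : ℝ, 1 - r = y := ⟨1 - y, by ring⟩
  have H : Par N r k₁ a := by
    refine ⟨by linarith, by linarith, by linarith, by linarith, a2, ?_⟩
    rw [hr]
    have : (s : ℝ) ^ 2 * y ≤ N * y := mul_le_mul_of_nonneg_right N1 y0.le
    linarith
  obtain ⟨α0, α1⟩ := H.al_mem
  rw [hr] at α1
  have hsN : s * 16 ≤ N := le_trans (by rw [sq] ; exact Nat.mul_le_mul_left _ s16') h1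
  obtain ⟨d1, d2, d3, d4⟩ := PP_coeff (N := N) (K := N / 2) (J := s) r (al N r k₁) (1 - 1 / N)
    (by omega) (by omega) (by omega) (by omega)
  have hap : Apx r (al N r k₁) ((1 - r) / (a * N)) (pT r (al N r k₁) (N / 2)) := by
    refine LowF_apx_mono (apx H.1 H.2.1 α0 (by linarith) (N / 2)) ?_
    rw [hr]
    have hK : (N : ℝ) ≤ 4 * ((N / 2 : ℕ) : ℝ) := by
      have : N ≤ 4 * (N / 2) := by omega
      exact_mod_cast this
    have e1 : w / 8 ≤ y * ((N / 2 : ℕ) : ℝ) / 2 := by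
      have : (s : ℝ) ^ 2 * y ≤ (4 * ((N / 2 : ℕ) : ℝ)) * y :=
        mul_le_mul_of_nonneg_right (N1.trans hK) y0.le
      linarith
    have e2 := (hw₀ w ww₀).trans (Real.exp_le_exp.2 e1)
    have e3 : 1 ≤ (s : ℝ) ^ 20 * y ^ 10 := by
      have : (s : ℝ) ^ 20 * y ^ 10 = w ^ 10 := by rw [← hy]; ring
      rw [this]; exact one_le_pow₀ (by linarith)
    have e4 : w ^ 88 = (s : ℝ) ^ 22 := by rw [← hw]; ring
    rw [e4] at e2
    have a0 : 0 < a := by linarith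
    rw [Real.exp_neg, ← div_eq_mul_inv, div_div, div_le_div_iff₀ (by positivity) (by positivity)]
    calc 10 ^ 10 * (a * N) ≤ 10 ^ 10 * (a * (2 * (s : ℝ) ^ 2)) := by gcongr
      _ = 10 ^ 10 * (a * (2 * (s : ℝ) ^ 2)) * 1 := (mul_one _).symm
      _ ≤ 10 ^ 10 * (a * (2 * (s : ℝ) ^ 2)) * ((s : ℝ) ^ 20 * y ^ 10) := by gcongr
      _ = y * (y ^ 9 * (2 * 10 ^ 10 * a * (s : ℝ) ^ 22)) := by ring
      _ ≤ _ := by gcongr
  have N1' : (1 : ℝ) < N := by nlinarith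
  have η0 : (0 : ℝ) ≤ 1 - 1 / N := by
    rw [sub_nonneg, div_le_one N0]; exact N1'.le
  have η1 : (1 : ℝ) - 1 / N < 1 := by
    have : (0 : ℝ) < 1 / N := by positivity
    linarith
  have hinj := ha₀ N r a _ H (le_max_left _ _) hap d1 _ η0 η1
  have hnum := LowF_num (s := s) (N := N) (y := y) (α := al N r k₁) (k₁ := k₁) (κ₀ := κ₀) (w := w)
    (by linarith) N1 N2 k0 hk0 (by linarith) y0 hy (by unfold al; rw [← hr]; ring) α0 α1 (by
      have e1 : w ^ 3 * 12 ≤ w ^ 3 * (w * (k₁ - κ₀)) :=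
        mul_le_mul_of_nonneg_left wδ (by positivity)
      have e2 : w ^ 2 * 2 ≤ w ^ 2 * w := mul_le_mul_of_nonneg_left w2 (by positivity)
      rw [← hw]
      nlinarith)
  rw [← hr] at hnum
  obtain ⟨q0, q1⟩ := LowF_ratio (by linarith [H.1]) H.2.1 α0 (by linarith) (by omega) N0 hnum
  refine LowF_norm (c := (N - 1) * qk r (al N r k₁) 1) (mul_pos (by linarith) q0)
    (by simpa [hN] using d2) d3 hinj (by omega) ?_
  have qs0 : 0 < s * qk r (al N r k₁) s := lt_trans (mul_pos N0 q0) q1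
  rw [d4, norm_mul, norm_mul, norm_I, mul_one, norm_real, norm_real, Real.norm_eq_abs,
    Real.norm_eq_abs, abs_of_nonneg η0, abs_of_pos qs0]
  have e : (1 : ℝ) - 1 / N = (N - 1) / N := by field_simp
  rw [e, div_mul_eq_mul_div, lt_div_iff₀ N0, mul_assoc, mul_comm (qk _ _ _) (N : ℝ)]
  exact mul_lt_mul_of_pos_left q1 (by linarith)

end Pool.Agent.P.MP_c09211_an.Sh
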