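import Pool.Agent.P.MP_c09211_an.Sh.Base

/-!
Windows on the circle and the gain from the top frequencies.
-/

set_option autoImplicit false

namespace Pool.Agent.P.MP_c09211_an.Sh

open Metric Set Finset PowerSeries Complex Filter Topology Real
open scoped ComplexConjugate

/-- A family of `M + 1` windows, the window `w` being centred at the angle `2 π w / (M + 1)`. -/
def Ker (M : ℕ) (τ : ℕ → ℂ → ℂ) : Prop :=
  (∀ w, Differentiable ℂ (τ w)) ∧ (∀ z, ∑ w ∈ range (M + 1), τ w z = z ^ M) ∧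
    (∀ z : ℂ, ‖z‖ ≤ 1 → ∑ w ∈ range (M + 1), ‖τ w z‖ ≤ 1) ∧
    ∀ w, ∀ z : ℂ, ‖z‖ = 1 → ∃ b : ℝ, 0 ≤ b ∧ τ w z = b * z ^ M

theorem Ker_orth {n : ℕ} {ζ : ℂ} (hζ : IsPrimitiveRoot ζ n) (h1 : ‖ζ‖ = 1) {i j : ℕ}
    (hi : i < n) (hj : j < n) :
    ∑ w ∈ range n, (conj ζ ^ i * ζ ^ j) ^ w = if i = j then (n : ℂ) else 0 := by
  have hc : conj ζ * ζ = 1 := by
    rw [mul_comm, Complex.mul_conj, Complex.normSq_eq_norm_sq, h1]; simp
  split_ifs with h
  · subst h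
    rw [← mul_pow, hc]; simp
  · have hne : conj ζ ^ i * ζ ^ j ≠ 1 := by
      intro e
      apply h
      refine hζ.pow_inj hi hj ?_
      have : ζ ^ i * (conj ζ ^ i * ζ ^ j) = ζ ^ j := by
        rw [← mul_assoc, ← mul_pow, mul_comm ζ, hc]; simp
      rw [← this, e, mul_one]
    rw [geom_sum_eq hne]
    have : (conj ζ ^ i * ζ ^ j) ^ n = 1 := by
      rw [mul_pow, ← pow_mul, ← pow_mul, mul_comm i, mul_comm j, pow_mul, pow_mul, ← map_pow,
        hζ.pow_eq_one]; simp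
    rw [this]; simp

theorem Ker_pars {n : ℕ} {ζ : ℂ} (hζ : IsPrimitiveRoot ζ n) (h1 : ‖ζ‖ = 1) (c : ℕ → ℂ) (z : ℂ) :
    ∑ w ∈ range n, ‖∑ i ∈ range n, c i * (conj (ζ ^ w) * z) ^ i‖ ^ 2 =
      n * ∑ i ∈ range n, ‖c i‖ ^ 2 * ‖z‖ ^ (2 * i) := by
  have key : ∀ a : ℂ, ((‖a‖ ^ 2 : ℝ) : ℂ) = a * conj a := fun a => by
    rw [Complex.mul_conj, Complex.normSq_eq_norm_sq]
  apply Complex.ofReal_injective
  rw [Complex.ofReal_sum]
  simp only [key]
  have e1 : ∀ w ∈ range n, (∑ i ∈ range n, c i * (conj (ζ ^ w) * z) ^ i) *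
      conj (∑ i ∈ range n, c i * (conj (ζ ^ w) * z) ^ i) =
      ∑ i ∈ range n, ∑ j ∈ range n, (c i * z ^ i * conj (c j * z ^ j)) *
        (conj ζ ^ i * ζ ^ j) ^ w := by
    intro w _
    rw [map_sum, sum_mul_sum]
    refine sum_congr rfl fun i _ => sum_congr rfl fun j _ => ?_
    simp only [map_mul, map_pow, conj_conj, mul_pow, ← pow_mul]
    rw [mul_comm w i, mul_comm w j]
    ring
  rw [sum_congr rfl e1, sum_comm]
  push_cast
  rw [mul_sum]
  refine sum_congr rfl fun i hi => ?_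
  rw [sum_comm]
  have e2 : ∀ j ∈ range n, ∑ w ∈ range n, (c i * z ^ i * conj (c j * z ^ j)) *
      (conj ζ ^ i * ζ ^ j) ^ w = if i = j then (c i * z ^ i * conj (c j * z ^ j)) * n else 0 := by
    intro j hj
    rw [← mul_sum, Ker_orth hζ h1 (mem_range.mp hi) (mem_range.mp hj)]
    split_ifs <;> simp
  rw [sum_congr rfl e2, sum_ite_eq, if_pos hi, ← key]
  push_cast
  rw [norm_mul, norm_pow]
  push_cast
  ring

theorem Ker_sym {m : ℕ} (hm : 1 ≤ m) {y : ℂ} (hy : ‖y‖ = 1) :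
    (∑ i ∈ range m, y ^ i) ^ 2 = ((‖∑ i ∈ range m, y ^ i‖ ^ 2 : ℝ) : ℂ) * y ^ (m - 1) := by
  have hc : conj y * y = 1 := by
    rw [mul_comm, Complex.mul_conj, Complex.normSq_eq_norm_sq, hy]; simp
  have e : conj (∑ i ∈ range m, y ^ i) * y ^ (m - 1) = ∑ i ∈ range m, y ^ i := by
    rw [map_sum, sum_mul, ← sum_range_reflect (fun i => y ^ i) m]
    refine sum_congr rfl fun i hi => ?_
    have hi' := mem_range.mp hi
    obtain ⟨k, hk⟩ : ∃ k, m - 1 = i + k := ⟨m - 1 - i, by omega⟩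
    have : m - 1 - i = k := by omega
    rw [this, hk, pow_add, map_pow, ← mul_assoc, ← mul_pow, hc]; simp
  rw [← Complex.normSq_eq_norm_sq, ← Complex.mul_conj, mul_assoc, e, sq]

theorem Ker_le (m : ℕ) {y : ℂ} (hy : ‖y‖ ≤ 1) {l : ℝ} (hl : 0 < l) (h : l ≤ ‖1 - y‖) :
    ‖∑ i ∈ range m, y ^ i‖ ≤ 2 / l := by
  have e := mul_neg_geom_sum y m
  have h2 : ‖1 - y ^ m‖ ≤ 2 := by
    refine (norm_sub_le _ _).trans ?_
    rw [norm_one, norm_pow]
    linarith [pow_le_one₀ (norm_nonneg y) hy (n := m)]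
  rw [← e, norm_mul] at h2
  rw [le_div_iff₀ hl]
  nlinarith [norm_nonneg (∑ i ∈ range m, y ^ i)]

theorem Ker_coef (p m : ℕ) : ∃ c : ℕ → ℂ, ∀ y : ℂ,
    (∑ i ∈ range m, y ^ i) ^ p = ∑ i ∈ range (p * (m - 1) + 1), c i * y ^ i := by
  set D : Polynomial ℂ := ∑ i ∈ range m, Polynomial.X ^ i with hD
  have d1 : D.natDegree ≤ m - 1 := by
    refine Polynomial.natDegree_sum_le_of_forall_le _ _ fun i hi => ?_
    have := mem_range.mp hi
    rw [Polynomial.natDegree_X_pow]; omega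
  have d2 : (D ^ p).natDegree < p * (m - 1) + 1 :=
    Nat.lt_succ_of_le (Polynomial.natDegree_pow_le.trans (Nat.mul_le_mul_left p d1))
  refine ⟨fun i => (D ^ p).coeff i, fun y => ?_⟩
  rw [← Polynomial.eval_eq_sum_range' d2, Polynomial.eval_pow, hD, Polynomial.eval_finsetSum]
  simp

theorem kernel (p : ℕ) {m : ℕ} (hm : 1 ≤ m) : ∃ τ : ℕ → ℂ → ℂ, Ker (p * (m - 1)) τ ∧
    ∀ (w : ℕ) (z : ℂ) (l : ℝ), ‖z‖ ≤ 1 → 0 < l →
      l ≤ ‖circleMap 0 1 (2 * π * w / (p * (m - 1) + 1 : ℕ)) - z‖ →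
      ‖τ w z‖ ≤ (2 / (m * l)) ^ (2 * p) := by
  set M := p * (m - 1) with hM
  set ζ : ℂ := Complex.exp (2 * π * I / (M + 1 : ℕ)) with hζd
  have hζ : IsPrimitiveRoot ζ (M + 1) := Complex.isPrimitiveRoot_exp _ M.succ_ne_zero
  have hcm : ∀ w : ℕ, circleMap 0 1 (2 * π * w / (M + 1 : ℕ)) = ζ ^ w := by
    intro w
    rw [hζd, ← Complex.exp_nat_mul, circleMap]
    simp only [ofReal_one, one_mul, zero_add]
    congr 1
    push_cast
    ring
  have h1 : ‖ζ‖ = 1 := by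
    have := hcm 1
    rw [pow_one] at this
    rw [← this]; simp
  have hw1 : ∀ w : ℕ, ‖ζ ^ w‖ = 1 := fun w => by rw [norm_pow, h1, one_pow]
  have hc : ∀ w : ℕ, ζ ^ w * conj (ζ ^ w) = 1 := fun w => by
    rw [Complex.mul_conj, Complex.normSq_eq_norm_sq, hw1]; simp
  obtain ⟨c, hcf⟩ := Ker_coef p m
  set k : ℂ → ℂ := fun y => (∑ i ∈ range m, y ^ i) ^ p with hk
  set n2 : ℝ := ((M + 1 : ℕ) : ℝ) * ∑ i ∈ range (M + 1), ‖c i‖ ^ 2 with hn2
  have pars : ∀ z : ℂ, ∑ w ∈ range (M + 1), ‖k (conj (ζ ^ w) * z)‖ ^ 2 =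
      ((M + 1 : ℕ) : ℝ) * ∑ i ∈ range (M + 1), ‖c i‖ ^ 2 * ‖z‖ ^ (2 * i) := by
    intro z
    rw [← Ker_pars hζ h1 c z]
    exact sum_congr rfl fun w _ => by rw [hk]; simp only; rw [hcf]
  have pars1 : ∀ z : ℂ, ‖z‖ = 1 → ∑ w ∈ range (M + 1), ‖k (conj (ζ ^ w) * z)‖ ^ 2 = n2 := by
    intro z hz
    rw [pars, hz, hn2]; simp
  have hm0 : (0 : ℝ) < m := by exact_mod_cast hm
  have hlow : (m : ℝ) ^ (2 * p) ≤ n2 := by
    rw [← pars1 1 norm_one]
    refine le_trans (le_of_eq ?_) (single_le_sum (f := fun w => ‖k (conj (ζ ^ w) * 1)‖ ^ 2)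
      (fun w _ => by positivity) (mem_range.mpr M.succ_pos))
    simp only [hk, pow_zero, map_one, mul_one, one_pow, sum_const, card_range, nsmul_eq_mul,
      norm_pow, Complex.norm_natCast]
    rw [← pow_mul, mul_comm]
  have hpos : 0 < n2 := lt_of_lt_of_le (by positivity) hlow
  set τ : ℕ → ℂ → ℂ := fun w z => (ζ ^ w) ^ M * k (conj (ζ ^ w) * z) ^ 2 / n2 with hτ
  have hnorm : ∀ w z, ‖τ w z‖ = ‖k (conj (ζ ^ w) * z)‖ ^ 2 / n2 := by
    intro w z
    rw [hτ]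
    simp only [norm_div, norm_mul]
    rw [norm_pow, hw1, one_pow, one_mul, norm_pow, Complex.norm_real, Real.norm_eq_abs,
      abs_of_pos hpos]
  have hdiff : ∀ w, Differentiable ℂ (τ w) := by
    intro w
    rw [hτ, hk]
    fun_prop
  have hcirc : ∀ w, ∀ z : ℂ, ‖z‖ = 1 →
      τ w z = ((‖k (conj (ζ ^ w) * z)‖ ^ 2 / n2 : ℝ) : ℂ) * z ^ M := by
    intro w z hz
    have hy : ‖conj (ζ ^ w) * z‖ = 1 := by rw [norm_mul, Complex.norm_conj, hw1, hz, one_mul]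
    have e := Ker_sym hm hy
    have e2 : k (conj (ζ ^ w) * z) ^ 2 =
        ((‖k (conj (ζ ^ w) * z)‖ ^ 2 : ℝ) : ℂ) * (conj (ζ ^ w) * z) ^ M := by
      rw [hk]
      simp only
      rw [← pow_mul, mul_comm p 2, pow_mul, e, mul_pow, ← pow_mul, mul_comm (m - 1) p, ← hM,
        norm_pow]
      push_cast
      rw [← pow_mul, ← pow_mul, mul_comm 2 p]
    have e3 : (ζ ^ w) ^ M * conj (ζ ^ w) ^ M = 1 := by rw [← mul_pow, hc, one_pow]
    rw [hτ]
    simp only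
    rw [e2, mul_pow]
    push_cast
    linear_combination (‖k (conj (ζ ^ w) * z)‖ : ℂ) ^ 2 * z ^ M / n2 * e3
  refine ⟨τ, ⟨hdiff, ?_, fun z hz => ?_, fun w z hz => ⟨_, by positivity, hcirc w z hz⟩⟩,
    fun w z l hz hl h => ?_⟩
  · have d1 : Differentiable ℂ fun z => ∑ w ∈ range (M + 1), τ w z := by fun_prop
    have d2 : Differentiable ℂ fun z : ℂ => z ^ M := by fun_prop
    have e1 : EqOn (fun z => ∑ w ∈ range (M + 1), τ w z) (fun z : ℂ => z ^ M) (ball 0 1) := by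
      refine Complex.eqOn_of_eqOn_frontier isBounded_ball d1.diffContOnCl d2.diffContOnCl ?_
      rw [frontier_ball _ one_ne_zero]
      intro z hz
      have hz' : ‖z‖ = 1 := by simpa using hz
      simp only
      rw [sum_congr rfl fun w _ => hcirc w z hz', ← sum_mul, ← Complex.ofReal_sum, ← sum_div,
        pars1 z hz', div_self hpos.ne']
      simp
    have := AnalyticOnNhd.eq_of_eventuallyEq (d1.differentiableOn.analyticOnNhd isOpen_univ)
      (d2.differentiableOn.analyticOnNhd isOpen_univ) (z₀ := 0)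
      (e1.eventuallyEq_of_mem (ball_mem_nhds _ one_pos))
    exact fun z => congrFun this z
  · simp only [hnorm]
    rw [← sum_div, div_le_one hpos, pars, hn2]
    refine mul_le_mul_of_nonneg_left (sum_le_sum fun i _ => ?_) (by positivity)
    exact mul_le_of_le_one_right (by positivity) (pow_le_one₀ (norm_nonneg _) hz)
  · rw [hcm] at h
    have hy : ‖conj (ζ ^ w) * z‖ ≤ 1 := by rw [norm_mul, Complex.norm_conj, hw1, one_mul]; exact hz
    have h2 : ‖1 - conj (ζ ^ w) * z‖ = ‖ζ ^ w - z‖ := by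
      have : 1 - conj (ζ ^ w) * z = conj (ζ ^ w) * (ζ ^ w - z) := by
        linear_combination - hc w
      rw [this, norm_mul, Complex.norm_conj, hw1, one_mul]
    have h3 := Ker_le m hy hl (h2 ▸ h)
    rw [hnorm, div_le_iff₀ hpos, hk]
    simp only
    rw [norm_pow, ← pow_mul, mul_comm p 2]
    refine (pow_le_pow_left₀ (norm_nonneg _) h3 _).trans ?_
    refine le_trans (le_of_eq ?_) (mul_le_mul_of_nonneg_left hlow (by positivity))
    rw [← mul_pow]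
    congr 1
    field_simp

end Pool.Agent.P.MP_c09211_an.Sh
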