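import Pool.Agent.P.MP_c09211_an.Sh.Base

/-!
The expansion of Lagrange, and the values of the functional near the extremal function.
-/

set_option autoImplicit false

namespace Pool.Agent.P.MP_c09211_an.Sh

open Metric Set Finset PowerSeries Complex Filter Topology Real
open scoped ComplexConjugate

private theorem mul_inv_E {E : ℂ⟦X⟧} (hE : coeff 0 E = 1) : E * E⁻¹ = 1 :=
  PowerSeries.mul_inv_cancel E (by
    rw [← coeff_zero_eq_constantCoeff_apply, hE]; exact one_ne_zero)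

private theorem th_one : th (1 : ℂ⟦X⟧) = 0 := by simpa using th_C 1

private theorem th_inv_pow {E : ℂ⟦X⟧} (hE : coeff 0 E = 1) (k : ℕ) :
    th (E⁻¹ ^ k) = -((k : ℂ⟦X⟧) * th E * E⁻¹ ^ (k + 1)) := by
  have h := mul_inv_E hE
  have h1 : th E * E⁻¹ + E * th E⁻¹ = 0 := by rw [← th_mul, h, th_one]
  have h2 : th E⁻¹ = -(th E * E⁻¹ ^ 2) := by
    linear_combination E⁻¹ * h1 - th E⁻¹ * h
  induction k with
  | zero => simp [th_one]
  | succ k ih =>
    rw [pow_succ, th_mul, ih, h2]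
    push_cast
    ring

private theorem d_XE (E : ℂ⟦X⟧) : d⁄dX ℂ (X * E) = E + th E := by
  simp only [th, Derivation.leibniz, smul_eq_mul, derivative_X]; ring

private theorem res_zero {E : ℂ⟦X⟧} (hE : coeff 0 E = 1) {k : ℕ} (hk : k ≠ 0) :
    coeff k (d⁄dX ℂ (X * E) * E⁻¹ ^ (k + 1)) = 0 := by
  have h := mul_inv_E hE
  have e : C (k : ℂ) * (d⁄dX ℂ (X * E) * E⁻¹ ^ (k + 1)) = C (k : ℂ) * E⁻¹ ^ k - th (E⁻¹ ^ k) := by
    rw [th_inv_pow hE, d_XE, map_natCast]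
    linear_combination (k : ℂ⟦X⟧) * E⁻¹ ^ k * h
  have h2 := congrArg (coeff k) e
  rw [map_sub, coeff_C_mul, coeff_C_mul, coeff_th, sub_self] at h2
  exact (mul_eq_zero.mp h2).resolve_left (by exact_mod_cast hk)

private theorem orth {E : ℂ⟦X⟧} (hE : coeff 0 E = 1) {l i : ℕ} (h : l < i) :
    coeff i ((X * E) ^ l * d⁄dX ℂ (X * E) * E⁻¹ ^ (i + 1)) = 0 := by
  obtain ⟨k, rfl⟩ := Nat.exists_eq_add_of_le' h.le
  have e : (X * E) ^ l * d⁄dX ℂ (X * E) * E⁻¹ ^ (k + l + 1) =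
      X ^ l * ((E * E⁻¹) ^ l * (d⁄dX ℂ (X * E) * E⁻¹ ^ (k + 1))) := by ring
  rw [e, mul_inv_E hE, one_pow, one_mul, coeff_X_pow_mul]
  exact res_zero hE (by omega)

private theorem expand_F {E : ℂ⟦X⟧} (hE : coeff 0 E = 1) (H : ℂ⟦X⟧) (J : ℕ) :
    ∃ R : ℂ⟦X⟧, H = ∑ i ∈ range J,
      C (coeff i (H * d⁄dX ℂ (X * E) * E⁻¹ ^ (i + 1))) * (X * E) ^ i + X ^ J * R := by
  have c1 : constantCoeff E = 1 := by rw [← coeff_zero_eq_constantCoeff_apply, hE]
  have c2 : constantCoeff E⁻¹ = 1 := by rw [constantCoeff_inv, c1, inv_one]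
  have c3 : constantCoeff (d⁄dX ℂ (X * E)) = 1 := by
    rw [d_XE, map_add, c1, th]; simp
  induction J with
  | zero => exact ⟨H, by simp⟩
  | succ J ih =>
    obtain ⟨R, hR⟩ := ih
    have e : coeff J (H * d⁄dX ℂ (X * E) * E⁻¹ ^ (J + 1)) = constantCoeff R := by
      conv_lhs => rw [hR]
      rw [add_mul, add_mul, map_add, sum_mul, sum_mul, map_sum, sum_eq_zero, zero_add, mul_assoc,
        mul_assoc]
      · have := coeff_X_pow_mul (R * (d⁄dX ℂ (X * E) * E⁻¹ ^ (J + 1))) J 0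
        rw [zero_add] at this
        rw [this, coeff_zero_eq_constantCoeff_apply, map_mul, map_mul, map_pow, c2, c3]
        simp
      · intro i hi
        rw [mul_assoc, mul_assoc, coeff_C_mul, ← mul_assoc, orth hE (mem_range.mp hi), mul_zero]
    obtain ⟨R', hR'⟩ : X ∣ R - C (constantCoeff R) * E ^ J := by
      rw [X_dvd_iff, map_sub, map_mul, map_pow, c1]; simp
    refine ⟨R', ?_⟩
    rw [sum_range_succ, e]
    linear_combination hR + X ^ J * hR'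

theorem lagrange {E : ℂ⟦X⟧} (hE : coeff 0 E = 1) (H : ℂ⟦X⟧) {J k : ℕ} (hk : k ≤ J) :
    coeff k H = ∑ i ∈ range (J + 1),
      coeff i (H * d⁄dX ℂ (X * E) * E⁻¹ ^ (i + 1)) * coeff k ((X * E) ^ i) := by
  obtain ⟨R, hR⟩ := expand_F hE H (J + 1)
  have := congrArg (coeff k) hR
  rw [map_add, coeff_X_pow_mul', if_neg (by omega), add_zero, map_sum] at this
  rw [this]
  exact sum_congr rfl fun i _ => coeff_C_mul _ _ _

private theorem Lam_lin (J : ℕ) (hJ : 1 ≤ J) (w : ℂ → ℂ) (c : ℕ → ℂ) (G : ℕ → ℂ⟦X⟧) (R : ℂ⟦X⟧)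
    (n : ℕ) :
    Lam J w (∑ i ∈ range n, C (c i) * G i + X ^ (J + 1) * R) =
      ∑ i ∈ range n, c i * Lam J w (G i) := by
  have e : tay w * d⁄dX ℂ (X ^ (J + 1) * R) =
      X ^ J * (tay w * (X * d⁄dX ℂ R + ((J + 1 : ℕ) : ℂ⟦X⟧) * R)) := by
    simp only [Derivation.leibniz, Derivation.leibniz_pow, smul_eq_mul, derivative_X,
      Nat.add_sub_cancel, nsmul_eq_mul]
    ring
  unfold Lam
  rw [map_add, mul_add, map_add, e, coeff_X_pow_mul', if_neg (by omega), add_zero, map_sum,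
    mul_sum, map_sum]
  refine sum_congr rfl fun i _ => ?_
  rw [← smul_eq_C_mul, Derivation.map_smul, mul_smul_comm, map_smul, smul_eq_mul]

theorem lagrange_lam {E : ℂ⟦X⟧} (hE : coeff 0 E = 1) (H : ℂ⟦X⟧) {J : ℕ} (hJ : 1 ≤ J) (w : ℂ → ℂ) :
    Lam J w H = ∑ i ∈ range (J + 1),
      coeff i (H * d⁄dX ℂ (X * E) * E⁻¹ ^ (i + 1)) * Lam J w ((X * E) ^ i) := by
  obtain ⟨R, hR⟩ := expand_F hE H (J + 1)
  rw [← Lam_lin J hJ w _ _ R, ← hR]

private theorem sum_sq_le {J : ℕ} {A : ℂ⟦X⟧} (hA : ∀ k ≤ J, ‖coeff k A‖ ≤ 2 * k) :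
    ∑ k ∈ range (J + 1), ‖coeff k A‖ ^ 2 ≤ 4 * (J : ℝ) ^ 3 := by
  have h0 : ‖coeff 0 A‖ = 0 := le_antisymm (by simpa using hA 0 J.zero_le) (norm_nonneg _)
  rw [sum_range_succ', h0]
  have : ∑ k ∈ range J, ‖coeff (k + 1) A‖ ^ 2 ≤ ∑ _k ∈ range J, (2 * (J : ℝ)) ^ 2 := by
    refine sum_le_sum fun k hk => pow_le_pow_left₀ (norm_nonneg _) ?_ 2
    have hk' : k + 1 ≤ J := mem_range.mp hk
    have : ((k + 1 : ℕ) : ℝ) ≤ J := by exact_mod_cast hk'
    linarith [hA (k + 1) hk']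
  rw [sum_const, card_range, nsmul_eq_mul] at this
  nlinarith

theorem lam_prod {w : ℂ → ℂ} (hw : Schur w) {J : ℕ} (hJ : 1 ≤ J) {A B : ℂ⟦X⟧}
    (hA : ∀ k ≤ J, ‖coeff k A‖ ≤ 2 * k) (hB : ∀ k ≤ J, ‖coeff k B‖ ≤ 2 * k) :
    ‖Lam J w (A * B)‖ ≤ 4 * (J : ℝ) ^ 4 := by
  have a0 : coeff 0 A = 0 := norm_le_zero_iff.mp (by simpa using hA 0 J.zero_le)
  have F0 : coeff 0 (A * B) = 0 := by
    rw [coeff_zero_eq_constantCoeff_apply, map_mul, ← coeff_zero_eq_constantCoeff_apply, a0,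
      zero_mul]
  have h1 := toeplitz (g := fun z => ∑ l ∈ range J, (((J : ℂ) - l) * coeff l (tay w)) * z ^ l)
    (by fun_prop) (fun z hz => fejer hw.1 (fun z hz => hw.2 z (sphere_subset_closedBall hz)) J hz)
    (J + 1) A fun q => coeff (J - q) B
  set σ := tay fun z => ∑ l ∈ range J, (((J : ℂ) - l) * coeff l (tay w)) * z ^ l with hσ
  have h2 : ∑ q ∈ range (J + 1), coeff q (σ * A) * coeff (J - q) B = Lam J w (A * B) := by
    rw [← Finset.Nat.sum_antidiagonal_eq_sum_range_succ (fun p q => coeff p (σ * A) * coeff q B),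
      ← coeff_mul, Lam, ← coeff_succ_X_mul (J - 1) (tay w * _), Nat.sub_add_cancel hJ, mul_assoc,
      show X * (tay w * d⁄dX ℂ (A * B)) = tay w * th (A * B) by rw [th]; ring, coeff_mul_zero F0,
      coeff_mul_zero (by simp [coeff_th])]
    refine sum_congr rfl fun l hl => ?_
    rw [hσ, tay_fin _ _ (mem_range.mp hl), coeff_th, Nat.cast_sub (mem_range.mp hl).le]
    ring
  have h3 := sum_range_reflect (fun q => ‖coeff q B‖ ^ 2) (J + 1)
  simp only [Nat.add_sub_cancel] at h3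
  rw [h2, h3] at h1
  have h4 := sum_sq_le hA
  have h5 := sum_sq_le hB
  have : (0 : ℝ) ≤ J := by positivity
  nlinarith

end Pool.Agent.P.MP_c09211_an.Sh
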