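import Pool.Agent.P.MP_c09211_an.Sh.Base

/-!
Localisation of the mass of a nearly positive function by kernels of Fejer.
-/

set_option autoImplicit false

namespace Pool.Agent.P.MP_c09211_an.Sh

open Metric Set Finset PowerSeries Complex Filter Topology Real
open scoped ComplexConjugate

/-- The kernel of Fejer, normalised to have maximum one. -/
noncomputable def Fej (b : ℕ) (y : ℂ) : ℝ := ‖∑ i ∈ range b, y ^ i‖ ^ 2 / (b : ℝ) ^ 2

theorem Fej_nonneg (b : ℕ) (y : ℂ) : 0 ≤ Fej b y := by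
  unfold Fej
  positivity

theorem ms_geom_le (b : ℕ) {y : ℂ} (hy : ‖y‖ = 1) : ‖∑ i ∈ range b, y ^ i‖ ≤ b := by
  refine (norm_sum_le _ _).trans (le_of_eq ?_)
  simp [norm_pow, hy]

theorem Fej_le_one (b : ℕ) {y : ℂ} (hy : ‖y‖ = 1) : Fej b y ≤ 1 :=
  div_le_one_of_le₀ (pow_le_pow_left₀ (norm_nonneg _) (ms_geom_le b hy) 2) (by positivity)

theorem ms_circ (θ : ℝ) (i : ℕ) : circleMap 0 1 θ ^ i = Complex.exp (I * ((i * θ : ℝ) : ℂ)) := by
  rw [circleMap, zero_add, ofReal_one, one_mul, ← Complex.exp_nat_mul]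
  congr 1
  push_cast
  ring

theorem Fej_near {b : ℕ} (hb : 1 ≤ b) {θ : ℝ} (h : b * |θ| ≤ 1 / 4) :
    1 / 2 ≤ Fej b (circleMap 0 1 θ) := by
  have b0 : (0 : ℝ) < b := by exact_mod_cast hb
  have h1 : ‖(b : ℂ) - ∑ i ∈ range b, circleMap 0 1 θ ^ i‖ ≤ b * (1 / 4) := by
    have e : (b : ℂ) - ∑ i ∈ range b, circleMap 0 1 θ ^ i =
        ∑ i ∈ range b, -(circleMap 0 1 θ ^ i - 1) := by
      simp [sum_sub_distrib]
    rw [e]
    refine (norm_sum_le_of_le (n := fun _ => (1 / 4 : ℝ)) _ fun i hi => ?_).trans (by simp)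
    rw [norm_neg, ms_circ]
    refine (Real.norm_exp_I_mul_ofReal_sub_one_le).trans ?_
    rw [Real.norm_eq_abs, abs_mul, Nat.abs_cast]
    have : (i : ℝ) ≤ b := by exact_mod_cast (mem_range.mp hi).le
    exact (mul_le_mul_of_nonneg_right this (abs_nonneg _)).trans h
  have h2 := norm_sub_norm_le (b : ℂ) (∑ i ∈ range b, circleMap 0 1 θ ^ i)
  rw [Complex.norm_natCast] at h2
  rw [Fej, le_div_iff₀ (by positivity)]
  have h3 : 3 / 4 * (b : ℝ) ≤ ‖∑ i ∈ range b, circleMap 0 1 θ ^ i‖ := by linarith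
  have h4 := pow_le_pow_left₀ (by positivity) h3 2
  nlinarith

theorem Fej_far {b : ℕ} {θ : ℝ} (h0 : |θ| ≤ π) (h : 5 ≤ b * |θ|) :
    Fej b (circleMap 0 1 θ) ≤ 1 / 2 := by
  have b0 : (0 : ℝ) < b := by
    rcases Nat.eq_zero_or_pos b with e | e
    · rw [e] at h; norm_num at h
    · exact_mod_cast e
  have hy : ‖circleMap 0 1 θ‖ = 1 := by simp
  have h1 : ‖∑ i ∈ range b, circleMap 0 1 θ ^ i‖ * ‖circleMap 0 1 θ - 1‖ ≤ 2 := by
    rw [← norm_mul, geom_sum_mul]
    refine (norm_sub_le _ _).trans ?_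
    rw [norm_pow, hy]
    norm_num
  have h2 : 2 / π * |θ| ≤ ‖circleMap 0 1 θ - 1‖ := by
    have e := ms_circ θ 1
    rw [pow_one, Nat.cast_one, one_mul] at e
    rw [e, Complex.norm_exp_I_mul_ofReal_sub_one, norm_mul, Real.norm_eq_abs, Real.norm_eq_abs]
    have a : |θ / 2| = |θ| / 2 := by rw [abs_div, abs_two]
    have := Real.mul_abs_le_abs_sin (x := θ / 2) (by rw [a]; linarith)
    rw [a] at this
    rw [abs_two]
    linarith
  set S := ‖∑ i ∈ range b, circleMap 0 1 θ ^ i‖ with hS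
  have S0 : 0 ≤ S := norm_nonneg _
  have h3 : S * (2 / π * |θ|) ≤ 2 := (mul_le_mul_of_nonneg_left h2 S0).trans h1
  have h4 : S * |θ| ≤ π := by
    have : S * (2 / π * |θ|) = 2 * (S * |θ| / π) := by ring
    rw [this] at h3
    exact (div_le_one pi_pos).mp (by linarith)
  have h5 : 5 * S ≤ 7 / 2 * b := by
    have p := Real.pi_lt_d2
    have a : S * 5 ≤ S * (b * |θ|) := mul_le_mul_of_nonneg_left h S0
    have c : b * (S * |θ|) ≤ b * π := mul_le_mul_of_nonneg_left h4 b0.le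
    nlinarith
  rw [Fej, ← hS, div_le_iff₀ (by positivity)]
  have h6 := pow_le_pow_left₀ (by positivity) h5 2
  nlinarith

/-- An analytic polynomial whose real part on the circle is the kernel of Fejer. -/
noncomputable def msN (b : ℕ) (y : ℂ) : ℂ := ∑ k ∈ range b, (1 + 2 * ∑ i ∈ range k, y ^ (i + 1))

theorem ms_shift (k : ℕ) (y : ℂ) : ∑ i ∈ range k, y ^ (i + 1) = y * ∑ i ∈ range k, y ^ i := by
  rw [mul_sum]
  exact sum_congr rfl fun i _ => pow_succ' y i

theorem msN_re (b : ℕ) {y : ℂ} (hy : ‖y‖ = 1) : (msN b y).re = ‖∑ i ∈ range b, y ^ i‖ ^ 2 := by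
  induction b with
  | zero => simp [msN]
  | succ b ih =>
    have e : ‖∑ i ∈ range b, y ^ i‖ = ‖y * ∑ i ∈ range b, y ^ i‖ := by rw [norm_mul, hy, one_mul]
    rw [msN, sum_range_succ, ← msN, add_re, ih, geom_sum_succ, ms_shift, e]
    generalize y * ∑ i ∈ range b, y ^ i = w
    rw [Complex.sq_norm, Complex.sq_norm, normSq_apply, normSq_apply]
    simp
    ring

theorem ms_gauss (b : ℕ) : ∑ k ∈ range b, (2 * (k : ℝ)) ≤ (b : ℝ) ^ 2 := by
  induction b with
  | zero => simp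
  | succ b ih =>
    rw [sum_range_succ]
    push_cast
    nlinarith

theorem msN_im (b : ℕ) {y : ℂ} (hy : ‖y‖ = 1) : |(msN b y).im| ≤ (b : ℝ) ^ 2 := by
  rw [msN, im_sum]
  refine (abs_sum_le_sum_abs _ _).trans (le_trans (sum_le_sum fun k _ => ?_) (ms_gauss b))
  rw [add_im, one_im, zero_add]
  refine (abs_im_le_norm _).trans ?_
  rw [norm_mul, ms_shift, norm_mul, hy, one_mul, Complex.norm_two]
  exact mul_le_mul_of_nonneg_left (ms_geom_le k hy) two_pos.le

theorem msT_re (b : ℕ) {y : ℂ} (hy : ‖y‖ = 1) : (msN b y / (b : ℂ) ^ 2).re = Fej b y := by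
  rw [← ofReal_natCast, ← ofReal_pow, div_ofReal_re, msN_re b hy, Fej]

theorem msT_im (b : ℕ) {y : ℂ} (hy : ‖y‖ = 1) : |(msN b y / (b : ℂ) ^ 2).im| ≤ 1 := by
  rw [← ofReal_natCast, ← ofReal_pow, div_ofReal_im, abs_div, abs_of_nonneg (sq_nonneg (b : ℝ))]
  exact div_le_one_of_le₀ (msN_im b hy) (sq_nonneg _)

theorem ms_point {F Y : ℂ} {β : ℝ} (β0 : 0 < β) (h1 : F.re ≤ 1)
    (h2 : |F.im| ≤ 1) :
    F.re * ‖Y‖ ≤ (F * Y).re + (β * ‖Y‖ + (1 + 1 / β) * (‖Y‖ - Y.re)) := by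
  have d0 : 0 ≤ ‖Y‖ - Y.re := sub_nonneg.mpr (re_le_norm Y)
  have n0 := norm_nonneg Y
  have e : ‖Y‖ ^ 2 = Y.re ^ 2 + Y.im ^ 2 := by rw [Complex.sq_norm, normSq_apply]; ring
  have a : |Y.im| ≤ β * ‖Y‖ + 1 / β * (‖Y‖ - Y.re) := by
    refine abs_le_of_sq_le_sq' ?_ (by positivity) |> abs_le.mpr
    have t : (β * ‖Y‖ + 1 / β * (‖Y‖ - Y.re)) ^ 2 = (β * ‖Y‖ - 1 / β * (‖Y‖ - Y.re)) ^ 2 +
        4 * (‖Y‖ * (‖Y‖ - Y.re)) := by
      field_simp
      ring
    rw [t]
    nlinarith [sq_nonneg (β * ‖Y‖ - 1 / β * (‖Y‖ - Y.re)), mul_nonneg n0 d0, sq_nonneg (‖Y‖ - Y.re)]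
  have c : F.im * Y.im ≤ |Y.im| := by
    refine (le_abs_self _).trans ?_
    rw [abs_mul]
    exact mul_le_of_le_one_left (abs_nonneg _) h2
  have d : F.re * (‖Y‖ - Y.re) ≤ ‖Y‖ - Y.re := mul_le_of_le_one_left d0 h1
  rw [mul_re]
  nlinarith

theorem ms_norm {r : ℝ} (Z : ℂ → ℂ) :
    ‖circleAverage Z 0 r‖ ≤ circleAverage (fun z => ‖Z z‖) 0 r := by
  rw [circleAverage_def, circleAverage_def, norm_smul, smul_eq_mul, Real.norm_eq_abs,
    abs_of_pos (inv_pos.mpr two_pi_pos)]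
  exact mul_le_mul_of_nonneg_left (intervalIntegral.norm_integral_le_integral_norm two_pi_pos.le)
    (inv_pos.mpr two_pi_pos).le

theorem ms_re {r : ℝ} {Z : ℂ → ℂ} (hZ : CircleIntegrable Z 0 r) (e : ℂ) :
    circleAverage (fun z => (e * Z z).re) 0 r = (e * circleAverage Z 0 r).re := by
  have h := reCLM.circleAverage_comp_comm (f := fun z => e • Z z) (hZ.const_smul (a := e))
  rw [circleAverage_fun_smul] at h
  exact h

theorem ms_key {r : ℝ} (r0 : 0 < r) {F Z : ℂ → ℂ} (hF : ContinuousOn F (sphere 0 r))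
    (hZ : ContinuousOn Z (sphere 0 r)) {f : ℂ → ℝ} (hf : ∀ z ∈ sphere (0 : ℂ) r, (F z).re = f z)
    (h1 : ∀ z ∈ sphere (0 : ℂ) r, f z ≤ 1) (h2 : ∀ z ∈ sphere (0 : ℂ) r, |(F z).im| ≤ 1)
    {x m β : ℝ} (β0 : 0 < β) (hm : circleAverage (fun z => ‖Z z‖) 0 r ≤ m)
    (hx : m ≤ ‖circleAverage Z 0 r‖ + x) :
    circleAverage (fun z => f z * ‖Z z‖) 0 r ≤
      ‖circleAverage (fun z => F z * Z z) 0 r‖ + (x + β * m + x / β) := by
  obtain ⟨e, e1, e2⟩ : ∃ e : ℂ, ‖e‖ = 1 ∧ (e * circleAverage Z 0 r).re = ‖circleAverage Z 0 r‖ := by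
    obtain ⟨e, a, c⟩ := Complex.exists_norm_mul_eq_self (circleAverage Z 0 r)
    refine ⟨conj e, by rw [Complex.norm_conj, a], ?_⟩
    nth_rewrite 1 [← c]
    rw [← mul_assoc, Complex.conj_mul', a]
    simp
  have ar : |r| = r := abs_of_pos r0
  have iZ : CircleIntegrable Z 0 r := hZ.circleIntegrable r0.le
  have iFZ : CircleIntegrable (fun z => F z * Z z) 0 r := (hF.mul hZ).circleIntegrable r0.le
  have iN : CircleIntegrable (fun z => ‖Z z‖) 0 r := hZ.norm.circleIntegrable r0.le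
  have cR : ∀ {G : ℂ → ℂ}, ContinuousOn G (sphere 0 r) →
      CircleIntegrable (fun z => (e * G z).re) 0 r := fun hG =>
    (continuous_re.comp_continuousOn (continuousOn_const.mul hG)).circleIntegrable r0.le
  have iA : CircleIntegrable (fun z => β • ‖Z z‖) 0 r := iN.const_smul (a := β)
  have iD : CircleIntegrable (fun z => ‖Z z‖ - (e * Z z).re) 0 r := iN.sub (cR hZ)
  have iB : CircleIntegrable (fun z => (1 + 1 / β) • (‖Z z‖ - (e * Z z).re)) 0 r :=
    iD.const_smul (a := 1 + 1 / β)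
  have iC : CircleIntegrable (fun z => (e * (F z * Z z)).re) 0 r := cR (hF.mul hZ)
  have iS : CircleIntegrable (fun z => β • ‖Z z‖ + (1 + 1 / β) • (‖Z z‖ - (e * Z z).re)) 0 r :=
    iA.add iB
  have hc : circleAverage (fun z => f z * ‖Z z‖) 0 r =
      circleAverage (fun z => (F z).re * ‖Z z‖) 0 r :=
    circleAverage_congr_sphere fun z hz => by rw [ar] at hz; simp only [hf z hz]
  have hle : circleAverage (fun z => (F z).re * ‖Z z‖) 0 r ≤ circleAverage (fun z =>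
      (e * (F z * Z z)).re + (β • ‖Z z‖ + (1 + 1 / β) • (‖Z z‖ - (e * Z z).re))) 0 r := by
    refine circleAverage_mono (((continuous_re.comp_continuousOn hF).mul hZ.norm).circleIntegrable
      r0.le) (iC.add iS) fun z hz => ?_
    rw [ar] at hz
    have := ms_point (F := F z) (Y := e * Z z) β0 (by rw [hf z hz]; exact h1 z hz) (h2 z hz)
    rw [norm_mul, e1, one_mul, mul_left_comm] at this
    exact this
  rw [circleAverage_fun_add iC iS, circleAverage_fun_add iA iB,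
    circleAverage_fun_smul, circleAverage_fun_smul, circleAverage_fun_sub iN (cR hZ), ms_re iZ,
    ms_re iFZ, e2, smul_eq_mul, smul_eq_mul] at hle
  have a : (e * circleAverage (fun z => F z * Z z) 0 r).re ≤
      ‖circleAverage (fun z => F z * Z z) 0 r‖ :=
    (re_le_norm _).trans (by rw [norm_mul, e1, one_mul])
  have c : β * circleAverage (fun z => ‖Z z‖) 0 r ≤ β * m := mul_le_mul_of_nonneg_left hm β0.le
  have d : (1 + 1 / β) * (circleAverage (fun z => ‖Z z‖) 0 r - ‖circleAverage Z 0 r‖) ≤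
      (1 + 1 / β) * x := mul_le_mul_of_nonneg_left (by linarith) (by positivity)
  have g : (1 + 1 / β) * x = x + x / β := by ring
  rw [hc]
  linarith

theorem ms_cont {W : ℂ → ℂ} (hW : DifferentiableOn ℂ W (closedBall 0 1)) {r : ℝ} (r0 : 0 < r)
    (r1 : r ≤ 1) (k : ℕ) : ContinuousOn (fun z => W z / z ^ k) (sphere 0 r) := by
  refine (hW.continuousOn.mono (sphere_subset_closedBall.trans
    (closedBall_subset_closedBall r1))).div (by fun_prop) fun z hz => pow_ne_zero _ ?_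
  rw [mem_sphere_zero_iff_norm] at hz
  exact norm_pos_iff.mp (hz ▸ r0)

theorem ms_unit {r : ℝ} (r0 : 0 < r) {z : ℂ} (hz : z ∈ sphere (0 : ℂ) r) : ‖z / r‖ = 1 := by
  rw [mem_sphere_zero_iff_norm] at hz
  rw [norm_div, hz, norm_real, Real.norm_eq_abs, abs_of_pos r0, div_self r0.ne']

theorem ms_avgN {r : ℝ} (r0 : 0 < r) {y Z : ℂ → ℂ} (hy : ContinuousOn y (sphere 0 r))
    (hZ : ContinuousOn Z (sphere 0 r)) (b : ℕ) :
    circleAverage (fun z => msN b (y z) / (b : ℂ) ^ 2 * Z z) 0 r =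
      (∑ k ∈ range b, (circleAverage Z 0 r +
        2 * ∑ i ∈ range k, circleAverage (fun z => y z ^ (i + 1) * Z z) 0 r)) / (b : ℂ) ^ 2 := by
  have c1 : ∀ i : ℕ, ContinuousOn (fun z => y z ^ (i + 1) * Z z) (sphere 0 r) := fun i =>
    (hy.pow _).mul hZ
  have c2 : ∀ k : ℕ, ContinuousOn (fun z => ∑ i ∈ range k, y z ^ (i + 1) * Z z) (sphere 0 r) :=
    fun k => continuousOn_finsetSum _ fun i _ => c1 i
  have e : (fun z => msN b (y z) / (b : ℂ) ^ 2 * Z z) = fun z => ((b : ℂ) ^ 2)⁻¹ •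
      ∑ k ∈ range b, (Z z + (2 : ℂ) • ∑ i ∈ range k, y z ^ (i + 1) * Z z) := by
    funext z
    rw [msN, smul_eq_mul, div_eq_inv_mul, mul_assoc, sum_mul]
    congr 1
    refine sum_congr rfl fun k _ => ?_
    rw [add_mul, one_mul, mul_assoc, sum_mul, smul_eq_mul]
  have c3 : ∀ k : ℕ, ContinuousOn (fun z => (2 : ℂ) • ∑ i ∈ range k, y z ^ (i + 1) * Z z)
      (sphere 0 r) := fun k => (c2 k).const_smul (2 : ℂ)
  have c4 : ∀ k : ℕ, ContinuousOn (fun z => Z z + (2 : ℂ) • ∑ i ∈ range k, y z ^ (i + 1) * Z z)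
      (sphere 0 r) := fun k => hZ.add (c3 k)
  rw [e, circleAverage_fun_smul, circleAverage_fun_sum fun k _ =>
    (c4 k).circleIntegrable r0.le, smul_eq_mul, div_eq_inv_mul]
  congr 1
  refine sum_congr rfl fun k _ => ?_
  rw [circleAverage_fun_add (hZ.circleIntegrable r0.le)
    ((c3 k).circleIntegrable r0.le), circleAverage_fun_smul,
    circleAverage_fun_sum fun i _ => (c1 i).circleIntegrable r0.le, smul_eq_mul]

theorem ms_msN_cont (b : ℕ) : Continuous (msN b) := by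
  unfold msN
  fun_prop

theorem ms_low {W : ℂ → ℂ} (hW : DifferentiableOn ℂ W (closedBall 0 1)) {r : ℝ} (r0 : 0 < r)
    (r1 : r ≤ 1) {k j : ℕ} (hj : j ≤ k) :
    circleAverage (fun z => (z / r) ^ j * (W z / z ^ k)) 0 r = coeff (k - j) (tay W) / (r : ℂ) ^ j := by
  rw [← avgR hW r0 r1, div_eq_inv_mul, ← smul_eq_mul, ← circleAverage_fun_smul]
  refine circleAverage_congr_sphere fun z hz => ?_
  rw [mem_sphere_zero_iff_norm, abs_of_pos r0] at hz
  have z0 : z ≠ 0 := norm_pos_iff.mp (hz ▸ r0)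
  have rr : (r : ℂ) ≠ 0 := by exact_mod_cast r0.ne'
  obtain ⟨n, rfl⟩ := Nat.exists_eq_add_of_le hj
  simp only [smul_eq_mul, Nat.add_sub_cancel_left, pow_add, div_pow]
  field_simp

theorem ms_high {W : ℂ → ℂ} (hW : DifferentiableOn ℂ W (closedBall 0 1)) {r : ℝ} (r0 : 0 < r)
    (r1 : r ≤ 1) {k j : ℕ} (hj : k < j) (c : ℂ) :
    circleAverage (fun z => (c * z) ^ j * (W z / z ^ k)) 0 r = 0 := by
  obtain ⟨n, rfl⟩ := Nat.exists_eq_add_of_lt hj
  have h := avgR (G := fun z => c ^ (k + n + 1) * z ^ (n + 1) * W z)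
    (DifferentiableOn.mul (by fun_prop) hW) r0 r1 0
  rw [tay_coeff_zero] at h
  refine Eq.trans (circleAverage_congr_sphere fun z hz => ?_) (h.trans (by simp))
  rw [mem_sphere_zero_iff_norm, abs_of_pos r0] at hz
  have z0 : z ≠ 0 := norm_pos_iff.mp (hz ▸ r0)
  simp only [mul_pow, pow_add]
  field_simp

theorem mass_wide {W : ℂ → ℂ} (hW : DifferentiableOn ℂ W (closedBall 0 1)) {J b : ℕ} (hb : 1 ≤ b)
    (hbJ : b ≤ J) {r : ℝ} (r0 : 0 < r) (r1 : r ≤ 1) {x m E β : ℝ} (β0 : 0 < β)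
    (hm : circleAverage (fun z => ‖W z / z ^ (J - 1)‖) 0 r ≤ m)
    (hx : m ≤ ‖coeff (J - 1) (tay W)‖ + x)
    (hE : ∀ j < b, ‖coeff (J - 1) (tay W) - coeff (J - 1 - j) (tay W) / (r : ℂ) ^ j‖ ≤ E) :
    circleAverage (fun z => (1 - Fej b (z / r)) * ‖W z / z ^ (J - 1)‖) 0 r ≤
      E + (x + β * m + x / β) := by
  have hZ := ms_cont hW r0 r1 (J - 1)
  have hy : ContinuousOn (fun z : ℂ => z / r) (sphere 0 r) := by fun_prop
  have hT : ContinuousOn (fun z : ℂ => msN b (z / r) / (b : ℂ) ^ 2) (sphere 0 r) :=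
    ((ms_msN_cont b).comp_continuousOn hy).div_const _
  have b0 : (0 : ℝ) < b := by exact_mod_cast hb
  have E0 : 0 ≤ E := (norm_nonneg _).trans (hE 0 hb)
  refine (ms_key r0 (F := fun z => 1 - msN b (z / r) / (b : ℂ) ^ 2) (continuousOn_const.sub hT) hZ
    (fun z hz => by rw [sub_re, one_re, msT_re b (ms_unit r0 hz)])
    (fun z _ => sub_le_self _ (Fej_nonneg _ _))
    (fun z hz => by rw [sub_im, one_im, zero_sub, abs_neg]; exact msT_im b (ms_unit r0 hz)) β0 hm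
    (by rwa [avgR hW r0 r1])).trans (add_le_add_left ?_ _)
  simp only [sub_mul, one_mul]
  have hP : ContinuousOn (fun z : ℂ => msN b (z / r) / (b : ℂ) ^ 2 * (W z / z ^ (J - 1)))
      (sphere 0 r) := hT.mul hZ
  rw [circleAverage_fun_sub (hZ.circleIntegrable r0.le) (hP.circleIntegrable r0.le),
    ms_avgN r0 hy hZ, avgR hW r0 r1]
  set c := coeff (J - 1) (tay W) with hc
  have bc : ((b : ℂ) ^ 2) ≠ 0 := pow_ne_zero _ (by exact_mod_cast b0.ne')
  have g : ∀ n : ℕ, ∑ k ∈ range n, (1 + 2 * (k : ℂ)) = (n : ℂ) ^ 2 := fun n => by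
    induction n with
    | zero => simp
    | succ n ih => rw [sum_range_succ, ih]; push_cast; ring
  have e : c - (∑ k ∈ range b, (c + 2 * ∑ i ∈ range k, circleAverage
      (fun z => (z / r) ^ (i + 1) * (W z / z ^ (J - 1))) 0 r)) / (b : ℂ) ^ 2 =
      (∑ k ∈ range b, 2 * ∑ i ∈ range k,
        (c - coeff (J - 1 - (i + 1)) (tay W) / (r : ℂ) ^ (i + 1))) / (b : ℂ) ^ 2 := by
    rw [eq_div_iff bc, sub_mul, div_mul_cancel₀ _ bc, ← g, mul_sum, ← sum_sub_distrib]
    refine sum_congr rfl fun k hk => ?_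
    rw [sum_sub_distrib, sum_const, card_range, nsmul_eq_mul,
      sum_congr rfl fun i hi => ms_low hW r0 r1 (k := J - 1) (j := i + 1) (by
        have := mem_range.mp hi
        have := mem_range.mp hk
        omega)]
    ring
  rw [e, norm_div, norm_pow, Complex.norm_natCast, div_le_iff₀ (by positivity)]
  refine (norm_sum_le_of_le (n := fun k : ℕ => E * (2 * (k : ℝ))) _ fun k hk => ?_).trans ?_
  · rw [norm_mul, Complex.norm_two]
    have := norm_sum_le_of_le (n := fun _ => E) (range k) fun i hi => hE (i + 1) (by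
      have := mem_range.mp hi
      have := mem_range.mp hk
      omega)
    rw [sum_const, card_range, nsmul_eq_mul] at this
    linarith
  · rw [← mul_sum]
    exact mul_le_mul_of_nonneg_left (ms_gauss b) E0

theorem mass_narrow {W : ℂ → ℂ} (hW : DifferentiableOn ℂ W (closedBall 0 1)) {J b : ℕ}
    (hJ : 1 ≤ J) (hb : 1 ≤ b) {r : ℝ} (r0 : 0 < r) (r1 : r ≤ 1) {x m β : ℝ} (β0 : 0 < β)
    (hm : circleAverage (fun z => ‖W z / z ^ (J - 1)‖) 0 r ≤ m)
    (hx : m ≤ ‖coeff (J - 1) (tay W)‖ + x) {u : ℂ} (hu : ‖u‖ = 1) :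
    circleAverage (fun z => Fej b (u * (z / r)) * ‖W z / z ^ (J - 1)‖) 0 r ≤
      2 * J / b * m + (x + β * m + x / β) := by
  have hZ := ms_cont hW r0 r1 (J - 1)
  have hy : ContinuousOn (fun z : ℂ => u * (z / r)) (sphere 0 r) := by fun_prop
  have hT : ContinuousOn (fun z : ℂ => msN b (u * (z / r)) / (b : ℂ) ^ 2) (sphere 0 r) :=
    ((ms_msN_cont b).comp_continuousOn hy).div_const _
  have b0 : (0 : ℝ) < b := by exact_mod_cast hb
  have y1 : ∀ z ∈ sphere (0 : ℂ) r, ‖u * (z / r)‖ = 1 := fun z hz => by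
    rw [norm_mul, hu, ms_unit r0 hz, one_mul]
  have z0 : ‖circleAverage (fun z => W z / z ^ (J - 1)) 0 r‖ ≤ m := (ms_norm _).trans hm
  have m0 : 0 ≤ m := (norm_nonneg _).trans z0
  refine (ms_key r0 hT hZ (fun z hz => msT_re b (y1 z hz)) (fun z hz => Fej_le_one b (y1 z hz))
    (fun z hz => msT_im b (y1 z hz)) β0 hm (by rwa [avgR hW r0 r1])).trans (add_le_add_left ?_ _)
  rw [ms_avgN r0 hy hZ, norm_div, norm_pow, Complex.norm_natCast, div_le_iff₀ (by positivity)]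
  have a : ∀ i : ℕ, ‖circleAverage (fun z => (u * (z / r)) ^ (i + 1) * (W z / z ^ (J - 1))) 0 r‖ ≤
      if i ∈ range (J - 1) then m else 0 := fun i => by
    split_ifs with hi
    · refine (ms_norm _).trans (le_trans (le_of_eq ?_) hm)
      refine circleAverage_congr_sphere fun z hz => ?_
      rw [abs_of_pos r0] at hz
      simp only [norm_mul (_ ^ (i + 1)), norm_pow (u * _), y1 z hz, one_pow, one_mul]
    · have := ms_high hW r0 r1 (k := J - 1) (j := i + 1) (by rw [Finset.mem_range] at hi; omega) (u / r)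
      simp only [div_mul_eq_mul_div, mul_div_assoc u] at this
      rw [this, norm_zero]
  refine (norm_sum_le_of_le (n := fun _ => 2 * J * m) _ fun k _ => ?_).trans ?_
  · refine (norm_add_le _ _).trans ?_
    rw [norm_mul, Complex.norm_two]
    have c := norm_sum_le_of_le (range k) fun i _ => a i
    rw [sum_ite_mem, sum_const, nsmul_eq_mul] at c
    have d : (#(range k ∩ range (J - 1)) : ℝ) + 1 ≤ J := by
      have := Finset.card_le_card (Finset.inter_subset_right (s₁ := range k) (s₂ := range (J - 1)))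
      rw [card_range] at this
      exact_mod_cast (by omega : #(range k ∩ range (J - 1)) + 1 ≤ J)
    nlinarith
  · rw [sum_const, card_range, nsmul_eq_mul]
    refine le_of_eq ?_
    field_simp

end Pool.Agent.P.MP_c09211_an.Sh
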