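import Pool.Agent.P.MP_c09211_an.Sh.Win
import Pool.Agent.P.MP_c09211_an.Sh.Mass

/-!
The lower bound for the mean on one circle.
-/

set_option autoImplicit false

namespace Pool.Agent.P.MP_c09211_an.Sh

open Metric Set Finset PowerSeries Complex Filter Topology Real
open scoped ComplexConjugate

/-- Outside few cells of the arc `|θ| ≤ A / J` the weight `q` is nearly constant on arcs of
length `γ / J`. -/
def Geo (J : ℕ) (A τ η β γ r : ℝ) (q : ℂ → ℂ) : Prop :=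
  ∃ T : Finset ℤ, T.card * τ ≤ η ∧ ∀ j : ℤ, j ∉ T → -A ≤ j * τ → (j + 1) * τ ≤ A →
    ∀ φ ∈ Set.Icc (j * τ / J) ((j + 1) * τ / J), ∀ θ : ℝ, |θ - φ| ≤ γ / J →
      ‖q (circleMap 0 r θ) - q (circleMap 0 r φ)‖ ≤ β * ‖q (circleMap 0 r θ)‖

private theorem circ_chord {φ t r : ℝ} (h : |φ - t| ≤ π) (hr : 3 / 4 ≤ r) :
    |φ - t| / 4 ≤ ‖circleMap 0 1 φ - circleMap 0 r t‖ := by
  have e : ‖circleMap 0 1 φ - circleMap 0 r t‖ ^ 2 = 1 + r ^ 2 - 2 * r * Real.cos (φ - t) := by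
    rw [Complex.sq_norm, Complex.normSq_apply]
    simp only [circleMap, zero_add, ofReal_one, one_mul, sub_re, sub_im, mul_re, mul_im, ofReal_re,
      ofReal_im, zero_mul, sub_zero, add_zero, exp_ofReal_mul_I_re, exp_ofReal_mul_I_im,
      Real.cos_sub]
    linear_combination Real.sin_sq_add_cos_sq φ + r ^ 2 * Real.sin_sq_add_cos_sq t
  have c := Real.cos_le_one_sub_mul_cos_sq h
  have p : (1 : ℝ) / 8 ≤ 2 / π ^ 2 := by
    rw [div_le_div_iff₀ (by norm_num) (by positivity)]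
    nlinarith [Real.pi_le_four, Real.pi_pos]
  have c' : Real.cos (φ - t) ≤ 1 - 1 / 8 * (φ - t) ^ 2 :=
    c.trans (by nlinarith [sq_nonneg (φ - t)])
  refine (sq_le_sq₀ (by positivity) (norm_nonneg _)).mp ?_
  rw [e, div_pow, sq_abs]
  nlinarith [sq_nonneg (1 - r), sq_nonneg (φ - t),
    mul_le_mul_of_nonneg_left c' (show 0 ≤ 2 * r by linarith),
    mul_le_mul_of_nonneg_right hr (sq_nonneg (φ - t))]

private theorem circ_angle (φ : ℝ) {r : ℝ} {z : ℂ} (hz : ‖z‖ = r) :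
    ∃ t : ℝ, z = circleMap 0 r t ∧ |t - φ| ≤ π := by
  refine ⟨φ + arg (z / exp (φ * I)), ?_, by simpa using abs_arg_le_pi _⟩
  have h := norm_mul_exp_arg_mul_I (z / exp (φ * I))
  rw [norm_div, norm_exp_ofReal_mul_I, div_one, hz, eq_div_iff (Complex.exp_ne_zero _)] at h
  rw [circleMap, zero_add]
  push_cast
  rw [add_mul, Complex.exp_add]
  linear_combination -h

private theorem circ_floor {y : ℝ} (h : 1 ≤ y) : y / 2 ≤ (⌊y⌋₊ : ℝ) := by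
  have a := Nat.lt_floor_add_one y
  have b : (1 : ℝ) ≤ ⌊y⌋₊ := by exact_mod_cast (Nat.one_le_floor_iff y).mpr h
  linarith

private theorem circ_div {r : ℝ} (hr : 0 < r) (t : ℝ) :
    circleMap 0 r t / r = circleMap 0 1 t := by
  have : (r : ℂ) ≠ 0 := by exact_mod_cast hr.ne'
  simp only [circleMap, zero_add, ofReal_one, one_mul]
  field_simp

private theorem circ_mul (s t : ℝ) : circleMap 0 1 s * circleMap 0 1 t = circleMap 0 1 (s + t) := by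
  simp only [circleMap, zero_add, ofReal_one, one_mul]
  push_cast
  rw [add_mul, Complex.exp_add]

/-- The point `u` of the unit circle lies in a good cell. -/
private def Good (J : ℕ) (A τ : ℝ) (T : Finset ℤ) (u : ℂ) : Prop :=
  ∃ (φ : ℝ) (j : ℤ), u = circleMap 0 1 φ ∧ j ∉ T ∧ -A ≤ j * τ ∧ (j + 1) * τ ≤ A ∧
    φ ∈ Set.Icc (j * τ / J) ((j + 1) * τ / J)

private theorem circ_pt {M J b b' : ℕ} {κ : ℕ → ℂ → ℂ} (hκ : Ker M κ) {cen : ℕ → ℂ}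
    (hc : ∀ w, ‖cen w‖ = 1) {A τ γ t₀ r : ℝ} {T : Finset ℤ} {S : Finset ℕ}
    (hS : ∀ w ∈ range (M + 1), Good J A τ T (cen w) → w ∈ S)
    (tail : ∀ w z, ‖z‖ ≤ 1 → γ / (4 * J) ≤ ‖cen w - z‖ → ‖κ w z‖ ≤ t₀) (t0 : 0 ≤ t₀)
    (hJ : 0 < J) (τ0 : 0 < τ) (τ1 : τ ≤ 1) (γτ : γ ≤ τ / 2) (r0 : 3 / 4 ≤ r) (r1 : r ≤ 1)
    (hb : 5 * (J : ℝ) ≤ b * (A - 2)) (hb1 : 1 ≤ b') (hb2 : b' * τ ≤ J / 4) {z : ℂ}
    (hz : ‖z‖ = r) :
    ∑ w ∈ range (M + 1) \ S, ‖κ w z‖ ≤ (M + 1) * t₀ + 2 * (1 - Fej b (z / r)) +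
      ∑ j ∈ T, 2 * Fej b' (circleMap 0 1 (-((j + 1 / 2) * τ / J)) * (z / r)) := by
  have rp : 0 < r := by linarith
  have Jp : (0 : ℝ) < J := by exact_mod_cast hJ
  obtain ⟨t, rfl, ht⟩ := circ_angle 0 hz
  rw [sub_zero] at ht
  rw [circ_div rp]
  have n1 : 0 ≤ ((M : ℝ) + 1) * t₀ := by positivity
  have n2 : 0 ≤ 2 * (1 - Fej b (circleMap 0 1 t)) := by
    have := Fej_le_one b (y := circleMap 0 1 t) (by simp)
    linarith
  have n3 : ∀ j ∈ T, 0 ≤ 2 * Fej b' (circleMap 0 1 (-((j + 1 / 2) * τ / J)) * circleMap 0 1 t) :=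
    fun j _ => mul_nonneg zero_le_two (Fej_nonneg _ _)
  have n4 := sum_nonneg n3
  by_cases h : ∀ w ∈ range (M + 1) \ S, γ / (4 * J) ≤ ‖cen w - circleMap 0 r t‖
  · have a := sum_le_card_nsmul (range (M + 1) \ S) (fun w => ‖κ w (circleMap 0 r t)‖) t₀
      fun w hw => tail w _ (hz.trans_le r1) (h w hw)
    have c : ((range (M + 1) \ S).card : ℝ) ≤ M + 1 := by
      have := Finset.card_le_card (Finset.sdiff_subset (s := range (M + 1)) (t := S))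
      rw [card_range] at this
      exact_mod_cast this
    rw [nsmul_eq_mul] at a
    have := mul_le_mul_of_nonneg_right c t0
    linarith
  push Not at h
  obtain ⟨w, hw, hl⟩ := h
  have s1 : ∑ w ∈ range (M + 1) \ S, ‖κ w (circleMap 0 r t)‖ ≤ 1 :=
    (sum_le_sum_of_subset_of_nonneg sdiff_subset fun _ _ _ => norm_nonneg _).trans
      (hκ.2.2.1 _ (hz.trans_le r1))
  obtain ⟨φ, hφ, hφt⟩ := circ_angle t (hc w)
  have ch := circ_chord hφt r0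
  rw [← hφ] at ch
  have d : |φ - t| * J < γ := by
    have := ch.trans_lt hl
    rw [div_lt_div_iff₀ (by norm_num) (by positivity)] at this
    linarith
  obtain ⟨d1, d2⟩ : -γ < (φ - t) * J ∧ (φ - t) * J < γ := by
    rw [← abs_lt, abs_mul, abs_of_pos Jp]
    exact d
  set j := ⌊φ * J / τ⌋ with hj
  have j1 : j * τ ≤ φ * J := (le_div_iff₀ τ0).mp (Int.floor_le _)
  have j2 : φ * J < (j + 1) * τ := (div_lt_iff₀ τ0).mp (Int.lt_floor_add_one _)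
  by_cases hT : j ∈ T
  · have a := single_le_sum n3 hT
    have e : (1 : ℝ) / 2 ≤ Fej b' (circleMap 0 1 (-((j + 1 / 2) * τ / J)) * circleMap 0 1 t) := by
      rw [circ_mul]
      refine Fej_near hb1 ?_
      have f : |-((j + 1 / 2) * τ / J) + t| ≤ τ / J := by
        have g : -((j + 1 / 2) * τ / J) + t = (t * J - (j + 1 / 2) * τ) / J := by
          field_simp
          ring
        rw [g, abs_div, abs_of_pos Jp]
        refine div_le_div_of_nonneg_right (abs_le.mpr ⟨?_, ?_⟩) Jp.le <;> nlinarith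
      refine (mul_le_mul_of_nonneg_left f (Nat.cast_nonneg _)).trans ?_
      rw [← mul_div_assoc, div_le_iff₀ Jp]
      linarith
    linarith
  · have far : A - 2 ≤ |t| * J := by
      by_contra hn
      push Not at hn
      obtain ⟨f1, f2⟩ : -(A - 2) < t * J ∧ t * J < A - 2 := by
        rw [← abs_lt, abs_mul, abs_of_pos Jp]
        exact hn
      refine (mem_sdiff.mp hw).2 (hS w (mem_sdiff.mp hw).1 ⟨φ, j, hφ, hT, ?_, ?_, ?_, ?_⟩)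
      · nlinarith
      · nlinarith
      · rw [div_le_iff₀ Jp]; exact j1
      · rw [le_div_iff₀ Jp]; exact j2.le
    have e : Fej b (circleMap 0 1 t) ≤ 1 / 2 := by
      refine Fej_far ht (le_of_mul_le_mul_right ?_ Jp)
      have := mul_le_mul_of_nonneg_left far (Nat.cast_nonneg (α := ℝ) b)
      linarith
    linarith

private theorem circ_fej (b : ℕ) : Continuous (Fej b) := by
  unfold Fej
  fun_prop

private theorem circ_avg {V F : ℂ → ℝ} {b b' : ℕ} {r : ℝ} (r0 : 0 < r)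
    (hV : ContinuousOn V (sphere 0 r)) (V0 : ∀ z, 0 ≤ V z) (hF : ContinuousOn F (sphere 0 r))
    {T : Finset ℤ} {u : ℤ → ℂ} {a m P Q : ℝ} (a0 : 0 ≤ a)
    (hpt : ∀ z : ℂ, ‖z‖ = r →
      F z ≤ a + 2 * (1 - Fej b (z / r)) + ∑ j ∈ T, 2 * Fej b' (u j * (z / r)))
    (hm : circleAverage V 0 r ≤ m)
    (hP : circleAverage (fun z => (1 - Fej b (z / r)) * V z) 0 r ≤ P)
    (hQ : ∀ j, circleAverage (fun z => Fej b' (u j * (z / r)) * V z) 0 r ≤ Q) :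
    circleAverage (fun z => F z * V z) 0 r ≤ a * m + 2 * P + T.card * (2 * Q) := by
  have c1 : Continuous fun z : ℂ => Fej b (z / r) := (circ_fej b).comp (by fun_prop)
  have c2 : ∀ j, Continuous fun z : ℂ => Fej b' (u j * (z / r)) :=
    fun j => (circ_fej b').comp (by fun_prop)
  have i1 : CircleIntegrable (fun z => a • V z) 0 r :=
    (hV.const_smul a).circleIntegrable r0.le
  have k2 : ContinuousOn (fun z => (2 : ℝ) • ((1 - Fej b (z / r)) * V z)) (sphere 0 r) :=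
    ((continuous_const.sub c1).continuousOn.mul hV).const_smul (2 : ℝ)
  have i2 := k2.circleIntegrable r0.le
  have k3 : ∀ j, ContinuousOn (fun z => (2 : ℝ) • (Fej b' (u j * (z / r)) * V z)) (sphere 0 r) :=
    fun j => ((c2 j).continuousOn.mul hV).const_smul (2 : ℝ)
  have i3 : CircleIntegrable
      (fun z => ∑ j ∈ T, (2 : ℝ) • (Fej b' (u j * (z / r)) * V z)) 0 r :=
    (continuousOn_finsetSum T fun j _ => k3 j).circleIntegrable r0.le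
  have i12 : CircleIntegrable
      (fun z => a • V z + (2 : ℝ) • ((1 - Fej b (z / r)) * V z)) 0 r := i1.add i2
  have i123 : CircleIntegrable (fun z => (a • V z + (2 : ℝ) • ((1 - Fej b (z / r)) * V z)) +
      ∑ j ∈ T, (2 : ℝ) • (Fej b' (u j * (z / r)) * V z)) 0 r := i12.add i3
  refine (circleAverage_mono ((hF.mul hV).circleIntegrable r0.le) i123 fun z hz => ?_).trans ?_
  · rw [abs_of_pos r0, mem_sphere_zero_iff_norm] at hz
    refine (mul_le_mul_of_nonneg_right (hpt z hz) (V0 z)).trans (le_of_eq ?_)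
    simp only [smul_eq_mul, add_mul, sum_mul, mul_assoc]
  rw [circleAverage_fun_add i12 i3, circleAverage_fun_add i1 i2,
    circleAverage_fun_sum fun j _ => (k3 j).circleIntegrable r0.le, circleAverage_fun_smul,
    circleAverage_fun_smul, smul_eq_mul, smul_eq_mul]
  have s := sum_le_card_nsmul T
    (fun j => circleAverage (fun z => (2 : ℝ) • (Fej b' (u j * (z / r)) * V z)) 0 r) (2 * Q)
    fun j _ => by
      rw [circleAverage_fun_smul, smul_eq_mul]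
      linarith [hQ j]
  rw [nsmul_eq_mul] at s
  have := mul_le_mul_of_nonneg_left hm a0
  linarith

private theorem circ_bern {r d : ℝ} (r0 : 0 ≤ r) (h : 1 - d ≤ r) (n : ℕ) : 1 - n * d ≤ r ^ n := by
  have a := one_add_mul_le_pow (a := r - 1) (by linarith) n
  rw [add_sub_cancel] at a
  have := mul_le_mul_of_nonneg_left h (Nat.cast_nonneg (α := ℝ) n)
  linarith

private theorem circ_E {W : ℂ⟦X⟧} {J b : ℕ} {e : ℂ} (he : ‖e‖ = 1) {ε₂ L r B : ℝ} (e1 : ε₂ ≤ 1)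
    (L0 : 0 ≤ L) (hJ : 0 < J)
    (hc : ∀ j < J, ‖coeff (J - 1 - j) W - e * J * ((J : ℂ) - j) ^ 2‖ ≤ ε₂ * (J : ℝ) ^ 3)
    (hr : 1 - L / (J : ℝ) ^ 2 ≤ r) (r0 : 0 ≤ r) (r1 : r ≤ 1) (hL : L / J ≤ 1 / 2) (hb : b ≤ J)
    (hB : (b : ℝ) ≤ B * J) (j : ℕ) (hj : j < b) :
    ‖coeff (J - 1) W - coeff (J - 1 - j) W / (r : ℂ) ^ j‖ ≤
      (2 * ε₂ + 2 * B + 4 * (L / J)) * (J : ℝ) ^ 3 := by
  have Jp : (0 : ℝ) < J := by exact_mod_cast hJ
  have jJ : (j : ℝ) ≤ J := by exact_mod_cast (hj.le.trans hb)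
  have jB : (j : ℝ) ≤ B * J := le_trans (by exact_mod_cast hj.le) hB
  have j0 : (0 : ℝ) ≤ j := Nat.cast_nonneg _
  have a0 := hc 0 hJ
  have aj := hc j (hj.trans_le hb)
  rw [Nat.sub_zero, Nat.cast_zero, sub_zero] at a0
  set a := coeff (J - 1) W
  set c := coeff (J - 1 - j) W
  have s1 : 1 - L / J ≤ r ^ j := by
    refine le_trans ?_ (circ_bern r0 hr j)
    have : (j : ℝ) * (L / (J : ℝ) ^ 2) ≤ J * (L / (J : ℝ) ^ 2) :=
      mul_le_mul_of_nonneg_right jJ (by positivity)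
    have e : (J : ℝ) * (L / (J : ℝ) ^ 2) = L / J := by field_simp
    linarith
  have s2 : r ^ j ≤ 1 := pow_le_one₀ r0 r1
  have s0 : 0 < r ^ j := by linarith
  have n1 : ‖e * J * ((J : ℂ) - j) ^ 2‖ = J * ((J : ℝ) - j) ^ 2 := by
    rw [norm_mul, norm_mul, he, one_mul, norm_pow, Complex.norm_natCast]
    have : ((J : ℂ) - j) = (((J : ℝ) - j : ℝ) : ℂ) := by push_cast; ring
    rw [this, norm_real, Real.norm_eq_abs, sq_abs]
  have n2 : ‖c‖ ≤ 2 * (J : ℝ) ^ 3 := by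
    have h1 := norm_le_norm_add_norm_sub' c (e * J * ((J : ℂ) - j) ^ 2)
    have h2 : ((J : ℝ) - j) ^ 2 ≤ (J : ℝ) ^ 2 := by nlinarith
    have h3 := mul_le_mul_of_nonneg_left h2 Jp.le
    have h4 := mul_le_mul_of_nonneg_right e1 (pow_pos Jp 3).le
    rw [n1] at h1
    nlinarith
  have n3 : ‖e * J * ((J : ℂ) ^ 2 - ((J : ℂ) - j) ^ 2)‖ ≤ 2 * B * (J : ℝ) ^ 3 := by
    have : ((J : ℂ) ^ 2 - ((J : ℂ) - j) ^ 2) = ((j * (2 * J - j) : ℝ) : ℂ) := by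
      push_cast; ring
    rw [norm_mul, norm_mul, he, one_mul, Complex.norm_natCast, this, norm_real,
      Real.norm_of_nonneg (mul_nonneg j0 (by linarith))]
    have h1 : (j : ℝ) * (2 * J - j) ≤ B * J * (2 * J) :=
      mul_le_mul jB (by linarith) (by linarith) (j0.trans jB)
    have := mul_le_mul_of_nonneg_left h1 Jp.le
    nlinarith
  have n4 : ‖c * (1 - ((r : ℂ) ^ j)⁻¹)‖ ≤ 2 * (J : ℝ) ^ 3 * (2 * (L / J)) := by
    rw [norm_mul]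
    refine mul_le_mul n2 ?_ (norm_nonneg _) (by positivity)
    have : (1 - ((r : ℂ) ^ j)⁻¹) = ((-((1 - r ^ j) / r ^ j) : ℝ) : ℂ) := by
      have : ((r : ℂ) ^ j) ≠ 0 := by exact_mod_cast s0.ne'
      push_cast
      field_simp
      ring
    rw [this, norm_real, norm_neg, Real.norm_of_nonneg (div_nonneg (by linarith) s0.le),
      div_le_iff₀ s0]
    have l0 : 0 ≤ L / J := by positivity
    nlinarith
  have key : a - c / (r : ℂ) ^ j = (a - e * J * (J : ℂ) ^ 2) - (c - e * J * ((J : ℂ) - j) ^ 2) +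
      e * J * ((J : ℂ) ^ 2 - ((J : ℂ) - j) ^ 2) + c * (1 - ((r : ℂ) ^ j)⁻¹) := by ring
  rw [key]
  have t1 := norm_sub_le (a - e * J * (J : ℂ) ^ 2) (c - e * J * ((J : ℂ) - j) ^ 2)
  refine (norm_add₃_le.trans ?_)
  linarith

private theorem circ_num {ε ε' ε₀ ε₁ Y a c v ρ s Θ : ℝ} (Y1 : 1 ≤ Y) (e0 : 0 < ε') (e1 : ε' ≤ ε)
    (e2 : ε ≤ 1) (e3 : ε ≤ ε₀) (e4 : ε' ≤ ε₁) (ρ0 : 0 ≤ ρ) (hs : 1 - ε' / 10 ≤ s)
    (ha : (1 - ε' / 10) * Y ≤ a) (hc : (1 - ε / 2) * Y ≤ c) (hΘ : Θ ≤ ε' / 10)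
    (h : s * (a + ρ * c) ≤ (1 + 3 * (ε' / 30)) * v + Θ) :
    (1 - ε₁) * Y + ρ * ((1 - ε₀) * Y) ≤ v := by
  have Y0 : 0 ≤ Y := by linarith
  have ρY : 0 ≤ ρ * Y := mul_nonneg ρ0 Y0
  have h1 : (1 - ε' / 10) * Y + (1 - ε / 2) * (ρ * Y) ≤ a + ρ * c := by
    have := mul_le_mul_of_nonneg_left hc ρ0
    linarith
  have h0 : 0 ≤ (1 - ε' / 10) * Y + (1 - ε / 2) * (ρ * Y) :=
    add_nonneg (mul_nonneg (by linarith) Y0) (mul_nonneg (by linarith) ρY)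
  have h2 : (1 - ε' / 10) * ((1 - ε' / 10) * Y + (1 - ε / 2) * (ρ * Y)) ≤ s * (a + ρ * c) :=
    mul_le_mul hs h1 h0 (by linarith)
  have h3 : ((1 + ε' / 10) * (1 - ε') + ε' / 10) * Y ≤ (1 - ε' / 10) * (1 - ε' / 10) * Y :=
    mul_le_mul_of_nonneg_right (by nlinarith) Y0
  have h4 : (1 + ε' / 10) * (1 - ε) * (ρ * Y) ≤ (1 - ε' / 10) * (1 - ε / 2) * (ρ * Y) :=
    mul_le_mul_of_nonneg_right (by nlinarith) ρY
  have h5 : ε' / 10 ≤ ε' / 10 * Y := le_mul_of_one_le_right (by linarith) Y1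
  have h6 : (1 + ε' / 10) * ((1 - ε') * Y + (1 - ε) * (ρ * Y)) ≤ (1 + ε' / 10) * v := by
    linarith
  have h7 := le_of_mul_le_mul_left h6 (by linarith)
  have h8 := mul_le_mul_of_nonneg_right e4 Y0
  have h9 := mul_le_mul_of_nonneg_right e3 ρY
  linarith

private theorem circ_he {J : ℕ} {A τ β γ γ' t₀ r K : ℝ} {T : Finset ℤ} {q G κ : ℂ → ℂ} {u : ℂ}
    (hT : ∀ j : ℤ, j ∉ T → -A ≤ j * τ → (j + 1) * τ ≤ A →
      ∀ φ ∈ Set.Icc (j * τ / J) ((j + 1) * τ / J), ∀ θ : ℝ, |θ - φ| ≤ γ / J →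
      ‖q (circleMap 0 r θ) - q (circleMap 0 r φ)‖ ≤ β * ‖q (circleMap 0 r θ)‖)
    (hu : Good J A τ T u) (tail : ∀ z, ‖z‖ ≤ 1 → γ' / (4 * J) ≤ ‖u - z‖ → ‖κ z‖ ≤ t₀)
    (t0 : 0 ≤ t₀) (β0 : 0 ≤ β) (hJ : 0 < J) (hγ : γ' ≤ γ) (r0 : 3 / 4 ≤ r) (r1 : r ≤ 1)
    (hK : ∀ z z' : ℂ, ‖z‖ = r → ‖z'‖ = r → ‖q z‖ * ‖G z'‖ ≤ K) {z : ℂ} (hz : ‖z‖ = r) :
    ‖κ z‖ * (‖q z - q (r * u)‖ * ‖G z‖) ≤ β * (‖κ z‖ * ‖q z * G z‖) + t₀ * (2 * K) := by
  have rp : 0 < r := by linarith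
  have Jp : (0 : ℝ) < J := by exact_mod_cast hJ
  have K0 : 0 ≤ K := le_trans (by positivity) (hK z z hz hz)
  obtain ⟨φ, j, rfl, h1, h2, h3, h4⟩ := hu
  obtain ⟨t, rfl, ht⟩ := circ_angle φ hz
  have e : (r : ℂ) * circleMap 0 1 φ = circleMap 0 r φ := by simp [circleMap]
  rw [e, norm_mul]
  by_cases h : |t - φ| ≤ γ' / J
  · have a := hT j h1 h2 h3 φ h4 t (h.trans (div_le_div_of_nonneg_right hγ Jp.le))
    have b := mul_le_mul_of_nonneg_left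
      (mul_le_mul_of_nonneg_right a (norm_nonneg (G (circleMap 0 r t))))
      (norm_nonneg (κ (circleMap 0 r t)))
    have : 0 ≤ t₀ * (2 * K) := by positivity
    linarith
  · rw [abs_sub_comm] at h ht
    have a := tail _ (hz.trans_le r1) (le_trans (by
      rw [mul_comm, ← div_div]
      exact div_le_div_of_nonneg_right (not_le.mp h).le (by norm_num)) (circ_chord ht r0))
    have b1 := hK _ _ hz hz
    have b2 := hK (circleMap 0 r φ) _ (by simp [abs_of_pos rp]) hz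
    have b3 := mul_le_mul_of_nonneg_right
      (norm_sub_le (q (circleMap 0 r t)) (q (circleMap 0 r φ))) (norm_nonneg (G (circleMap 0 r t)))
    have b := mul_le_mul a (show ‖q (circleMap 0 r t) - q (circleMap 0 r φ)‖ *
      ‖G (circleMap 0 r t)‖ ≤ 2 * K by linarith) (by positivity) t0
    have : 0 ≤ β * (‖κ (circleMap 0 r t)‖ * (‖q (circleMap 0 r t)‖ * ‖G (circleMap 0 r t)‖)) := by
      positivity
    linarith

private theorem circ_top {W : ℂ⟦X⟧} {J : ℕ} {e : ℂ} (he : ‖e‖ = 1) {ε₂ : ℝ} (hJ : 0 < J)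
    (hc : ∀ j < J, ‖coeff (J - 1 - j) W - e * J * ((J : ℂ) - j) ^ 2‖ ≤ ε₂ * (J : ℝ) ^ 3) :
    (1 - ε₂) * (J : ℝ) ^ 3 ≤ ‖coeff (J - 1) W‖ := by
  have a0 := hc 0 hJ
  rw [Nat.sub_zero, Nat.cast_zero, sub_zero, norm_sub_rev] at a0
  have h1 := norm_le_norm_add_norm_sub' (e * J * (J : ℂ) ^ 2) (coeff (J - 1) W)
  rw [norm_mul, norm_mul, he, one_mul, norm_pow, Complex.norm_natCast] at h1
  linarith

private theorem circ_deep {M J b b' : ℕ} {κ : ℕ → ℂ → ℂ} (hκ : Ker M κ) {W : ℂ → ℂ}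
    (hW : DifferentiableOn ℂ W (closedBall 0 1)) {S : Finset ℕ} (hS : S ⊆ range (M + 1))
    {T : Finset ℤ} {u : ℤ → ℂ} (hu : ∀ j, ‖u j‖ = 1) {ε τ β ε₂ a r : ℝ} (e1 : ε ≤ 1)
    (β0 : 0 < β) (β1 : β ≤ ε / 10000) (β2 : β ≤ τ) (e2 : ε₂ ≤ β ^ 2) (a0 : 0 ≤ a)
    (a1 : a ≤ ε / 100) (r0 : 0 < r) (r1 : r < 1) (rM : 1 / 2 ≤ r ^ M) (hJ : 1 ≤ J) (hb : 1 ≤ b)
    (hbJ : b ≤ J) (hb1 : 1 ≤ b') (hb2 : 2 * (J : ℝ) / b' ≤ 16 * τ) (hT : T.card * τ ≤ ε / 1000)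
    (hpt : ∀ z : ℂ, ‖z‖ = r → ∑ w ∈ range (M + 1) \ S, ‖κ w z‖ ≤
      a + 2 * (1 - Fej b (z / r)) + ∑ j ∈ T, 2 * Fej b' (u j * (z / r)))
    (htop : (1 - ε₂) * (J : ℝ) ^ 3 ≤ ‖coeff (J - 1) (tay W)‖)
    (hE : ∀ j < b, ‖coeff (J - 1) (tay W) - coeff (J - 1 - j) (tay W) / (r : ℂ) ^ j‖ ≤
      (2 * ε₂ + 2 * (ε / 100) + 4 * (ε / 400)) * (J : ℝ) ^ 3)
    (hm : circleAverage (fun z => ‖W z / z ^ (J - 1)‖) 0 r ≤ (1 + β ^ 2) * (J : ℝ) ^ 3) :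
    (1 - ε / 2) * (J : ℝ) ^ 3 ≤
      ‖coeff (M + (J - 1)) (tay fun z => (∑ w ∈ S, κ w z) * W z)‖ := by
  have Y0 : (0 : ℝ) < (J : ℝ) ^ 3 := by positivity
  set Y := (J : ℝ) ^ 3
  have b1 : β ≤ 1 := by linarith
  have b2 : β ^ 2 ≤ β := by nlinarith
  have hx : (1 + β ^ 2) * Y ≤ ‖coeff (J - 1) (tay W)‖ + 2 * β ^ 2 * Y := by
    have := mul_le_mul_of_nonneg_right e2 Y0.le
    linarith
  have d : 2 * β ^ 2 * Y + β * ((1 + β ^ 2) * Y) + 2 * β ^ 2 * Y / β ≤ 6 * β * Y := by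
    have e : 2 * β ^ 2 * Y / β = 2 * β * Y := by field_simp
    have h1 := mul_le_mul_of_nonneg_right b2 Y0.le
    have h2 := mul_le_mul_of_nonneg_left
      (mul_le_mul_of_nonneg_right (show 1 + β ^ 2 ≤ 2 by linarith) Y0.le) β0.le
    linarith
  have m2 : (1 + β ^ 2) * Y ≤ 2 * Y := mul_le_mul_of_nonneg_right (by linarith) Y0.le
  have hP := (mass_wide hW hb hbJ r0 r1.le β0 hm hx hE).trans (add_le_add le_rfl d)
  have hQ : ∀ j, circleAverage (fun z => Fej b' (u j * (z / r)) * ‖W z / z ^ (J - 1)‖) 0 r ≤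
      38 * τ * Y := fun j => by
    refine (mass_narrow hW hJ hb1 r0 r1.le β0 hm hx (hu j)).trans ?_
    have h1 := mul_le_mul hb2 m2 (by positivity) (by linarith)
    have h2 := mul_le_mul_of_nonneg_right β2 Y0.le
    linarith
  have sub : sphere (0 : ℂ) r ⊆ closedBall 0 1 :=
    sphere_subset_closedBall.trans (closedBall_subset_closedBall r1.le)
  have hV : ContinuousOn (fun z => ‖W z / z ^ (J - 1)‖) (sphere (0 : ℂ) r) := by
    refine ((hW.continuousOn.mono sub).div (by fun_prop) fun z hz => pow_ne_zero _ ?_).norm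
    rw [mem_sphere_zero_iff_norm] at hz
    exact norm_pos_iff.mp (hz ▸ r0)
  have hF : ContinuousOn (fun z => ∑ w ∈ range (M + 1) \ S, ‖κ w z‖) (sphere (0 : ℂ) r) :=
    continuousOn_finsetSum _ fun w _ => (hκ.1 w).continuous.norm.continuousOn
  have av := circ_avg r0 hV (fun z => norm_nonneg _) hF a0 hpt (hm.trans m2) hP hQ
  have wd := win_deep (J := J) hκ hW r0 r1 hS
  have h1 := mul_le_mul_of_nonneg_right hT Y0.le
  have h2 := mul_le_mul_of_nonneg_right a1 Y0.le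
  have h3 := mul_le_mul_of_nonneg_right β1 Y0.le
  have h4 := mul_le_mul_of_nonneg_right (e2.trans (b2.trans β1)) Y0.le
  have h5 : 0 ≤ ε * Y := mul_nonneg (by linarith) Y0.le
  by_contra hn
  have h6 : 1 / 2 * (‖coeff (J - 1) (tay W)‖ -
      ‖coeff (M + (J - 1)) (tay fun z => (∑ w ∈ S, κ w z) * W z)‖) ≤ r ^ M * _ :=
    mul_le_mul_of_nonneg_right rM (by linarith)
  linarith

private theorem circ_tiny {J m M : ℕ} {g γ ε : ℝ} (g0 : 0 < g) (γ0 : 0 < γ) (hJ : 1 ≤ J)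
    (hm : g * (J : ℝ) ^ 2 / 2 ≤ m) (hM : M < J ^ 2) (h : 100 * (16 / (g * γ)) ^ 24 / ε ≤ J)
    (e0 : 0 < ε) :
    ((M : ℝ) + 1) * ((2 / (m * (γ / (4 * J)))) ^ (2 * 12) * (J : ℝ) ^ 20) ≤ ε / 100 := by
  have J1 : (1 : ℝ) ≤ J := by exact_mod_cast hJ
  have Jp : (0 : ℝ) < J := by linarith
  have M1 : (M : ℝ) + 1 ≤ (J : ℝ) ^ 2 := by exact_mod_cast hM
  have a : 2 / (m * (γ / (4 * J))) ≤ 16 / (g * γ) / J := by
    refine (div_le_div_of_nonneg_left zero_le_two (by positivity)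
      (mul_le_mul_of_nonneg_right hm (by positivity))).trans (le_of_eq ?_)
    field_simp
    norm_num
  have m0 : (0 : ℝ) ≤ m := Nat.cast_nonneg _
  have b := pow_le_pow_left₀ (by positivity) a 24
  set D := 16 / (g * γ)
  have D0 : 0 < D := by positivity
  refine (mul_le_mul M1 (mul_le_mul_of_nonneg_right b (by positivity)) (by positivity)
    (by positivity)).trans ?_
  have e : (J : ℝ) ^ 2 * ((D / J) ^ 24 * (J : ℝ) ^ 20) = D ^ 24 / (J : ℝ) ^ 2 := by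
    field_simp
  rw [e, div_le_iff₀ (by positivity)]
  rw [div_le_iff₀ e0] at h
  have : (J : ℝ) * ε ≤ (J : ℝ) ^ 2 * ε := mul_le_mul_of_nonneg_right (by nlinarith) e0.le
  linarith

theorem circ {ε₀ : ℝ} (hε₀ : 0 < ε₀) : ∃ A : ℝ, 0 < A ∧ ∃ η₁ : ℝ, 0 < η₁ ∧ ∀ τ : ℝ, 0 < τ → τ ≤ 1 →
    ∃ η : ℝ, 0 < η ∧ ∀ L : ℝ, 0 < L → ∀ ε₁ : ℝ, 0 < ε₁ → ∃ β : ℝ, 0 < β ∧ ∃ ε₂ : ℝ, 0 < ε₂ ∧
    ∀ γ : ℝ, 0 < γ → ∃ J₀ : ℕ, ∀ J ≥ J₀, ∀ N : ℕ, J ^ 2 ≤ N → ∀ (W G q : ℂ → ℂ) (r r₀ : ℝ) (e : ℂ),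
      DifferentiableOn ℂ W (closedBall 0 1) → DifferentiableOn ℂ G (closedBall 0 1) →
      (∀ z : ℂ, ‖z‖ = 1 → ∃ b : ℝ, 0 ≤ b ∧ G z = b * z ^ N) →
      1 - L / (J : ℝ) ^ 2 ≤ r → r < 1 → 1 - L / (J : ℝ) ^ 2 ≤ r₀ → r₀ < 1 →
      (∀ z : ℂ, ‖z‖ = r → W z / z ^ (J - 1) = q z * G z) →
      (∀ z z' : ℂ, ‖z‖ = r → ‖z'‖ = r → ‖q z‖ * ‖G z'‖ ≤ (J : ℝ) ^ 20) → ‖e‖ = 1 →
      (∀ j < J, ‖coeff (J - 1 - j) (tay W) - e * J * ((J : ℂ) - j) ^ 2‖ ≤ ε₂ * (J : ℝ) ^ 3) →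
      circleAverage (fun z => ‖W z / z ^ (J - 1)‖) 0 r₀ ≤ (1 + η) * (J : ℝ) ^ 3 →
      Geo J A τ η₁ β γ r q →
      (1 - ε₁) * (J : ℝ) ^ 3 + r ^ (2 * N) * ((1 - ε₀) * (J : ℝ) ^ 3) ≤
        circleAverage (fun z => ‖W z / z ^ (J - 1)‖) 0 r := by
  classical
  obtain ⟨ε, e0, e1, e2⟩ : ∃ ε : ℝ, 0 < ε ∧ ε ≤ 1 ∧ ε ≤ ε₀ :=
    ⟨min 1 ε₀, lt_min one_pos hε₀, min_le_left _ _, min_le_right _ _⟩
  refine ⟨2 + 1000 / ε, by positivity, ε / 1000, by positivity, fun τ τ0 τ1 =>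
    ⟨(ε * τ / 10000) ^ 2, by positivity, fun L L0 ε₁ hε₁ => ?_⟩⟩
  obtain ⟨ε', f0, f1, f2⟩ : ∃ ε' : ℝ, 0 < ε' ∧ ε' ≤ ε ∧ ε' ≤ ε₁ :=
    ⟨min ε ε₁, lt_min e0 hε₁, min_le_left _ _, min_le_right _ _⟩
  obtain ⟨ε₂, k0, k1, k2⟩ : ∃ ε₂ : ℝ, 0 < ε₂ ∧ ε₂ ≤ (ε * τ / 10000) ^ 2 ∧ ε₂ ≤ ε' / 10 :=
    ⟨min _ _, lt_min (by positivity) (by positivity), min_le_left _ _, min_le_right _ _⟩
  obtain ⟨g, g0, g1, g2⟩ : ∃ g : ℝ, 0 < g ∧ g ≤ 1 / 12 ∧ g ≤ ε' / (120 * L) :=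
    ⟨min _ _, lt_min (by positivity) (by positivity), min_le_left _ _, min_le_right _ _⟩
  refine ⟨ε' / 30, by positivity, ε₂, k0, fun γ γ0 => ?_⟩
  obtain ⟨γ', c0, c1, c2⟩ : ∃ γ' : ℝ, 0 < γ' ∧ γ' ≤ γ ∧ γ' ≤ τ / 2 :=
    ⟨min _ _, lt_min γ0 (by positivity), min_le_left _ _, min_le_right _ _⟩
  refine ⟨⌈4 + 100 / ε + 1 / g + 400 * L / ε + 100 * (16 / (g * γ')) ^ 24 / ε'⌉₊, ?_⟩
  rintro J hJ N hN W G q r r₀ e hW hG hGb hr r1 hr₀ s1 hq hK he hc hm ⟨T, hT, hT'⟩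
  obtain ⟨J4, q1, q2, q3, q4⟩ : (4 : ℝ) ≤ J ∧ 100 / ε ≤ J ∧ 1 / g ≤ J ∧ 400 * L / ε ≤ J ∧
      100 * (16 / (g * γ')) ^ 24 / ε' ≤ J := by
    have hJ' := Nat.ceil_le.mp hJ
    have p1 : 0 < 100 / ε := by positivity
    have p2 : 0 < 1 / g := by positivity
    have p3 : 0 < 400 * L / ε := by positivity
    have p4 : 0 < 100 * (16 / (g * γ')) ^ 24 / ε' := by positivity
    generalize 100 * (16 / (g * γ')) ^ 24 / ε' = D at hJ' p4 ⊢
    refine ⟨?_, ?_, ?_, ?_, ?_⟩ <;> linarith only [hJ', p1, p2, p3, p4]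
  clear hJ
  have J1 : (1 : ℝ) ≤ J := by linarith only [J4]
  have Jp : (0 : ℝ) < J := by linarith only [J4]
  have J0 : 0 < J := by exact_mod_cast Jp
  have JJ : (J : ℝ) ≤ (J : ℝ) ^ 2 := le_self_pow₀ J1 two_ne_zero
  have hL : L / J ≤ ε / 400 := by
    rw [div_le_iff₀ e0] at q3
    rw [div_le_iff₀ Jp]
    linarith only [q3]
  have hL2 : L / (J : ℝ) ^ 2 ≤ 1 / 4 :=
    (div_le_div_of_nonneg_left L0.le Jp JJ).trans (by linarith only [hL, e1])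
  have r0 : 3 / 4 ≤ r := by linarith only [hL2, hr]
  have s0 : 3 / 4 ≤ r₀ := by linarith only [hL2, hr₀]
  have rp : 0 < r := by linarith only [r0]
  have sp : 0 < r₀ := by linarith only [s0]
  -- the kernel
  have gJ : 1 ≤ g * (J : ℝ) ^ 2 := by
    rw [div_le_iff₀' g0] at q2
    exact q2.trans (mul_le_mul_of_nonneg_left JJ g0.le)
  obtain ⟨m, m1, m2, m3⟩ : ∃ m : ℕ, g * (J : ℝ) ^ 2 / 2 ≤ m ∧ m ≤ g * (J : ℝ) ^ 2 ∧ 1 ≤ m :=
    ⟨_, circ_floor gJ, Nat.floor_le (zero_le_one.trans gJ), (Nat.one_le_floor_iff _).mpr gJ⟩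
  obtain ⟨κ, hκ, tail⟩ := kernel 12 m3
  have M1 : ((12 * (m - 1) : ℕ) : ℝ) + 12 ≤ 12 * (g * (J : ℝ) ^ 2) := by
    push_cast [Nat.cast_sub m3]
    linarith only [m2]
  generalize 12 * (m - 1) = M at hκ tail M1
  have M2 : M < J ^ 2 := by
    have a := mul_le_mul_of_nonneg_right g1 (sq_nonneg (J : ℝ))
    have : (M : ℝ) < (J : ℝ) ^ 2 := by linarith only [a, M1]
    exact_mod_cast this
  have M3 : M * (L / (J : ℝ) ^ 2) ≤ ε' / 10 := by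
    rw [le_div_iff₀ (by positivity)] at g2
    refine (mul_le_mul_of_nonneg_right
      (show (M : ℝ) ≤ 12 * (g * (J : ℝ) ^ 2) by linarith only [M1]) (by positivity)).trans ?_
    have : 12 * (g * (J : ℝ) ^ 2) * (L / (J : ℝ) ^ 2) = 12 * g * L := by field_simp
    linarith only [this, g2]
  have rM : 1 - ε' / 10 ≤ r ^ M := le_trans (by linarith only [M3]) (circ_bern rp.le hr M)
  have sM : 1 / 2 ≤ r₀ ^ M := le_trans (by linarith only [M3, f1, e1]) (circ_bern sp.le hr₀ M)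
  obtain ⟨cen, hcen, t₀, t0, ty, tail'⟩ : ∃ cen : ℕ → ℂ, (∀ w, ‖cen w‖ = 1) ∧ ∃ t₀ : ℝ, 0 ≤ t₀ ∧
      ((M : ℝ) + 1) * (t₀ * (J : ℝ) ^ 20) ≤ ε' / 100 ∧
      ∀ w z, ‖z‖ ≤ 1 → γ' / (4 * J) ≤ ‖cen w - z‖ → ‖κ w z‖ ≤ t₀ :=
    ⟨fun w => circleMap 0 1 (2 * π * w / (M + 1 : ℕ)), fun w => by simp, _, by positivity,
      circ_tiny g0 c0 J0 m1 M2 q4 f0, fun w z h1 h2 => tail w z _ h1 (by positivity) h2⟩
  clear tail q4
  obtain ⟨S, sub, S1, S2⟩ : ∃ S : Finset ℕ, S ⊆ range (M + 1) ∧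
      (∀ w ∈ range (M + 1), Good J (2 + 1000 / ε) τ T (cen w) → w ∈ S) ∧
      ∀ w ∈ S, Good J (2 + 1000 / ε) τ T (cen w) :=
    ⟨_, filter_subset _ _, fun w h1 h2 => mem_filter.mpr ⟨h1, h2⟩,
      fun w hw => (mem_filter.mp hw).2⟩
  -- the deep circle
  have y1 : 1 ≤ ε / 100 * J := by
    rw [div_le_iff₀ e0] at q1
    linarith only [q1]
  have y2 : 1 ≤ J / (4 * τ) := by
    rw [le_div_iff₀ (by positivity)]
    linarith only [J4, τ1]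
  obtain ⟨b, b1, b2, b3⟩ : ∃ b : ℕ, ε / 100 * J / 2 ≤ b ∧ b ≤ ε / 100 * J ∧ 1 ≤ b :=
    ⟨_, circ_floor y1, Nat.floor_le (zero_le_one.trans y1), (Nat.one_le_floor_iff _).mpr y1⟩
  obtain ⟨b', d1, d2, d3⟩ : ∃ b : ℕ, J / (4 * τ) / 2 ≤ b ∧ b ≤ J / (4 * τ) ∧ 1 ≤ b :=
    ⟨_, circ_floor y2, Nat.floor_le (zero_le_one.trans y2), (Nat.one_le_floor_iff _).mpr y2⟩
  have b4 : b ≤ J := by
    have : (b : ℝ) ≤ J := b2.trans (mul_le_of_le_one_left Jp.le (by linarith only [e1]))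
    exact_mod_cast this
  have b5 : 5 * (J : ℝ) ≤ b * (2 + 1000 / ε - 2) := by
    rw [add_sub_cancel_left, ← mul_div_assoc, le_div_iff₀ e0]
    linarith only [b1]
  have d4 : b' * τ ≤ J / 4 := by
    rw [le_div_iff₀ (by positivity)] at d2
    linarith only [d2]
  have d5 : 2 * (J : ℝ) / b' ≤ 16 * τ := by
    rw [div_div, div_le_iff₀ (by positivity)] at d1
    rw [div_le_iff₀ (by exact_mod_cast d3)]
    linarith only [d1]
  have a1 : ((M : ℝ) + 1) * t₀ ≤ ε / 100 := by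
    have := mul_le_mul_of_nonneg_left (le_mul_of_one_le_right t0 (one_le_pow₀ (n := 20) J1))
      (show (0 : ℝ) ≤ M + 1 by positivity)
    linarith only [this, ty, f1]
  have top := circ_top he J0 hc
  have Y1 : (1 : ℝ) ≤ (J : ℝ) ^ 3 := one_le_pow₀ J1
  have Y0 := zero_le_one.trans Y1
  have eτ : ε * τ ≤ ε := mul_le_of_le_one_right e0.le τ1
  have eτ' : ε * τ ≤ τ := mul_le_of_le_one_left τ0.le e1
  have deep := circ_deep (b := b) (b' := b') hκ hW sub (T := T)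
    (u := fun j => circleMap 0 1 (-((j + 1 / 2) * τ / J))) (fun j => by simp) e1
    (β := ε * τ / 10000) (by positivity) (by linarith only [eτ]) (by linarith only [eτ', τ0]) k1
    (by positivity) a1 sp s1 sM J0 b3 b4 d3 d5 hT
    (fun z hz => circ_pt hκ hcen S1 tail' t0 J0 τ0 τ1 c2 s0 s1.le b5 d3 d4 hz) top
    (fun j hj => (circ_E he (by linarith only [k2, f1, e1]) L0.le J0 hc hr₀ sp.le s1.le
      (by linarith only [hL, e1]) b4 b2 j hj).trans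
      (mul_le_mul_of_nonneg_right (by linarith only [hL]) Y0)) hm
  -- the given circle
  have β0 : 0 ≤ ε' / 30 := by positivity
  have wn := win (J := J) hκ (M2.trans_le hN) hW hG hGb rp r1 hq sub
    (c := fun w => q (r * cen w)) (Θ := t₀ * (2 * (J : ℝ) ^ 20)) β0 (by positivity)
    fun w hw z hz => by
      rw [hq z hz]
      exact circ_he hT' (S2 w hw) (tail' w) t0 β0 J0 c1 r0 r1.le hK hz
  refine circ_num Y1 f0 f1 e1 e2 f2 (pow_nonneg rp.le _) rM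
    (le_trans (mul_le_mul_of_nonneg_right (by linarith only [k2]) Y0) top) deep ?_ wn
  linarith only [ty, f0]

end Pool.Agent.P.MP_c09211_an.Sh
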