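import Pool.Agent.P.MP_c09211_an.Sh.StabB

/-!
A function obtained from a nearly extremal one by moving the pole is not nearly extremal.
-/

set_option autoImplicit false

namespace Pool.Agent.P.MP_c09211_an.Sh

open Metric Set Finset PowerSeries Complex Filter Topology Real
open scoped ComplexConjugate

theorem stab' {ε : ℝ} (hε : 0 < ε) : ∃ δ : ℝ, 0 < δ ∧ ∃ J₀ : ℕ, ∀ J ≥ J₀, ∀ h c : ℂ⟦X⟧, LM h c →
    ∀ w, Schur w → (1 - δ) * (J : ℝ) ^ 2 ≤ ‖Lam J w (X * h ^ 2)‖ → ∃ u a, NK J ε h u a := by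
  obtain ⟨δ, δ0, J₀, H⟩ := stab hε
  have d0 : 0 < min (δ / 8) 1 := lt_min (by positivity) one_pos
  refine ⟨min (δ / 8) 1 ^ 2, by positivity, J₀, fun J hJ h c hl w hw hX => H J hJ h c hl ?_⟩
  intro K hK
  refine le_trans ?_ (ss_lower hl.ss hw d0 (min_le_right _ _) hX hK)
  have : 8 * min (δ / 8) 1 * J ≤ δ * J :=
    mul_le_mul_of_nonneg_right (by linarith [min_le_left (δ / 8) 1]) (by positivity)
  linarith

theorem Far_sq {p q : ℂ} {e b : ℝ} (h : ‖p - q‖ ≤ e) (hb : ‖p‖ + ‖q‖ ≤ b) :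
    ‖p ^ 2 - q ^ 2‖ ≤ e * b := by
  have : p ^ 2 - q ^ 2 = (p - q) * (p + q) := by ring
  rw [this, norm_mul]
  exact mul_le_mul h ((norm_add_le _ _).trans hb) (norm_nonneg _) ((norm_nonneg _).trans h)

theorem Far_pt {H G m a a' q : ℂ} {d : ℝ} (d1 : d ≤ 1 / 10) (ha : ‖a‖ = 1) (ha' : ‖a'‖ = 1)
    (hm : m ≠ 0) (hH : ‖H - a‖ ≤ d) (hG : ‖G - a' / m‖ ≤ d) (hq : ‖q‖ ≤ 1)
    (e : G ^ 2 * (1 - q * H ^ 2) = H ^ 2) : ‖a⁻¹ ^ 2 - q - (m / a') ^ 2‖ ≤ 20 * d := by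
  have d0 : 0 ≤ d := (norm_nonneg _).trans hH
  have a0 : a ≠ 0 := norm_pos_iff.mp (by rw [ha]; exact one_pos)
  have a0' : a' ≠ 0 := norm_pos_iff.mp (by rw [ha']; exact one_pos)
  have H1 : 9 / 10 ≤ ‖H‖ := by
    have := norm_sub_norm_le a H
    rw [norm_sub_rev] at this
    linarith
  have H2 : ‖H‖ ≤ 11 / 10 := by
    have := norm_sub_norm_le H a
    linarith
  have H0 : H ≠ 0 := norm_pos_iff.mp (by linarith)
  have G1 : 3 / 5 ≤ ‖G‖ := by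
    have e1 : ‖G‖ ^ 2 * ‖1 - q * H ^ 2‖ = ‖H‖ ^ 2 := by
      rw [← norm_pow, ← norm_mul, e, norm_pow]
    have e2 : ‖1 - q * H ^ 2‖ ≤ 221 / 100 := by
      refine (norm_sub_le _ _).trans ?_
      rw [norm_one, norm_mul, norm_pow]
      have : ‖q‖ * ‖H‖ ^ 2 ≤ 1 * (11 / 10) ^ 2 := by gcongr
      linarith
    have e3 : ‖G‖ ^ 2 * ‖1 - q * H ^ 2‖ ≤ ‖G‖ ^ 2 * (221 / 100) := by gcongr
    by_contra hc
    have : ‖G‖ ^ 2 ≤ (3 / 5) ^ 2 := by gcongr; exact (not_le.1 hc).le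
    nlinarith
  have G0 : G ≠ 0 := norm_pos_iff.mp (by linarith)
  have m0 : 0 < ‖m‖ := norm_pos_iff.mpr hm
  have m1 : ‖m‖ ≤ 2 := by
    have := norm_sub_norm_le G (a' / m)
    rw [norm_div, ha'] at this
    have h2 : 1 / 2 ≤ 1 / ‖m‖ := by linarith
    rw [div_le_div_iff₀ (by norm_num) m0] at h2
    linarith
  have iH : ‖H⁻¹‖ ≤ 10 / 9 := by
    rw [norm_inv, inv_le_comm₀ (by linarith) (by norm_num)]; linarith
  have iG : ‖G⁻¹‖ ≤ 5 / 3 := by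
    rw [norm_inv, inv_le_comm₀ (by linarith) (by norm_num)]; linarith
  have A1 : ‖a⁻¹ - H⁻¹‖ ≤ 2 * d := by
    have : a⁻¹ - H⁻¹ = (H - a) * H⁻¹ * a⁻¹ := by field_simp
    rw [this, norm_mul, norm_mul, norm_inv a, ha, inv_one, mul_one]
    have : ‖H - a‖ * ‖H⁻¹‖ ≤ d * (10 / 9) := by gcongr
    linarith
  have B1 : ‖G⁻¹ - m / a'‖ ≤ 4 * d := by
    have : G⁻¹ - m / a' = -((G - a' / m) * G⁻¹ * (m / a')) := by field_simp; ring
    rw [this, norm_neg, norm_mul, norm_mul, norm_div m, ha', div_one]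
    have : ‖G - a' / m‖ * ‖G⁻¹‖ * ‖m‖ ≤ d * (5 / 3) * 2 := by gcongr
    linarith
  have A2 := Far_sq (b := 5 / 2) A1 (by rw [norm_inv a, ha]; linarith)
  have B2 := Far_sq (b := 15 / 4) B1 (by rw [norm_div m, ha']; linarith)
  have e' : H⁻¹ ^ 2 - q = G⁻¹ ^ 2 := by
    field_simp
    linear_combination e
  have : a⁻¹ ^ 2 - q - (m / a') ^ 2 = (a⁻¹ ^ 2 - H⁻¹ ^ 2) + (G⁻¹ ^ 2 - (m / a') ^ 2) := by
    rw [← e']; ring
  rw [this]
  refine (norm_add_le _ _).trans ?_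
  linarith

theorem Far_quad {A B σ μ v : ℂ} {α d : ℝ} (d1 : d ≤ 1 / 10) (α0 : 0 ≤ α) (α1 : α ≤ d)
    (hB : ‖B‖ = 1) (hv : ‖v‖ = 1) (hσ : ‖σ‖ ≤ 1)
    (h : ∀ i : ℝ, 1 ≤ i → i ≤ 3 →
      ‖A * i ^ 2 - σ * (1 - i * α) - B * (μ + v * i) ^ 2‖ ≤ 20 * d * i ^ 2) :
    ‖σ‖ ≤ 11000 * d := by
  have d0 : 0 ≤ d := α0.trans α1
  have h1 := h 1 le_rfl (by norm_num)
  have h2 := h 2 (by norm_num) (by norm_num)
  have h3 := h 3 (by norm_num) le_rfl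
  push_cast at h1 h2 h3
  set p1 := A * 1 ^ 2 - σ * (1 - 1 * α) - B * (μ + v * 1) ^ 2 with e1
  set p2 := A * 2 ^ 2 - σ * (1 - 2 * α) - B * (μ + v * 2) ^ 2 with e2
  set p3 := A * 3 ^ 2 - σ * (1 - 3 * α) - B * (μ + v * 3) ^ 2 with e3
  have c0 : σ = -(3 * p1) + 3 * p2 - p3 - B * μ ^ 2 := by rw [e1, e2, e3]; ring
  have c1 : 4 * (B * μ * v) = 5 * p1 - 8 * p2 + 3 * p3 + 2 * (σ * α) := by rw [e1, e2, e3]; ring
  have n1 : ‖μ‖ ≤ 321 * d := by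
    have a1 : ‖4 * (B * μ * v)‖ = 4 * ‖μ‖ := by
      rw [norm_mul, norm_mul, norm_mul, hB, hv]; simp
    have a2 : ‖5 * p1 - 8 * p2 + 3 * p3 + 2 * (σ * α)‖ ≤
        5 * ‖p1‖ + 8 * ‖p2‖ + 3 * ‖p3‖ + 2 * (‖σ‖ * α) := by
      refine (norm_add_le _ _).trans (add_le_add ((norm_add_le _ _).trans
        (add_le_add ((norm_sub_le _ _).trans (add_le_add ?_ ?_)) ?_)) ?_) <;>
      simp [abs_of_nonneg α0]
    have a3 : ‖σ‖ * α ≤ 1 * d := by gcongr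
    rw [← c1, a1] at a2
    linarith
  have n2 : ‖σ‖ ≤ 3 * ‖p1‖ + 3 * ‖p2‖ + ‖p3‖ + ‖μ‖ ^ 2 := by
    have : ‖-(3 * p1) + 3 * p2 - p3 - B * μ ^ 2‖ ≤ 3 * ‖p1‖ + 3 * ‖p2‖ + ‖p3‖ + ‖μ‖ ^ 2 := by
      refine (norm_sub_le _ _).trans (add_le_add ((norm_sub_le _ _).trans
        (add_le_add ((norm_add_le _ _).trans (add_le_add ?_ ?_)) ?_)) ?_) <;>
      simp [hB]
    rwa [← c0] at this
  have n3 : ‖μ‖ ^ 2 ≤ (321 * d) ^ 2 := by gcongr
  nlinarith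

theorem Far_err {h : ℂ⟦X⟧} (hh : ∀ K, SS h K ≤ K) {J : ℕ} {ε l d t : ℝ} {u a : ℂ}
    (hn : NK J ε h u a) (ε0 : 0 < ε) (d0 : 0 < d) (t0 : 0 < t) (t1 : t ≤ 1) (h1 : l ≤ t * J)
    (h2 : t * J ≤ 3 * l) (hd : 6 * ε * l + 8 * Real.exp (-l) ≤ d ^ 2) :
    ‖(t : ℂ) * ev h (1 - t : ℝ) - t * (a / (1 - u * (1 - t : ℝ)))‖ ≤ d := by
  have hx : ‖((1 - t : ℝ) : ℂ)‖ ≤ 1 - t := by
    rw [norm_real, Real.norm_eq_abs, abs_of_nonneg (by linarith)]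
  have e := ev_near hh hn hx (by linarith)
  rw [sub_sub_cancel] at e
  have e1 : (1 - t) ^ J ≤ Real.exp (-l) := by
    have a1 : 1 - t ≤ Real.exp (-t) := by linarith [Real.add_one_le_exp (-t)]
    refine (pow_le_pow_left₀ (by linarith) a1 J).trans ?_
    rw [← Real.exp_nat_mul]
    exact Real.exp_le_exp.2 (by nlinarith)
  rw [← mul_sub, norm_mul, norm_real, Real.norm_eq_abs, abs_of_pos t0]
  refine (pow_le_pow_iff_left₀ (by positivity) d0.le two_ne_zero).1 ?_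
  rw [mul_pow]
  calc _ ≤ t ^ 2 * (2 * (ε * J) / t + 8 * (1 - t) ^ J / t ^ 2) := by gcongr
    _ = 2 * ε * (t * J) + 8 * (1 - t) ^ J := by field_simp
    _ ≤ 2 * ε * (3 * l) + 8 * Real.exp (-l) := by gcongr
    _ ≤ d ^ 2 := by linarith

theorem Far_par {c C : ℝ} (hc : 0 < c) : ∃ l d : ℝ, 1 ≤ l ∧ C ≤ l ^ 2 ∧ 0 < d ∧ d ≤ 1 / 10 ∧
    11000 * d * l ^ 2 < c ∧ 16 * Real.exp (-l) ≤ d ^ 2 := by
  set b := min (1 / 10) (c / 12000) with hb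
  have b0 : 0 < b := lt_min (by norm_num) (by positivity)
  have h := (Real.tendsto_exp_div_pow_atTop 4).eventually_ge_atTop (16 / b ^ 2)
  obtain ⟨l, h1, h2, h3⟩ := (h.and ((eventually_ge_atTop 1).and (eventually_ge_atTop C))).exists
  have l0 : 0 < l := by linarith
  have l2 : 1 ≤ l ^ 2 := one_le_pow₀ h2
  refine ⟨l, b / l ^ 2, h2, by nlinarith, by positivity, ?_, ?_, ?_⟩
  · exact (div_le_self b0.le l2).trans (min_le_left _ _)
  · have : 11000 * (b / l ^ 2) * l ^ 2 = 11000 * b := by field_simp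
    rw [this]
    have := min_le_right (1 / 10) (c / 12000)
    rw [← hb] at this
    linarith
  · rw [div_le_div_iff₀ (by positivity) (by positivity)] at h1
    rw [Real.exp_neg, ← div_eq_mul_inv, div_pow, div_le_div_iff₀ (by positivity) (by positivity)]
    nlinarith

theorem far {c C : ℝ} (hc : 0 < c) : ∃ κ : ℝ, 0 < κ ∧ ∃ ε : ℝ, 0 < ε ∧ ∃ J₀ : ℕ, ∀ J ≥ J₀,
    ∀ (f₁ f₂ w : ℂ → ℂ) (s a : ℂ) (h : ℂ⟦X⟧), Sr 1 f₁ → Sr 1 f₂ →
      (∀ z ∈ ball (0 : ℂ) 1, f₂ z * (1 - s * f₁ z) = f₁ z) → X * h ^ 2 = tay f₁ →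
      (∀ K, SS h K ≤ K) → NK J ε h 1 a → c ≤ ‖s‖ * (J : ℝ) ^ 2 → ‖s‖ * (J : ℝ) ^ 2 ≤ C →
      Schur w → ‖Lam J w (tay f₂)‖ ≤ (1 - κ) * (J : ℝ) ^ 2 := by
  obtain ⟨l, d, l1, lC, d0, d1, dc, dl⟩ := Far_par (C := C) hc
  have l0 : 0 < l := by linarith
  have ε0 : 0 < d ^ 2 / (12 * l) := by positivity
  have hd : 6 * (d ^ 2 / (12 * l)) * l + 8 * Real.exp (-l) ≤ d ^ 2 := by
    have : 6 * (d ^ 2 / (12 * l)) * l = d ^ 2 / 2 := by field_simp; ring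
    linarith
  obtain ⟨κ, κ0, J₀, hs⟩ := stab' ε0
  obtain ⟨J₁, hJ₁⟩ := exists_nat_ge (l / d)
  refine ⟨κ, κ0, _, ε0, max J₀ J₁, fun J hJ f₁ f₂ w s a h S1 S2 hf e1 hh hn c1 c2 hw => ?_⟩
  by_contra hcon
  obtain ⟨g, c', e2, hl⟩ := S2.lm
  obtain ⟨v, a', hn'⟩ := hs J ((le_max_left _ _).trans hJ) g c' hl w hw
    (by rw [e2]; exact (not_le.1 hcon).le)
  have hJd : l / d ≤ J := hJ₁.trans (by exact_mod_cast (le_max_right _ _).trans hJ)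
  have J0 : (0 : ℝ) < J := lt_of_lt_of_le (by positivity) hJd
  obtain ⟨α, hα⟩ : ∃ α : ℝ, α * J = l := ⟨l / J, by field_simp⟩
  have α0 : 0 < α := by
    by_contra hc'
    have : α * J ≤ 0 := mul_nonpos_of_nonpos_of_nonneg (not_lt.1 hc') J0.le
    linarith
  have α1 : α ≤ d := by
    rw [div_le_iff₀ d0, ← hα, mul_comm] at hJd
    exact le_of_mul_le_mul_left hJd J0
  have αc : (α : ℂ) ≠ 0 := by exact_mod_cast α0.ne'
  have nσ : ‖s / (α : ℂ) ^ 2‖ * l ^ 2 = ‖s‖ * (J : ℝ) ^ 2 := by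
    rw [norm_div, norm_pow, norm_real, Real.norm_eq_abs, abs_of_pos α0, ← hα]
    field_simp
  have σ1 : ‖s / (α : ℂ) ^ 2‖ ≤ 1 := by
    have : ‖s / (α : ℂ) ^ 2‖ * l ^ 2 ≤ 1 * l ^ 2 := by linarith
    exact le_of_mul_le_mul_right this (by positivity)
  have a0' : a' ≠ 0 := norm_pos_iff.mp (by rw [hn'.2.1]; exact one_pos)
  have key := Far_quad (A := a⁻¹ ^ 2) (B := a'⁻¹ ^ 2) (σ := s / (α : ℂ) ^ 2) (μ := (1 - v) / α)
    (v := v) d1 α0.le α1 (by rw [norm_pow, norm_inv, hn'.2.1]; simp) hn'.1 σ1 (by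
      intro i i1 i3
      have i0 : 0 < i := by linarith
      have ic : (i : ℂ) ≠ 0 := by exact_mod_cast i0.ne'
      obtain ⟨t, ht⟩ : ∃ t : ℝ, t = i * α := ⟨_, rfl⟩
      have t0 : 0 < t := by rw [ht]; positivity
      have t1 : t ≤ 3 / 10 := by rw [ht]; nlinarith
      have tα : α ≤ t := by rw [ht]; nlinarith
      have tc : (t : ℂ) ≠ 0 := by exact_mod_cast t0.ne'
      have tJ1 : l ≤ t * J := by rw [← hα]; gcongr
      have tJ2 : t * J ≤ 3 * l := by rw [← hα, ht]; nlinarith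
      have E1 := Far_err hh hn ε0 d0 t0 (by linarith) tJ1 tJ2 hd
      have E2 := Far_err hl.ss hn' ε0 d0 t0 (by linarith) tJ1 tJ2 hd
      have nx : ‖((1 - t : ℝ) : ℂ)‖ = 1 - t := by
        rw [norm_real, Real.norm_eq_abs, abs_of_nonneg (by linarith)]
      have x1 : ‖((1 - t : ℝ) : ℂ)‖ < 1 := by rw [nx]; linarith
      have x0 : ((1 - t : ℝ) : ℂ) ≠ 0 := norm_pos_iff.mp (by rw [nx]; linarith)
      have m0 : 1 - v * ((1 - t : ℝ) : ℂ) ≠ 0 := by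
        intro hz
        have : v * ((1 - t : ℝ) : ℂ) = 1 := by linear_combination -hz
        have h2 := congrArg norm this
        rw [norm_mul, hn'.1, nx, norm_one] at h2
        linarith
      have F := hf _ (mem_ball_zero_iff.mpr x1)
      rw [ev_sq S1.1 e1 hh x1, ev_sq S2.1 e2 hl.ss x1] at F
      have xe : ((1 - t : ℝ) : ℂ) = 1 - t := by push_cast; ring
      have P := Far_pt (H := t * ev h (1 - t : ℝ)) (G := t * ev g (1 - t : ℝ))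
        (m := (1 - v * ((1 - t : ℝ) : ℂ)) / t) (a := a) (a' := a')
        (q := s * ((1 - t : ℝ) : ℂ) / t ^ 2) d1 hn.2.1 hn'.2.1 (div_ne_zero m0 tc)
        (by
          refine le_trans (le_of_eq ?_) E1
          congr 2
          rw [xe, one_mul, sub_sub_cancel]
          field_simp)
        (by
          refine le_trans (le_of_eq ?_) E2
          congr 2
          field_simp)
        (by
          refine le_trans ?_ σ1
          rw [norm_div, norm_div, norm_mul, nx, norm_pow, norm_pow, norm_real, norm_real,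
            Real.norm_eq_abs, Real.norm_eq_abs, abs_of_pos t0, abs_of_pos α0]
          have : ‖s‖ * (1 - t) ≤ ‖s‖ := mul_le_of_le_one_right (norm_nonneg _) (by linarith)
          gcongr)
        (by
          have F' := mul_left_cancel₀ x0 (F.symm.trans (mul_assoc _ _ _))
          have q : s * ((1 - t : ℝ) : ℂ) / t ^ 2 * (t * ev h (1 - t : ℝ)) ^ 2 =
              s * (((1 - t : ℝ) : ℂ) * ev h (1 - t : ℝ) ^ 2) := by field_simp
          rw [q]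
          linear_combination (-(t : ℂ) ^ 2) * F')
      have Q : a⁻¹ ^ 2 * (i : ℂ) ^ 2 - s / (α : ℂ) ^ 2 * (1 - i * α) -
          a'⁻¹ ^ 2 * ((1 - v) / α + v * i) ^ 2 = (a⁻¹ ^ 2 - s * ((1 - t : ℝ) : ℂ) / t ^ 2 -
            ((1 - v * ((1 - t : ℝ) : ℂ)) / t / a') ^ 2) * (i : ℂ) ^ 2 := by
        rw [xe, ht]
        push_cast
        field_simp
        ring
      rw [Q, norm_mul, norm_pow, norm_real, Real.norm_eq_abs, abs_of_pos i0]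
      gcongr)
  have : ‖s / (α : ℂ) ^ 2‖ * l ^ 2 ≤ 11000 * d * l ^ 2 := by gcongr
  linarith

end Pool.Agent.P.MP_c09211_an.Sh
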