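import Pool.Agent.P.MP_c09211_an.Sh.Omit
import Pool.Agent.P.MP_c09211_an.Sh.Far
import Pool.Agent.P.MP_c09211_an.Sh.Net
import Pool.Agent.P.MP_c09211_an.Sh.Circ

/-!
The weight of a nearly extremal polynomial varies slowly.
-/

set_option autoImplicit false

namespace Pool.Agent.P.MP_c09211_an.Sh

open Metric Set Finset PowerSeries Complex Filter Topology Real
open scoped ComplexConjugate

theorem geo_fin {p p₀ y y₀ : ℂ} {c C k ξ u : ℝ} (hc : 0 < c) (hC : 0 < C) (hk : 0 < k)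
    (hξ : 0 < ξ) (hu : 0 < u) (a1 : c * u / 2 ≤ ‖p‖) (a2 : ‖p‖ ≤ 2 * C * u)
    (a3 : c * u / 2 ≤ ‖p₀‖) (a4 : ‖p - p₀‖ ≤ ξ * u) (a5 : k * u ≤ ‖y‖)
    (a6 : ‖y - y₀‖ ≤ 4 * u ^ 2 * ‖p⁻¹ - p₀⁻¹‖) :
    ‖y * p⁻¹ ^ 2 - y₀ * p₀⁻¹ ^ 2‖ ≤
      (16 / (c ^ 2 * k) * (4 * C / c) ^ 2 + 2 / c * (1 + 4 * C / c)) * ξ * ‖y * p⁻¹ ^ 2‖ := by
  have cu : 0 < c * u / 2 := by positivity
  have n0 : 0 < ‖p‖ := cu.trans_le a1
  have n1 : 0 < ‖p₀‖ := cu.trans_le a3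
  have p0 : p ≠ 0 := norm_pos_iff.mp n0
  have p1 : p₀ ≠ 0 := norm_pos_iff.mp n1
  set t : ℂ := p / p₀ with ht
  have e0 : p₀⁻¹ = t * p⁻¹ := by rw [ht]; field_simp
  have t1 : ‖t‖ ≤ 4 * C / c := by
    rw [ht, norm_div, div_le_div_iff₀ n1 hc]
    nlinarith [mul_le_mul_of_nonneg_left a3 hC.le, mul_le_mul_of_nonneg_left a2 hc.le]
  have t2 : ‖1 - t‖ ≤ 2 / c * ξ := by
    have : 1 - t = -(p - p₀) / p₀ := by rw [ht]; field_simp; ring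
    rw [this, norm_div, norm_neg, div_le_iff₀ n1]
    refine a4.trans ?_
    have : 2 / c * ξ * (c * u / 2) = ξ * u := by field_simp
    rw [← this]
    exact mul_le_mul_of_nonneg_left a3 (by positivity)
  have s1 : ‖p⁻¹‖ ≤ 2 / (c * u) := by
    rw [norm_inv, inv_eq_one_div, div_le_div_iff₀ n0 (by positivity)]
    linarith
  have y1 : ‖y - y₀‖ ≤ 16 / (c ^ 2 * k) * ξ * ‖y‖ := by
    refine a6.trans ?_
    have : p⁻¹ - p₀⁻¹ = p⁻¹ * (1 - t) := by rw [e0]; ring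
    rw [this, norm_mul]
    calc 4 * u ^ 2 * (‖p⁻¹‖ * ‖1 - t‖) ≤ 4 * u ^ 2 * (2 / (c * u) * (2 / c * ξ)) := by gcongr
      _ = 16 / (c ^ 2 * k) * ξ * (k * u) := by field_simp; ring
      _ ≤ _ := by gcongr
  have t3 : ‖1 + t‖ ≤ 1 + 4 * C / c := (norm_add_le _ _).trans (by rw [norm_one]; linarith)
  have e1 : y * p⁻¹ ^ 2 - y₀ * p₀⁻¹ ^ 2 =
      ((y - y₀) * t ^ 2 + y * ((1 - t) * (1 + t))) * p⁻¹ ^ 2 := by rw [e0]; ring
  rw [e1, norm_mul, norm_mul y, ← mul_assoc _ ‖y‖]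
  refine mul_le_mul_of_nonneg_right ?_ (norm_nonneg (p⁻¹ ^ 2))
  refine (norm_add_le _ _).trans ?_
  rw [norm_mul, norm_mul, norm_mul, norm_pow]
  calc ‖y - y₀‖ * ‖t‖ ^ 2 + ‖y‖ * (‖1 - t‖ * ‖1 + t‖)
      ≤ 16 / (c ^ 2 * k) * ξ * ‖y‖ * (4 * C / c) ^ 2 +
        ‖y‖ * (2 / c * ξ * (1 + 4 * C / c)) := by gcongr
    _ = _ := by ring

theorem geo_NK {J : ℕ} {δ ε ρ x : ℝ} {h : ℂ⟦X⟧} {a : ℂ} (H : NK J δ h 1 a) (h0 : 0 ≤ ρ)
    (h1 : ρ ≤ 1) (hx : 1 - x ≤ ρ ^ J) (hδ : 4 * δ ≤ ε) (hε : 4 * x ^ 2 ≤ ε) :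
    NK J ε (rescale (ρ : ℂ) h) 1 a := by
  obtain ⟨b1, b2, b3⟩ := H
  refine ⟨b1, b2, ?_⟩
  have key : ∀ k ∈ range J, ‖coeff k (rescale (ρ : ℂ) h) - a * 1 ^ k‖ ^ 2 ≤
      2 * ‖coeff k h - a * 1 ^ k‖ ^ 2 + 2 * x ^ 2 := by
    intro k hk
    have hk' := (Finset.mem_range.mp hk).le
    have q1 : ρ ^ J ≤ ρ ^ k := pow_le_pow_of_le_one h0 h1 hk'
    have q2 : ρ ^ k ≤ 1 := pow_le_one₀ h0 h1
    have q3 : 0 ≤ ρ ^ k := pow_nonneg h0 k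
    have e : coeff k (rescale (ρ : ℂ) h) - a * 1 ^ k =
        ((ρ ^ k : ℝ) : ℂ) * (coeff k h - a * 1 ^ k) - ((1 - ρ ^ k : ℝ) : ℂ) * a := by
      rw [coeff_rescale]; push_cast; ring
    have n1 : ‖coeff k (rescale (ρ : ℂ) h) - a * 1 ^ k‖ ≤ ‖coeff k h - a * 1 ^ k‖ + x := by
      rw [e]
      refine (norm_sub_le _ _).trans ?_
      rw [norm_mul, norm_mul, b2, norm_real, norm_real, Real.norm_eq_abs, Real.norm_eq_abs,
        abs_of_nonneg q3, abs_of_nonneg (by linarith)]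
      nlinarith [norm_nonneg (coeff k h - a * 1 ^ k)]
    nlinarith [norm_nonneg (coeff k (rescale (ρ : ℂ) h) - a * 1 ^ k),
      norm_nonneg (coeff k h - a * 1 ^ k), sq_nonneg (‖coeff k h - a * 1 ^ k‖ - x)]
  refine (Finset.sum_le_sum key).trans ?_
  rw [Finset.sum_add_distrib, ← Finset.mul_sum, Finset.sum_const, card_range, nsmul_eq_mul]
  have : (0 : ℝ) ≤ J := by positivity
  nlinarith

theorem geo_SS {ρ : ℝ} {h : ℂ⟦X⟧} (hh : ∀ K, SS h K ≤ K) (h0 : 0 ≤ ρ) (h1 : ρ ≤ 1) (K : ℕ) :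
    SS (rescale (ρ : ℂ) h) K ≤ K := by
  refine le_trans (Finset.sum_le_sum fun k _ => ?_) (hh K)
  rw [coeff_rescale, norm_mul, norm_pow, norm_real, Real.norm_eq_abs, abs_of_nonneg h0]
  exact pow_le_pow_left₀ (by positivity)
    (mul_le_of_le_one_left (norm_nonneg _) (pow_le_one₀ h0 h1)) 2

/-- The lower bound for the polynomial part of the quadratic differential. -/
theorem geo_low {c C κ ε δ ρ x : ℝ} {J n : ℕ} (hc : 0 < c) (hC : 0 < C) (hκ1 : κ ≤ 1)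
    (hfar : ∀ (f₁ f₂ w : ℂ → ℂ) (s a : ℂ) (h : ℂ⟦X⟧), Sr 1 f₁ → Sr 1 f₂ →
      (∀ z ∈ ball (0 : ℂ) 1, f₂ z * (1 - s * f₁ z) = f₁ z) → X * h ^ 2 = tay f₁ →
      (∀ K, SS h K ≤ K) → NK J ε h 1 a → 1 / (4 * C) ≤ ‖s‖ * (J : ℝ) ^ 2 →
      ‖s‖ * (J : ℝ) ^ 2 ≤ 2 / c → Schur w → ‖Lam J w (tay f₂)‖ ≤ (1 - κ) * (J : ℝ) ^ 2)
    (hJ : 1 ≤ J) {P : Polynomial ℂ} {h g : ℂ⟦X⟧} {a : ℂ} (H : Hyp n P)
    (e : X * h ^ 2 = (P : ℂ⟦X⟧)) (hl : LM h g) (hN : NK J δ h 1 a)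
    (hL : (1 - δ) * (J : ℝ) ^ 2 ≤ ‖Lam J (om n P) (P : ℂ⟦X⟧)‖) (h0 : 1 / 2 ≤ ρ) (h1 : ρ ≤ 1)
    (hx : 1 - x ≤ ρ ^ J) (hδ : 4 * δ ≤ ε) (hδ' : 4 * δ ≤ κ) (hε : 4 * x ^ 2 ≤ ε) (hxκ : 2 * x ≤ κ)
    {z : ℂ} (z1 : ρ < ‖z‖) (z2 : ‖z‖ ≤ 1) (b1 : c * (J : ℝ) ^ 2 / 2 ≤ ‖P.eval z‖)
    (b2 : ‖P.eval z‖ ≤ 2 * C * (J : ℝ) ^ 2) :
    κ / 4 * (J : ℝ) ^ 2 ≤ ‖yf n J P (P.eval z)⁻¹‖ := by
  have ρ0 : 0 < ρ := by linarith
  have J0 : (0 : ℝ) < J := by exact_mod_cast hJ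
  have u0 : (0 : ℝ) < (J : ℝ) ^ 2 := by positivity
  have hρ : ‖(ρ : ℂ)‖ = ρ := by rw [norm_real, Real.norm_eq_abs, abs_of_pos ρ0]
  have ρc : (ρ : ℂ) ≠ 0 := by exact_mod_cast ρ0.ne'
  obtain ⟨S2, ne⟩ := H.Hs_sr ρ0 z1 z2
  have S1 := H.sr h1
  have n0 : 0 < ‖P.eval z‖ := lt_of_lt_of_le (by positivity) b1
  set s : ℂ := (P.eval z)⁻¹ with hs
  have ns : ‖(ρ : ℂ) * s‖ = ρ / ‖P.eval z‖ := by rw [norm_mul, hρ, hs, norm_inv, div_eq_mul_inv]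
  have key := hfar _ _ _ ((ρ : ℂ) * s) a (rescale (ρ : ℂ) h) (S1.scale ρ0 hρ) (S2.scale ρ0 hρ)
    (fun w hw => by
      have := ne ((ρ : ℂ) * w) (by
        rw [norm_mul, hρ]
        exact mul_le_of_le_one_right ρ0.le (mem_ball_zero_iff.mp hw).le)
      have e2 : 1 - (ρ : ℂ) * s * ((ρ : ℂ)⁻¹ * P.eval ((ρ : ℂ) * w)) =
          1 - s * P.eval ((ρ : ℂ) * w) := by field_simp
      simp only [Hs]
      rw [e2, mul_assoc, div_mul_cancel₀ _ this])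
    (by
      rw [tay_scale' (S1.an ρ0), tay_poly, ← e, map_mul, map_pow, rescale_X, ← mul_assoc,
        ← mul_assoc, ← map_mul, inv_mul_cancel₀ ρc, map_one, one_mul])
    (geo_SS hl.ss ρ0.le h1) (geo_NK hN ρ0.le h1 hx hδ hε)
    (by
      rw [ns, div_mul_eq_mul_div, div_le_div_iff₀ (by positivity) n0]
      nlinarith [mul_le_mul_of_nonneg_right h0 (mul_pos hC u0).le])
    (by
      rw [ns, div_mul_eq_mul_div, div_le_div_iff₀ n0 hc]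
      nlinarith [mul_le_mul_of_nonneg_right h1 (mul_pos hc u0).le])
    (H.schur.scale (hρ.trans_le h1))
  rw [tay_scale' (S2.an ρ0), Lam_scale H.schur.an ρc, norm_mul, norm_pow, hρ] at key
  have q1 : ρ ^ J ≤ ρ ^ (J - 1) := pow_le_pow_of_le_one ρ0.le h1 (Nat.sub_le _ _)
  have q2 : 1 - κ / 2 ≤ ρ ^ (J - 1) := by linarith
  have q3 : ‖Lam J (om n P) (tay (Hs P s))‖ ≤ (1 - κ / 2) * (J : ℝ) ^ 2 := by
    have q4 : 0 < 1 - κ / 2 := by linarith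
    refine le_of_mul_le_mul_left ?_ q4
    have := mul_le_mul_of_nonneg_right q2 (norm_nonneg (Lam J (om n P) (tay (Hs P s))))
    nlinarith [mul_nonneg (sq_nonneg κ) u0.le]
  rw [H.yf_eq hJ]
  have := norm_sub_norm_le (Lam J (om n P) (P : ℂ⟦X⟧)) (Lam J (om n P) (tay (Hs P s)))
  rw [norm_sub_rev] at this
  nlinarith

theorem geo_int {y : ℂ → ℝ} {r a b M : ℝ} (hy : Continuous fun θ => y (circleMap 0 r θ))
    (y0 : ∀ z, 0 ≤ y z) (hab : a ≤ b) (hb : b - a ≤ 2) (hM : circleAverage y 0 r ≤ M) :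
    ∫ θ in a..b, y (circleMap 0 r θ) ≤ 8 * M := by
  have hp : Function.Periodic (fun θ => y (circleMap 0 r θ)) (2 * π) := fun θ => by
    simp only [periodic_circleMap 0 r θ]
  have h1 : ∫ θ in a..b, y (circleMap 0 r θ) ≤ ∫ θ in a..a + 2 * π, y (circleMap 0 r θ) :=
    intervalIntegral.integral_mono_interval le_rfl hab (by linarith [Real.pi_gt_three])
      (Eventually.of_forall fun θ => y0 _) (hy.intervalIntegrable _ _)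
  rw [hp.intervalIntegral_add_eq a 0, zero_add] at h1
  rw [circleAverage_def, smul_eq_mul, inv_mul_le_iff₀ Real.two_pi_pos] at hM
  have h2 : 0 ≤ ∫ θ in (0 : ℝ)..2 * π, y (circleMap 0 r θ) :=
    intervalIntegral.integral_nonneg Real.two_pi_pos.le fun θ _ => y0 _
  have h3 : 0 ≤ M := by
    by_contra hn
    nlinarith [Real.pi_pos, not_le.mp hn]
  nlinarith [Real.pi_le_four]

theorem geo {A η₁ : ℝ} (hA : 0 < A) (hη : 0 < η₁) : ∃ τ : ℝ, 0 < τ ∧ τ ≤ 1 ∧ ∃ δ : ℝ, 0 < δ ∧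
    ∀ β : ℝ, 0 < β → ∃ γ : ℝ, 0 < γ ∧ ∀ L : ℝ, 0 < L → ∃ J₀ : ℕ, ∀ J ≥ J₀,
    ∀ (n : ℕ) (P : Polynomial ℂ) (h g : ℂ⟦X⟧) (a : ℂ) (r : ℝ), Hyp n P →
      X * h ^ 2 = (P : ℂ⟦X⟧) → LM h g → NK J δ h 1 a →
      (1 - δ) * (J : ℝ) ^ 2 ≤ ‖Lam J (om n P) (P : ℂ⟦X⟧)‖ → 1 - L / (J : ℝ) ^ 2 ≤ r → r < 1 →
      circleAverage (fun z => ‖Yf n J P z‖) 0 r ≤ 2 * (J : ℝ) ^ 3 →
      Geo J A τ η₁ β γ r (qf n J P) := by
  obtain ⟨c, hc, C₀, εn, hεn, J₁, hnet⟩ := net hA hη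
  obtain ⟨C, hC, hCC⟩ : ∃ C : ℝ, 0 < C ∧ C₀ ≤ C := ⟨max C₀ c, lt_max_of_lt_right hc, le_max_left _ _⟩
  obtain ⟨κ₀, hκ₀, εf, hεf, J₂, hfar⟩ := far (c := 1 / (4 * C)) (C := 2 / c) (by positivity)
  obtain ⟨κ, hκ, hκ1, hκκ⟩ : ∃ κ : ℝ, 0 < κ ∧ κ ≤ 1 ∧ κ ≤ κ₀ :=
    ⟨min κ₀ 1, lt_min hκ₀ one_pos, min_le_right _ _, min_le_left _ _⟩
  obtain ⟨δ, hδ, hδ1, hδ2, hδ3⟩ : ∃ δ : ℝ, 0 < δ ∧ δ ≤ εn ∧ 4 * δ ≤ εf ∧ 4 * δ ≤ κ :=
    ⟨min εn (min (εf / 4) (κ / 4)), by positivity, min_le_left _ _,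
      by linarith [(min_le_right εn _).trans (min_le_left (εf / 4) (κ / 4))],
      by linarith [(min_le_right εn _).trans (min_le_right (εf / 4) (κ / 4))]⟩
  refine ⟨κ / 4096, by positivity, by linarith, δ, hδ, fun β hβ => ?_⟩
  set τ : ℝ := κ / 4096 with hτ
  have τ0 : 0 < τ := by positivity
  set K : ℝ := 16 / (c ^ 2 * (κ / 4)) * (4 * C / c) ^ 2 + 2 / c * (1 + 4 * C / c) with hK
  have K0 : 0 < K := by positivity
  obtain ⟨ξ, ξ0, hξ⟩ : ∃ ξ : ℝ, 0 < ξ ∧ K * ξ = β := ⟨β / K, by positivity, by field_simp⟩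
  obtain ⟨γ, γ0, hγ1, hγ2⟩ : ∃ γ : ℝ, 0 < γ ∧ 2 * γ ≤ τ ∧ 64 * C ^ 2 * γ ≤ κ / 4 * ξ ^ 2 :=
    ⟨min (τ / 2) (κ / 4 * ξ ^ 2 / (64 * C ^ 2)), by positivity,
      by linarith [min_le_left (τ / 2) (κ / 4 * ξ ^ 2 / (64 * C ^ 2))],
      by
        have := min_le_right (τ / 2) (κ / 4 * ξ ^ 2 / (64 * C ^ 2))
        rw [le_div_iff₀ (by positivity)] at this
        linarith⟩
  refine ⟨γ, γ0, fun L hL => ?_⟩
  obtain ⟨J₃, hJ₃⟩ := exists_nat_ge (4 * L / κ + 16 * L ^ 2 / εf + 1)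
  refine ⟨max J₁ (max J₂ J₃), fun J hJ n P h g a r H e hl hN hLam r0 r1 hm => ?_⟩
  have j1 : J₁ ≤ J := (le_max_left _ _).trans hJ
  have j2 : J₂ ≤ J := ((le_max_left _ _).trans (le_max_right _ _)).trans hJ
  have j3 : (J₃ : ℝ) ≤ J := by
    exact_mod_cast ((le_max_right _ _).trans (le_max_right _ _)).trans hJ
  have w1 : 0 ≤ 4 * L / κ := by positivity
  have w2 : 0 ≤ 16 * L ^ 2 / εf := by positivity
  have J1 : (1 : ℝ) ≤ J := by linarith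
  have J0 : (0 : ℝ) < J := by linarith
  have J1' : 1 ≤ J := by exact_mod_cast J1
  have u0 : (0 : ℝ) < (J : ℝ) ^ 2 := by positivity
  set x : ℝ := 2 * L / J with hxd
  have x0 : 0 < x := by positivity
  have hxκ : 2 * x ≤ κ := by
    have : 4 * L / κ ≤ J := by linarith
    rw [div_le_iff₀ hκ] at this
    rw [hxd, ← mul_div_assoc, div_le_iff₀ J0]
    linarith
  have hxε : 4 * x ^ 2 ≤ εf := by
    have : 16 * L ^ 2 / εf ≤ J := by linarith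
    rw [div_le_iff₀ hεf] at this
    rw [hxd, div_pow, ← mul_div_assoc, div_le_iff₀ u0]
    nlinarith [mul_le_mul_of_nonneg_left J1 (mul_pos hεf J0).le]
  have xJ : x / J ≤ x := div_le_self x0.le J1
  have xJ0 : 0 < x / J := by positivity
  set ρ : ℝ := 1 - x / J with hρ
  have ρ0 : 1 / 2 ≤ ρ := by linarith
  have ρ1 : ρ ≤ 1 := by linarith
  have hx : 1 - x ≤ ρ ^ J := by
    have := one_add_mul_le_pow (a := -(x / J)) (by linarith) J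
    rw [← sub_eq_add_neg, ← hρ] at this
    have e1 : (J : ℝ) * -(x / J) = -x := by field_simp
    linarith
  have eL : L / (J : ℝ) ^ 2 = x / J / 2 := by rw [hxd]; field_simp
  have ρr : ρ < r := by linarith
  have rp : 0 < r := by linarith
  have nc : ∀ θ, ‖circleMap 0 r θ‖ = r := fun θ => by
    rw [norm_circleMap_zero, abs_of_pos rp]
  have low : ∀ θ : ℝ, c * (J : ℝ) ^ 2 / 2 ≤ ‖P.eval (circleMap 0 r θ)‖ →
      ‖P.eval (circleMap 0 r θ)‖ ≤ 2 * C * (J : ℝ) ^ 2 →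
      κ / 4 * (J : ℝ) ^ 2 ≤ ‖yf n J P (P.eval (circleMap 0 r θ))⁻¹‖ := fun θ b1 b2 =>
    geo_low hc hC hκ1 (fun f₁ f₂ w s a h a1 a2 a3 a4 a5 a6 a7 a8 a9 =>
      (hfar J j2 f₁ f₂ w s a h a1 a2 a3 a4 a5 a6 a7 a8 a9).trans
        (mul_le_mul_of_nonneg_right (by linarith) u0.le))
      J1' H e hl hN hLam ρ0 ρ1 hx hδ2 hδ3 hxε hxκ (by rw [nc]; exact ρr) (by rw [nc]; exact r1.le)
      b1 b2
  have ycont : Continuous fun θ => ‖Yf n J P (circleMap 0 r θ)‖ := by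
    refine (H.Yf_cont.comp_continuous (continuous_circleMap 0 r) fun θ => ⟨?_, ?_⟩).norm
    · rw [mem_closedBall_zero_iff, nc]; exact r1.le
    · exact circleMap_ne_center rp.ne'
  classical
  refine ⟨(Finset.Icc (-⌈A / τ⌉) ⌈A / τ⌉).filter fun j : ℤ => -A ≤ j * τ ∧ (j + 1) * τ ≤ A ∧
    ∀ θ ∈ Set.Icc (j * τ / J) ((j + 1) * τ / J),
      ¬ (c * (J : ℝ) ^ 2 ≤ ‖P.eval (circleMap 0 r θ)‖ ∧
        ‖P.eval (circleMap 0 r θ)‖ ≤ C₀ * (J : ℝ) ^ 2), ?_, fun j hj j4 j5 φ hφ θ hθ => ?_⟩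
  · refine hnet J j1 (fun z => P.eval z) h g a P.differentiable.differentiableOn
      (by rw [tay_poly, e]) hl ⟨hN.1, hN.2.1, hN.2.2.trans (by gcongr)⟩ r ?_ r1 τ τ0 _
      fun j hj => (Finset.mem_filter.mp hj).2
    have : x / J ≤ 1 / J := by gcongr; linarith
    linarith
  have hjI : j ∈ Finset.Icc (-⌈A / τ⌉) ⌈A / τ⌉ := by
    have c1 := Int.le_ceil (A / τ)
    rw [div_le_iff₀ τ0] at c1
    rw [Finset.mem_Icc]
    constructor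
    · have : (-(⌈A / τ⌉ : ℝ)) ≤ j := le_of_mul_le_mul_right (by linarith) τ0
      exact_mod_cast this
    · have : (j : ℝ) ≤ ⌈A / τ⌉ := le_of_mul_le_mul_right (by linarith) τ0
      exact_mod_cast this
  obtain ⟨θ₀, hθ₀, b1, b2⟩ : ∃ θ₀ ∈ Set.Icc (j * τ / J) ((j + 1) * τ / J),
      c * (J : ℝ) ^ 2 ≤ ‖P.eval (circleMap 0 r θ₀)‖ ∧
        ‖P.eval (circleMap 0 r θ₀)‖ ≤ C₀ * (J : ℝ) ^ 2 := by
    by_contra hn
    exact hj (Finset.mem_filter.mpr ⟨hjI, j4, j5, fun θ hθ hh => hn ⟨θ, hθ, hh⟩⟩)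
  have gJ : 0 < γ / J := by positivity
  have len : (j + 1) * τ / J + γ / J - (j * τ / J - γ / J) = (τ + 2 * γ) / J := by ring
  have len1 : (τ + 2 * γ) / J ≤ 2 * τ / J := by gcongr; linarith
  have len2 : 2 * τ / J ≤ 2 * τ := div_le_self (by positivity) J1
  have len0 : 0 ≤ (τ + 2 * γ) / J := by positivity
  obtain ⟨o1, o2⟩ := arc_cont (φ := fun θ => P.eval (circleMap 0 r θ))
    (φ' := fun θ => P.derivative.eval (circleMap 0 r θ) * (circleMap 0 r θ * I))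
    (y := fun θ => ‖Yf n J P (circleMap 0 r θ)‖) (a := j * τ / J - γ / J)
    (b := (j + 1) * τ / J + γ / J) (c := c * (J : ℝ) ^ 2 / 2) (C := 2 * C * (J : ℝ) ^ 2)
    (k := κ / 4 * (J : ℝ) ^ 2) (M := 8 * (2 * (J : ℝ) ^ 3)) (θ₀ := θ₀)
    (fun θ => (P.hasDerivAt (circleMap 0 r θ)).comp_of_eq θ (hasDerivAt_circleMap 0 r θ) rfl)
    ((P.derivative.continuous.comp (continuous_circleMap 0 r)).mul
      ((continuous_circleMap 0 r).mul continuous_const))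
    ycont (fun _ => norm_nonneg _) (by positivity) (by positivity)
    (fun θ _ b1 b2 => by
      have n0 : 0 < ‖P.eval (circleMap 0 r θ)‖ := lt_of_lt_of_le (by positivity) b1
      have := low θ b1 b2
      simp only [Yf, norm_mul, norm_pow, norm_div, norm_I, mul_one]
      rw [div_pow, mul_left_comm, mul_div_cancel₀ _ (pow_pos n0 2).ne', mul_comm ‖circleMap 0 r θ‖]
      exact mul_le_mul_of_nonneg_right this (by positivity))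
    (geo_int (y := fun z => ‖Yf n J P z‖) ycont (fun _ => norm_nonneg _) (by linarith)
      (by linarith) hm)
    ⟨by linarith [hθ₀.1], by linarith [hθ₀.2]⟩ (by linarith)
    (by nlinarith [mul_le_mul_of_nonneg_right hCC u0.le])
    (by
      rw [len]
      calc 32 * (8 * (2 * (J : ℝ) ^ 3)) * ((τ + 2 * γ) / J)
          ≤ 32 * (8 * (2 * (J : ℝ) ^ 3)) * (2 * τ / J) := by gcongr
        _ = κ / 4 * (J : ℝ) ^ 2 := by rw [hτ]; field_simp; norm_num)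
  have mφ : φ ∈ Set.Icc (j * τ / J - γ / J) ((j + 1) * τ / J + γ / J) :=
    ⟨by linarith [hφ.1], by linarith [hφ.2]⟩
  have mθ : θ ∈ Set.Icc (j * τ / J - γ / J) ((j + 1) * τ / J + γ / J) :=
    ⟨by linarith [hφ.1, (abs_le.mp hθ).1], by linarith [hφ.2, (abs_le.mp hθ).2]⟩
  have d1 : ‖P.eval (circleMap 0 r θ) - P.eval (circleMap 0 r φ)‖ ≤ ξ * (J : ℝ) ^ 2 := by
    refine (pow_le_pow_iff_left₀ (norm_nonneg _) (by positivity) two_ne_zero).mp ?_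
    refine le_of_mul_le_mul_left ((o2 θ mθ φ mφ).trans ?_)
      (show 0 < κ / 4 * (J : ℝ) ^ 2 by positivity)
    calc (2 * C * (J : ℝ) ^ 2) ^ 2 * (8 * (2 * (J : ℝ) ^ 3)) * |θ - φ|
        ≤ (2 * C * (J : ℝ) ^ 2) ^ 2 * (8 * (2 * (J : ℝ) ^ 3)) * (γ / J) := by gcongr
      _ = 64 * C ^ 2 * γ * (J : ℝ) ^ 6 := by field_simp; ring
      _ ≤ κ / 4 * ξ ^ 2 * (J : ℝ) ^ 6 := by gcongr
      _ = _ := by ring
  have lip := H.yf_lip J1' (ρ := ρ) (by linarith) (by linarith) (z := circleMap 0 r θ)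
    (z' := circleMap 0 r φ) (by rw [nc]; exact ρr) (by rw [nc]; exact r1.le)
    (by rw [nc]; exact ρr) (by rw [nc]; exact r1.le)
  have := geo_fin hc hC (show 0 < κ / 4 by positivity) ξ0 u0 (o1 θ mθ).1 (o1 θ mθ).2 (o1 φ mφ).1 d1
    (low θ (o1 θ mθ).1 (o1 θ mθ).2) (lip.trans (le_of_eq (by ring)))
  rw [← hK, hξ] at this
  exact this

end Pool.Agent.P.MP_c09211_an.Sh
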