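import Pool.Agent.P.MP_c09211_an.Sh.Base

/-!
Values of the functional near the extremal function.
-/

set_option autoImplicit false

namespace Pool.Agent.P.MP_c09211_an.Sh

open Metric Set Finset PowerSeries Complex Filter Topology Real
open scoped ComplexConjugate

/-- The Euclidean norm of the first `J` coefficients. -/
noncomputable def zN (J : ℕ) (x : ℂ⟦X⟧) : ℝ := √(SS x J)

/-- The geometric series. -/
noncomputable def zu : ℂ⟦X⟧ := PowerSeries.mk fun _ => 1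

theorem zSS_nonneg (x : ℂ⟦X⟧) (J : ℕ) : 0 ≤ SS x J := sum_nonneg fun _ _ => sq_nonneg _

theorem zN_nonneg (J : ℕ) (x : ℂ⟦X⟧) : 0 ≤ zN J x := Real.sqrt_nonneg _

theorem zN_sq (J : ℕ) (x : ℂ⟦X⟧) : zN J x ^ 2 = SS x J := Real.sq_sqrt (zSS_nonneg x J)

theorem zN_le {J : ℕ} {x : ℂ⟦X⟧} {M : ℝ} (hM : 0 ≤ M) (h : SS x J ≤ M ^ 2) : zN J x ≤ M :=
  Real.sqrt_le_iff.mpr ⟨hM, h⟩

theorem zN_add (J : ℕ) (x y : ℂ⟦X⟧) : zN J (x + y) ≤ zN J x + zN J y := by
  refine zN_le (add_nonneg (zN_nonneg J x) (zN_nonneg J y)) ?_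
  have h := Real.sum_mul_le_sqrt_mul_sqrt (range J) (fun k => ‖coeff k x‖) fun k => ‖coeff k y‖
  have h2 : SS (x + y) J ≤ SS x J + 2 * ∑ k ∈ range J, ‖coeff k x‖ * ‖coeff k y‖ + SS y J := by
    simp only [SS]
    rw [mul_sum, ← sum_add_distrib, ← sum_add_distrib]
    refine sum_le_sum fun k _ => ?_
    rw [map_add]
    have := norm_add_le (coeff k x) (coeff k y)
    have h0 := norm_nonneg (coeff k x + coeff k y)
    nlinarith
  rw [add_sq, zN_sq, zN_sq]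
  change _ ≤ zN J x * zN J y at h
  linarith

theorem zN_C (J : ℕ) (a : ℂ) (x : ℂ⟦X⟧) : zN J (C a * x) ≤ ‖a‖ * zN J x := by
  refine zN_le (mul_nonneg (norm_nonneg _) (zN_nonneg J x)) (le_of_eq ?_)
  rw [mul_pow, zN_sq, SS, SS, mul_sum]
  refine sum_congr rfl fun k _ => ?_
  rw [coeff_C_mul, norm_mul, mul_pow]

theorem zSS_W {w : ℂ → ℂ} (hw : Schur w) (J : ℕ) (x : ℂ⟦X⟧) : SS (tay w * x) J ≤ SS x J := by
  have h := toeplitz hw.1 (fun z hz => hw.2 z (sphere_subset_closedBall hz)) J x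
    fun q => conj (coeff q (tay w * x))
  simp only [mul_conj, normSq_eq_norm_sq, norm_conj, one_mul] at h
  rw [← ofReal_sum, norm_real, Real.norm_eq_abs] at h
  have := le_abs_self (∑ q ∈ range J, ‖coeff q (tay w * x)‖ ^ 2)
  simp only [SS]
  linarith

theorem zN_W {w : ℂ → ℂ} (hw : Schur w) (J : ℕ) (x : ℂ⟦X⟧) : zN J (tay w * x) ≤ zN J x :=
  Real.sqrt_le_sqrt (zSS_W hw J x)

theorem zN_th (J : ℕ) (x : ℂ⟦X⟧) : zN J (th x) ≤ J * zN J x := by
  refine zN_le (mul_nonneg (Nat.cast_nonneg _) (zN_nonneg J x)) ?_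
  rw [mul_pow, zN_sq, SS, SS, mul_sum]
  refine sum_le_sum fun k hk => ?_
  rw [coeff_th, norm_mul, mul_pow, Complex.norm_natCast]
  have : (k : ℝ) ≤ J := by exact_mod_cast (mem_range.mp hk).le
  gcongr

theorem zN_pair {J k : ℕ} (hk : k < J) (x y : ℂ⟦X⟧) : ‖coeff k (x * y)‖ ≤ zN J x * zN J y := by
  rw [coeff_mul, Finset.Nat.sum_antidiagonal_eq_sum_range_succ
    (fun i j => coeff i x * coeff j y)]
  refine (norm_sum_le _ _).trans ?_
  simp only [norm_mul]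
  refine (Real.sum_mul_le_sqrt_mul_sqrt _ _ _).trans ?_
  have h3 := sum_range_reflect (fun q => ‖coeff q y‖ ^ 2) (k + 1)
  simp only [Nat.add_sub_cancel] at h3
  rw [h3]
  have m : ∀ z : ℂ⟦X⟧, √(∑ i ∈ range (k + 1), ‖coeff i z‖ ^ 2) ≤ zN J z := fun z =>
    Real.sqrt_le_sqrt (sum_le_sum_of_subset_of_nonneg (range_subset_range.mpr hk)
      fun _ _ _ => sq_nonneg _)
  exact mul_le_mul (m x) (m y) (Real.sqrt_nonneg _) (zN_nonneg J x)

theorem zSS_u (J : ℕ) : SS zu J = J := by simp [SS, zu]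

theorem zN_u (J : ℕ) : zN J zu = √J := by rw [zN, zSS_u]

theorem zN_L (J : ℕ) (x : ℂ⟦X⟧) : zN J (X * zu * x) ≤ J * zN J x := by
  have hS : Schur fun z => z := ⟨by fun_prop, fun z hz => mem_closedBall_zero_iff.mp hz⟩
  have h1 := zN_W hS J (zu * x)
  rw [tay_id, ← mul_assoc] at h1
  refine h1.trans (zN_le (mul_nonneg (Nat.cast_nonneg _) (zN_nonneg J x)) ?_)
  have h2 : ∀ k ∈ range J, ‖coeff k (zu * x)‖ ^ 2 ≤ J * zN J x ^ 2 := fun k hk => by
    have := zN_pair (mem_range.mp hk) zu x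
    rw [zN_u] at this
    have h3 := pow_le_pow_left₀ (norm_nonneg _) this 2
    rwa [mul_pow, Real.sq_sqrt (Nat.cast_nonneg _)] at h3
  refine (sum_le_sum h2).trans (le_of_eq ?_)
  rw [sum_const, card_range, nsmul_eq_mul]
  ring

theorem z_coeff_u (x : ℂ⟦X⟧) (k : ℕ) : coeff k (zu * x) = ∑ i ∈ range (k + 1), coeff i x := by
  rw [mul_comm, coeff_mul, Finset.Nat.sum_antidiagonal_eq_sum_range_succ
    (fun i j => coeff i x * coeff j zu)]
  simp [zu]

theorem z_th_u : th zu = X * zu * zu := by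
  ext k
  rw [coeff_th, mul_assoc]
  cases k with
  | zero => simp
  | succ k => rw [coeff_succ_X_mul, z_coeff_u]; simp [zu]

theorem z_g0 (k : ℕ) : coeff k (zu + 2 * th zu) = 2 * (k : ℂ) + 1 := by
  rw [map_add, two_mul, map_add, coeff_th]
  simp only [zu, coeff_mk]
  ring

theorem z_main (k : ℕ) : coeff k (zu * (zu + 2 * th zu)) = ((k : ℂ) + 1) ^ 2 := by
  rw [z_coeff_u]
  simp only [z_g0]
  induction k with
  | zero => simp
  | succ k ih => rw [sum_range_succ, ih]; push_cast; ring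

theorem zN_two (J : ℕ) (x : ℂ⟦X⟧) {n : ℕ} : zN J ((n : ℂ⟦X⟧) * x) ≤ n * zN J x := by
  have := zN_C J n x
  rwa [map_natCast, Complex.norm_natCast] at this

theorem zN_g {J : ℕ} (hJ : 1 ≤ J) (x : ℂ⟦X⟧) : zN J (x + 2 * th x) ≤ 3 * J * zN J x := by
  have h1 := zN_add J x (2 * th x)
  have h2 := zN_two J (th x) (n := 2)
  have h3 := zN_th J x
  have h4 := zN_nonneg J x
  have h5 : (1 : ℝ) ≤ J := by exact_mod_cast hJ
  push_cast at h2
  nlinarith

theorem z_err {J k : ℕ} (hk : k < J) {P P' Q Q' : ℂ⟦X⟧} {b : ℂ} (hb : ‖b‖ = 1) {θ M M' : ℝ}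
    (h0 : 0 ≤ θ) (h1 : θ ≤ 1) (hQ : zN J Q ≤ M) (hQ' : zN J Q' ≤ M')
    (hP : zN J (P - C b * Q) ≤ θ * M) (hP' : zN J (P' - C b * Q') ≤ θ * M') :
    ‖coeff k (P * P') - b ^ 2 * coeff k (Q * Q')‖ ≤ 3 * θ * (M * M') := by
  have e : coeff k (P * P') - b ^ 2 * coeff k (Q * Q') =
      coeff k ((P - C b * Q) * (P' - C b * Q')) + coeff k ((P - C b * Q) * (C b * Q')) +
      coeff k ((C b * Q) * (P' - C b * Q')) := by
    rw [← coeff_C_mul, ← map_sub, ← map_add, ← map_add, map_pow]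
    congr 1
    ring
  have M0 : 0 ≤ M := (zN_nonneg J Q).trans hQ
  have M1 : 0 ≤ M' := (zN_nonneg J Q').trans hQ'
  have c1 := zN_C J b Q
  have c2 := zN_C J b Q'
  rw [hb, one_mul] at c1 c2
  have a1 := (zN_pair hk (P - C b * Q) (P' - C b * Q')).trans
    (mul_le_mul hP hP' (zN_nonneg _ _) (mul_nonneg h0 M0))
  have a2 := (zN_pair hk (P - C b * Q) (C b * Q')).trans
    (mul_le_mul hP (c2.trans hQ') (zN_nonneg _ _) (mul_nonneg h0 M0))
  have a3 := (zN_pair hk (C b * Q) (P' - C b * Q')).trans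
    (mul_le_mul (c1.trans hQ) hP' (zN_nonneg _ _) M0)
  rw [e]
  refine (norm_add₃_le).trans ?_
  have a4 : θ * θ * (M * M') ≤ θ * 1 * (M * M') := by gcongr
  nlinarith

theorem z_abel (x : ℕ → ℝ) (J : ℕ) : ∑ q ∈ range J, (2 * ((J : ℝ) - q) - 1) * x q =
    2 * ∑ K ∈ range (J + 1), ∑ q ∈ range K, x q - ∑ q ∈ range J, x q := by
  induction J with
  | zero => simp
  | succ J ih =>
    have e : ∑ q ∈ range J, (2 * (((J + 1 : ℕ) : ℝ) - q) - 1) * x q =
        ∑ q ∈ range J, (2 * ((J : ℝ) - q) - 1) * x q + 2 * ∑ q ∈ range J, x q := by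
      rw [mul_sum, ← sum_add_distrib]
      refine sum_congr rfl fun q _ => ?_
      push_cast
      ring
    rw [sum_range_succ _ J, e, ih, sum_range_succ _ (J + 1), sum_range_succ x J]
    push_cast
    ring

theorem z_odd (J : ℕ) : ∑ q ∈ range J, (2 * ((J : ℝ) - q) - 1) = J ^ 2 := by
  induction J with
  | zero => simp
  | succ J ih =>
    have e : ∑ q ∈ range J, (2 * (((J + 1 : ℕ) : ℝ) - q) - 1) =
        ∑ q ∈ range J, ((2 * ((J : ℝ) - q) - 1) + 2) := by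
      refine sum_congr rfl fun q _ => ?_
      push_cast
      ring
    rw [sum_range_succ _ J, e, sum_add_distrib, ih]
    simp
    ring

/-- From the weighted closeness to the plain closeness. -/
theorem z_close {s : ℕ → ℂ} {J : ℕ} (hs : ∀ K, ∑ q ∈ range K, ‖s q‖ ^ 2 ≤ K) {t : ℝ}
    (t0 : 0 < t) (t1 : t ≤ 1)
    (h : ∑ q ∈ range J, (2 * ((J : ℝ) - q) - 1) * (1 - (s q).re) ≤ t ^ 3 * J ^ 2) :
    ∑ q ∈ range J, ‖s q - 1‖ ^ 2 ≤ 6 * t * J := by
  set D : ℕ → ℝ := fun K => ∑ q ∈ range K, (1 - (s q).re) with hD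
  have hA : ∀ K, ∑ q ∈ range K, ‖s q - 1‖ ^ 2 ≤ 2 * D K := fun K => by
    have e : ∑ q ∈ range K, ‖s q - 1‖ ^ 2 =
        ∑ q ∈ range K, ((‖s q‖ ^ 2 - 1) + 2 * (1 - (s q).re)) := by
      refine sum_congr rfl fun q _ => ?_
      simp only [Complex.sq_norm, normSq_apply, sub_re, sub_im, one_re, one_im]
      ring
    rw [e, sum_add_distrib, sum_sub_distrib, ← mul_sum]
    have := hs K
    simp only [sum_const, card_range, nsmul_eq_mul, mul_one, hD]
    linarith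
  have D0 : ∀ K, 0 ≤ D K := fun K => by
    have := (sum_nonneg fun q _ => sq_nonneg ‖s q - 1‖).trans (hA K)
    linarith
  have hB : ∑ K ∈ range (J + 1), D K ≤ t ^ 3 * J ^ 2 := by
    rw [z_abel] at h
    have := single_le_sum (f := D) (fun K _ => D0 K) (self_mem_range_succ J)
    change 2 * ∑ K ∈ range (J + 1), D K - D J ≤ _ at h
    linarith
  have hC : ∀ K ≤ J, D J ≤ D K + ((J : ℝ) - K) * (1 + 1 / (2 * t)) + t * J / 2 := fun K hK => by
    have e := sum_range_add_sum_Ico (fun q => 1 - (s q).re) hK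
    have a1 : ∑ q ∈ Finset.Ico K J, (1 - (s q).re) ≤
        ∑ q ∈ Finset.Ico K J, ((1 + 1 / (2 * t)) + t / 2 * ‖s q‖ ^ 2) := by
      refine sum_le_sum fun q _ => ?_
      have b1 := (neg_le_abs _).trans (abs_re_le_norm (s q))
      have b2 : ‖s q‖ ≤ 1 / (2 * t) + t / 2 * ‖s q‖ ^ 2 := by
        have : 1 / (2 * t) + t / 2 * ‖s q‖ ^ 2 - ‖s q‖ = (t * ‖s q‖ - 1) ^ 2 / (2 * t) := by
          field_simp
          ring
        have h2 : 0 ≤ (t * ‖s q‖ - 1) ^ 2 / (2 * t) := by positivity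
        linarith
      linarith
    rw [sum_add_distrib, ← mul_sum, sum_const, Nat.card_Ico, nsmul_eq_mul, Nat.cast_sub hK] at a1
    have a2 : ∑ q ∈ Finset.Ico K J, ‖s q‖ ^ 2 ≤ J :=
      (sum_le_sum_of_subset_of_nonneg (fun q hq => mem_range.mpr (mem_Ico.mp hq).2)
        fun _ _ _ => sq_nonneg _).trans (hs J)
    have a3 : t / 2 * ∑ q ∈ Finset.Ico K J, ‖s q‖ ^ 2 ≤ t / 2 * J := by gcongr
    change D K + _ = D J at e
    linarith
  have J0 : (0 : ℝ) ≤ J := Nat.cast_nonneg J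
  set m := ⌊t ^ 2 * J⌋₊ with hm
  have m1 : (m : ℝ) ≤ t ^ 2 * J := Nat.floor_le (by positivity)
  have m2 : t ^ 2 * J < m + 1 := Nat.lt_floor_add_one _
  have m3 : m ≤ J := by
    have : t ^ 2 * J ≤ 1 * J := by gcongr; exact pow_le_one₀ t0.le t1
    exact_mod_cast (show (m : ℝ) ≤ J by linarith)
  have hE : ∑ K ∈ Finset.Ico (J - m) (J + 1), (D J - 2 * t * J) ≤
      ∑ K ∈ Finset.Ico (J - m) (J + 1), D K := by
    refine sum_le_sum fun K hK => ?_
    obtain ⟨k1, k2⟩ := mem_Ico.mp hK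
    have c1 := hC K (by omega)
    have c2 : (J : ℝ) - K ≤ m := by
      have : J ≤ m + K := by omega
      have : (J : ℝ) ≤ m + K := by exact_mod_cast this
      linarith
    have c3 : ((J : ℝ) - K) * (1 + 1 / (2 * t)) ≤ t ^ 2 * J * (1 + 1 / (2 * t)) :=
      mul_le_mul_of_nonneg_right (c2.trans m1) (by positivity)
    have c4 : t ^ 2 * J * (1 + 1 / (2 * t)) = t * t * J + t * J / 2 := by
      field_simp
    have c5 : t * t * J ≤ 1 * t * J := by gcongr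
    linarith
  have hF : ∑ K ∈ Finset.Ico (J - m) (J + 1), D K ≤ ∑ K ∈ range (J + 1), D K :=
    sum_le_sum_of_subset_of_nonneg (fun q hq => mem_range.mpr (mem_Ico.mp hq).2)
      fun K _ _ => D0 K
  rw [sum_const, Nat.card_Ico, show J + 1 - (J - m) = m + 1 by omega, nsmul_eq_mul] at hE
  push_cast at hE
  have hG : D J - 2 * t * J ≤ t * J := by
    refine le_of_mul_le_mul_left ?_ (show (0 : ℝ) < m + 1 by positivity)
    have : t ^ 2 * J * (t * J) ≤ (m + 1) * (t * J) := by gcongr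
    nlinarith
  have := hA J
  linarith

theorem z_dF (h : ℂ⟦X⟧) : d⁄dX ℂ (X * h ^ 2) = h * (h + 2 * th h) := by
  rw [sq]
  simp only [th, Derivation.leibniz, smul_eq_mul, derivative_X]
  ring

theorem z_lam (J j : ℕ) (hj : j < J) (W Y : ℂ⟦X⟧) :
    coeff (J - 1) (W * d⁄dX ℂ (X ^ (j + 1) * Y)) =
      coeff (J - 1 - j) (W * (((j + 1 : ℕ) : ℂ⟦X⟧) * Y + th Y)) := by
  have e : W * d⁄dX ℂ (X ^ (j + 1) * Y) = X ^ j * (W * (((j + 1 : ℕ) : ℂ⟦X⟧) * Y + th Y)) := by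
    simp only [th, Derivation.leibniz, Derivation.leibniz_pow, smul_eq_mul, derivative_X,
      nsmul_eq_mul, Nat.add_sub_cancel]
    ring
  rw [e, coeff_X_pow_mul', if_pos (by omega)]

theorem z_v {J : ℕ} (hJ : 1 ≤ J) {h : ℂ⟦X⟧} {w : ℂ → ℂ} {a : ℂ} (hw : Schur w) (ha : ‖a‖ = 1)
    {σ t : ℝ} (s0 : 0 ≤ σ) (s1 : σ ≤ 1) (t0 : 0 < t) (t1 : t ≤ 1) (st : 10 * σ ≤ t ^ 3)
    (hr : zN J (h - C a * zu) ≤ σ * √J) (hL : (1 - σ ^ 2) * (J : ℝ) ^ 2 ≤ ‖Lam J w (X * h ^ 2)‖) :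
    ∃ c : ℂ, ‖c‖ = 1 ∧ SS (tay w * zu - C c * zu) J ≤ 6 * t * J := by
  have R2 : √(J : ℝ) * √J = J := Real.mul_self_sqrt (Nat.cast_nonneg _)
  have J0 : (0 : ℝ) ≤ J := Nat.cast_nonneg J
  have q1 : zN J (tay w * zu) ≤ √J := (zN_W hw J zu).trans (zN_u J).le
  have q2 : zN J (zu + 2 * th zu) ≤ 3 * J * √J := by
    have := zN_g hJ zu
    rwa [zN_u] at this
  have p1 : zN J (tay w * h - C a * (tay w * zu)) ≤ σ * √J := by
    rw [show tay w * h - C a * (tay w * zu) = tay w * (h - C a * zu) by ring]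
    exact (zN_W hw J _).trans hr
  have p2 : zN J (h + 2 * th h - C a * (zu + 2 * th zu)) ≤ σ * (3 * J * √J) := by
    rw [show h + 2 * th h - C a * (zu + 2 * th zu) = (h - C a * zu) + 2 * th (h - C a * zu) by
      rw [th_sub, th_mul, th_C]; ring]
    refine (zN_g hJ _).trans ?_
    have : 3 * J * zN J (h - C a * zu) ≤ 3 * J * (σ * √J) := by gcongr
    linarith
  have e1 := z_err (show J - 1 < J by omega) ha s0 s1 q1 q2 p1 p2
  rw [Lam, z_dF, ← mul_assoc] at hL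
  set S := coeff (J - 1) (tay w * zu * (zu + 2 * th zu)) with hS
  have e2 : (1 - 10 * σ) * (J : ℝ) ^ 2 ≤ ‖S‖ := by
    have b1 := norm_sub_norm_le (coeff (J - 1) (tay w * h * (h + 2 * th h))) (a ^ 2 * S)
    rw [norm_mul, norm_pow, ha, one_pow, one_mul] at b1
    have b2 : 3 * σ * (√J * (3 * J * √J)) = 9 * σ * J ^ 2 := by
      linear_combination 9 * σ * J * R2
    have b3 : σ ^ 2 * (J : ℝ) ^ 2 ≤ σ * J ^ 2 := by
      gcongr
      nlinarith
    linarith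
  obtain ⟨c, c1, c2⟩ := Complex.exists_norm_eq_mul_self S
  refine ⟨conj c, by rw [norm_conj, c1], ?_⟩
  have cc : c * conj c = 1 := by rw [mul_conj, normSq_eq_norm_sq, c1]; simp
  have key := z_close (s := fun q => c * coeff q (tay w * zu)) (J := J) (fun K => by
    simp only [norm_mul, c1, one_mul]
    exact (zSS_W hw K zu).trans (zSS_u K).le) t0 t1 (by
    have f1 : S = ∑ q ∈ range J, ((2 * ((J : ℝ) - q) - 1 : ℝ) : ℂ) * coeff q (tay w * zu) := by
      rw [hS, coeff_mul, Finset.Nat.sum_antidiagonal_eq_sum_range_succ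
        (fun i j => coeff i (tay w * zu) * coeff j (zu + 2 * th zu)),
        show (J - 1).succ = J by omega]
      refine sum_congr rfl fun q hq => ?_
      have := mem_range.mp hq
      rw [z_g0, Nat.cast_sub (by omega), Nat.cast_sub hJ]
      push_cast
      ring
    have f2 : ‖S‖ = ∑ q ∈ range J, (2 * ((J : ℝ) - q) - 1) * (c * coeff q (tay w * zu)).re := by
      have := congrArg Complex.re c2
      rw [ofReal_re] at this
      rw [this, f1, mul_sum, re_sum]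
      refine sum_congr rfl fun q _ => ?_
      rw [mul_left_comm, re_ofReal_mul]
    simp only [mul_sub (2 * ((J : ℝ) - _) - 1), mul_one]
    rw [sum_sub_distrib, z_odd, ← f2]
    have : 10 * σ * (J : ℝ) ^ 2 ≤ t ^ 3 * J ^ 2 := by gcongr
    linarith)
  refine le_trans (le_of_eq (sum_congr rfl fun q _ => ?_)) key
  rw [map_sub, coeff_C_mul, show c * coeff q (tay w * zu) - 1 =
    c * (coeff q (tay w * zu) - conj c * coeff q zu) by
      simp only [zu, coeff_mk]; linear_combination cc, norm_mul, c1, one_mul]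

theorem z_fin {J j : ℕ} (hj : j < J) {h : ℂ⟦X⟧} {w : ℂ → ℂ} {a c : ℂ} (hw : Schur w)
    (ha : ‖a‖ = 1) (hc : ‖c‖ = 1) {σ η : ℝ} (s0 : 0 ≤ σ) (e0 : 0 ≤ η) (s1 : σ + η ≤ 1)
    (hr : zN J (h - C a * zu) ≤ σ * √J) (hv : zN J (tay w * zu - C c * zu) ≤ η * √J) :
    ‖Lam J w (X ^ (j + 1) * (tay w * d⁄dX ℂ (X * h ^ 2))) -
      (a * c) ^ 2 * J * ((J : ℂ) - j) ^ 2‖ ≤ 39 * (σ + η) * (J : ℝ) ^ 3 := by
  have hJ : 1 ≤ J := by omega
  have R2 : √(J : ℝ) * √J = J := Real.mul_self_sqrt (Nat.cast_nonneg _)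
  have R0 : 0 ≤ √(J : ℝ) := Real.sqrt_nonneg _
  have J1 : (1 : ℝ) ≤ J := by exact_mod_cast hJ
  have J0 : (0 : ℝ) ≤ J := Nat.cast_nonneg J
  have hb : ‖a * c‖ = 1 := by rw [norm_mul, ha, hc, one_mul]
  set W := tay w with hW
  set r := h - C a * zu with hr'
  set v := W * zu - C c * zu with hv'
  have Ca : ∀ x, zN J (C a * x) ≤ zN J x := fun x => by
    have := zN_C J a x
    rwa [ha, one_mul] at this
  have q1 : zN J zu ≤ √J := (zN_u J).le
  have q2 : zN J (zu + 2 * th zu) ≤ 3 * J * √J := by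
    have := zN_g hJ zu
    rwa [zN_u] at this
  have q3 : zN J (th zu) ≤ J * √J := by
    have := zN_th J zu
    rwa [zN_u] at this
  have q4 : zN J (th (zu + 2 * th zu)) ≤ 7 * J ^ 2 * √J := by
    have a1 : J * zN J (zu + 2 * th zu) ≤ J * (3 * J * √J) := by gcongr
    have a2 : 0 ≤ (J : ℝ) ^ 2 * √J := by positivity
    have := zN_th J (zu + 2 * th zu)
    nlinarith
  have p1 : zN J (W * h - C (a * c) * zu) ≤ (σ + η) * √J := by
    rw [show W * h - C (a * c) * zu = W * r + C a * v by rw [hr', hv', map_mul]; ring]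
    have a1 := zN_add J (W * r) (C a * v)
    have a2 := zN_W hw J r
    have a3 := Ca v
    linarith
  have p3 : zN J (th (W * h) - C (a * c) * th zu) ≤ (σ + η) * (J * √J) := by
    rw [show th (W * h) - C (a * c) * th zu = th (W * h - C (a * c) * zu) by
      rw [th_sub, th_mul (C _), th_C]; ring]
    refine (zN_th J _).trans ?_
    have : J * zN J (W * h - C (a * c) * zu) ≤ J * ((σ + η) * √J) := by gcongr
    linarith
  have g1 : zN J (r + 2 * th r) ≤ 3 * J * (σ * √J) := (zN_g hJ r).trans (by gcongr)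
  have l1 : zN J (X * zu * v) ≤ J * (η * √J) := (zN_L J v).trans (by gcongr)
  have l2 : zN J (X * zu * (X * zu * v)) ≤ J * (J * (η * √J)) := (zN_L J _).trans (by gcongr)
  have thr : th r = th h - C a * th zu := by rw [hr', th_sub, th_mul, th_C]; ring
  have th2 : th (2 : ℂ⟦X⟧) = 0 := by rw [← map_ofNat C 2, th_C]
  have n0 : 0 ≤ η * √J := by positivity
  have p2 : zN J (W * (h + 2 * th h) - C (a * c) * (zu + 2 * th zu)) ≤
      (σ + η) * (3 * J * √J) := by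
    rw [show W * (h + 2 * th h) - C (a * c) * (zu + 2 * th zu) =
      W * (r + 2 * th r) + C a * (v + ((2 : ℕ) : ℂ⟦X⟧) * (X * zu * v)) by
        rw [thr, hr', hv', map_mul, z_th_u]; push_cast; ring]
    have a1 := zN_add J (W * (r + 2 * th r)) (C a * (v + ((2 : ℕ) : ℂ⟦X⟧) * (X * zu * v)))
    have a2 := zN_W hw J (r + 2 * th r)
    have a3 := Ca (v + ((2 : ℕ) : ℂ⟦X⟧) * (X * zu * v))
    have a4 := zN_add J v (((2 : ℕ) : ℂ⟦X⟧) * (X * zu * v))
    have a5 := zN_two J (X * zu * v) (n := 2)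
    have a6 : 1 * (η * √J) ≤ J * (η * √J) := by gcongr
    rw [Nat.cast_ofNat (R := ℝ)] at a5
    linarith
  have p4 : zN J (W * th (h + 2 * th h) - C (a * c) * th (zu + 2 * th zu)) ≤
      (σ + η) * (7 * J ^ 2 * √J) := by
    have t1 : th (zu + 2 * th zu) = zu * (3 * (X * zu) + 4 * (X * zu) ^ 2) := by
      rw [z_th_u, th_add, th_mul, th2, th_mul, th_mul, th_X, z_th_u]; ring
    have t2 : th (r + 2 * th r) = th (h + 2 * th h) - C a * th (zu + 2 * th zu) := by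
      rw [show r + 2 * th r = (h + 2 * th h) - C a * (zu + 2 * th zu) by rw [thr, hr']; ring,
        th_sub, th_mul (C a), th_C]
      ring
    rw [show W * th (h + 2 * th h) - C (a * c) * th (zu + 2 * th zu) =
      W * th (r + 2 * th r) + C a * (((3 : ℕ) : ℂ⟦X⟧) * (X * zu * v) +
        ((4 : ℕ) : ℂ⟦X⟧) * (X * zu * (X * zu * v))) by
        rw [t2, t1, hv', map_mul]; push_cast; ring]
    have a1 := zN_add J (W * th (r + 2 * th r)) (C a * (((3 : ℕ) : ℂ⟦X⟧) * (X * zu * v) +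
        ((4 : ℕ) : ℂ⟦X⟧) * (X * zu * (X * zu * v))))
    have a2 := zN_W hw J (th (r + 2 * th r))
    have a3 := Ca (((3 : ℕ) : ℂ⟦X⟧) * (X * zu * v) + ((4 : ℕ) : ℂ⟦X⟧) * (X * zu * (X * zu * v)))
    have a4 := zN_add J (((3 : ℕ) : ℂ⟦X⟧) * (X * zu * v))
      (((4 : ℕ) : ℂ⟦X⟧) * (X * zu * (X * zu * v)))
    have a5 := zN_two J (X * zu * v) (n := 3)
    have a6 := zN_two J (X * zu * (X * zu * v)) (n := 4)
    have a7 : zN J (th (r + 2 * th r)) ≤ J * (3 * J * (σ * √J)) := (zN_th J _).trans (by gcongr)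
    have a8 : 1 * (J * (η * √J)) ≤ J * (J * (η * √J)) := by gcongr
    have a9 : 0 ≤ σ * (J ^ 2 * √J) := by positivity
    rw [Nat.cast_ofNat (R := ℝ)] at a5 a6
    linarith
  have hk : J - 1 - j < J := by omega
  have t0 : 0 ≤ σ + η := add_nonneg s0 e0
  have e1 := z_err hk hb t0 s1 q1 q2 p1 p2
  have e2 := z_err hk hb t0 s1 q3 q2 p3 p2
  have e3 := z_err hk hb t0 s1 q1 q4 p1 p4
  have m1 : W * (((j + 1 : ℕ) : ℂ⟦X⟧) * (W * (h * (h + 2 * th h))) +
      th (W * (h * (h + 2 * th h)))) =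
      C ((j + 1 : ℕ) : ℂ) * (W * h * (W * (h + 2 * th h))) + th (W * h) * (W * (h + 2 * th h)) +
      W * h * (W * th (h + 2 * th h)) := by
    rw [← mul_assoc W h, th_mul (W * h), map_natCast]; ring
  have m2 : ((j + 1 : ℕ) : ℂ) * coeff (J - 1 - j) (zu * (zu + 2 * th zu)) +
      coeff (J - 1 - j) (th zu * (zu + 2 * th zu)) +
      coeff (J - 1 - j) (zu * th (zu + 2 * th zu)) = J * ((J : ℂ) - j) ^ 2 := by
    rw [add_assoc, ← map_add, ← th_mul, coeff_th, z_main, Nat.cast_sub (by omega),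
      Nat.cast_sub hJ]
    push_cast
    ring
  rw [Lam, z_lam J j hj, z_dF, ← hW, m1, map_add, map_add, coeff_C_mul, mul_assoc ((a * c) ^ 2),
    ← m2]
  generalize coeff (J - 1 - j) (W * h * (W * (h + 2 * th h))) = A1 at *
  generalize coeff (J - 1 - j) (th (W * h) * (W * (h + 2 * th h))) = A2 at *
  generalize coeff (J - 1 - j) (W * h * (W * th (h + 2 * th h))) = A3 at *
  generalize coeff (J - 1 - j) (zu * (zu + 2 * th zu)) = B1 at *
  generalize coeff (J - 1 - j) (th zu * (zu + 2 * th zu)) = B2 at *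
  generalize coeff (J - 1 - j) (zu * th (zu + 2 * th zu)) = B3 at *
  rw [show ((j + 1 : ℕ) : ℂ) * A1 + A2 + A3 - (a * c) ^ 2 * (((j + 1 : ℕ) : ℂ) * B1 + B2 + B3) =
    ((j + 1 : ℕ) : ℂ) * (A1 - (a * c) ^ 2 * B1) + (A2 - (a * c) ^ 2 * B2) +
      (A3 - (a * c) ^ 2 * B3) by ring]
  refine norm_add₃_le.trans ?_
  rw [norm_mul, Complex.norm_natCast]
  have jJ : ((j + 1 : ℕ) : ℝ) ≤ J := by exact_mod_cast hj
  have e4 := mul_le_mul jJ e1 (norm_nonneg _) J0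
  have r1 : J * (3 * (σ + η) * (√J * (3 * J * √J))) = 9 * (σ + η) * J ^ 3 := by
    linear_combination 9 * (σ + η) * J ^ 2 * R2
  have r2 : 3 * (σ + η) * (J * √J * (3 * J * √J)) = 9 * (σ + η) * J ^ 3 := by
    linear_combination 9 * (σ + η) * J ^ 2 * R2
  have r3 : 3 * (σ + η) * (√J * (7 * J ^ 2 * √J)) = 21 * (σ + η) * J ^ 3 := by
    linear_combination 21 * (σ + η) * J ^ 2 * R2
  linarith

theorem zcoef {ε : ℝ} (hε : 0 < ε) : ∃ δ : ℝ, 0 < δ ∧ ∀ (J : ℕ) (h : ℂ⟦X⟧) (w : ℂ → ℂ) (a : ℂ),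
    Schur w → (∀ K, SS h K ≤ K) → NK J δ h 1 a →
    (1 - δ) * (J : ℝ) ^ 2 ≤ ‖Lam J w (X * h ^ 2)‖ → ∃ e : ℂ, ‖e‖ = 1 ∧ ∀ j < J,
      ‖Lam J w (X ^ (j + 1) * (tay w * d⁄dX ℂ (X * h ^ 2))) - e * J * ((J : ℂ) - j) ^ 2‖ ≤
        ε * (J : ℝ) ^ 3 := by
  obtain ⟨η, e0, e1, e2⟩ : ∃ η : ℝ, 0 < η ∧ η ≤ 1 / 2 ∧ η ≤ ε / 80 :=
    ⟨min (1 / 2) (ε / 80), by positivity, min_le_left _ _, min_le_right _ _⟩
  have t1 : η ^ 2 / 6 ≤ η := by nlinarith
  have t0 : 0 < η ^ 2 / 6 := by positivity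
  have s1 : (η ^ 2 / 6) ^ 3 / 10 ≤ η := by
    have : (η ^ 2 / 6) ^ 3 ≤ η ^ 2 / 6 := pow_le_of_le_one t0.le (by linarith) (by norm_num)
    linarith
  have s0 : 0 < (η ^ 2 / 6) ^ 3 / 10 := by positivity
  refine ⟨((η ^ 2 / 6) ^ 3 / 10) ^ 2, by positivity, fun J h w a hw _ hN hL => ?_⟩
  rcases Nat.eq_zero_or_pos J with rfl | hJ
  · exact ⟨1, norm_one, fun j hj => absurd hj (Nat.not_lt_zero j)⟩
  have J0 : (0 : ℝ) ≤ J := Nat.cast_nonneg J
  have hr : zN J (h - C a * zu) ≤ (η ^ 2 / 6) ^ 3 / 10 * √J := by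
    refine zN_le (by positivity) ?_
    rw [mul_pow, Real.sq_sqrt J0]
    refine le_trans (le_of_eq (sum_congr rfl fun q _ => ?_)) hN.2.2
    rw [map_sub, coeff_C_mul, zu, coeff_mk, one_pow]
  obtain ⟨c, c1, c2⟩ := z_v hJ hw hN.2.1 s0.le (by linarith) t0 (by linarith) (by linarith) hr hL
  have hv : zN J (tay w * zu - C c * zu) ≤ η * √J := by
    refine zN_le (by positivity) ?_
    rw [mul_pow, Real.sq_sqrt J0]
    linarith
  refine ⟨(a * c) ^ 2, by rw [norm_pow, norm_mul, hN.2.1, c1]; norm_num, fun j hj => ?_⟩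
  refine (z_fin hj hw hN.2.1 c1 s0.le e0.le (by linarith) hr hv).trans ?_
  gcongr
  linarith

end Pool.Agent.P.MP_c09211_an.Sh
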