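import Pool.Agent.P.MP_c09211_an.Sh.Base

/-!
Consequences of near equality, almost multiplicative sequences, and values of power series.
-/

set_option autoImplicit false

namespace Pool.Agent.P.MP_c09211_an.Sh

open Metric Set Finset PowerSeries Complex Filter Topology Real
open scoped ComplexConjugate

theorem sa_sq {δ x y : ℝ} (h0 : 0 < δ) : y ^ 2 ≤ (1 + δ) * x ^ 2 + (1 + 1 / δ) * (x - y) ^ 2 := by
  have h : (1 + δ) * x ^ 2 + (1 + 1 / δ) * (x - y) ^ 2 - y ^ 2 = (δ * x + (x - y)) ^ 2 / δ := by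
    field_simp
    ring
  have : 0 ≤ (δ * x + (x - y)) ^ 2 / δ := by positivity
  linarith

/-- the real inequality behind `ss_lower` -/
theorem sa_real {J L : ℕ} (hL : L ≤ J) {x y : ℕ → ℝ} {δ : ℝ} (h0 : 0 < δ) (h1 : δ ≤ 1)
    (hx : ∑ q ∈ range J, x q ^ 2 ≤ J) (hxL : ∑ q ∈ range L, x q ^ 2 ≤ L)
    (hy : ∑ q ∈ range J, y q ^ 2 ≤ J) (hxy : (1 - δ ^ 2) * J ≤ ∑ q ∈ range J, x q * y q) :
    (J : ℝ) - L - 8 * δ * J ≤ ∑ q ∈ range J, y q ^ 2 - ∑ q ∈ range L, y q ^ 2 := by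
  have e : ∑ q ∈ range J, (x q - y q) ^ 2 = ∑ q ∈ range J, x q ^ 2 + ∑ q ∈ range J, y q ^ 2
      - 2 * ∑ q ∈ range J, x q * y q := by
    rw [mul_sum, ← sum_add_distrib, ← sum_sub_distrib]
    exact sum_congr rfl fun q _ => by ring
  have p : 0 ≤ ∑ q ∈ range J, (x q - y q) ^ 2 := sum_nonneg fun q _ => sq_nonneg _
  have d : ∑ q ∈ range L, (x q - y q) ^ 2 ≤ 2 * δ ^ 2 * J := by
    refine (sum_le_sum_of_subset_of_nonneg (range_mono hL) fun q _ _ => sq_nonneg _).trans ?_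
    rw [e]
    linarith
  have b : ∑ q ∈ range L, y q ^ 2 ≤ (1 + δ) * ∑ q ∈ range L, x q ^ 2
      + (1 + 1 / δ) * ∑ q ∈ range L, (x q - y q) ^ 2 := by
    rw [mul_sum, mul_sum, ← sum_add_distrib]
    exact sum_le_sum fun q _ => sa_sq h0
  have b1 : (1 + δ) * ∑ q ∈ range L, x q ^ 2 ≤ (1 + δ) * L :=
    mul_le_mul_of_nonneg_left hxL (by positivity)
  have b2 : (1 + 1 / δ) * ∑ q ∈ range L, (x q - y q) ^ 2 ≤ (1 + 1 / δ) * (2 * δ ^ 2 * J) :=
    mul_le_mul_of_nonneg_left d (by positivity)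
  have b3 : (1 + 1 / δ) * (2 * δ ^ 2 * J) = 2 * δ ^ 2 * J + 2 * δ * J := by
    field_simp
  have J0 : (0 : ℝ) ≤ J := Nat.cast_nonneg J
  have b4 : δ * L ≤ δ * J := mul_le_mul_of_nonneg_left (by exact_mod_cast hL) h0.le
  have b5 : δ ^ 2 * J ≤ δ * J := mul_le_mul_of_nonneg_right (by nlinarith) J0
  have b6 : 0 ≤ δ * J := by positivity
  rw [e] at p
  nlinarith

theorem ss_lower {J : ℕ} {h : ℂ⟦X⟧} (hh : ∀ K, SS h K ≤ K) {w : ℂ → ℂ} (hw : Schur w) {δ : ℝ}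
    (h0 : 0 < δ) (h1 : δ ≤ 1) (hX : (1 - δ ^ 2) * (J : ℝ) ^ 2 ≤ ‖Lam J w (X * h ^ 2)‖) {K : ℕ}
    (hK : K ≤ J) : (K : ℝ) - 8 * δ * J ≤ SS h K := by
  rcases J with _ | j
  · obtain rfl : K = 0 := by omega
    simp [SS]
  have hM : ∀ z ∈ sphere (0 : ℂ) 1, ‖w z‖ ≤ 1 := fun z hz => hw.2 z (sphere_subset_closedBall hz)
  have T := toeplitz (g := fun z => ∑ l ∈ range (j + 1),
    ((((j + 1 : ℕ) : ℂ) - l) * coeff l (tay w)) * z ^ l) (by fun_prop)
    (fun z hz => fejer hw.1 hM (j + 1) hz)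
  set σ := tay fun z => ∑ l ∈ range (j + 1), ((((j + 1 : ℕ) : ℂ) - l) * coeff l (tay w)) * z ^ l
    with hσ
  have F0 : coeff 0 (X * h ^ 2) = 0 := by simp
  have h2 : ∑ q ∈ range (j + 1), coeff q (σ * h) * coeff (j - q) h =
      Lam (j + 1) w (X * h ^ 2) := by
    rw [Lam, Nat.add_sub_cancel,
      ← Finset.Nat.sum_antidiagonal_eq_sum_range_succ (fun p q => coeff p (σ * h) * coeff q h),
      ← coeff_mul, ← coeff_succ_X_mul, ← coeff_succ_X_mul j (tay w * _),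
      show X * (σ * h * h) = σ * (X * h ^ 2) by ring,
      show X * (tay w * d⁄dX ℂ (X * h ^ 2)) = tay w * th (X * h ^ 2) by rw [th]; ring,
      coeff_mul_zero F0, coeff_mul_zero (by simp [coeff_th])]
    refine sum_congr rfl fun l hl => ?_
    rw [hσ, tay_fin _ _ (mem_range.mp hl), coeff_th, Nat.cast_sub (mem_range.mp hl).le]
    ring
  have Jp : (0 : ℝ) < (j + 1 : ℕ) := by positivity
  have Jc : ((j + 1 : ℕ) : ℂ) ≠ 0 := by exact_mod_cast Jp.ne'
  have hx : ∀ N : ℕ, ∑ q ∈ range N, (‖coeff q (σ * h)‖ / (j + 1 : ℕ)) ^ 2 ≤ N := fun N => by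
    have a := T N h fun q => conj (coeff q (σ * h)) / ((j + 1 : ℕ) : ℂ)
    have e1 : ∑ q ∈ range N, coeff q (σ * h) * (conj (coeff q (σ * h)) / ((j + 1 : ℕ) : ℂ)) =
        (((j + 1 : ℕ) * ∑ q ∈ range N, (‖coeff q (σ * h)‖ / (j + 1 : ℕ)) ^ 2 : ℝ) : ℂ) := by
      rw [mul_sum, ofReal_sum]
      refine sum_congr rfl fun q _ => ?_
      rw [← mul_div_assoc, mul_conj, normSq_eq_norm_sq]
      simp only [ofReal_mul, ofReal_pow, ofReal_div, ofReal_natCast]
      field_simp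
    have e2 : ∑ q ∈ range N, ‖conj (coeff q (σ * h)) / ((j + 1 : ℕ) : ℂ)‖ ^ 2 =
        ∑ q ∈ range N, (‖coeff q (σ * h)‖ / (j + 1 : ℕ)) ^ 2 :=
      sum_congr rfl fun q _ => by rw [norm_div, norm_conj, Complex.norm_natCast]
    rw [e1, e2, norm_real, Real.norm_eq_abs] at a
    have b := (le_abs_self _).trans a
    rw [mul_div_assoc] at b
    have c := le_of_mul_le_mul_left b Jp
    have d := hh N
    rw [SS] at d
    linarith
  have r1 := sum_range_reflect (fun q => ‖coeff q h‖ ^ 2) (j + 1)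
  simp only [Nat.add_sub_cancel] at r1
  have hxy : (1 - δ ^ 2) * (j + 1 : ℕ) ≤
      ∑ q ∈ range (j + 1), ‖coeff q (σ * h)‖ / (j + 1 : ℕ) * ‖coeff (j - q) h‖ := by
    rw [← h2] at hX
    have a := hX.trans (norm_sum_le _ _)
    refine le_of_mul_le_mul_left ?_ Jp
    rw [mul_sum]
    refine le_trans (le_of_eq (by ring)) (a.trans (le_of_eq (sum_congr rfl fun q _ => ?_)))
    rw [norm_mul]
    field_simp
  have m := sa_real (L := j + 1 - K) (Nat.sub_le _ _) (y := fun q => ‖coeff (j - q) h‖) h0 h1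
    (hx _) (hx _) (by rw [r1]; exact hh _) hxy
  have s : ∑ q ∈ range (j + 1), ‖coeff (j - q) h‖ ^ 2 =
      ∑ q ∈ range (j + 1 - K), ‖coeff (j - q) h‖ ^ 2 + SS h K := by
    have e : j + 1 = (j + 1 - K) + K := by omega
    conv_lhs => rw [e]
    rw [sum_range_add, SS, ← sum_range_reflect (fun k => ‖coeff k h‖ ^ 2) K]
    congr 1
    refine sum_congr rfl fun q hq => ?_
    have := mem_range.mp hq
    rw [show j - (j + 1 - K + q) = K - 1 - q by omega]
  rw [s, Nat.cast_sub hK] at m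
  linarith

theorem sa_exp_arg {w : ℂ} (hw : ‖w‖ = 1) : cexp (arg w * I) = w := by
  have := norm_mul_exp_arg_mul_I w
  rwa [hw, ofReal_one, one_mul] at this

theorem sa_arg_le {x y : ℂ} (hx : ‖x‖ = 1) (hy : ‖y‖ = 1) : |arg (x / y)| ≤ 2 * ‖x - y‖ := by
  have x0 : x ≠ 0 := norm_pos_iff.mp (hx ▸ one_pos)
  have y0 : y ≠ 0 := norm_pos_iff.mp (hy ▸ one_pos)
  rw [← angle_eq_abs_arg x0 y0]
  refine (angle_le_mul_norm_sub hx hy).trans (mul_le_mul_of_nonneg_right ?_ (norm_nonneg _))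
  linarith [Real.pi_le_four]

theorem sa_lift_eq {a b : ℝ} (h : cexp (a * I) = cexp (b * I)) (hab : |a - b| ≤ 1) : a = b := by
  obtain ⟨n, hn⟩ := exp_eq_exp_iff_exists_int.mp h
  have e : a = b + n * (2 * π) := by
    have := congrArg im hn
    simpa using this
  have n0 : n = 0 := by
    by_contra h0
    have h1 : (1 : ℝ) ≤ |(n : ℝ)| := by exact_mod_cast Int.one_le_abs h0
    rw [e, add_sub_cancel_left, abs_mul, abs_of_pos Real.two_pi_pos] at hab
    nlinarith [Real.pi_gt_three]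
  rw [e, n0]
  simp

/-- the real lift of a sequence of unit complex numbers -/
noncomputable def saLift (ν : ℕ → ℂ) : ℕ → ℝ
  | 0 => arg (ν 0)
  | d + 1 => saLift ν d + arg (ν 1) + arg (ν (d + 1) / (ν d * ν 1))

theorem saLift_exp {H : ℕ} {ν : ℕ → ℂ} (h1 : ∀ d ≤ H, ‖ν d‖ = 1) :
    ∀ d ≤ H, cexp (saLift ν d * I) = ν d := by
  intro d
  induction d with
  | zero => exact fun h => sa_exp_arg (h1 0 h)
  | succ d ih =>
    intro h
    have a := h1 d (by omega)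
    have b := h1 1 (by omega)
    have c := h1 (d + 1) h
    have a0 : ν d ≠ 0 := norm_pos_iff.mp (a ▸ one_pos)
    have b0 : ν 1 ≠ 0 := norm_pos_iff.mp (b ▸ one_pos)
    rw [saLift, ofReal_add, ofReal_add, add_mul, add_mul, Complex.exp_add, Complex.exp_add,
      ih (by omega), sa_exp_arg b, sa_exp_arg (by rw [norm_div, norm_mul, a, b, c]; norm_num)]
    field_simp

theorem saLift_add {H : ℕ} {ν : ℕ → ℂ} {η : ℝ} (hη : η ≤ 1 / 10) (h1 : ∀ d ≤ H, ‖ν d‖ = 1)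
    (h2 : ∀ a b, a + b ≤ H → ‖ν (a + b) - ν a * ν b‖ ≤ η) (a : ℕ) :
    ∀ b, a + b ≤ H → |saLift ν (a + b) - saLift ν a - saLift ν b| ≤ 2 * η := by
  have r : ∀ a b, a + b ≤ H → |arg (ν (a + b) / (ν a * ν b))| ≤ 2 * η := fun a b h => by
    refine (sa_arg_le (h1 _ h) ?_).trans (by linarith [h2 a b h])
    rw [norm_mul, h1 a (by omega), h1 b (by omega), one_mul]
  have key : ∀ b, a + b ≤ H → |saLift ν (a + b) - saLift ν a - saLift ν b| ≤ 6 * η →
      |saLift ν (a + b) - saLift ν a - saLift ν b| ≤ 2 * η := fun b h hb => by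
    have ra := r a b h
    have a0 : ν a ≠ 0 := norm_pos_iff.mp (h1 a (by omega) ▸ one_pos)
    have b0 : ν b ≠ 0 := norm_pos_iff.mp (h1 b (by omega) ▸ one_pos)
    have e : saLift ν (a + b) - saLift ν a - saLift ν b = arg (ν (a + b) / (ν a * ν b)) := by
      refine sa_lift_eq ?_ ((abs_sub _ _).trans (by linarith))
      rw [sa_exp_arg (by
          rw [norm_div, norm_mul, h1 _ h, h1 a (by omega), h1 b (by omega)]; norm_num),
        ofReal_sub, ofReal_sub, sub_mul, sub_mul, Complex.exp_sub, Complex.exp_sub,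
        saLift_exp h1 _ h, saLift_exp h1 a (by omega), saLift_exp h1 b (by omega), div_div]
    rwa [e]
  intro b
  induction b with
  | zero =>
    intro h
    have z := h2 0 0 (Nat.zero_le H)
    have n0 := h1 0 (Nat.zero_le H)
    rw [show ν (0 + 0) - ν 0 * ν 0 = ν 0 * (1 - ν 0) by ring, norm_mul, n0, one_mul,
      norm_sub_rev] at z
    have := sa_arg_le n0 norm_one
    rw [div_one] at this
    rw [add_zero, sub_self, zero_sub, abs_neg, saLift]
    linarith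
  | succ b ih =>
    intro h
    refine key _ h ?_
    have i := ih (by omega)
    have r1 := r (a + b) 1 h
    have r2 := r b 1 (by omega)
    rw [← add_assoc, saLift, saLift]
    rw [abs_le] at i r1 r2 ⊢
    constructor <;> linarith [i.1, i.2, r1.1, r1.2, r2.1, r2.2]

theorem sa_hyers_real {H : ℕ} {φ : ℕ → ℝ} {e : ℝ}
    (h : ∀ a b, a + b ≤ H → |φ (a + b) - φ a - φ b| ≤ e) :
    ∀ d ≤ H, |φ d - d * (φ H / H)| ≤ 3 * e := by
  set χ : ℕ → ℝ := fun d => φ d - d * (φ H / H) with hχ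
  have hc : ∀ a b, a + b ≤ H → |χ (a + b) - χ a - χ b| ≤ e := fun a b hab => by
    have : χ (a + b) - χ a - χ b = φ (a + b) - φ a - φ b := by
      simp only [hχ]
      push_cast
      ring
    rw [this]
    exact h a b hab
  have e0 : 0 ≤ e := (abs_nonneg _).trans (h 0 0 (Nat.zero_le H))
  obtain ⟨d₀, hd₀, hmax⟩ := exists_max_image (range (H + 1)) (fun d => |χ d|) ⟨0, by simp⟩
  have hd : d₀ ≤ H := Nat.lt_succ_iff.mp (mem_range.mp hd₀)
  have hm : ∀ d ≤ H, |χ d| ≤ |χ d₀| := fun d hd => hmax d (mem_range.mpr (Nat.lt_succ_iff.mpr hd))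
  have half : ∀ d, d + d ≤ H → 2 * |χ d| ≤ e + |χ d₀| := fun d hd => by
    have a := hc d d hd
    have b := hm _ hd
    have c : |χ d + χ d| = 2 * |χ d| := by rw [← two_mul, abs_mul, abs_two]
    have f : χ d + χ d = χ (d + d) - (χ (d + d) - χ d - χ d) := by ring
    rw [← c, f]
    exact (abs_sub _ _).trans (by linarith)
  have M : |χ d₀| ≤ 3 * e := by
    by_cases hh : d₀ + d₀ ≤ H
    · linarith [half d₀ hh]
    · have Hp : (H : ℝ) ≠ 0 := by exact_mod_cast (show H ≠ 0 by omega)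
      have z : χ H = 0 := by
        simp only [hχ]
        field_simp
        ring
      have a := hc d₀ (H - d₀) (by omega)
      rw [show d₀ + (H - d₀) = H by omega, z] at a
      have b := half (H - d₀) (by omega)
      have f : χ d₀ = -(0 - χ d₀ - χ (H - d₀)) - χ (H - d₀) := by ring
      have g : |χ d₀| ≤ |0 - χ d₀ - χ (H - d₀)| + |χ (H - d₀)| := by
        conv_lhs => rw [f]
        refine (abs_sub _ _).trans (le_of_eq ?_)
        rw [abs_neg]
      linarith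
  exact fun d hd => (hm d hd).trans M

theorem hyers {H : ℕ} {ν : ℕ → ℂ} {η : ℝ} (hη : η ≤ 1 / 10) (h1 : ∀ d ≤ H, ‖ν d‖ = 1)
    (h2 : ∀ a b, a + b ≤ H → ‖ν (a + b) - ν a * ν b‖ ≤ η) :
    ∃ u : ℂ, ‖u‖ = 1 ∧ ∀ d ≤ H, ‖ν d - u ^ d‖ ≤ 10 * η := by
  have e0 : 0 ≤ η := (norm_nonneg _).trans (h2 0 0 (Nat.zero_le H))
  have a := sa_hyers_real (saLift_add hη h1 h2)
  refine ⟨cexp ((saLift ν H / H : ℝ) * I), norm_exp_ofReal_mul_I _, fun d hd => ?_⟩
  have b := a d hd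
  have c := Real.norm_exp_I_mul_ofReal_sub_one_le (x := saLift ν d - d * (saLift ν H / H))
  have f : ν d - cexp ((saLift ν H / H : ℝ) * I) ^ d = cexp ((d * (saLift ν H / H) : ℝ) * I) *
      (cexp (I * (saLift ν d - d * (saLift ν H / H) : ℝ)) - 1) := by
    rw [mul_sub, mul_one, ← Complex.exp_add, ← Complex.exp_nat_mul, ← saLift_exp h1 d hd]
    congr 2
    · push_cast; ring
    · push_cast; ring
  rw [f, norm_mul, norm_exp_ofReal_mul_I, one_mul]
  rw [Real.norm_eq_abs] at c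
  linarith

theorem sa_geom {x : ℝ} (h0 : 0 ≤ x) (h1 : x < 1) (K : ℕ) : ∑ k ∈ range K, x ^ k ≤ 1 / (1 - x) := by
  rw [one_div]
  exact sum_le_hasSum _ (fun k _ => pow_nonneg h0 k) (hasSum_geometric_of_lt_one h0 h1)

theorem ss_geom {h : ℂ⟦X⟧} (hh : ∀ K, SS h K ≤ K) {x : ℝ} (h0 : 0 ≤ x) (h1 : x < 1) (K : ℕ) :
    ∑ k ∈ range K, ‖coeff k h‖ ^ 2 * x ^ k ≤ 1 / (1 - x) := by
  have a : ∀ K : ℕ, ∑ k ∈ range K, ‖coeff k h‖ ^ 2 * x ^ k + (K - SS h K) * x ^ K ≤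
      ∑ k ∈ range K, x ^ k := fun K => by
    induction K with
    | zero => simp [SS]
    | succ K ih =>
      have b := hh (K + 1)
      have c : SS h (K + 1) = SS h K + ‖coeff K h‖ ^ 2 := sum_range_succ _ K
      have d : (((K + 1 : ℕ) : ℝ) - SS h (K + 1)) * x ^ (K + 1) ≤
          (((K + 1 : ℕ) : ℝ) - SS h (K + 1)) * x ^ K :=
        mul_le_mul_of_nonneg_left (pow_le_pow_of_le_one h0 h1.le K.le_succ) (sub_nonneg.mpr b)
      rw [sum_range_succ, sum_range_succ]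
      rw [c] at d ⊢
      push_cast at d ⊢
      nlinarith
  have b : 0 ≤ (K - SS h K) * x ^ K := mul_nonneg (sub_nonneg.mpr (hh K)) (pow_nonneg h0 K)
  linarith [a K, sa_geom h0 h1 K]

theorem sa_geom_tail {x : ℝ} (h0 : 0 ≤ x) (h1 : x < 1) (J n : ℕ) :
    ∑ k ∈ range n, x ^ (k + J) ≤ x ^ J / (1 - x) := by
  simp only [pow_add]
  rw [← sum_mul, mul_comm, div_eq_mul_one_div]
  exact mul_le_mul_of_nonneg_left (sa_geom h0 h1 n) (pow_nonneg h0 J)

/-- the tail of the series -/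
theorem sa_tail {h : ℂ⟦X⟧} (hh : ∀ K, SS h K ≤ K) {z : ℂ} {x : ℝ} (hz : ‖z‖ ≤ x) (h1 : x < 1)
    (J n : ℕ) : ∑ k ∈ range n, ‖coeff (k + J) h * z ^ (k + J)‖ ≤ √(x ^ J) / (1 - x) := by
  have h0 : 0 ≤ x := (norm_nonneg z).trans hz
  have p : 0 < 1 - x := sub_pos.mpr h1
  have a : ∑ k ∈ range n, ‖coeff (k + J) h * z ^ (k + J)‖ ≤
      ∑ k ∈ range n, ‖coeff (k + J) h‖ * x ^ (k + J) := sum_le_sum fun k _ => by
    rw [norm_mul, norm_pow]
    exact mul_le_mul_of_nonneg_left (pow_le_pow_left₀ (norm_nonneg z) hz _) (norm_nonneg _)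
  have b : (∑ k ∈ range n, ‖coeff (k + J) h‖ * x ^ (k + J)) ^ 2 ≤
      (∑ k ∈ range n, ‖coeff (k + J) h‖ ^ 2 * x ^ (k + J)) * ∑ k ∈ range n, x ^ (k + J) :=
    sum_sq_le_sum_mul_sum_of_sq_le_mul _ (fun k _ => by positivity) (fun k _ => by positivity)
      fun k _ => le_of_eq (by ring)
  have c : ∑ k ∈ range n, ‖coeff (k + J) h‖ ^ 2 * x ^ (k + J) ≤ 1 / (1 - x) := by
    have c1 := ss_geom hh h0 h1 (J + n)
    rw [sum_range_add] at c1
    have c2 : 0 ≤ ∑ k ∈ range J, ‖coeff k h‖ ^ 2 * x ^ k := sum_nonneg fun k _ => by positivity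
    simp only [add_comm J] at c1
    linarith
  have d := b.trans (mul_le_mul c (sa_geom_tail h0 h1 J n)
    (sum_nonneg fun k _ => by positivity) (by positivity))
  refine a.trans (le_of_sq_le_sq (d.trans (le_of_eq ?_)) (by positivity))
  rw [div_pow, Real.sq_sqrt (pow_nonneg h0 J)]
  field_simp

theorem ev_hasSum {h : ℂ⟦X⟧} (hh : ∀ K, SS h K ≤ K) {z : ℂ} (hz : ‖z‖ < 1) :
    Summable (fun k => ‖coeff k h * z ^ k‖) ∧ HasSum (fun k => coeff k h * z ^ k) (ev h z) := by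
  have a : Summable (fun k => ‖coeff k h * z ^ k‖) :=
    summable_of_sum_range_le (fun k => norm_nonneg _) (sa_tail hh le_rfl hz 0)
  exact ⟨a, a.of_norm.hasSum⟩

theorem ev_sq {f : ℂ → ℂ} (hf : DifferentiableOn ℂ f (ball 0 1)) {h : ℂ⟦X⟧}
    (e : X * h ^ 2 = tay f) (hh : ∀ K, SS h K ≤ K) {z : ℂ} (hz : ‖z‖ < 1) :
    f z = z * ev h z ^ 2 := by
  have a : HasSum (fun k => coeff k (X * h ^ 2) * z ^ k) (f z) := by
    have := Complex.hasSum_taylorSeries_on_ball hf (mem_ball_zero_iff.mpr hz)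
    have e2 : (fun k => coeff k (X * h ^ 2) * z ^ k) =
        fun n : ℕ => (n.factorial : ℂ)⁻¹ • (z - 0) ^ n • iteratedDeriv n f 0 := by
      funext k
      rw [e, tay, coeff_mk, sub_zero, smul_eq_mul, smul_eq_mul]
      ring
    rwa [e2]
  have s := (ev_hasSum hh hz).1
  have b := (summable_norm_sum_mul_antidiagonal_of_summable_norm s s).of_norm.hasSum
  rw [← tsum_mul_tsum_eq_tsum_sum_antidiagonal_of_summable_norm s s] at b
  have c := b.mul_left z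
  have e3 : (fun n => z * ∑ kl ∈ antidiagonal n,
      coeff kl.1 h * z ^ kl.1 * (coeff kl.2 h * z ^ kl.2)) =
      fun n => coeff (n + 1) (X * h ^ 2) * z ^ (n + 1) := by
    funext n
    rw [coeff_succ_X_mul, sq, coeff_mul, sum_mul, mul_sum]
    refine sum_congr rfl fun kl hkl => ?_
    rw [← mem_antidiagonal.mp hkl]
    ring
  rw [e3, hasSum_nat_add_iff (f := fun k => coeff k (X * h ^ 2) * z ^ k) 1] at c
  rw [a.unique c, ev]
  simp [sq]

theorem ev_le {h : ℂ⟦X⟧} (hh : ∀ K, SS h K ≤ K) {z : ℂ} {x : ℝ} (hz : ‖z‖ ≤ x) (h1 : x < 1) :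
    ‖ev h z‖ ≤ 1 / (1 - x) := by
  have a := sa_tail hh hz h1 0
  simp only [add_zero, pow_zero, Real.sqrt_one] at a
  exact (norm_tsum_le_tsum_norm (ev_hasSum hh (hz.trans_lt h1)).1).trans
    (Real.tsum_le_of_sum_range_le (fun k => norm_nonneg _) a)

theorem ev_near {h : ℂ⟦X⟧} (hh : ∀ K, SS h K ≤ K) {J : ℕ} {ε : ℝ} {u a : ℂ} (hn : NK J ε h u a)
    {z : ℂ} {x : ℝ} (hz : ‖z‖ ≤ x) (h1 : x < 1) :
    ‖ev h z - a / (1 - u * z)‖ ^ 2 ≤ 2 * (ε * J) / (1 - x) + 8 * x ^ J / (1 - x) ^ 2 := by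
  obtain ⟨hu, ha, hs⟩ := hn
  have h0 : 0 ≤ x := (norm_nonneg z).trans hz
  have p : 0 < 1 - x := sub_pos.mpr h1
  have g : HasSum (fun k : ℕ => a * (u * z) ^ k) (a / (1 - u * z)) := by
    rw [div_eq_mul_inv]
    exact (hasSum_geometric_of_norm_lt_one (by
      rw [norm_mul, hu, one_mul]; exact hz.trans_lt h1)).mul_left a
  have s := ((ev_hasSum hh (hz.trans_lt h1)).2.sub g)
  have t := (hasSum_nat_add_iff' J).mpr s
  have xJ : x ^ J ≤ √(x ^ J) := by
    refine Real.le_sqrt_of_sq_le ?_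
    have := pow_le_one₀ (n := J) h0 h1.le
    nlinarith [pow_nonneg h0 J]
  have tb : ∀ n, ∑ k ∈ range n, ‖coeff (k + J) h * z ^ (k + J) - a * (u * z) ^ (k + J)‖ ≤
      2 * (√(x ^ J) / (1 - x)) := fun n => by
    have b1 := sa_tail hh hz h1 J n
    have b2 := sa_geom_tail h0 h1 J n
    have b3 : x ^ J / (1 - x) ≤ √(x ^ J) / (1 - x) := div_le_div_of_nonneg_right xJ p.le
    have b4 : ∑ k ∈ range n, ‖coeff (k + J) h * z ^ (k + J) - a * (u * z) ^ (k + J)‖ ≤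
        ∑ k ∈ range n, ‖coeff (k + J) h * z ^ (k + J)‖ + ∑ k ∈ range n, x ^ (k + J) := by
      rw [← sum_add_distrib]
      refine sum_le_sum fun k _ => (norm_sub_le _ _).trans (add_le_add le_rfl ?_)
      rw [norm_mul, norm_pow, norm_mul, ha, hu, one_mul, one_mul]
      exact pow_le_pow_left₀ (norm_nonneg z) hz _
    linarith
  have t2 : ‖ev h z - a / (1 - u * z) -
      ∑ k ∈ range J, (coeff k h * z ^ k - a * (u * z) ^ k)‖ ≤ 2 * (√(x ^ J) / (1 - x)) := by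
    rw [← t.tsum_eq]
    exact (norm_tsum_le_tsum_norm (summable_of_sum_range_le (fun k => norm_nonneg _) tb)).trans
      (Real.tsum_le_of_sum_range_le (fun k => norm_nonneg _) tb)
  have hd : ‖∑ k ∈ range J, (coeff k h * z ^ k - a * (u * z) ^ k)‖ ^ 2 ≤ ε * J / (1 - x) := by
    have c1 : ‖∑ k ∈ range J, (coeff k h * z ^ k - a * (u * z) ^ k)‖ ≤
        ∑ k ∈ range J, ‖coeff k h - a * u ^ k‖ * x ^ k := by
      refine norm_sum_le_of_le _ fun k _ => ?_
      rw [show coeff k h * z ^ k - a * (u * z) ^ k = (coeff k h - a * u ^ k) * z ^ k by ring,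
        norm_mul, norm_pow]
      exact mul_le_mul_of_nonneg_left (pow_le_pow_left₀ (norm_nonneg z) hz _) (norm_nonneg _)
    have c2 := sum_mul_sq_le_sq_mul_sq (range J) (fun k => ‖coeff k h - a * u ^ k‖) fun k => x ^ k
    have c3 : ∑ k ∈ range J, (x ^ k) ^ 2 ≤ 1 / (1 - x) := by
      refine (sum_le_sum fun k _ => ?_).trans (sa_geom h0 h1 J)
      have := pow_le_one₀ (n := k) h0 h1.le
      nlinarith [pow_nonneg h0 k]
    have c4 : 0 ≤ ∑ k ∈ range J, ‖coeff k h - a * u ^ k‖ ^ 2 := sum_nonneg fun k _ => sq_nonneg _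
    refine (pow_le_pow_left₀ (norm_nonneg _) c1 2).trans (c2.trans ?_)
    rw [div_eq_mul_one_div]
    exact mul_le_mul hs c3 (sum_nonneg fun k _ => sq_nonneg _) (c4.trans hs)
  set A := ∑ k ∈ range J, (coeff k h * z ^ k - a * (u * z) ^ k)
  set D := ev h z - a / (1 - u * z)
  have n1 : ‖D‖ ≤ ‖A‖ + ‖D - A‖ := by
    have := norm_add_le A (D - A)
    rwa [add_sub_cancel] at this
  have n2 : ‖D - A‖ ^ 2 ≤ 4 * (x ^ J / (1 - x) ^ 2) := by
    refine (pow_le_pow_left₀ (norm_nonneg _) t2 2).trans (le_of_eq ?_)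
    rw [mul_pow, div_pow, Real.sq_sqrt (pow_nonneg h0 J)]
    norm_num
  have n3 := pow_le_pow_left₀ (norm_nonneg _) n1 2
  rw [mul_div_assoc 2, mul_div_assoc 8]
  nlinarith [sq_nonneg (‖A‖ - ‖D - A‖)]

end Pool.Agent.P.MP_c09211_an.Sh
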