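import Pool.Agent.P.MP_c09211_an.Sh.UpA
import Pool.Agent.P.MP_c09211_an.Defs

/-!
The sharpened upper bound for all univalent polynomials.
-/

set_option autoImplicit false

namespace Pool.Agent.P.MP_c09211_an.Sh

open Metric Set Finset PowerSeries Complex Filter Topology Real
open scoped ComplexConjugate

/-- The polynomial `P (c z) / c`. -/
noncomputable def upRot (c : ℂ) (P : Polynomial ℂ) : Polynomial ℂ :=
  Polynomial.C c⁻¹ * P.comp (Polynomial.C c * Polynomial.X)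

theorem upRot_coeff (c : ℂ) (P : Polynomial ℂ) (k : ℕ) :
    (upRot c P).coeff k = c⁻¹ * (P.coeff k * c ^ k) := by
  rw [upRot, Polynomial.coeff_C_mul, Polynomial.comp_C_mul_X_coeff]

theorem upRot_hyp {n : ℕ} {P : Polynomial ℂ} (hn : P.natDegree ≤ n) (h0 : P.coeff 0 = 0)
    (h1 : P.coeff 1 = 1) {R : ℝ} (hi : InjOn (fun z => P.eval z) (ball 0 R)) {c : ℂ}
    (hc : c ≠ 0) (hR : ‖c‖ < R) : Hyp n (upRot c P) := by
  have c0 : 0 < ‖c‖ := norm_pos_iff.mpr hc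
  refine ⟨Polynomial.natDegree_le_iff_coeff_eq_zero.mpr fun k hk => ?_, ?_, ?_, R / ‖c‖,
    (one_lt_div c0).mpr hR, fun z hz w hw h => ?_⟩
  · rw [upRot_coeff, Polynomial.coeff_eq_zero_of_natDegree_lt (hn.trans_lt hk)]
    simp
  · rw [upRot_coeff, h0]
    simp
  · rw [upRot_coeff, h1]
    field_simp
  · have key : ∀ z ∈ ball (0 : ℂ) (R / ‖c‖), c * z ∈ ball (0 : ℂ) R := fun z hz => by
      rw [mem_ball_zero_iff] at *
      rwa [norm_mul, mul_comm, ← lt_div_iff₀ c0]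
    simp only [upRot, Polynomial.eval_mul, Polynomial.eval_C, Polynomial.eval_comp,
      Polynomial.eval_X] at h
    exact mul_left_cancel₀ hc (hi (key z hz) (key w hw) (mul_left_cancel₀ (inv_ne_zero hc) h))

theorem upRot_root {P : Polynomial ℂ} {h : ℂ⟦X⟧} (e : X * h ^ 2 = (P : ℂ⟦X⟧)) {c : ℂ}
    (hc : c ≠ 0) : X * rescale c h ^ 2 = (upRot c P : ℂ⟦X⟧) := by
  have e1 : (upRot c P : ℂ⟦X⟧) = C c⁻¹ * rescale c (P : ℂ⟦X⟧) := by
    ext k
    rw [Polynomial.coeff_coe, upRot_coeff, coeff_C_mul, coeff_rescale, Polynomial.coeff_coe]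
    ring
  have e2 : (C c⁻¹ : ℂ⟦X⟧) * C c = 1 := by rw [← map_mul, inv_mul_cancel₀ hc, map_one]
  rw [e1, ← e, map_mul, map_pow, rescale_X]
  linear_combination -(X * rescale c h ^ 2) * e2

theorem upHyp {ε : ℝ} (hε : 0 < ε) : ∃ J₀ : ℕ, ∀ J ≥ J₀, ∀ n : ℕ,
    J ^ 2 ≤ n + 1 → n ≤ 2 * J ^ 2 → ∀ P : Polynomial ℂ, Hyp n P →
      ((n + 1 - J : ℕ) : ℝ) * ‖P.coeff (n + 1 - J)‖ ≤
        (J : ℝ) ^ 2 - (1 / 2 - ε) * ((J : ℝ) ^ 3 / (n + 1)) := by
  obtain ⟨δ, hδ, J₁, H₁⟩ := core1 hε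
  obtain ⟨δ', hδ', J₂, H₂⟩ := stab' hδ
  refine ⟨max (max J₁ J₂) (max 2 ⌈1 / δ'⌉₊), fun J hJ n h1 h2 P H => ?_⟩
  have j1 : J₁ ≤ J := ((le_max_left _ _).trans (le_max_left _ _)).trans hJ
  have j2 : J₂ ≤ J := ((le_max_right _ _).trans (le_max_left _ _)).trans hJ
  have j3 : 2 ≤ J := ((le_max_left _ _).trans (le_max_right _ _)).trans hJ
  have j4 : ⌈1 / δ'⌉₊ ≤ J := ((le_max_right _ _).trans (le_max_right _ _)).trans hJ
  have j5 : J ≤ n := by nlinarith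
  obtain ⟨h, g, e, hl⟩ := (H.sr le_rfl).lm
  rw [tay_poly] at e
  by_cases hb : (1 - δ') * (J : ℝ) ^ 2 ≤ ‖Lam J (om n P) (X * h ^ 2)‖
  · obtain ⟨u, a, hu, ha, hk⟩ := H₂ J j2 h g hl _ H.schur hb
    have c1 : ‖conj u‖ = 1 := by rw [norm_conj, hu]
    have c0 : conj u ≠ 0 := norm_pos_iff.mp (c1 ▸ one_pos)
    have cu : conj u * u = 1 := by rw [conj_mul', hu]; simp
    obtain ⟨R, hR, hi⟩ := H.2.2.2
    have H' : Hyp n (upRot (conj u) P) := upRot_hyp H.1 H.2.1 H.2.2.1 hi c0 (c1 ▸ hR)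
    obtain ⟨h', g', e', hl'⟩ := (H'.sr le_rfl).lm
    rw [tay_poly] at e'
    have e2 : h' = rescale (conj u) h :=
      root_unique hl'.2.1 (by rw [coeff_rescale, hl.2.1]; simp) (e'.trans (upRot_root e c0).symm)
    have hk' : NK J δ h' 1 a := by
      refine ⟨norm_one, ha, le_trans (le_of_eq (sum_congr rfl fun k _ => ?_)) hk⟩
      have : conj u ^ k * u ^ k = 1 := by rw [← mul_pow, cu, one_pow]
      rw [e2, coeff_rescale, show conj u ^ k * coeff k h - a * 1 ^ k =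
        conj u ^ k * (coeff k h - a * u ^ k) by rw [one_pow]; linear_combination a * this,
        norm_mul, norm_pow, c1, one_pow, one_mul]
    have := H₁ J j1 n h1 h2 _ h' g' a H' e' hl' hk'
    rwa [H'.lam_eq (by omega) j5, upRot_coeff, norm_mul, norm_mul, norm_inv, norm_pow, c1, inv_one,
      one_pow, one_mul, mul_one] at this
  · rw [e, H.lam_eq (by omega) j5] at hb
    have J0 : (0 : ℝ) < J := by exact_mod_cast (by omega : 0 < J)
    have t0 : (0 : ℝ) ≤ (J : ℝ) ^ 3 / (n + 1) := by positivity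
    have t1 : (J : ℝ) ^ 3 / (n + 1) ≤ J := by
      rw [div_le_iff₀ (by positivity)]
      have : (J : ℝ) ^ 2 ≤ n + 1 := by exact_mod_cast h1
      nlinarith
    have t2 : 1 ≤ (J : ℝ) * δ' := by
      rw [← div_le_iff₀ hδ']
      exact (Nat.le_ceil _).trans (by exact_mod_cast j4)
    have t3 : (J : ℝ) ≤ δ' * (J : ℝ) ^ 2 := by nlinarith
    have t4 := mul_nonneg hε.le t0
    push Not at hb
    nlinarith

theorem upper_sharp {ε : ℝ} (hε : 0 < ε) : ∃ J₀ : ℕ, ∀ J ≥ J₀, ∀ n : ℕ,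
    J ^ 2 ≤ n + 1 → n ≤ 2 * J ^ 2 → ∀ P : Polynomial ℂ, Univ n P →
      ((n + 1 - J : ℕ) : ℝ) * ‖P.coeff (n + 1 - J)‖ ≤
        (J : ℝ) ^ 2 - (1 / 2 - ε) * ((J : ℝ) ^ 3 / (n + 1)) := by
  obtain ⟨J₀, H⟩ := upHyp hε
  refine ⟨J₀, fun J hJ n h1 h2 P hP => ?_⟩
  have H' := H J hJ n h1 h2
  generalize n + 1 - J = m at H' ⊢
  have ht : Tendsto (fun r : ℝ => (m : ℝ) * (r⁻¹ * (‖P.coeff m‖ * r ^ m))) (𝓝[<] 1)
      (𝓝 ((m : ℝ) * (1⁻¹ * (‖P.coeff m‖ * 1 ^ m)))) := by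
    refine (ContinuousAt.tendsto ?_).mono_left nhdsWithin_le_nhds
    exact continuousAt_const.mul ((continuousAt_inv₀ one_ne_zero).mul (by fun_prop))
  rw [one_pow, mul_one, inv_one, one_mul] at ht
  refine le_of_tendsto ht ?_
  filter_upwards [Ioo_mem_nhdsLT zero_lt_one] with r ⟨r0, r1⟩
  have rc : (r : ℂ) ≠ 0 := by exact_mod_cast r0.ne'
  have rn : ‖(r : ℂ)‖ = r := by rw [norm_real, Real.norm_eq_abs, abs_of_pos r0]
  have := H' _ (upRot_hyp hP.1 hP.2.1 hP.2.2.1 hP.2.2.2 rc (rn.symm ▸ r1))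
  rwa [upRot_coeff, norm_mul, norm_mul, norm_inv, norm_pow, rn] at this

end Pool.Agent.P.MP_c09211_an.Sh
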