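import Pool.Agent.P.MP_c09211_an.Sh.Coef

/-!
The objects attached to a univalent polynomial.
-/

set_option autoImplicit false

namespace Pool.Agent.P.MP_c09211_an.Sh

open Metric Set Finset PowerSeries Complex Filter Topology Real
open scoped ComplexConjugate

/-- A normalised polynomial of degree at most `n`, injective on a disc of radius above one. -/
def Hyp (n : ℕ) (P : Polynomial ℂ) : Prop :=
  P.natDegree ≤ n ∧ P.coeff 0 = 0 ∧ P.coeff 1 = 1 ∧
    ∃ R : ℝ, 1 < R ∧ InjOn (fun z => P.eval z) (ball 0 R)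

/-- The reversed derivative. -/
noncomputable def Qs (n : ℕ) (P : Polynomial ℂ) (z : ℂ) : ℂ :=
  ∑ l ∈ range n, conj (P.derivative.coeff (n - 1 - l)) * z ^ l

/-- The quotient of the reversed derivative and the derivative. -/
noncomputable def om (n : ℕ) (P : Polynomial ℂ) (z : ℂ) : ℂ := Qs n P z / P.derivative.eval z

/-- The functional on the powers of `P`. -/
noncomputable def Lc (n J : ℕ) (P : Polynomial ℂ) (i : ℕ) : ℂ := Lam J (om n P) ((P : ℂ⟦X⟧) ^ i)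

/-- The polynomial part of the quadratic differential. -/
noncomputable def yf (n J : ℕ) (P : Polynomial ℂ) (s : ℂ) : ℂ :=
  ∑ i ∈ Finset.Icc 2 J, Lc n J P i * s ^ (i - 1)

/-- The quadratic differential pulled back to the disc. -/
noncomputable def Yf (n J : ℕ) (P : Polynomial ℂ) (z : ℂ) : ℂ :=
  yf n J P (P.eval z)⁻¹ * (z * P.derivative.eval z / P.eval z) ^ 2

/-- The slowly varying weight. -/
noncomputable def qf (n J : ℕ) (P : Polynomial ℂ) (z : ℂ) : ℂ :=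
  yf n J P (P.eval z)⁻¹ * (P.eval z)⁻¹ ^ 2

/-- The product of `z P'` and its reversal. -/
noncomputable def Gf (n : ℕ) (P : Polynomial ℂ) (z : ℂ) : ℂ :=
  z ^ 2 * P.derivative.eval z * Qs n P z

/-- The function `z ^ (J - 1) * qf * Gf` without its removable singularity. -/
noncomputable def Wf (n J : ℕ) (P : Polynomial ℂ) (z : ℂ) : ℂ :=
  ∑ i ∈ Finset.Icc 2 J, Lc n J P i * z ^ (J - i) *
    (P.derivative.eval z * Qs n P z / P.divX.eval z ^ (i + 1))

variable {n J : ℕ} {P : Polynomial ℂ}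

theorem Hyp.sr (H : Hyp n P) {ρ : ℝ} (h1 : ρ ≤ 1) : Sr ρ fun z => P.eval z := by
  obtain ⟨-, h0, h2, R, hR, hi⟩ := H
  obtain ⟨M, hM⟩ := (isCompact_closedBall (0 : ℂ) 1).exists_bound_of_continuousOn
    P.continuous.continuousOn
  refine ⟨P.differentiable.differentiableOn, hi.mono (ball_subset_ball (h1.trans hR.le)),
    (Polynomial.coeff_zero_eq_eval_zero P).symm.trans h0, ?_, M + 1, fun z hz =>
    (hM z (ball_subset_closedBall (ball_subset_ball h1 hz))).trans_lt (lt_add_one M)⟩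
  rw [Polynomial.deriv, ← Polynomial.coeff_zero_eq_eval_zero, Polynomial.coeff_derivative, h2]
  simp

theorem Hyp.deriv_ne (H : Hyp n P) {z : ℂ} (hz : ‖z‖ ≤ 1) : P.derivative.eval z ≠ 0 := by
  obtain ⟨-, -, -, R, hR, hi⟩ := H
  rw [← Polynomial.deriv]
  exact deriv_ne_zero_of_injOn (P.differentiable.analyticAt z)
    (isOpen_ball.mem_nhds (mem_ball_zero_iff.mpr (hz.trans_lt hR))) hi

theorem Hyp.one_le (H : Hyp n P) : 1 ≤ n :=
  (Polynomial.le_natDegree_of_ne_zero (by rw [H.2.2.1]; exact one_ne_zero)).trans H.1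

theorem Hyp.X_divX (H : Hyp n P) : Polynomial.X * P.divX = P := by
  have := Polynomial.X_mul_divX_add P
  rwa [H.2.1, map_zero, add_zero] at this

theorem Hyp.eval_eq (H : Hyp n P) (z : ℂ) : P.eval z = z * P.divX.eval z := by
  conv_lhs => rw [← H.X_divX]
  rw [Polynomial.eval_mul, Polynomial.eval_X]

theorem Hyp.divX_zero (H : Hyp n P) : P.divX.eval 0 = 1 := by
  rw [← Polynomial.coeff_zero_eq_eval_zero, Polynomial.coeff_divX, zero_add, H.2.2.1]

theorem Hyp.deriv_zero (H : Hyp n P) : P.derivative.eval 0 = 1 := by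
  rw [← Polynomial.coeff_zero_eq_eval_zero, Polynomial.coeff_derivative, zero_add, H.2.2.1]
  simp

theorem Hyp.divX_ne (H : Hyp n P) {z : ℂ} (hz : ‖z‖ ≤ 1) : P.divX.eval z ≠ 0 := by
  intro h
  have e := H.eval_eq z
  have e0 := H.eval_eq 0
  have h1 := H.divX_zero
  obtain ⟨-, -, -, R, hR, hi⟩ := H
  have : z = 0 := hi (mem_ball_zero_iff.mpr (hz.trans_lt hR))
    (mem_ball_self (zero_lt_one.trans hR)) (by
      show P.eval z = P.eval 0
      rw [e, e0, h, mul_zero, zero_mul])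
  rw [this, h1] at h
  exact one_ne_zero h

theorem Hyp.eval_ne (H : Hyp n P) {z : ℂ} (h0 : z ≠ 0) (hz : ‖z‖ ≤ 1) : P.eval z ≠ 0 := by
  rw [H.eval_eq]; exact mul_ne_zero h0 (H.divX_ne hz)

theorem Qs_diff : Differentiable ℂ (Qs n P) := by
  unfold Qs; fun_prop

theorem Hyp.deriv_sum (H : Hyp n P) (z : ℂ) :
    P.derivative.eval z = ∑ l ∈ range n, P.derivative.coeff l * z ^ l :=
  Polynomial.eval_eq_sum_range' (n := n) (by
    have := Polynomial.natDegree_derivative_le P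
    have := H.1
    have := H.one_le
    omega) z

theorem Hyp.Qs_sphere (H : Hyp n P) {z : ℂ} (hz : ‖z‖ = 1) :
    Qs n P z = conj (P.derivative.eval z) * z ^ (n - 1) := by
  have b1 : conj z * z = 1 := by rw [conj_mul', hz]; simp
  rw [H.deriv_sum, map_sum, sum_mul, Qs, ← sum_range_reflect]
  refine sum_congr rfl fun l hl => ?_
  obtain ⟨k, hk⟩ := Nat.exists_eq_add_of_le (show l ≤ n - 1 by have := mem_range.mp hl; omega)
  have : conj z ^ l * z ^ l = 1 := by rw [← mul_pow, b1, one_pow]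
  rw [hk, Nat.add_sub_cancel_left, Nat.add_sub_cancel, map_mul, map_pow, pow_add]
  linear_combination -conj (P.derivative.coeff l) * z ^ k * this

theorem Hyp.om_diff (H : Hyp n P) : DifferentiableOn ℂ (om n P) (closedBall 0 1) :=
  Qs_diff.differentiableOn.div P.derivative.differentiable.differentiableOn fun _ hz =>
    H.deriv_ne (mem_closedBall_zero_iff.mp hz)

theorem Hyp.schur (H : Hyp n P) : Schur (om n P) := by
  refine ⟨H.om_diff, fun z hz => ?_⟩
  have e : closure (ball (0 : ℂ) 1) = closedBall 0 1 := closure_ball _ one_ne_zero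
  refine Complex.norm_le_of_forall_mem_frontier_norm_le (U := ball 0 1) isBounded_ball
    (DifferentiableOn.diffContOnCl (by rw [e]; exact H.om_diff)) (fun w hw => ?_) (by rwa [e])
  rw [frontier_ball _ one_ne_zero, mem_sphere_zero_iff_norm] at hw
  rw [om, H.Qs_sphere hw, norm_div, norm_mul, norm_conj, norm_pow, hw, one_pow, mul_one]
  exact div_self_le_one _

theorem Hyp.tay_Qs (H : Hyp n P) : tay (Qs n P) = tay (om n P) * d⁄dX ℂ (P : ℂ⟦X⟧) := by
  rw [derivative_coe, ← tay_poly P.derivative,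
    ← tay_mul H.schur.an (P.derivative.differentiable.analyticAt 0)]
  refine tay_congr ?_
  filter_upwards [closedBall_mem_nhds (0 : ℂ) one_pos] with z hz
  exact (div_mul_cancel₀ _ (H.deriv_ne (mem_closedBall_zero_iff.mp hz))).symm

theorem Hyp.lam_eq (H : Hyp n P) (h1 : 1 ≤ J) (h2 : J ≤ n) :
    ‖Lam J (om n P) (P : ℂ⟦X⟧)‖ = ((n + 1 - J : ℕ) : ℝ) * ‖P.coeff (n + 1 - J)‖ := by
  have e : coeff (J - 1) (tay (Qs n P)) = conj (P.derivative.coeff (n - 1 - (J - 1))) :=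
    tay_fin n (fun l => conj (P.derivative.coeff (n - 1 - l))) (by omega)
  rw [Lam, ← H.tay_Qs, e, norm_conj, show n - 1 - (J - 1) = n - J by omega,
    Polynomial.coeff_derivative, norm_mul, ← Nat.cast_succ, Complex.norm_natCast,
    show n + 1 - J = n - J + 1 by omega, mul_comm]

theorem Hyp.Gf_pos (H : Hyp n P) {z : ℂ} (hz : ‖z‖ = 1) :
    ∃ b : ℝ, 0 ≤ b ∧ Gf n P z = b * z ^ (n + 1) := by
  refine ⟨‖P.derivative.eval z‖ ^ 2, sq_nonneg _, ?_⟩
  obtain ⟨m, rfl⟩ := Nat.exists_eq_add_of_le' H.one_le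
  rw [Gf, H.Qs_sphere hz, Nat.add_sub_cancel]
  have := conj_mul' (P.derivative.eval z)
  push_cast
  linear_combination z ^ 2 * z ^ m * this

theorem Gf_diff : Differentiable ℂ (Gf n P) := by
  have h1 : Differentiable ℂ fun z : ℂ => P.derivative.eval z := P.derivative.differentiable
  have h2 : Differentiable ℂ (Qs n P) := Qs_diff
  unfold Gf
  fun_prop

theorem Hyp.coeff_le (H : Hyp n P) {k : ℕ} (hk : k < n) :
    ‖P.derivative.coeff k‖ ≤ (n : ℝ) ^ 2 := by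
  have h := pair_scaled (H.sr le_rfl) one_pos le_rfl (w := fun _ => 1)
    ⟨differentiableOn_const _, fun _ _ => by simp⟩ (J := k + 1) (by omega)
  rw [one_pow, one_mul, Lam, tay_const, map_one, one_mul, tay_poly, derivative_coe,
    Polynomial.coeff_coe, Nat.add_sub_cancel] at h
  refine h.trans (pow_le_pow_left₀ (Nat.cast_nonneg _) ?_ 2)
  exact_mod_cast hk

theorem norm_sum_pow_le {a : ℕ → ℂ} (h : ∀ k < n, ‖a k‖ ≤ (n : ℝ) ^ 2) {z : ℂ} (hz : ‖z‖ ≤ 1) :
    ‖∑ l ∈ range n, a l * z ^ l‖ ≤ (n : ℝ) ^ 3 := by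
  refine (norm_sum_le_of_le _ (n := fun _ => (n : ℝ) ^ 2) fun l hl => ?_).trans (le_of_eq ?_)
  · rw [norm_mul, norm_pow]
    exact (mul_le_of_le_one_right (norm_nonneg _) (pow_le_one₀ (norm_nonneg _) hz)).trans
      (h l (mem_range.mp hl))
  · rw [sum_const, card_range, nsmul_eq_mul]; ring

theorem Hyp.Gf_le (H : Hyp n P) {z : ℂ} (hz : ‖z‖ ≤ 1) : ‖Gf n P z‖ ≤ (n : ℝ) ^ 6 := by
  have h1 : ‖P.derivative.eval z‖ ≤ (n : ℝ) ^ 3 := by
    rw [H.deriv_sum]; exact norm_sum_pow_le (fun k hk => H.coeff_le hk) hz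
  have h2 : ‖Qs n P z‖ ≤ (n : ℝ) ^ 3 :=
    norm_sum_pow_le (a := fun l => conj (P.derivative.coeff (n - 1 - l)))
      (fun k hk => by rw [norm_conj]; exact H.coeff_le (by omega)) hz
  have h3 : ‖z‖ ^ 2 ≤ 1 := pow_le_one₀ (norm_nonneg _) hz
  rw [Gf, norm_mul, norm_mul, norm_pow, show (n : ℝ) ^ 6 = 1 * n ^ 3 * n ^ 3 by ring]
  gcongr

theorem Hyp.Wf_diff (H : Hyp n P) : DifferentiableOn ℂ (Wf n J P) (closedBall 0 1) := by
  unfold Wf
  refine DifferentiableOn.fun_sum fun i _ => DifferentiableOn.fun_mul (by fun_prop) ?_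
  exact (P.derivative.differentiable.differentiableOn.fun_mul Qs_diff.differentiableOn).fun_div
    (P.divX.differentiable.differentiableOn.fun_pow _) fun z hz =>
      pow_ne_zero _ (H.divX_ne (mem_closedBall_zero_iff.mp hz))

theorem Hyp.Wf_eq (H : Hyp n P) {z : ℂ} (h0 : z ≠ 0) (hz : ‖z‖ ≤ 1) :
    Wf n J P z / z ^ (J - 1) = qf n J P z * Gf n P z ∧
      qf n J P z * Gf n P z = Yf n J P z * om n P z := by
  have d1 := H.divX_ne hz
  have d2 := H.deriv_ne hz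
  have d3 := H.eval_ne h0 hz
  constructor
  · rw [Wf, qf, yf, Gf, sum_div, sum_mul, sum_mul]
    refine sum_congr rfl fun i hi => ?_
    rw [Finset.mem_Icc] at hi
    obtain ⟨a, rfl⟩ := Nat.exists_eq_add_of_le' (show 1 ≤ i by omega)
    obtain ⟨b, rfl⟩ := Nat.exists_eq_add_of_le hi.2
    rw [H.eval_eq z, Nat.add_sub_cancel, Nat.add_sub_cancel_left,
      show a + 1 + b - 1 = a + b by omega, inv_pow, inv_pow, mul_pow, mul_pow]
    field_simp
    ring
  · rw [qf, Gf, Yf, om]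
    field_simp

theorem Hyp.Yf_cont (H : Hyp n P) : ContinuousOn (Yf n J P) (closedBall 0 1 \ {0}) := by
  have h1 : ∀ z ∈ closedBall (0 : ℂ) 1 \ {0}, P.eval z ≠ 0 := fun z hz =>
    H.eval_ne hz.2 (mem_closedBall_zero_iff.mp hz.1)
  have h2 : Continuous (yf n J P) := by unfold yf; fun_prop
  unfold Yf
  exact (h2.comp_continuousOn (P.continuous.continuousOn.inv₀ h1)).mul
    (((continuousOn_id.mul P.derivative.continuous.continuousOn).div
      P.continuous.continuousOn h1).pow 2)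

theorem Hyp.coe_eq (H : Hyp n P) : X * (P.divX : ℂ⟦X⟧) = (P : ℂ⟦X⟧) := by
  conv_rhs => rw [← H.X_divX]
  rw [Polynomial.coe_mul, Polynomial.coe_X]

theorem Hyp.coe_divX (H : Hyp n P) : coeff 0 (P.divX : ℂ⟦X⟧) = 1 := by
  rw [Polynomial.coeff_coe, Polynomial.coeff_divX, zero_add, H.2.2.1]

theorem Hyp.inv_an (H : Hyp n P) : AnalyticAt ℂ (fun z => (P.divX.eval z)⁻¹) 0 :=
  (P.divX.differentiable.analyticAt 0).fun_inv (by rw [H.divX_zero]; exact one_ne_zero)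

theorem Hyp.tay_inv (H : Hyp n P) : tay (fun z => (P.divX.eval z)⁻¹) = (P.divX : ℂ⟦X⟧)⁻¹ := by
  rw [PowerSeries.eq_inv_iff_mul_eq_one (by
    rw [← coeff_zero_eq_constantCoeff_apply, H.coe_divX]; exact one_ne_zero),
    ← tay_poly P.divX, ← tay_mul H.inv_an (P.divX.differentiable.analyticAt 0), ← map_one C,
    ← tay_const]
  refine tay_congr ?_
  filter_upwards [closedBall_mem_nhds (0 : ℂ) one_pos] with z hz
  exact inv_mul_cancel₀ (H.divX_ne (mem_closedBall_zero_iff.mp hz))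

theorem Hyp.tay_Wf (H : Hyp n P) : tay (Wf n J P) = ∑ i ∈ Finset.Icc 2 J, C (Lc n J P i) *
    (X ^ (J - i) * (tay (Qs n P) * d⁄dX ℂ (P : ℂ⟦X⟧) * (P.divX : ℂ⟦X⟧)⁻¹ ^ (i + 1))) := by
  have a1 : AnalyticAt ℂ (fun z => P.derivative.eval z) 0 :=
    P.derivative.differentiable.analyticAt 0
  have a2 : AnalyticAt ℂ (Qs n P) 0 := Qs_diff.analyticAt 0
  have a3 := H.inv_an
  have a4 : ∀ k : ℕ, AnalyticAt ℂ (fun z : ℂ => z ^ k) 0 := fun k => by fun_prop
  have e : Wf n J P = fun z => ∑ i ∈ Finset.Icc 2 J, Lc n J P i * (z ^ (J - i) *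
      (Qs n P z * P.derivative.eval z * (P.divX.eval z)⁻¹ ^ (i + 1))) := by
    funext z
    refine sum_congr rfl fun i _ => ?_
    rw [inv_pow, div_eq_mul_inv]
    ring
  rw [e, tay_sum _ fun i _ => analyticAt_const.fun_mul
    ((a4 _).fun_mul ((a2.fun_mul a1).fun_mul (a3.fun_pow _)))]
  refine sum_congr rfl fun i _ => ?_
  rw [tay_cmul _ ((a4 _).fun_mul ((a2.fun_mul a1).fun_mul (a3.fun_pow _))),
    tay_mul (a4 _) ((a2.fun_mul a1).fun_mul (a3.fun_pow _)),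
    tay_mul (a2.fun_mul a1) (a3.fun_pow _), tay_mul a2 a1, tay_pow a3,
    tay_pow (f := fun z => z) (by fun_prop), tay_id, H.tay_inv, tay_poly, derivative_coe]

theorem Hyp.Wf_coeff (H : Hyp n P) {j : ℕ} (hj : j < J) :
    ‖coeff (J - 1 - j) (tay (Wf n J P)) -
      Lam J (om n P) (X ^ (j + 1) * (tay (om n P) * d⁄dX ℂ (P : ℂ⟦X⟧)))‖ ≤ (J : ℝ) ^ 2 := by
  have hJ : 1 ≤ J := by omega
  have e := lagrange_lam H.coe_divX (X ^ (j + 1) * tay (Qs n P)) hJ (om n P)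
  rw [H.coe_eq] at e
  obtain ⟨K, hK⟩ : ∃ K : ℕ → ℂ⟦X⟧, ∀ i, K i =
    tay (Qs n P) * d⁄dX ℂ (P : ℂ⟦X⟧) * (P.divX : ℂ⟦X⟧)⁻¹ ^ (i + 1) := ⟨_, fun _ => rfl⟩
  have e1 : ∀ i, X ^ (j + 1) * tay (Qs n P) * d⁄dX ℂ (P : ℂ⟦X⟧) * (P.divX : ℂ⟦X⟧)⁻¹ ^ (i + 1) =
      X ^ (j + 1) * K i := fun i => by rw [hK]; ring
  have e2 : range (J + 1) = insert 0 (insert 1 (Finset.Icc 2 J)) := by
    ext i
    simp only [Finset.mem_range, Finset.mem_insert, Finset.mem_Icc]
    omega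
  simp only [e1] at e
  rw [e2, sum_insert (by simp), sum_insert (by simp), coeff_X_pow_mul', if_neg (by omega),
    zero_mul, zero_add, pow_one] at e
  have e3 : coeff (J - 1 - j) (tay (Wf n J P)) = ∑ i ∈ Finset.Icc 2 J,
      coeff i (X ^ (j + 1) * K i) * Lam J (om n P) ((P : ℂ⟦X⟧) ^ i) := by
    rw [H.tay_Wf, map_sum]
    refine sum_congr rfl fun i hi => ?_
    rw [Finset.mem_Icc] at hi
    rw [coeff_C_mul, ← hK, mul_comm, Lc, coeff_X_pow_mul', coeff_X_pow_mul']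
    by_cases h : j + 1 ≤ i
    · rw [if_pos h, if_pos (by omega), show J - 1 - j - (J - i) = i - (j + 1) by omega]
    · rw [if_neg h, if_neg (by omega)]
  have e4 : ‖coeff 1 (X ^ (j + 1) * K 1)‖ ≤ 1 := by
    rw [coeff_X_pow_mul']
    split_ifs with h
    · have c1 : constantCoeff (d⁄dX ℂ (P : ℂ⟦X⟧)) = 1 := by
        rw [derivative_coe, ← coeff_zero_eq_constantCoeff_apply, Polynomial.coeff_coe,
          Polynomial.coeff_zero_eq_eval_zero, H.deriv_zero]
      have c2 : constantCoeff (P.divX : ℂ⟦X⟧) = 1 := by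
        rw [← coeff_zero_eq_constantCoeff_apply, H.coe_divX]
      rw [show 1 - (j + 1) = 0 by omega, hK, H.tay_Qs, coeff_zero_eq_constantCoeff_apply, map_mul,
        map_mul, map_mul, map_pow, PowerSeries.constantCoeff_inv, c1, c2,
        ← coeff_zero_eq_constantCoeff_apply, tay_coeff_zero]
      simpa using H.schur.2 0 (mem_closedBall_self zero_le_one)
    · simp
  have e5 := pair_scaled (H.sr le_rfl) one_pos le_rfl H.schur hJ
  rw [one_pow, one_mul, tay_poly] at e5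
  rw [← H.tay_Qs, e, e3, sub_add_cancel_right, norm_neg, norm_mul]
  exact (mul_le_of_le_one_left (norm_nonneg _) e4).trans e5

theorem Lam_trunc (w : ℂ → ℂ) (hJ : 1 ≤ J) (c : ℕ → ℂ) (F : ℕ → ℂ⟦X⟧) (E : ℂ⟦X⟧) :
    Lam J w (∑ i ∈ range (J + 1), C (c i) * F i + X ^ (J + 1) * E) =
      ∑ i ∈ range (J + 1), c i * Lam J w (F i) := by
  have e : d⁄dX ℂ (X ^ (J + 1) * E : ℂ⟦X⟧) = X ^ J * (((J + 1 : ℕ) : ℂ⟦X⟧) * E + X * d⁄dX ℂ E) := by
    rw [Derivation.leibniz, Derivation.leibniz_pow, derivative_X, Nat.add_sub_cancel]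
    simp only [smul_eq_mul, nsmul_eq_mul]
    ring
  unfold Lam
  rw [map_add, e, mul_add, map_add, mul_left_comm, coeff_X_pow_mul', if_neg (by omega), add_zero,
    map_sum, mul_sum, map_sum]
  refine sum_congr rfl fun i _ => ?_
  rw [Derivation.leibniz, derivative_C, smul_zero, add_zero, smul_eq_mul, mul_left_comm,
    coeff_C_mul]

theorem Hyp.fb (H : Hyp n P) (hJ : 1 ≤ J) {ρ : ℝ} (h0 : 0 < ρ) (h1 : ρ ≤ 1) {Φ : ℂ → ℂ}
    (a1 : DifferentiableOn ℂ Φ ((fun z => P.eval z) '' ball 0 ρ))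
    (a2 : InjOn Φ ((fun z => P.eval z) '' ball 0 ρ)) (a3 : Φ 0 = 0) (a4 : deriv Φ 0 = 1)
    (a5 : ∃ C : ℝ, ∀ w ∈ (fun z => P.eval z) '' ball 0 ρ, ‖Φ w‖ < C) :
    ‖∑ i ∈ range (J + 1), coeff i (tay Φ) * Lc n J P i‖ ≤ (J : ℝ) ^ 2 / ρ ^ (J - 1) := by
  have hS := H.sr h1
  have p0 : P.eval 0 = 0 := hS.2.2.1
  have hn : (fun z => P.eval z) '' ball 0 ρ ∈ 𝓝 (0 : ℂ) := by
    have := (P.hasStrictDerivAt 0).map_nhds_eq (by rw [H.deriv_zero]; exact one_ne_zero)
    rw [p0] at this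
    rw [← this]
    exact image_mem_map (ball_mem_nhds _ h0)
  have hΦ : AnalyticAt ℂ Φ 0 := a1.analyticAt hn
  have m := mapsTo_image (fun z => P.eval z) (ball (0 : ℂ) ρ)
  obtain ⟨M, hM⟩ := a5
  have hT : Sr ρ fun z => Φ (P.eval z) := by
    refine ⟨a1.comp hS.1 m, a2.comp hS.2.1 m, by simp only [p0, a3], ?_, M,
      fun z hz => hM _ (m hz)⟩
    have b1 : HasDerivAt Φ 1 (P.eval 0) := by
      rw [p0, ← a4]; exact hΦ.differentiableAt.hasDerivAt
    have b2 := (b1.comp 0 (P.hasDerivAt 0)).deriv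
    rw [H.deriv_zero, mul_one] at b2
    exact b2
  have h := pair_scaled hT h0 h1 H.schur hJ
  obtain ⟨E, hE⟩ := tay_comp hΦ (P.differentiable.analyticAt 0) p0 (J + 1)
  rw [tay_poly] at hE
  have e : (P : ℂ⟦X⟧) ^ (J + 1) * E = X ^ (J + 1) * ((P.divX : ℂ⟦X⟧) ^ (J + 1) * E) := by
    rw [← mul_assoc, ← mul_pow, H.coe_eq]
  rw [hE, e, Lam_trunc _ hJ] at h
  rw [le_div_iff₀ (pow_pos h0 _), mul_comm]
  exact h

end Pool.Agent.P.MP_c09211_an.Sh
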