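import Pool.Agent.P.MP_c09211_an.Sh.Motion
import Pool.Agent.P.MP_c09211_an.Toep

/-!
The area inequality for a bounded coefficient functional.
-/

set_option autoImplicit false

namespace Pool.Agent.P.MP_c09211_an.Sh

open Metric Set Complex Filter Topology MeasureTheory PowerSeries Real
open scoped ContDiff

/-- The functional with weights `l` is bounded by `B` on normalised injective maps of `Ω`. -/
def FB (Ω : Set ℂ) (J : ℕ) (l : ℕ → ℂ) (B : ℝ) : Prop :=
  ∀ Φ : ℂ → ℂ, DifferentiableOn ℂ Φ Ω → InjOn Φ Ω → Φ 0 = 0 → deriv Φ 0 = 1 →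
    (∃ C : ℝ, ∀ w ∈ Ω, ‖Φ w‖ < C) → ‖∑ i ∈ Finset.range (J + 1), coeff i (tay Φ) * l i‖ ≤ B

theorem schwarz_pick {F : ℂ → ℂ} (hF : DifferentiableOn ℂ F (ball 0 1)) {B : ℝ}
    (hB : ∀ z ∈ ball (0 : ℂ) 1, ‖F z‖ ≤ B) : ‖deriv F 0‖ ≤ 2 * (B - ‖F 0‖) := by
  have hF0 : DifferentiableAt ℂ F 0 := hF.differentiableAt (ball_mem_nhds _ one_pos)
  have key : ∀ r : ℝ, 0 < r → r < 1 → r * ‖deriv F 0‖ ≤ 2 * (B - ‖F 0‖) := by
    intro r hr hr1
    have hm : ∀ z ∈ closedBall (0 : ℂ) 1, (r : ℂ) * z ∈ ball (0 : ℂ) 1 := by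
      intro z hz
      rw [mem_closedBall_zero_iff] at hz
      rw [mem_ball_zero_iff, norm_mul, Complex.norm_real, Real.norm_of_nonneg hr.le]
      nlinarith [norm_nonneg z]
    have hg : DifferentiableOn ℂ (fun z => F (r * z)) (closedBall 0 1) :=
      hF.comp (by fun_prop) hm
    have hd : deriv (fun z => F (r * z)) 0 = r * deriv F 0 := by
      have h1 : HasDerivAt (fun z : ℂ => (r : ℂ) * z) r 0 := by
        simpa using (hasDerivAt_id (0 : ℂ)).const_mul (r : ℂ)
      have h2 : HasDerivAt F (deriv F 0) ((r : ℂ) * 0) := by simpa using hF0.hasDerivAt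
      exact (h2.comp (0 : ℂ) h1).deriv.trans (mul_comm _ _)
    obtain ⟨c, hc, hc'⟩ := Complex.exists_norm_eq_mul_self (F 0)
    obtain ⟨e, he, he'⟩ := Complex.exists_norm_mul_eq_self ((r : ℂ) * deriv F 0)
    have h := toeplitz hg (M := B) (fun z hz => hB _ (hm z (sphere_subset_closedBall hz))) 2
      (PowerSeries.mk fun k => if k = 0 then 1 else c * e) (fun k => if k = 0 then c * e else 1)
    have hn : ‖c * e‖ = 1 := by rw [norm_mul, hc, he, one_mul]
    simp only [Finset.sum_range_succ, Finset.sum_range_zero, zero_add, coeff_mul,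
      Finset.Nat.antidiagonal_zero, Finset.sum_singleton, Finset.Nat.antidiagonal_succ,
      Finset.sum_cons, Finset.map_singleton, Function.Embedding.coe_prodMap,
      Function.Embedding.coeFn_mk, Prod.map, Function.Embedding.refl_apply, coeff_mk,
      tay_coeff_zero, tay_coeff_one, hd, mul_zero, if_true, one_ne_zero, if_false, hn, norm_one,
      mul_one, Nat.succ_eq_add_one] at h
    have e1 : F 0 * (c * e) + (F 0 * (c * e) + r * deriv F 0) =
        e * ((2 * ‖F 0‖ + ‖(r : ℂ) * deriv F 0‖ : ℝ) : ℂ) := by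
      push_cast
      rw [hc']
      linear_combination -he'
    rw [e1, norm_mul, he, one_mul, Complex.norm_real, Real.norm_of_nonneg (by positivity),
      norm_mul, Complex.norm_real, Real.norm_of_nonneg hr.le] at h
    linarith
  have hlim : Tendsto (fun r : ℝ => r * ‖deriv F 0‖) (𝓝[<] 1) (𝓝 (1 * ‖deriv F 0‖)) :=
    ((continuous_id.mul continuous_const).tendsto 1).mono_left nhdsWithin_le_nhds
  rw [one_mul] at hlim
  refine le_of_tendsto hlim ?_
  filter_upwards [Ioo_mem_nhdsLT (zero_lt_one' ℝ)] with r hr using key r hr.1 hr.2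

theorem aa_coeff_le {Ω : Set ℂ} {ρ : ℝ} (hρ : 0 < ρ) (hs : closedBall (0 : ℂ) ρ ⊆ Ω) {f : ℂ → ℂ}
    (hf : DifferentiableOn ℂ f Ω) {M : ℝ} (hM : ∀ w ∈ Ω, ‖f w‖ ≤ M) (k : ℕ) :
    ‖coeff k (tay f)‖ ≤ M / ρ ^ k := by
  have h := Complex.norm_iteratedDeriv_le_of_forall_mem_sphere_norm_le (c := 0) k hρ
    ((hf.mono (by rw [closure_ball _ hρ.ne']; exact hs)).diffContOnCl)
    (fun z hz => hM z (hs (sphere_subset_closedBall hz)))
  have hk : (0 : ℝ) < k.factorial := by exact_mod_cast k.factorial_pos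
  simp only [tay, coeff_mk, norm_div, Complex.norm_natCast]
  rw [div_le_iff₀ hk]
  refine h.trans (le_of_eq ?_)
  ring

theorem aa_tsum_diff {Ω : Set ℂ} (hΩ : IsOpen Ω) {V : ℕ → ℂ → ℂ}
    (hV : ∀ k, DifferentiableOn ℂ (V k) Ω) {C : ℝ} (hC : ∀ k, ∀ w ∈ Ω, ‖V k w‖ ≤ C) {z : ℂ}
    (hz : ‖z‖ < 1) : DifferentiableOn ℂ (fun w => ∑' k, z ^ k * V k w) Ω := by
  refine Complex.differentiableOn_tsum_of_summable_norm (u := fun k => ‖z‖ ^ k * C)
    ((summable_geometric_of_lt_one (norm_nonneg _) hz).mul_right C)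
    (fun k => (hV k).const_mul _) hΩ fun k w hw => ?_
  rw [norm_mul, norm_pow]
  exact mul_le_mul_of_nonneg_left (hC k w hw) (by positivity)

theorem aa_tsum_le {a : ℕ → ℂ} {C : ℝ} (hC : ∀ k, ‖a k‖ ≤ C) {z : ℂ} (hz : ‖z‖ < 1) :
    Summable (fun k => z ^ k * a k) ∧ ‖∑' k, z ^ k * a k‖ ≤ (1 - ‖z‖)⁻¹ * C := by
  have hb : ∀ k, ‖z ^ k * a k‖ ≤ ‖z‖ ^ k * C := fun k => by
    rw [norm_mul, norm_pow]
    exact mul_le_mul_of_nonneg_left (hC k) (by positivity)
  have hs := (hasSum_geometric_of_lt_one (norm_nonneg _) hz).mul_right C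
  exact ⟨Summable.of_norm_bounded hs.summable hb, tsum_of_norm_bounded hs hb⟩

theorem aa_coeff_tsum {Ω : Set ℂ} (hΩ : IsOpen Ω) {ρ : ℝ} (hρ : 0 < ρ)
    (hs : closedBall (0 : ℂ) ρ ⊆ Ω) {V : ℕ → ℂ → ℂ} (hV : ∀ k, DifferentiableOn ℂ (V k) Ω)
    {C : ℝ} (hC : ∀ k, ∀ w ∈ Ω, ‖V k w‖ ≤ C) {z : ℂ} (hz : ‖z‖ < 1) (i : ℕ) :
    coeff i (tay fun w => ∑' k, z ^ k * V k w) = ∑' k, z ^ k * coeff i (tay (V k)) := by
  have h0 : Ω ∈ 𝓝 (0 : ℂ) := hΩ.mem_nhds (hs (mem_closedBall_self hρ.le))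
  have ha : ∀ k, AnalyticAt ℂ (V k) 0 := fun k => (hV k).analyticAt h0
  have hsum := (aa_tsum_le (fun k => aa_coeff_le hρ hs (hV k) (hC k) i) hz).1
  have hdec : ∀ N : ℕ, coeff i (tay fun w => ∑' k, z ^ k * V k w) =
      ∑ k ∈ Finset.range N, z ^ k * coeff i (tay (V k)) +
        z ^ N * coeff i (tay fun w => ∑' k, z ^ k * V (k + N) w) := by
    intro N
    have ht : AnalyticAt ℂ (fun w => ∑' k, z ^ k * V (k + N) w) 0 :=
      (aa_tsum_diff hΩ (fun k => hV (k + N)) (fun k => hC (k + N)) hz).analyticAt h0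
    have he : (fun w => ∑' k, z ^ k * V k w) =ᶠ[𝓝 0] fun w =>
        (∑ k ∈ Finset.range N, z ^ k * V k w) + z ^ N * ∑' k, z ^ k * V (k + N) w := by
      filter_upwards [h0] with w hw
      rw [← (aa_tsum_le (fun k => hC k w hw) hz).1.sum_add_tsum_nat_add N, ← tsum_mul_left]
      exact congrArg _ (tsum_congr fun k => by ring)
    have hf : AnalyticAt ℂ (fun w => ∑ k ∈ Finset.range N, z ^ k * V k w) 0 :=
      Finset.analyticAt_fun_sum _ fun k _ => analyticAt_const.mul (ha k)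
    rw [tay_congr he, tay_add hf (analyticAt_const.fun_mul ht), tay_cmul _ ht,
      tay_sum _ fun k _ => analyticAt_const.fun_mul (ha k), map_add, map_sum, coeff_C_mul]
    exact congrArg (· + _) (Finset.sum_congr rfl fun k _ => by rw [tay_cmul _ (ha k), coeff_C_mul])
  have hlim : Tendsto (fun N : ℕ => z ^ N * coeff i (tay fun w => ∑' k, z ^ k * V (k + N) w))
      atTop (𝓝 0) := by
    refine squeeze_zero_norm (a := fun N => ‖z‖ ^ N * ((1 - ‖z‖)⁻¹ * C / ρ ^ i)) (fun N => ?_) ?_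
    · rw [norm_mul, norm_pow]
      exact mul_le_mul_of_nonneg_left (aa_coeff_le hρ hs
        (aa_tsum_diff hΩ (fun k => hV (k + N)) (fun k => hC (k + N)) hz)
        (fun w hw => (aa_tsum_le (fun k => hC (k + N) w hw) hz).2) i) (by positivity)
    · simpa using (tendsto_pow_atTop_nhds_zero_of_lt_one (norm_nonneg _) hz).mul_const
        ((1 - ‖z‖)⁻¹ * C / ρ ^ i)
  have h2 := hsum.hasSum.tendsto_sum_nat.add hlim
  rw [add_zero] at h2
  exact tendsto_nhds_unique (tendsto_const_nhds.congr hdec) h2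

theorem aa_series_diff {a : ℕ → ℂ} {C : ℝ} (hC : ∀ k, ‖a k‖ ≤ C) :
    DifferentiableOn ℂ (fun z : ℂ => ∑' k, z ^ k * a k) (ball 0 1) := by
  intro z hz
  rw [mem_ball_zero_iff] at hz
  obtain ⟨r, hr, hr1⟩ := exists_between hz
  have hr0 : 0 ≤ r := (norm_nonneg _).trans hr.le
  have h : DifferentiableOn ℂ (fun z : ℂ => ∑' k, z ^ k * a k) (ball 0 r) := by
    refine Complex.differentiableOn_tsum_of_summable_norm (u := fun k => r ^ k * C)
      ((summable_geometric_of_lt_one hr0 hr1).mul_right C) (fun k => by fun_prop) isOpen_ball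
      fun k w hw => ?_
    rw [mem_ball_zero_iff] at hw
    rw [norm_mul, norm_pow]
    exact mul_le_mul (pow_le_pow_left₀ (norm_nonneg _) hw.le k) (hC k) (norm_nonneg _)
      (by positivity)
  exact (h.differentiableAt (isOpen_ball.mem_nhds (mem_ball_zero_iff.2 hr))).differentiableWithinAt

theorem motion_ineq {Ω : Set ℂ} (hΩ : IsOpen Ω) (h0 : (0 : ℂ) ∈ Ω) (hb : Bornology.IsBounded Ω)
    {J : ℕ} (hJ : 1 ≤ J) {l : ℕ → ℂ} {B : ℝ} (hB : FB Ω J l B) {μ : ℂ → ℂ} (hμ : Tst μ)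
    (h1 : ∀ w, ‖μ w‖ ≤ 1) (hd : Disjoint (tsupport μ) (closure Ω)) :
    ‖∫ t : ℂ, μ t * ∑ i ∈ Finset.Icc 2 J, l i / t ^ (i + 1)‖ ≤ 2 * π * (B - ‖l 1‖) := by
  obtain ⟨V, hV0, hVd, hVb, hVi⟩ := motion hμ h1
  have hout : ∀ w ∈ Ω, w ∉ tsupport μ := fun w hw h =>
    Set.disjoint_left.1 hd h (subset_closure hw)
  have hV : ∀ k, DifferentiableOn ℂ (V k) Ω := fun k w hw =>
    (hVd k w (hout w hw)).differentiableWithinAt
  obtain ⟨d, hd0, hdd⟩ := Metric.exists_pos_forall_lt_edist hμ.2.isCompact isClosed_closure hd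
  obtain ⟨C, hC'⟩ := hVb d (by exact_mod_cast hd0)
  have hC : ∀ k, ∀ w ∈ Ω, ‖V k w‖ ≤ C := fun k w hw => hC' k w fun t ht => by
    have := hdd t ht w (subset_closure hw)
    rw [edist_nndist, ENNReal.coe_lt_coe] at this
    rw [← dist_eq_norm]
    exact_mod_cast this.le
  have hn : Ω ∈ 𝓝 (0 : ℂ) := hΩ.mem_nhds h0
  obtain ⟨ρ, hρ, hs⟩ := Metric.nhds_basis_closedBall.mem_iff.1 hn
  obtain ⟨R, hR⟩ := hb.exists_norm_le
  set G : ℕ → ℂ → ℂ := fun i z => ∑' k, z ^ k * coeff i (tay (V k)) with hG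
  have hGd : ∀ i, DifferentiableOn ℂ (G i) (ball 0 1) := fun i =>
    aa_series_diff fun k => aa_coeff_le hρ hs (hV k) (hC k) i
  have hG0 : ∀ i, G i 0 = coeff i (tay (cT μ)) := fun i => by
    simp only [hG]
    rw [tsum_eq_single 0 fun k hk => by simp [hk], pow_zero, one_mul, hV0]
  have main : ∀ z ∈ ball (0 : ℂ) 1, 1 + z * G 1 z ≠ 0 ∧
      ‖l 1 + z * ∑ i ∈ Finset.Icc 2 J, G i z / (1 + z * G 1 z) * l i‖ ≤ B := by
    intro z hz
    rw [mem_ball_zero_iff] at hz
    have hS := aa_tsum_diff hΩ hV hC hz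
    have hSa := hS.analyticAt hn
    set S : ℂ → ℂ := fun w => ∑' k, z ^ k * V k w with hSdef
    have hΦd : DifferentiableOn ℂ (fun w => w + z * S w) Ω :=
      differentiableOn_id.add (hS.const_mul z)
    have hΦi : InjOn (fun w => w + z * S w) Ω := by
      have := (hVi z hz).mono fun w hw => hout w hw
      refine this.congr fun w _ => ?_
      simp only [hSdef]
      rw [← tsum_mul_left]
      exact congrArg _ (tsum_congr fun k => by ring)
    have hc : ∀ i, coeff i (tay fun w => w + z * S w) = coeff i X + z * G i z := fun i => by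
      rw [tay_add (f := fun w => w) analyticAt_id (analyticAt_const.fun_mul hSa), tay_id, tay_cmul _ hSa, map_add,
        coeff_C_mul, aa_coeff_tsum hΩ hρ hs hV hC hz i]
    have hder : deriv (fun w => w + z * S w) 0 = 1 + z * G 1 z := by
      rw [← tay_coeff_one, hc, coeff_one_X]
    have hne : 1 + z * G 1 z ≠ 0 := by
      rw [← hder]
      exact deriv_ne_zero_of_injOn (hΦd.analyticAt hn) hn hΦi
    refine ⟨hne, ?_⟩
    set D := 1 + z * G 1 z with hD
    have hΦa := hΦd.analyticAt hn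
    have htay : tay (fun w => D⁻¹ * ((w + z * S w) + -(0 + z * S 0))) =
        PowerSeries.C D⁻¹ * (tay (fun w => w + z * S w) + PowerSeries.C (-(0 + z * S 0))) := by
      rw [tay_cmul _ (hΦa.fun_add analyticAt_const), tay_add hΦa analyticAt_const, tay_const]
    have h := hB (fun w => D⁻¹ * ((w + z * S w) + -(0 + z * S 0)))
      ((hΦd.add_const _).const_mul _)
      (fun u hu v hv huv => hΦi hu hv (by
        simpa [hne] using huv))
      (by simp)
      (by
        rw [← tay_coeff_one, htay, coeff_C_mul, map_add, hc, coeff_one_X, coeff_C, if_neg one_ne_zero,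
          add_zero, ← hD, inv_mul_cancel₀ hne])
      ⟨‖D⁻¹‖ * (R + ‖z‖ * ((1 - ‖z‖)⁻¹ * C) + ‖-(0 + z * S 0)‖) + 1, fun w hw => by
        rw [norm_mul]
        refine lt_of_le_of_lt (mul_le_mul_of_nonneg_left ?_ (norm_nonneg _)) (lt_add_one _)
        refine (norm_add_le _ _).trans (add_le_add_left ((norm_add_le _ _).trans ?_) _)
        rw [norm_mul]
        exact add_le_add (hR w hw) (mul_le_mul_of_nonneg_left
          (aa_tsum_le (fun k => hC k w hw) hz).2 (norm_nonneg _))⟩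
    have hsplit : Finset.range (J + 1) = insert 0 (insert 1 (Finset.Icc 2 J)) := by
      ext i
      simp only [Finset.mem_range, Finset.mem_insert, Finset.mem_Icc]
      omega
    rw [hsplit, Finset.sum_insert (by simp), Finset.sum_insert (by simp), tay_coeff_zero,
      htay] at h
    refine le_of_eq_of_le (congrArg _ ?_) h
    rw [coeff_C_mul, map_add, hc, coeff_one_X, coeff_C, if_neg one_ne_zero, add_zero, ← hD,
      inv_mul_cancel₀ hne, add_neg_cancel, mul_zero, zero_mul, zero_add, one_mul, Finset.mul_sum]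
    refine congrArg _ (Finset.sum_congr rfl fun i hi => ?_)
    have hi2 := (Finset.mem_Icc.1 hi).1
    rw [coeff_C_mul, map_add, hc, coeff_X, coeff_C, if_neg (by omega), if_neg (by omega)]
    ring
  have hT : DifferentiableOn ℂ
      (fun z => ∑ i ∈ Finset.Icc 2 J, G i z / (1 + z * G 1 z) * l i) (ball 0 1) :=
    DifferentiableOn.fun_sum fun i _ => (((hGd i).div
      ((differentiableOn_id.mul (hGd 1)).const_add 1) fun z hz => (main z hz).1).mul_const _)
  have hsp := schwarz_pick (F := fun z => l 1 + z * ∑ i ∈ Finset.Icc 2 J,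
    G i z / (1 + z * G 1 z) * l i) ((differentiableOn_id.mul hT).const_add _)
    fun z hz => (main z hz).2
  have hT0 := (hT.differentiableAt (ball_mem_nhds _ one_pos)).hasDerivAt
  have hder := (((hasDerivAt_id (0 : ℂ)).mul hT0).const_add (l 1)).deriv
  simp only [id, zero_mul, add_zero, one_mul, div_one, Pi.mul_apply] at hder hsp
  have hz0 : (0 : ℂ) ∉ tsupport μ := hout 0 h0
  have hint : ∀ i, Integrable fun t : ℂ => μ t / t ^ (i + 1) := fun i => by
    have h := hμ.div hz0 (i + 1)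
    simpa using h.1.continuous.integrable_of_hasCompactSupport h.2
  have hI : ∫ t : ℂ, μ t * ∑ i ∈ Finset.Icc 2 J, l i / t ^ (i + 1) =
      -(π : ℂ) * ∑ i ∈ Finset.Icc 2 J, G i 0 * l i := by
    have hπ : (π : ℂ) ≠ 0 := by exact_mod_cast Real.pi_ne_zero
    have e : ∀ t : ℂ, μ t * ∑ i ∈ Finset.Icc 2 J, l i / t ^ (i + 1) =
        ∑ i ∈ Finset.Icc 2 J, μ t / t ^ (i + 1) * l i := fun t => by
      rw [Finset.mul_sum]
      exact Finset.sum_congr rfl fun i _ => by ring
    simp only [e]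
    rw [integral_finsetSum _ fun i _ => (hint i).mul_const _, Finset.mul_sum]
    refine Finset.sum_congr rfl fun i _ => ?_
    rw [integral_mul_const, hG0, cT_coeff hμ hz0]
    field_simp
  rw [hI, norm_mul, norm_neg, Complex.norm_real, Real.norm_of_nonneg Real.pi_pos.le, ← hder]
  nlinarith [Real.pi_pos, hsp]

end Pool.Agent.P.MP_c09211_an.Sh
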