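import Pool.Agent.P.MP_c09211_an.Upper

/-!
Definitions and basic facts for the sharpened upper bound.
-/

set_option autoImplicit false

namespace Pool.Agent.P.MP_c09211_an.Sh

open Metric Set Finset PowerSeries Complex Filter Topology Real
open scoped ComplexConjugate

/-- A bounded normalised univalent function on the disc of radius `ρ`. -/
def Sr (ρ : ℝ) (f : ℂ → ℂ) : Prop :=
  DifferentiableOn ℂ f (ball 0 ρ) ∧ InjOn f (ball 0 ρ) ∧ f 0 = 0 ∧ deriv f 0 = 1 ∧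
    ∃ R : ℝ, ∀ z ∈ ball (0 : ℂ) ρ, ‖f z‖ < R

/-- A function holomorphic on the closed unit disc and bounded by one. -/
def Schur (w : ℂ → ℂ) : Prop :=
  DifferentiableOn ℂ w (closedBall 0 1) ∧ ∀ z ∈ closedBall (0 : ℂ) 1, ‖w z‖ ≤ 1

/-- Sums of squares of the first coefficients. -/
noncomputable def SS (h : ℂ⟦X⟧) (K : ℕ) : ℝ := ∑ k ∈ range K, ‖coeff k h‖ ^ 2

/-- `h = exp (∑ c_k / k X ^ k)` and the numbers `c_k` satisfy the inequalities of Milin. -/
def LM (h c : ℂ⟦X⟧) : Prop :=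
  coeff 0 c = 0 ∧ coeff 0 h = 1 ∧ th h = h * c ∧ ∀ n : ℕ, ∑ k ∈ range n,
    (‖coeff (k + 1) c‖ ^ 2 - 1) * (1 / ((k : ℝ) + 1) - 1 / ((n : ℝ) + 1)) ≤ 0

/-- The first `J` coefficients of `h` are close to those of `a / (1 - u X)`. -/
def NK (J : ℕ) (ε : ℝ) (h : ℂ⟦X⟧) (u a : ℂ) : Prop :=
  ‖u‖ = 1 ∧ ‖a‖ = 1 ∧ ∑ k ∈ range J, ‖coeff k h - a * u ^ k‖ ^ 2 ≤ ε * J

/-- The functional `H ↦ [X ^ (J - 1)] w H'`. -/
noncomputable def Lam (J : ℕ) (w : ℂ → ℂ) (H : ℂ⟦X⟧) : ℂ := coeff (J - 1) (tay w * d⁄dX ℂ H)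

/-- The sum of a power series. -/
noncomputable def ev (h : ℂ⟦X⟧) (z : ℂ) : ℂ := ∑' k, coeff k h * z ^ k

theorem Sr.lm {f : ℂ → ℂ} (H : Sr 1 f) : ∃ h c : ℂ⟦X⟧, X * h ^ 2 = tay f ∧ LM h c := by
  obtain ⟨hf, hi, h0, h1, R, hR⟩ := H
  have a0 : coeff 0 (tay f) = 0 := by rw [tay_coeff_zero, h0]
  have a1 : coeff 1 (tay f) = 1 := by rw [tay_coeff_one, h1]
  have d0 := ld_zero a0 (by rw [a1]; exact one_ne_zero)
  have d1 := ld_mul a0 (by rw [a1]; exact one_ne_zero)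
  set d := ld (tay f) with hd
  have c0 : coeff 0 (C (1 / 2 : ℂ) * (d - 1)) = 0 := by
    rw [coeff_C_mul, map_sub, d0]; simp
  obtain ⟨h, b0, b1⟩ := exists_ex c0
  have hG := eq_X_mul_shift_add_const (tay f)
  rw [← coeff_zero_eq_constantCoeff_apply, a0, map_zero, add_zero] at hG
  set G := PowerSeries.mk fun p => coeff (p + 1) (tay f) with hG'
  refine ⟨h, _, ?_, c0, b0, b1, fun n => ?_⟩
  · rw [hG]
    congr 1
    refine ex_unique (c := d - 1) (by rw [map_sub, d0]; simp) ?_ ?_ ?_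
    · rw [hG', coeff_mk, a1, sq, coeff_zero_eq_constantCoeff_apply, map_mul,
        ← coeff_zero_eq_constantCoeff_apply, b0, mul_one]
    · have : (C (1 / 2 : ℂ) : ℂ⟦X⟧) * 2 = 1 := by
        rw [← map_ofNat C 2, ← map_mul]; norm_num
      rw [sq, th_mul, b1]
      linear_combination h * h * (d - 1) * this
    · rw [hG, th_mul, th_X] at d1
      exact mul_left_cancel₀ X_ne_zero (by linear_combination -d1)
  · have := milin n hf hi h0 h1 hR
    rw [← hd] at this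
    refine le_trans (le_of_eq ?_) (mul_nonpos_of_nonneg_of_nonpos
      (show (0 : ℝ) ≤ 1 / (4 * (n + 1)) by positivity) this)
    rw [mul_sum]
    refine sum_congr rfl fun k _ => ?_
    have : ‖coeff (k + 1) (C (1 / 2 : ℂ) * (d - 1))‖ = ‖coeff (k + 1) d‖ / 2 := by
      rw [coeff_C_mul, map_sub, coeff_one, if_neg k.succ_ne_zero, sub_zero, norm_mul]
      simp [div_eq_inv_mul]
    rw [this]
    field_simp
    ring

theorem LM.ss {h c : ℂ⟦X⟧} (H : LM h c) (K : ℕ) : SS h K ≤ K := by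
  cases K with
  | zero => simp [SS]
  | succ n =>
    refine (lebedev_milin H.1 H.2.1 H.2.2.1 n).trans ?_
    push_cast
    exact mul_le_of_le_one_right (by positivity) (Real.exp_le_one_iff.mpr (H.2.2.2 n))

theorem root_unique {h g : ℂ⟦X⟧} (h0 : coeff 0 h = 1) (g0 : coeff 0 g = 1)
    (e : X * h ^ 2 = X * g ^ 2) : h = g := by
  have e1 : (h - g) * (h + g) = 0 := by
    have := mul_left_cancel₀ X_ne_zero e
    linear_combination this
  rcases mul_eq_zero.mp e1 with a | a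
  · exact sub_eq_zero.mp a
  · have := congrArg (coeff 0) a
    rw [map_add, h0, g0] at this
    norm_num at this

theorem tay_scale {f : ℂ → ℂ} (hf : AnalyticAt ℂ f 0) (c : ℂ) :
    tay (fun z => f (c * z)) = rescale c (tay f) := by
  ext k
  obtain ⟨E, hE⟩ := tay_comp hf (w := fun z => c * z) (by fun_prop) (by simp) (k + 1)
  have e : tay (fun z => c * z) = C c * X := by
    rw [tay_cmul c (f := fun z => z) (by fun_prop), tay_id]
  rw [hE, e, coeff_rescale, map_add, mul_pow, mul_comm (C c ^ (k + 1)), mul_assoc,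
    coeff_X_pow_mul', if_neg (by omega), add_zero]
  have := trunc_eq (tay f) (k + 1) (fun j => c ^ j) (Nat.lt_succ_self k)
  rw [← this]
  congr 1
  refine sum_congr rfl fun j _ => ?_
  rw [mul_pow, ← map_pow, map_mul]
  ring

theorem Schur.an {w : ℂ → ℂ} (hw : Schur w) : AnalyticAt ℂ w 0 :=
  hw.1.analyticAt (closedBall_mem_nhds _ one_pos)

theorem Sr.an {ρ : ℝ} {f : ℂ → ℂ} (H : Sr ρ f) (h : 0 < ρ) : AnalyticAt ℂ f 0 :=
  H.1.analyticAt (ball_mem_nhds _ h)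

theorem Schur.scale {w : ℂ → ℂ} (hw : Schur w) {c : ℂ} (hc : ‖c‖ ≤ 1) :
    Schur fun z => w (c * z) := by
  have m : MapsTo (fun z : ℂ => c * z) (closedBall 0 1) (closedBall 0 1) := fun z hz => by
    rw [mem_closedBall_zero_iff] at *
    rw [norm_mul]
    exact mul_le_one₀ hc (norm_nonneg _) hz
  exact ⟨hw.1.comp (by fun_prop) m, fun z hz => hw.2 _ (m hz)⟩

theorem Sr.scale {ρ : ℝ} {f : ℂ → ℂ} (H : Sr ρ f) (h : 0 < ρ) {c : ℂ} (hc : ‖c‖ = ρ) :
    Sr 1 fun z => c⁻¹ * f (c * z) := by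
  have c0 : c ≠ 0 := norm_pos_iff.mp (hc ▸ h)
  have m : MapsTo (fun z : ℂ => c * z) (ball 0 1) (ball 0 ρ) := fun z hz => by
    rw [mem_ball_zero_iff] at *
    rw [norm_mul, hc]
    exact mul_lt_of_lt_one_right h hz
  obtain ⟨R, hR⟩ := H.2.2.2.2
  refine ⟨(H.1.comp (by fun_prop) m).const_mul _, fun z hz w hw e => mul_left_cancel₀ c0
    (H.2.1 (m hz) (m hw) (mul_left_cancel₀ (inv_ne_zero c0) e)), by simp [H.2.2.1], ?_,
    ‖c⁻¹‖ * R, fun z hz => ?_⟩
  · have a : HasDerivAt f 1 (c * 0) := by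
      rw [mul_zero, ← H.2.2.2.1]
      exact (H.an h).differentiableAt.hasDerivAt
    have := ((a.comp 0 ((hasDerivAt_id (0 : ℂ)).const_mul c)).const_mul c⁻¹).deriv
    rw [mul_one, one_mul, inv_mul_cancel₀ c0] at this
    exact this
  · rw [norm_mul]
    exact mul_lt_mul_of_pos_left (hR _ (m hz)) (norm_pos_iff.mpr (inv_ne_zero c0))

theorem tay_scale' {f : ℂ → ℂ} (hf : AnalyticAt ℂ f 0) (c : ℂ) :
    tay (fun z => c⁻¹ * f (c * z)) = C c⁻¹ * rescale c (tay f) := by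
  rw [tay_cmul _ (f := fun z => f (c * z)) (AnalyticAt.comp (by simpa using hf) (by fun_prop)),
    tay_scale hf]

theorem Lam_scale {w : ℂ → ℂ} (hw : AnalyticAt ℂ w 0) {c : ℂ} (hc : c ≠ 0) (J : ℕ) (H : ℂ⟦X⟧) :
    Lam J (fun z => w (c * z)) (C c⁻¹ * rescale c H) = c ^ (J - 1) * Lam J w H := by
  have e : d⁄dX ℂ (C c⁻¹ * rescale c H) = rescale c (d⁄dX ℂ H) := by
    ext k
    rw [coeff_derivative, coeff_C_mul, coeff_rescale, coeff_rescale, coeff_derivative]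
    field_simp
    ring
  rw [Lam, Lam, tay_scale hw, e, ← map_mul, coeff_rescale]

/-- The bound for the functional on a smaller disc. -/
theorem pair_scaled {ρ : ℝ} {f w : ℂ → ℂ} (H : Sr ρ f) (h0 : 0 < ρ) (h1 : ρ ≤ 1) (hw : Schur w)
    {J : ℕ} (hJ : 1 ≤ J) : ρ ^ (J - 1) * ‖Lam J w (tay f)‖ ≤ (J : ℝ) ^ 2 := by
  have hc : ‖(ρ : ℂ)‖ = ρ := by rw [norm_real, Real.norm_eq_abs, abs_of_pos h0]
  obtain ⟨h, c, e, hl⟩ := (H.scale h0 hc).lm
  have hw' := hw.scale (hc.trans_le h1)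
  have a := pairing e hl.ss hw'.1 (fun z hz => hw'.2 z (sphere_subset_closedBall hz)) (J - 1)
  have b := Lam_scale hw.an (c := ρ) (by exact_mod_cast h0.ne') J (tay f)
  rw [← tay_scale' (H.an h0), Lam] at b
  rw [b, norm_mul, norm_pow, hc, Nat.cast_sub hJ] at a
  simpa using a

/-- Taylor coefficients as means over a circle. -/
theorem avgR {G : ℂ → ℂ} (hG : DifferentiableOn ℂ G (closedBall 0 1)) {r : ℝ} (h0 : 0 < r)
    (h1 : r ≤ 1) (k : ℕ) : circleAverage (fun z => G z / z ^ k) 0 r = coeff k (tay G) := by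
  have h := (hG.mono (closedBall_subset_closedBall h1)).circleIntegral_one_div_sub_center_pow_smul
    h0 k
  simp only [circleIntegral, deriv_circleMap, smul_eq_mul, sub_zero] at h
  have hp : (2 * π : ℂ) ≠ 0 := by exact_mod_cast Real.two_pi_pos.ne'
  rw [circleAverage_def, real_smul]
  push_cast
  rw [inv_mul_eq_iff_eq_mul₀ hp]
  refine mul_left_cancel₀ I_ne_zero ?_
  rw [← intervalIntegral.integral_const_mul]
  simp only [tay, coeff_mk]
  refine Eq.trans (intervalIntegral.integral_congr fun θ _ => ?_) (h.trans (by ring))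
  have h0 : circleMap 0 r θ ≠ 0 := circleMap_ne_center h0.ne'
  rw [pow_succ]
  field_simp

end Pool.Agent.P.MP_c09211_an.Sh
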