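import Pool.Agent.P.MP_c09211_an.Tay

/-!
The Cauchy transform of smooth functions with compact support.
-/

set_option autoImplicit false

namespace Pool.Agent.P.MP_c09211_an.Sh

open Metric Set Complex Filter Topology MeasureTheory
open scoped Real ContDiff

/-- Smooth functions with compact support. -/
def Tst (φ : ℂ → ℂ) : Prop := ContDiff ℝ ∞ φ ∧ HasCompactSupport φ

/-- The Cauchy transform. -/
noncomputable def cT (φ : ℂ → ℂ) (w : ℂ) : ℂ := (π : ℂ)⁻¹ * ∫ s : ℂ, s⁻¹ * φ (w - s)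

/-- The Wirtinger derivative in `w`. -/
noncomputable def dz (u : ℂ → ℂ) (w : ℂ) : ℂ := (fderiv ℝ u w 1 - I * fderiv ℝ u w I) / 2

/-- The Wirtinger derivative in the conjugate of `w`. -/
noncomputable def db (u : ℂ → ℂ) (w : ℂ) : ℂ := (fderiv ℝ u w 1 + I * fderiv ℝ u w I) / 2

theorem diff_of_db {u : ℂ → ℂ} {w : ℂ} (h : DifferentiableAt ℝ u w) (h0 : db u w = 0) :
    DifferentiableAt ℂ u w := by
  refine differentiableAt_complex_iff_differentiableAt_real.2 ⟨h, ?_⟩
  unfold db at h0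
  rw [smul_eq_mul]
  linear_combination (-2 * I) * h0 + fderiv ℝ u w I * I_mul_I

private theorem ca_loc : LocallyIntegrable (fun s : ℂ => s⁻¹) volume :=
  locallyIntegrable_of_norm_le_rpow (C := 1) (α := 1) (by simp) (by simp)
    (.of_forall fun s => by simp [Real.rpow_neg_one]) measurable_inv.aestronglyMeasurable

private theorem ca_conv (φ : ℂ → ℂ) : cT φ = fun w => (π : ℂ)⁻¹ *
    convolution (fun s : ℂ => s⁻¹) φ (ContinuousLinearMap.mul ℝ ℂ) volume w := rfl

theorem cT_smooth {φ : ℂ → ℂ} (h : Tst φ) : ContDiff ℝ ∞ (cT φ) := by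
  rw [ca_conv]
  exact contDiff_const.mul (h.2.contDiff_convolution_right _ ca_loc h.1)

private theorem ca_fderiv {φ : ℂ → ℂ} (h : Tst φ) (w v : ℂ) :
    fderiv ℝ (cT φ) w v = (π : ℂ)⁻¹ * ∫ s : ℂ, s⁻¹ * fderiv ℝ φ (w - s) v := by
  have h1 : ContDiff ℝ 1 φ := h.1.of_le (by simp)
  rw [ca_conv, ((h.2.hasFDerivAt_convolution_right (ContinuousLinearMap.mul ℝ ℂ) ca_loc h1
    w).const_mul _).fderiv, _root_.smul_apply, convolution_precompR_apply _ ca_loc (h.2.fderiv ℝ)
      (h1.continuous_fderiv one_ne_zero)]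
  rfl

private theorem ca_int {φ : ℂ → ℂ} (h : Tst φ) (w v : ℂ) :
    Integrable fun s : ℂ => s⁻¹ * fderiv ℝ φ (w - s) v :=
  (h.2.fderiv_apply ℝ v).convolutionExists_right (ContinuousLinearMap.mul ℝ ℂ) ca_loc
    ((h.1.continuous_fderiv (by simp)).clm_apply continuous_const) w

private theorem ca_rad {φ : ℂ → ℂ} (h : Tst φ) :
    ∃ R : ℝ, 0 < R ∧ ∀ t ∈ tsupport φ, ‖t‖ ≤ R := h.2.isCompact.isBounded.exists_pos_norm_le

private theorem ca_out {φ : ℂ → ℂ} (h : Tst φ) (w : ℂ) : ∃ R : ℝ, ∀ (r : ℝ) (e : ℂ), ‖e‖ = 1 →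
    R < |r| → w - r * e ∉ tsupport φ := by
  obtain ⟨R, -, hR⟩ := ca_rad h
  refine ⟨R + ‖w‖, fun r e he hr hm => ?_⟩
  have h1 := hR _ hm
  have h2 := norm_sub_le w (w - r * e)
  rw [sub_sub_cancel, norm_mul, he, norm_real, Real.norm_eq_abs] at h2
  linarith

private theorem ca_e (t : ℝ) : ‖(Real.cos t + Real.sin t * I : ℂ)‖ = 1 := by simp

private theorem ca_on {φ : ℂ → ℂ} (h : Tst φ) (w : ℂ) {v : ℝ → ℂ} (hv : Continuous v) :
    IntegrableOn (fun p : ℝ × ℝ => fderiv ℝ φ (w - p.1 * (Real.cos p.2 + Real.sin p.2 * I)) (v p.2))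
      (Ioi 0 ×ˢ Ioo (-π) π) (volume.prod volume) := by
  obtain ⟨R, hR⟩ := ca_out h w
  have hc := h.1.continuous_fderiv (by simp)
  refine IntegrableOn.of_forall_sdiff_eq_zero (s := Icc 0 R ×ˢ Icc (-π) π)
    ((Continuous.continuousOn (by fun_prop)).integrableOn_compact (isCompact_Icc.prod isCompact_Icc))
    (measurableSet_Ioi.prod measurableSet_Ioo) fun p hp => ?_
  rw [fderiv_of_notMem_tsupport ℝ (hR _ _ (ca_e _) ?_), _root_.zero_apply]
  rw [abs_of_pos hp.1.1]
  by_contra h1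
  exact hp.2 ⟨⟨hp.1.1.le, not_lt.1 h1⟩, Ioo_subset_Icc_self hp.1.2⟩

private theorem ca_radial {φ : ℂ → ℂ} (h : Tst φ) (w : ℂ) {e : ℂ} (he : ‖e‖ = 1) :
    ∫ r in Ioi (0 : ℝ), fderiv ℝ φ (w - r * e) e = φ w := by
  obtain ⟨R, hR⟩ := ca_out h w
  have h1 : ContDiff ℝ 1 φ := h.1.of_le (by simp)
  have h2 : ContDiff ℝ 1 fun r : ℝ => w - r * e :=
    contDiff_const.sub (ofRealCLM.contDiff.mul contDiff_const)
  have h3 := HasCompactSupport.integral_Ioi_deriv_eq (f := fun r : ℝ => -φ (w - r * e))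
    (h1.comp h2).neg (HasCompactSupport.intro (isCompact_Icc (a := -R) (b := R)) fun r hr => by
      rw [image_eq_zero_of_notMem_tsupport (hR r e he (not_le.1 fun h => hr (abs_le.1 h))),
        neg_zero]) 0
  have h4 : ∀ r : ℝ, deriv (fun r : ℝ => -φ (w - r * e)) r = fderiv ℝ φ (w - r * e) e := by
    intro r
    have h5 : HasDerivAt (fun r : ℝ => w - r * e) (-e) r := by
      simpa using ((hasDerivAt_id r).ofReal_comp.mul_const e).const_sub w
    simpa using
      (((h1.differentiable one_ne_zero _).hasFDerivAt.comp_hasDerivAt r h5).fun_neg).deriv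
  simpa [h4] using h3

private theorem ca_angular {φ : ℂ → ℂ} (h : Tst φ) (w : ℂ) {r : ℝ} (hr : 0 < r) :
    ∫ t in Ioo (-π) π, fderiv ℝ φ (w - r * (Real.cos t + Real.sin t * I))
      (-Real.sin t + Real.cos t * I) = 0 := by
  have h1 : ContDiff ℝ 1 φ := h.1.of_le (by simp)
  have hc := h1.continuous_fderiv one_ne_zero
  have h4 : ∀ t : ℝ, HasDerivAt
      (fun t : ℝ => (-r⁻¹ : ℝ) • φ (w - r * (Real.cos t + Real.sin t * I)))
      (fderiv ℝ φ (w - r * (Real.cos t + Real.sin t * I)) (-Real.sin t + Real.cos t * I)) t := by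
    intro t
    have h5 : HasDerivAt (fun t : ℝ => w - r * (Real.cos t + Real.sin t * I))
        ((-r) • (-Real.sin t + Real.cos t * I : ℂ)) t :=
      ((((Real.hasDerivAt_cos t).ofReal_comp.fun_add
        ((Real.hasDerivAt_sin t).ofReal_comp.mul_const I)).const_mul (r : ℂ)).const_sub
          w).congr_deriv (by simp; ring)
    refine (((h1.differentiable one_ne_zero _).hasFDerivAt.comp_hasDerivAt t h5).fun_const_smul
      (-r⁻¹ : ℝ)).congr_deriv ?_
    rw [map_smul, smul_smul, neg_mul_neg, inv_mul_cancel₀ hr.ne', one_smul]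
  rw [← integral_Ioc_eq_integral_Ioo, ← intervalIntegral.integral_of_le (by linarith [Real.pi_pos]),
    intervalIntegral.integral_eq_sub_of_hasDerivAt (fun t _ => h4 t)
      (Continuous.intervalIntegrable (by fun_prop) _ _)]
  simp

/-- The formula of Cauchy and Pompeiu. -/
theorem db_cT {φ : ℂ → ℂ} (h : Tst φ) (w : ℂ) : db (cT φ) w = φ w := by
  have p0 : (π : ℂ) ≠ 0 := ofReal_ne_zero.2 Real.pi_ne_zero
  have i1 := ca_on h w (v := fun t => Real.cos t + Real.sin t * I) (by fun_prop)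
  have i2 := ca_on h w (v := fun t => -Real.sin t + Real.cos t * I) (by fun_prop)
  have e1 : ∫ p : ℝ × ℝ in Ioi 0 ×ˢ Ioo (-π) π,
      fderiv ℝ φ (w - p.1 * (Real.cos p.2 + Real.sin p.2 * I)) (Real.cos p.2 + Real.sin p.2 * I)
        ∂(volume.prod volume) = 2 * π * φ w := by
    rw [← Measure.prod_restrict, integral_prod_symm _ (by rwa [Measure.prod_restrict])]
    simp only [ca_radial h w (ca_e _)]
    simp [Real.pi_pos.le, two_mul]
  have e2 : ∫ p : ℝ × ℝ in Ioi 0 ×ˢ Ioo (-π) π,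
      fderiv ℝ φ (w - p.1 * (Real.cos p.2 + Real.sin p.2 * I)) (-Real.sin p.2 + Real.cos p.2 * I)
        ∂(volume.prod volume) = 0 := by
    rw [setIntegral_prod _ i2]
    exact setIntegral_eq_zero_of_forall_eq_zero fun r hr => ca_angular h w hr
  have e3 : ∫ s : ℂ, (s⁻¹ * fderiv ℝ φ (w - s) 1 + I * (s⁻¹ * fderiv ℝ φ (w - s) I)) =
      2 * π * φ w := by
    rw [← Complex.integral_comp_polarCoord_symm, polarCoord_target, Measure.volume_eq_prod,
      ← add_zero (2 * π * φ w), ← mul_zero I, ← e1, ← e2, ← integral_const_mul,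
      ← integral_add i1 (i2.const_mul I)]
    refine setIntegral_congr_fun (measurableSet_Ioi.prod measurableSet_Ioo) fun p hp => ?_
    have r0 : (p.1 : ℂ) ≠ 0 := ofReal_ne_zero.2 (ne_of_gt hp.1)
    have k1 : (Real.cos p.2 + Real.sin p.2 * I : ℂ)⁻¹ = Real.cos p.2 - Real.sin p.2 * I := by
      refine inv_eq_of_mul_eq_one_right ?_
      have := congrArg ofReal (Real.cos_sq_add_sin_sq p.2)
      rw [ofReal_add, ofReal_pow, ofReal_pow, ofReal_one] at this
      linear_combination this - (Real.sin p.2 : ℂ) ^ 2 * I_mul_I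
    have k2 : ∀ (D : ℂ →L[ℝ] ℂ) (a b : ℝ), D (a + b * I) = a * D 1 + b * D I := fun D a b => by
      rw [← real_smul (z := D 1), ← real_smul (z := D I), ← map_smul, ← map_smul, ← map_add,
        real_smul, real_smul, mul_one]
    simp only [Complex.polarCoord_symm_apply, real_smul, mul_inv, k1]
    rw [k2, ← ofReal_neg, k2, ofReal_neg]
    generalize fderiv ℝ φ (w - p.1 * (Real.cos p.2 + Real.sin p.2 * I)) = D
    field_simp
    linear_combination (-(Real.sin p.2 : ℂ) * D I) * I_mul_I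
  rw [integral_add (ca_int h w 1) ((ca_int h w I).const_mul I), integral_const_mul] at e3
  rw [db, ca_fderiv h, ca_fderiv h]
  linear_combination (π : ℂ)⁻¹ / 2 * e3 + φ w * mul_inv_cancel₀ p0

theorem cT_eq (φ : ℂ → ℂ) (w : ℂ) : cT φ w = -(π : ℂ)⁻¹ * ∫ t : ℂ, φ t / (t - w) := by
  rw [cT, ← integral_sub_left_eq_self _ volume w, neg_mul, ← mul_neg, ← integral_neg]
  congr 2
  funext t
  rw [sub_sub_cancel, ← neg_sub t w, inv_neg]
  ring

private theorem ca_integrable {φ : ℂ → ℂ} (h : Tst φ) : Integrable φ :=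
  h.1.continuous.integrable_of_hasCompactSupport h.2

theorem cT_bound {φ : ℂ → ℂ} (h : Tst φ) {w : ℂ} {d : ℝ} (hd : 0 < d)
    (hw : ∀ t ∈ tsupport φ, d ≤ ‖t - w‖) : ‖cT φ w‖ ≤ (π * d)⁻¹ * ∫ t : ℂ, ‖φ t‖ := by
  rw [cT_eq, norm_mul, norm_neg, norm_inv, norm_real, Real.norm_of_nonneg Real.pi_pos.le, mul_inv,
    mul_assoc, ← integral_const_mul]
  refine mul_le_mul_of_nonneg_left (norm_integral_le_of_norm_le
    ((ca_integrable h).norm.const_mul _) (.of_forall fun t => ?_)) (by positivity)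
  by_cases ht : t ∈ tsupport φ
  · rw [norm_div, ← div_eq_inv_mul]
    exact div_le_div_of_nonneg_left (norm_nonneg _) hd (hw t ht)
  · simp [image_eq_zero_of_notMem_tsupport ht]

theorem cT_decay {φ : ℂ → ℂ} (h : Tst φ) : ∃ C : ℝ, ∀ w, (1 + ‖w‖) * ‖cT φ w‖ ≤ C := by
  obtain ⟨R, hR0, hR⟩ := ca_rad h
  have hc := (cT_smooth h).continuous
  obtain ⟨C, hC⟩ := (isCompact_closedBall (0 : ℂ) (2 * R + 1)).bddAbove_image
    (f := fun w => (1 + ‖w‖) * ‖cT φ w‖) (Continuous.continuousOn (by fun_prop))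
  refine ⟨max C (4 * π⁻¹ * ∫ t : ℂ, ‖φ t‖), fun w => ?_⟩
  rcases le_total ‖w‖ (2 * R + 1) with hw | hw
  · exact le_max_of_le_left (hC (mem_image_of_mem _ (mem_closedBall_zero_iff.2 hw)))
  have w0 : 0 < ‖w‖ := by linarith
  have h1 := cT_bound h (w := w) (d := ‖w‖ / 2) (by positivity) fun t ht => by
    have h2 := norm_sub_le t (t - w)
    rw [sub_sub_cancel] at h2
    linarith [hR t ht]
  have h2 : 0 ≤ ∫ t : ℂ, ‖φ t‖ := integral_nonneg fun _ => norm_nonneg _
  refine le_max_of_le_right ((mul_le_mul (show 1 + ‖w‖ ≤ 2 * ‖w‖ by linarith) h1 (norm_nonneg _)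
    (by positivity)).trans (le_of_eq ?_))
  field_simp
  ring

theorem cT_diff {φ : ℂ → ℂ} (h : Tst φ) {w : ℂ} (hw : w ∉ tsupport φ) :
    DifferentiableAt ℂ (cT φ) w :=
  diff_of_db ((cT_smooth h).differentiable (by simp) w)
    ((db_cT h w).trans (image_eq_zero_of_notMem_tsupport hw))

private theorem ca_sub (φ g : ℂ → ℂ) : tsupport (fun t => φ t / g t) ⊆ tsupport φ := by
  simp only [div_eq_mul_inv]
  exact tsupport_mul_subset_left

theorem Tst.div {φ : ℂ → ℂ} (h : Tst φ) {a : ℂ} (ha : a ∉ tsupport φ) (k : ℕ) :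
    Tst fun t => φ t / (t - a) ^ k := by
  refine ⟨contDiff_iff_contDiffAt.2 fun t => ?_,
    h.2.isCompact.of_isClosed_subset (isClosed_tsupport _) (ca_sub _ _)⟩
  by_cases ht : t = a
  · subst ht
    exact contDiffAt_const.congr_of_eventuallyEq
      (notMem_tsupport_iff_eventuallyEq.1 fun h => ha (ca_sub _ _ h))
  · simp only [div_eq_mul_inv]
    exact h.1.contDiffAt.mul (((contDiffAt_id.sub contDiffAt_const).pow k).inv
      (pow_ne_zero _ (sub_ne_zero.2 ht)))

theorem cT_coeff {φ : ℂ → ℂ} (h : Tst φ) (h0 : (0 : ℂ) ∉ tsupport φ) (i : ℕ) :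
    PowerSeries.coeff i (tay (cT φ)) = -(π : ℂ)⁻¹ * ∫ t : ℂ, φ t / t ^ (i + 1) := by
  induction i generalizing φ with
  | zero => rw [tay_coeff_zero, cT_eq]; simp
  | succ i ih =>
    have h1 : Tst fun t => φ t / t := by simpa using h.div h0 1
    have h2 : (0 : ℂ) ∉ tsupport fun t => φ t / t := fun h => h0 (ca_sub _ _ h)
    have h3 : AnalyticAt ℂ (cT fun t => φ t / t) 0 :=
      DifferentiableOn.analyticAt (fun w hw => (cT_diff h1 hw).differentiableWithinAt)
        ((isClosed_tsupport _).isOpen_compl.mem_nhds h2)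
    have h4 : cT φ =ᶠ[𝓝 0] fun w => -(π : ℂ)⁻¹ * (∫ t : ℂ, φ t / t) +
        w * cT (fun t => φ t / t) w := by
      filter_upwards [(isClosed_tsupport φ).isOpen_compl.mem_nhds h0] with w hw
      have h5 : Tst fun t => φ t / t / (t - w) := by
        simpa using h1.div (a := w) (fun h => hw (ca_sub _ _ h)) 1
      rw [cT_eq, cT_eq, mul_left_comm, ← mul_add, ← integral_const_mul w,
        ← integral_add (ca_integrable h1) ((ca_integrable h5).const_mul w)]
      congr 2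
      funext t
      by_cases ht : t ∈ tsupport φ
      · have t0 : t ≠ 0 := fun e => h0 (e ▸ ht)
        have t1 : t - w ≠ 0 := fun e => hw (sub_eq_zero.1 e ▸ ht)
        field_simp
        ring
      · simp [image_eq_zero_of_notMem_tsupport ht]
    rw [tay_congr h4, tay_add (g := fun w => w * cT (fun t => φ t / t) w) analyticAt_const
      (analyticAt_id.fun_mul h3), tay_const,
      tay_mul (f := fun w => w) analyticAt_id h3, tay_id, map_add, PowerSeries.coeff_succ_X_mul,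
      ih h1 h2, PowerSeries.coeff_C, if_neg i.succ_ne_zero, zero_add]
    congr 2
    funext t
    rw [div_div, ← pow_succ']

end Pool.Agent.P.MP_c09211_an.Sh
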