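import Pool.Agent.P.MP_c09211_an.Sh.CauchyA

/-!
The Beurling transform does not increase the quadratic mean; holomorphic motions.
-/

set_option autoImplicit false

namespace Pool.Agent.P.MP_c09211_an.Sh

open Metric Set Complex Filter Topology MeasureTheory
open scoped Real ContDiff

theorem cB_fd {u : ℂ → ℂ} (h : ContDiff ℝ ∞ u) (v : ℂ) :
    ContDiff ℝ ∞ fun w => fderiv ℝ u w v :=
  (h.fderiv_right (m := ∞) (by simp)).clm_apply contDiff_const

theorem cB_tfd {u : ℂ → ℂ} (h : Tst u) (v : ℂ) : Tst fun w => fderiv ℝ u w v :=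
  ⟨cB_fd h.1 v, h.2.fderiv_apply (𝕜 := ℝ) v⟩

theorem cB_dz {u : ℂ → ℂ} (h : ContDiff ℝ ∞ u) : ContDiff ℝ ∞ (dz u) :=
  ((cB_fd h 1).sub (contDiff_const.mul (cB_fd h I))).div_const 2

theorem cB_db {u : ℂ → ℂ} (h : ContDiff ℝ ∞ u) : ContDiff ℝ ∞ (db u) :=
  ((cB_fd h 1).add (contDiff_const.mul (cB_fd h I))).div_const 2

theorem cB_tdz {u : ℂ → ℂ} (h : Tst u) : Tst (dz u) :=
  ⟨cB_dz h.1, (h.2.fderiv (𝕜 := ℝ)).comp_left
    (g := fun L : ℂ →L[ℝ] ℂ => (L 1 - I * L I) / 2) (by simp)⟩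

theorem cB_tdb {u : ℂ → ℂ} (h : Tst u) : Tst (db u) :=
  ⟨cB_db h.1, (h.2.fderiv (𝕜 := ℝ)).comp_left
    (g := fun L : ℂ →L[ℝ] ℂ => (L 1 + I * L I) / 2) (by simp)⟩

theorem cB_int {p q : ℂ → ℂ} (hp : Tst p) (hq : Tst q) : Integrable fun w => p w * q w :=
  (hp.1.continuous.mul hq.1.continuous).integrable_of_hasCompactSupport hp.2.mul_right

theorem cB_int2 {p : ℂ → ℂ} (hp : Tst p) : Integrable fun w => ‖p w‖ ^ 2 := by
  simpa only [norm_mul, sq] using (cB_int hp hp).norm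

theorem cB_parts {p q : ℂ → ℂ} (hp : Tst p) (hq : Tst q) (v : ℂ) :
    ∫ w, p w * fderiv ℝ q w v = -∫ w, fderiv ℝ p w v * q w :=
  integral_mul_fderiv_eq_neg_fderiv_mul_of_integrable (cB_int (cB_tfd hp v) hq)
    (cB_int hp (cB_tfd hq v)) (cB_int hp hq)
    (fun _ _ => hp.1.differentiable (by simp) _) fun _ _ => hq.1.differentiable (by simp) _

theorem cB_symm {q : ℂ → ℂ} (hq : ContDiff ℝ ∞ q) (a b w : ℂ) :
    fderiv ℝ (fun z => fderiv ℝ q z a) w b = fderiv ℝ (fun z => fderiv ℝ q z b) w a := by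
  have h1 : DifferentiableAt ℝ (fderiv ℝ q) w :=
    (hq.fderiv_right (m := ∞) (by simp)).differentiable (by simp) w
  have h2 := (hq.contDiffAt (x := w)).isSymmSndFDerivAt
    (by simp only [minSmoothness_of_isRCLikeNormedField]; exact WithTop.coe_le_coe.2 le_top) b a
  rw [fderiv_clm_apply h1 (differentiableAt_const _),
    fderiv_clm_apply h1 (differentiableAt_const _)]
  simpa using h2

theorem cB_jac {p q : ℂ → ℂ} (hp : Tst p) (hq : Tst q) (a b : ℂ) :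
    ∫ w, fderiv ℝ p w a * fderiv ℝ q w b = ∫ w, fderiv ℝ p w b * fderiv ℝ q w a := by
  have h1 := cB_parts hp (cB_tfd hq b) a
  have h2 := cB_parts hp (cB_tfd hq a) b
  simp only [cB_symm hq.1 b a] at h1
  exact neg_injective (h1.symm.trans h2)

theorem cB_iso {v : ℂ → ℂ} (hv : Tst v) : ∫ w, ‖dz v w‖ ^ 2 = ∫ w, ‖db v w‖ ^ 2 := by
  have hc : Tst fun w => conjCLE (v w) :=
    ⟨conjCLE.contDiff.comp hv.1, hv.2.comp_left (g := fun z : ℂ => conjCLE z) (by simp)⟩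
  have e : ∀ w a, fderiv ℝ (fun w => conjCLE (v w)) w a = (starRingEnd ℂ) (fderiv ℝ v w a) :=
    fun w a => by
      have := conjCLE.comp_fderiv (f := v) (x := w)
      exact congrArg (fun L : ℂ →L[ℝ] ℂ => L a) this
  have h1 := cB_jac hv hc 1 I
  have h2 := cB_int (cB_tfd hv 1) (cB_tfd hc I)
  simp only [e] at h1 h2
  have h3 : ∫ w, fderiv ℝ v w I * (starRingEnd ℂ) (fderiv ℝ v w 1) =
      (starRingEnd ℂ) (∫ w, fderiv ℝ v w 1 * (starRingEnd ℂ) (fderiv ℝ v w I)) := by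
    rw [← integral_conj]
    simp [mul_comm]
  have h4 : ∫ w, (fderiv ℝ v w 1 * (starRingEnd ℂ) (fderiv ℝ v w I)).im = 0 := by
    have h5 := integral_im h2
    have h6 := congrArg Complex.im (h1.trans h3)
    rw [conj_im] at h6
    exact h5.trans (by change Complex.im _ = 0; linarith)
  rw [eq_comm, ← sub_eq_zero, ← integral_sub (cB_int2 (cB_tdb hv)) (cB_int2 (cB_tdz hv)), ← h4]
  refine integral_congr_ae (Eventually.of_forall fun w => ?_)
  simp only [dz, db]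
  generalize fderiv ℝ v w 1 = a
  generalize fderiv ℝ v w I = b
  simp only [norm_div, div_pow, Complex.sq_norm, normSq_apply]
  simp
  ring

theorem cB_db_mul {p q : ℂ → ℂ} (hp : ContDiff ℝ ∞ p) (hq : ContDiff ℝ ∞ q) (w : ℂ) :
    db (fun z => p z * q z) w = p w * db q w + q w * db p w := by
  simp only [db]
  rw [fderiv_fun_mul (hp.differentiable (by simp) w) (hq.differentiable (by simp) w)]
  simp only [_root_.add_apply, _root_.smul_apply, smul_eq_mul]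
  ring

theorem cB_db_smul (p : ℂ → ℂ) (c : ℝ) (w : ℂ) :
    db (fun z => p (c • z)) w = c * db p (c • w) := by
  simp only [db]
  rw [fderiv_comp_smul]
  simp only [_root_.smul_apply, real_smul]
  ring

theorem cB_cut : ∃ χ : ℂ → ℂ, Tst χ ∧ (∀ w, ‖χ w‖ ≤ 1) ∧ ∀ w, ‖w‖ < 1 → χ w = 1 := by
  let f : ContDiffBump (0 : ℂ) := ⟨1, 2, one_pos, one_lt_two⟩
  refine ⟨fun w => ofRealCLM (f w), ⟨ofRealCLM.contDiff.comp f.contDiff,
    f.hasCompactSupport.comp_left (g := fun x : ℝ => ofRealCLM x) (by simp)⟩, fun w => ?_,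
    fun w hw => ?_⟩
  · simpa [abs_of_nonneg (f.nonneg' w)] using f.le_one
  · simp [f.one_of_mem_closedBall (mem_closedBall_zero_iff.2 hw.le)]

theorem Tst.step {φ μ : ℂ → ℂ} (h : Tst φ) (hμ : Tst μ) : Tst fun w => μ w * dz (cT φ) w :=
  ⟨hμ.1.mul (cB_dz (cT_smooth h)), hμ.2.mul_right⟩

theorem cT_iso {φ μ : ℂ → ℂ} (h : Tst φ) (hμ : Tst μ) (h1 : ∀ w, ‖μ w‖ ≤ 1) :
    ∫ w : ℂ, ‖μ w * dz (cT φ) w‖ ^ 2 ≤ ∫ w : ℂ, ‖φ w‖ ^ 2 := by
  obtain ⟨χ, hχ, c1, c2⟩ := cB_cut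
  obtain ⟨C, hC⟩ := cT_decay h
  obtain ⟨r, hr⟩ := (h.2.isCompact.union hμ.2.isCompact).isBounded.subset_ball 0
  have hu := cT_smooth h
  have key : ∀ R : ℝ, max r 1 ≤ R → ∫ w : ℂ, ‖μ w * dz (cT φ) w‖ ^ 2 ≤
      (∫ w : ℂ, ‖φ w‖ ^ 2) + (C * R⁻¹) ^ 2 * ∫ w : ℂ, ‖db χ w‖ ^ 2 := by
    intro R hR
    have R0 : 0 < R := lt_of_lt_of_le one_pos ((le_max_right _ _).trans hR)
    have hs : Tst fun z => χ (R⁻¹ • z) :=
      ⟨hχ.1.comp (contDiff_const_smul _), hχ.2.comp_smul (inv_ne_zero R0.ne')⟩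
    have hv : Tst fun z => χ (R⁻¹ • z) * cT φ z := ⟨hs.1.mul hu, hs.2.mul_right⟩
    have hin : ∀ w : ℂ, ‖w‖ < R → (fun z => χ (R⁻¹ • z) * cT φ z) =ᶠ[𝓝 w] cT φ := by
      intro w hw
      filter_upwards [isOpen_ball.mem_nhds (mem_ball_zero_iff.2 hw)] with z hz
      rw [c2, one_mul]
      rw [norm_smul, norm_inv, Real.norm_of_nonneg R0.le, inv_mul_lt_iff₀ R0, mul_one]
      exact mem_ball_zero_iff.1 hz
    have hout : ∀ w : ℂ, R ≤ ‖w‖ → φ w = 0 ∧ μ w = 0 := by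
      intro w hw
      have : w ∉ tsupport φ ∪ tsupport μ := fun hh => by
        have := mem_ball_zero_iff.1 (hr hh)
        linarith [le_max_left r 1]
      exact ⟨image_eq_zero_of_notMem_tsupport fun a => this (Or.inl a),
        image_eq_zero_of_notMem_tsupport fun a => this (Or.inr a)⟩
    have e : ∫ w : ℂ, ‖db (fun z => χ (R⁻¹ • z)) w‖ ^ 2 = ∫ w : ℂ, ‖db χ w‖ ^ 2 := by
      simp only [cB_db_smul, norm_mul, mul_pow]
      rw [integral_const_mul,
        Measure.integral_comp_inv_smul_of_nonneg volume (fun w => ‖db χ w‖ ^ 2) R0.le,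
        finrank_real_complex, norm_real, norm_inv, Real.norm_of_nonneg R0.le, smul_eq_mul]
      field_simp
    rw [← e, ← integral_const_mul,
      ← integral_add (cB_int2 h) ((cB_int2 (cB_tdb hs)).const_mul _)]
    refine le_trans (integral_mono (cB_int2 (h.step hμ)) (cB_int2 (cB_tdz hv)) fun w => ?_)
      ((cB_iso hv).trans_le (integral_mono (cB_int2 (cB_tdb hv))
        ((cB_int2 h).add ((cB_int2 (cB_tdb hs)).const_mul _)) fun w => ?_))
    · rcases lt_or_ge ‖w‖ R with hw | hw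
      · simp only [dz, (hin w hw).fderiv_eq]
        rw [norm_mul]
        gcongr
        exact mul_le_of_le_one_left (norm_nonneg _) (h1 w)
      · simp [(hout w hw).2]
    · rcases lt_or_ge ‖w‖ R with hw | hw
      · have : db (fun z => χ (R⁻¹ • z) * cT φ z) w = φ w := by
          rw [← db_cT h w]; simp only [db, (hin w hw).fderiv_eq]
        simp only [this]
        exact le_add_of_nonneg_right (by positivity)
      · simp only [cB_db_mul hs.1 hu, db_cT h, (hout w hw).1, mul_zero, zero_add, norm_zero]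
        rw [norm_mul, mul_pow, zero_pow two_ne_zero, zero_add]
        gcongr
        rw [← div_eq_mul_inv, le_div_iff₀ R0]
        nlinarith [hC w, norm_nonneg (cT φ w)]
  have lim : Tendsto (fun R : ℝ => (∫ w : ℂ, ‖φ w‖ ^ 2) + (C * R⁻¹) ^ 2 * ∫ w : ℂ, ‖db χ w‖ ^ 2)
      atTop (𝓝 ((∫ w : ℂ, ‖φ w‖ ^ 2) + (C * 0) ^ 2 * ∫ w : ℂ, ‖db χ w‖ ^ 2)) :=
    (((tendsto_inv_atTop_zero.const_mul C).pow 2).mul_const _).const_add _
  simpa using ge_of_tendsto lim ((eventually_ge_atTop _).mono key)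

end Pool.Agent.P.MP_c09211_an.Sh
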