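import Mathlib

/-!
General lemmas for the construction: a homotopy criterion for injectivity, slowly varying
functions, and the margin given by the interlocking of two cycloids.
-/

set_option autoImplicit false

namespace Pool.Agent.P.MP_c09211_an.Sh

open Metric Set Complex Filter Topology
open scoped Real ComplexConjugate

theorem homot {f g : ℂ → ℂ} {R : ℝ} (hR : 1 < R) (hf : DifferentiableOn ℂ f (ball 0 R))
    (hg : DifferentiableOn ℂ g (ball 0 R)) (h0 : ∀ z : ℂ, ‖z‖ ≤ 1 → f z ≠ 0)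
    (h : ∀ z : ℂ, ‖z‖ = 1 → ∀ c : ℝ, 0 ≤ c → c ≤ 1 → (1 - c) * f z + c * g z ≠ 0) :
    ∀ z : ℂ, ‖z‖ ≤ 1 → ∀ c : ℝ, 0 ≤ c → c ≤ 1 → (1 - c) * f z + c * g z ≠ 0 := by
  intro z hz c c0 c1 e
  have sub : closedBall (0 : ℂ) 1 ⊆ ball 0 R := closedBall_subset_ball hR
  have an : AnalyticOnNhd ℂ (fun w => g w / f w) (closedBall 0 1) := fun w hw =>
    (hg.analyticAt (isOpen_ball.mem_nhds (sub hw))).div
      (hf.analyticAt (isOpen_ball.mem_nhds (sub hw))) (h0 w (mem_closedBall_zero_iff.mp hw))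
  have ct := an.continuousOn
  set K : Set ℂ := closedBall 0 1 ∩ (fun w => g w / f w) ⁻¹' {y : ℂ | y.im = 0 ∧ y.re ≤ 0}
    with hK
  have cl : IsClosed {y : ℂ | y.im = 0 ∧ y.re ≤ 0} :=
    (isClosed_eq continuous_im continuous_const).inter (isClosed_le continuous_re continuous_const)
  have Kc : IsCompact K := (isCompact_closedBall (0 : ℂ) 1).of_isClosed_subset
    (ct.preimage_isClosed_of_isClosed isClosed_closedBall cl) inter_subset_left
  have cpos : 0 < c := by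
    rcases c0.eq_or_lt with a | a
    · subst a
      simp [h0 z hz] at e
    · exact a
  have zK : z ∈ K := by
    have cc : (c : ℂ) ≠ 0 := by exact_mod_cast cpos.ne'
    have fz := h0 z hz
    have : g z / f z = ((-((1 - c) / c) : ℝ) : ℂ) := by
      push_cast
      field_simp
      linear_combination e
    refine ⟨mem_closedBall_zero_iff.mpr hz, ?_⟩
    simp only [mem_preimage, mem_ofPred_eq, this, ofReal_im, ofReal_re, true_and]
    have : 0 ≤ (1 - c) / c := div_nonneg (by linarith) c0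
    linarith
  have bd : ∀ w : ℂ, ‖w‖ = 1 → w ∉ K := by
    intro w hw ⟨_, a, b⟩
    have fw := h0 w hw.le
    set t : ℝ := -(g w / f w).re with ht
    have t0 : 0 ≤ t := by linarith
    have e1 : g w / f w = -(t : ℂ) := by
      apply Complex.ext
      · simp [ht]
      · simpa using a
    have e2 : g w = -(t : ℂ) * f w := by rw [← e1]; field_simp
    have p : (0 : ℝ) < 1 + t := by linarith
    have p' : (1 + t : ℂ) ≠ 0 := by exact_mod_cast p.ne'
    refine h w hw (1 / (1 + t)) (by positivity) ((div_le_one p).mpr (by linarith)) ?_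
    rw [e2]
    push_cast
    field_simp
    ring
  obtain ⟨w, wK, hw⟩ := Kc.exists_isMinOn ⟨z, zK⟩
    (continuous_re.comp_continuousOn (ct.mono inter_subset_left))
  have w1 : ‖w‖ < 1 :=
    lt_of_le_of_ne (mem_closedBall_zero_iff.mp wK.1) fun a => bd w a wK
  rcases an.is_constant_or_isOpen (convex_closedBall (0 : ℂ) 1).isPreconnected with ⟨y, hy⟩ | ho
  · have o : (1 : ℂ) ∈ closedBall (0 : ℂ) 1 := by simp
    refine bd 1 (by simp) ⟨o, ?_⟩
    have := wK.2
    rw [mem_preimage, hy w wK.1] at this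
    rw [mem_preimage, hy 1 o]
    exact this
  · have op := ho (ball 0 1) ball_subset_closedBall isOpen_ball
    obtain ⟨ε, ε0, hε⟩ := Metric.isOpen_iff.mp op _ ⟨w, mem_ball_zero_iff.mpr w1, rfl⟩
    obtain ⟨v, hv, e⟩ := hε (a := g w / f w - ((ε / 2 : ℝ) : ℂ)) (by
      rw [mem_ball, dist_eq_norm, sub_sub_cancel_left, norm_neg, norm_real, Real.norm_eq_abs,
        abs_of_pos (by positivity)]
      linarith)
    have e' : g v / f v = g w / f w - ((ε / 2 : ℝ) : ℂ) := e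
    obtain ⟨a, b⟩ : (g w / f w).im = 0 ∧ (g w / f w).re ≤ 0 := wK.2
    have vK : v ∈ K := by
      refine ⟨ball_subset_closedBall hv, ?_⟩
      simp only [mem_preimage, mem_ofPred_eq, e', sub_im, sub_re, ofReal_im, ofReal_re, a]
      constructor <;> linarith
    have : (g w / f w).re ≤ (g v / f v).re := hw vK
    rw [e', sub_re, ofReal_re] at this
    linarith

theorem lowA_dslope_comm (f : ℂ → ℂ) (a b : ℂ) : dslope f a b = dslope f b a := by
  rcases eq_or_ne a b with rfl | h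
  · rfl
  · rw [dslope_of_ne _ h, dslope_of_ne _ h.symm, slope_comm]

theorem lowA_dslope_eq (f : ℂ → ℂ) {a b : ℂ} (h : a ≠ b) :
    dslope f a b = (f b - f a) / (b - a) := by
  rw [dslope_of_ne _ h.symm, slope_def_field]

theorem bidisc {M p : ℂ → ℂ} {R : ℝ} (hR : 1 < R) (hM : DifferentiableOn ℂ M (ball 0 R))
    (hp : DifferentiableOn ℂ p (ball 0 R)) (hi : InjOn M (closedBall 0 1))
    (hd : ∀ z : ℂ, ‖z‖ ≤ 1 → deriv M z ≠ 0)
    (h1 : ∀ z₁ z₂ : ℂ, ‖z₁‖ = 1 → ‖z₂‖ = 1 → z₁ ≠ z₂ → ∀ c : ℝ, 0 ≤ c → c ≤ 1 →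
      (1 - c) * (M z₂ - M z₁) + c * (p z₂ - p z₁) ≠ 0)
    (h2 : ∀ z : ℂ, ‖z‖ = 1 → ∀ c : ℝ, 0 ≤ c → c ≤ 1 → (1 - c) * deriv M z + c * deriv p z ≠ 0) :
    InjOn p (closedBall 0 1) := by
  have nh : ∀ a : ℂ, ‖a‖ ≤ 1 → ball (0 : ℂ) R ∈ 𝓝 a := fun a ha =>
    isOpen_ball.mem_nhds (mem_ball_zero_iff.mpr (ha.trans_lt hR))
  have n0 : ∀ a : ℂ, ‖a‖ ≤ 1 → ∀ z : ℂ, ‖z‖ ≤ 1 → dslope M a z ≠ 0 := by
    intro a ha z hz
    rcases eq_or_ne a z with rfl | ne
    · rw [dslope_same]; exact hd a ha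
    · rw [lowA_dslope_eq _ ne]
      refine div_ne_zero (sub_ne_zero.mpr fun e => ne ?_) (sub_ne_zero.mpr ne.symm)
      exact (hi (mem_closedBall_zero_iff.mpr hz) (mem_closedBall_zero_iff.mpr ha) e).symm
  have key : ∀ a : ℂ, ‖a‖ ≤ 1 → (∀ z : ℂ, ‖z‖ = 1 → ∀ c : ℝ, 0 ≤ c → c ≤ 1 →
      (1 - c) * dslope M a z + c * dslope p a z ≠ 0) → ∀ z : ℂ, ‖z‖ ≤ 1 → ∀ c : ℝ, 0 ≤ c →
      c ≤ 1 → (1 - c) * dslope M a z + c * dslope p a z ≠ 0 := fun a ha hh =>
    homot hR ((Complex.differentiableOn_dslope (nh a ha)).mpr hM)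
      ((Complex.differentiableOn_dslope (nh a ha)).mpr hp) (n0 a ha) hh
  have s1 : ∀ a : ℂ, ‖a‖ = 1 → ∀ z : ℂ, ‖z‖ ≤ 1 → ∀ c : ℝ, 0 ≤ c →
      c ≤ 1 → (1 - c) * dslope M a z + c * dslope p a z ≠ 0 := by
    intro a ha
    refine key a ha.le fun z hz c c0 c1 => ?_
    rcases eq_or_ne a z with rfl | ne
    · rw [dslope_same, dslope_same]; exact h2 a ha c c0 c1
    · rw [lowA_dslope_eq _ ne, lowA_dslope_eq _ ne]
      intro e
      have za : z - a ≠ 0 := sub_ne_zero.mpr ne.symm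
      refine h1 a z ha hz ne c c0 c1 ?_
      field_simp at e
      linear_combination e
  intro a ha b hb e
  by_contra ne
  have := key a (mem_closedBall_zero_iff.mp ha) (fun z hz c c0 c1 => by
    rw [lowA_dslope_comm M, lowA_dslope_comm p]
    exact s1 z hz a (mem_closedBall_zero_iff.mp ha) c c0 c1) b (mem_closedBall_zero_iff.mp hb) 1
    zero_le_one le_rfl
  apply this
  rw [lowA_dslope_eq p ne, e]
  simp

theorem lowA_slow {f f' : ℝ → ℂ} {K : ℝ} (hf : ∀ t, HasDerivAt f (f' t) t)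
    (h : ∀ t, ‖f' t‖ ≤ K * ‖f t‖) {s t : ℝ} (hK : 0 ≤ K) (st : s ≤ t) (hs : K * (t - s) ≤ 1) :
    ‖f t - f s‖ ≤ 2 * (K * (t - s)) * ‖f s‖ := by
  have a := norm_le_gronwallBound_of_norm_deriv_right_le (f := fun x => f x - f s) (f' := f')
    (δ := 0) (K := K) (ε := K * ‖f s‖) (a := s) (b := t)
    (fun x _ => ((hf x).sub_const _).continuousAt.continuousWithinAt)
    (fun x _ => ((hf x).sub_const _).hasDerivWithinAt) (by simp)
    (fun x _ => (h x).trans (by
      rw [← mul_add]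
      exact mul_le_mul_of_nonneg_left (norm_le_norm_sub_add _ _) hK)) t ⟨st, le_rfl⟩
  refine a.trans ?_
  rcases hK.eq_or_lt with k | k
  · subst k
    simp [gronwallBound_K0]
  · rw [gronwallBound_of_K_ne_0 k.ne']
    have p : 0 ≤ K * (t - s) := mul_nonneg hK (sub_nonneg.mpr st)
    have b := Real.abs_exp_sub_one_le (x := K * (t - s)) (by rwa [abs_of_nonneg p])
    rw [abs_of_nonneg p] at b
    have c := (le_abs_self _).trans b
    simp only [zero_mul, zero_add]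
    rw [mul_div_cancel_left₀ _ k.ne', mul_comm]
    exact mul_le_mul_of_nonneg_right c (norm_nonneg _)

theorem slow {f f' : ℝ → ℂ} {K : ℝ} (hf : ∀ t, HasDerivAt f (f' t) t)
    (h : ∀ t, ‖f' t‖ ≤ K * ‖f t‖) {s t : ℝ} (hK : 0 ≤ K) (hs : K * |t - s| ≤ 1) :
    ‖f t - f s‖ ≤ 2 * (K * |t - s|) * ‖f s‖ := by
  rcases le_total s t with st | st
  · rw [abs_of_nonneg (sub_nonneg.mpr st)] at hs ⊢
    exact lowA_slow hf h hK st hs
  · rw [abs_of_nonpos (sub_nonpos.mpr st)] at hs ⊢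
    have := lowA_slow (f := fun x => f (-x)) (f' := fun x => -f' (-x)) (K := K) (s := -s)
      (t := -t) (fun x => by
        have a := (hf (0 - x)).comp_const_sub 0 x
        simp only [zero_sub] at a
        exact a) (fun x => by
        rw [norm_neg]; exact h _) hK (neg_le_neg st) (by linarith)
    simp only [neg_neg] at this
    refine this.trans (le_of_eq ?_)
    ring

theorem lin_approx {f f' : ℝ → ℂ} (hf : ∀ t, HasDerivAt f (f' t) t) {s t E : ℝ} {a : ℂ}
    (h : ∀ x ∈ uIcc s t, ‖f' x - a‖ ≤ E) : ‖f t - f s - (t - s) * a‖ ≤ E * |t - s| := by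
  have := (convex_uIcc s t).norm_image_sub_le_of_norm_hasDerivWithin_le
    (f := fun x : ℝ => f x - x * a) (f' := fun x => f' x - a) (fun x _ => by
      have b : HasDerivAt (fun x : ℝ => (x : ℂ) * a) a x := by
        simpa using (ofRealCLM.hasDerivAt (x := x)).mul_const a
      exact ((hf x).sub b).hasDerivWithinAt) h left_mem_uIcc right_mem_uIcc
  rw [Real.norm_eq_abs] at this
  refine le_trans (le_of_eq ?_) this
  congr 1
  ring

theorem second_diff {f f' f'' : ℝ → ℂ} (hf : ∀ t, HasDerivAt f (f' t) t)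
    (hf' : ∀ t, HasDerivAt f' (f'' t) t) {s τ E : ℝ} (hτ : 0 ≤ τ)
    (h : ∀ x, |x - s| ≤ τ → ‖f'' x‖ ≤ E) : ‖f (s + τ) + f (s - τ) - 2 * f s‖ ≤ 2 * E * τ ^ 2 := by
  have E0 : 0 ≤ E := (norm_nonneg _).trans (h s (by simpa using hτ))
  have b : ∀ x ∈ Icc 0 τ, ‖f' (s + x) - f' (s - x)‖ ≤ 2 * E * τ := by
    intro x hx
    have := (convex_Icc (s - τ) (s + τ)).norm_image_sub_le_of_norm_hasDerivWithin_le
      (f := f') (f' := f'') (x := s - x) (y := s + x) (fun y _ => (hf' y).hasDerivWithinAt)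
      (fun y hy => h y (abs_le.mpr ⟨by linarith [hy.1], by linarith [hy.2]⟩))
      ⟨by linarith [hx.2], by linarith [hx.1]⟩ ⟨by linarith [hx.1], by linarith [hx.2]⟩
    refine this.trans ?_
    rw [Real.norm_eq_abs, abs_of_nonneg (by linarith [hx.1])]
    nlinarith [hx.2]
  have := (convex_Icc 0 τ).norm_image_sub_le_of_norm_hasDerivWithin_le
    (f := fun x : ℝ => f (s + x) + f (s - x)) (f' := fun x => f' (s + x) - f' (s - x))
    (x := 0) (y := τ) (fun x _ => by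
      have a1 : HasDerivAt (fun x => f (s + x)) (f' (s + x)) x := (hf (s + x)).comp_const_add s x
      have a2 : HasDerivAt (fun x => f (s - x)) (-f' (s - x)) x := (hf (s - x)).comp_const_sub s x
      rw [sub_eq_add_neg]
      exact (a1.add a2).hasDerivWithinAt) b ⟨le_rfl, hτ⟩ ⟨hτ, le_rfl⟩
  simp only [add_zero, sub_zero, Real.norm_eq_abs, abs_of_nonneg hτ] at this
  rw [two_mul (f s)]
  refine this.trans (le_of_eq ?_)
  ring

theorem dot {t d : ℝ} (t0 : 0 < t) (t1 : t < π / 2) (ht : Real.cos t ≤ t) (hd : Real.sin t < d) :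
    ∃ m : ℝ, 0 < m ∧ ∀ ζ d' c : ℝ, d ≤ d' → |c| ≤ 1 →
      m ≤ ‖(ζ : ℂ) + I * d' - c * exp (I * ζ)‖ := by
  have c0 : 0 < Real.cos t := Real.cos_pos_of_mem_Ioo ⟨by linarith, t1⟩
  have s0 : 0 < Real.sin t := Real.sin_pos_of_pos_of_lt_pi t0 (by linarith)
  have sq1 := Real.sin_sq_add_cos_sq t
  have big : 1 < √(Real.cos t ^ 2 + d ^ 2) := by
    rw [Real.lt_sqrt zero_le_one]
    nlinarith
  refine ⟨min (√(Real.cos t ^ 2 + d ^ 2) - 1) (Real.cos t * (d - Real.sin t)),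
    lt_min (by linarith) (mul_pos c0 (by linarith)), fun ζ d' c hd' hc => ?_⟩
  have ne : ‖exp (I * ζ)‖ = 1 := norm_exp_I_mul_ofReal ζ
  rcases le_total (Real.cos t) |ζ| with a | a
  · refine (min_le_left _ _).trans (le_trans ?_ (norm_sub_norm_le _ _))
    have b1 : ‖(c : ℂ) * exp (I * ζ)‖ ≤ 1 := by
      rw [norm_mul, ne, mul_one, norm_real]; exact hc
    have b2 : √(Real.cos t ^ 2 + d ^ 2) ≤ ‖(ζ : ℂ) + I * d'‖ := by
      rw [mul_comm I, norm_add_mul_I]
      apply Real.sqrt_le_sqrt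
      have : Real.cos t ^ 2 ≤ ζ ^ 2 := by
        rw [← sq_abs ζ]; exact pow_le_pow_left₀ c0.le a 2
      nlinarith
    linarith
  · refine (min_le_right _ _).trans ?_
    have ne' : ‖exp (-(I * ζ))‖ = 1 := by rw [exp_neg, norm_inv, ne, inv_one]
    have e : ((ζ : ℂ) + I * d' - c * exp (I * ζ)) * exp (-(I * ζ)) =
        ((ζ : ℂ) + I * d') * (Real.cos ζ - Real.sin ζ * I) - c := by
      rw [sub_mul, mul_assoc (c : ℂ), ← exp_add, add_neg_cancel, exp_zero, mul_one,
        show -(I * ζ) = (-ζ : ℂ) * I by ring, exp_mul_I, cos_neg, sin_neg]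
      push_cast
      ring
    have b := (le_abs_self _).trans (abs_im_le_norm
      (((ζ : ℂ) + I * d' - c * exp (I * ζ)) * exp (-(I * ζ))))
    rw [norm_mul, ne', mul_one, e] at b
    refine le_trans ?_ b
    simp only [sub_im, mul_im, add_re, add_im, ofReal_re, ofReal_im, mul_re, I_re, I_im, sub_re]
    have z1 : |ζ| ≤ t := a.trans ht
    have b1 : Real.cos t ≤ Real.cos ζ := by
      rw [← Real.cos_abs ζ]
      exact Real.cos_le_cos_of_nonneg_of_le_pi (abs_nonneg _) (by linarith) z1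
    have b2 : ζ * Real.sin ζ ≤ Real.cos t * Real.sin t := by
      have : ζ * Real.sin ζ = |ζ| * Real.sin |ζ| := by
        rcases le_total 0 ζ with p | p
        · rw [abs_of_nonneg p]
        · rw [abs_of_nonpos p, Real.sin_neg]; ring
      rw [this]
      refine mul_le_mul a (Real.sin_le_sin_of_le_of_le_pi_div_two ?_ t1.le z1)
        (Real.sin_nonneg_of_nonneg_of_le_pi (abs_nonneg _) (by linarith)) c0.le
      linarith [abs_nonneg ζ]
    have b3 : d * Real.cos t ≤ d' * Real.cos ζ :=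
      mul_le_mul hd' b1 c0.le (by linarith)
    nlinarith

/-- Two points of the circle, written symmetrically. -/
theorem sym_angles {z₁ z₂ : ℂ} (h1 : ‖z₁‖ = 1) (h2 : ‖z₂‖ = 1) : ∃ θ τ : ℝ,
    z₂ = circleMap 0 1 (θ + τ) ∧ z₁ = circleMap 0 1 (θ - τ) ∧ |τ| ≤ ‖z₂ - z₁‖ := by
  have n1 : z₁ ≠ 0 := norm_pos_iff.mp (by rw [h1]; exact one_pos)
  have e1 := norm_mul_exp_arg_mul_I z₁
  have e2 := norm_mul_exp_arg_mul_I (z₂ / z₁)
  rw [h1, ofReal_one, one_mul] at e1
  rw [norm_div, h1, h2, div_one, ofReal_one, one_mul] at e2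
  set φ := arg (z₂ / z₁) with hφ
  have e3 : z₂ = z₁ * exp (φ * I) := by rw [e2]; field_simp
  refine ⟨arg z₁ + φ / 2, φ / 2, ?_, ?_, ?_⟩
  · rw [circleMap_zero, ofReal_one, one_mul, show arg z₁ + φ / 2 + φ / 2 = arg z₁ + φ by ring,
      ofReal_add, add_mul, exp_add, e1]
    exact e3
  · rw [circleMap_zero, ofReal_one, one_mul, add_sub_cancel_right, e1]
  · have p : |φ / 2| ≤ π / 2 := by
      rw [abs_div, abs_two]
      linarith [abs_arg_le_pi (z₂ / z₁)]
    have q := Real.mul_abs_le_abs_sin p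
    rw [e3, ← mul_sub_one, norm_mul, h1, one_mul, mul_comm (φ : ℂ), norm_exp_I_mul_ofReal_sub_one,
      norm_mul, Real.norm_eq_abs, Real.norm_eq_abs, abs_two]
    have r : 1 / 2 ≤ 2 / π := by
      rw [div_le_div_iff₀ two_pos Real.pi_pos]
      linarith [Real.pi_le_four]
    nlinarith [abs_nonneg (φ / 2)]

end Pool.Agent.P.MP_c09211_an.Sh
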