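import Mathlib

/-!
The rational model `Q = (u + α u ^ 2) ^ 2`, `u = 1 / (1 - r z) - 1 / 2`, and its truncation.
-/

set_option autoImplicit false

namespace Pool.Agent.P.MP_c09211_an.Sh

open Metric Set Complex Filter Topology Polynomial
open scoped Real ComplexConjugate

/-- The variable `u`. -/
noncomputable def uu (r : ℝ) (z : ℂ) : ℂ := 1 / (1 - r * z) - 1 / 2

/-- The operator `z d/dz` in the variable `u`. -/
noncomputable def Du (p : ℂ[X]) : ℂ[X] := (X ^ 2 - C (1 / 4)) * derivative p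

/-- The operator `z d/dz`. -/
noncomputable def Dz (p : ℂ[X]) : ℂ[X] := X * derivative p

/-- The square root of the model. -/
noncomputable def Gp (α : ℝ) : ℂ[X] := X + C (α : ℂ) * X ^ 2

/-- The model and its derivatives. -/
noncomputable def RR (r α : ℝ) (j : ℕ) (z : ℂ) : ℂ := (Du^[j] (Gp α ^ 2)).eval (uu r z)

/-- The Taylor coefficients of the model. -/
noncomputable def qk (r α : ℝ) (k : ℕ) : ℝ :=
  r ^ k * (k + α * ((k : ℝ) ^ 2 + 1 / 2) + α ^ 2 * ((k : ℝ) ^ 3 + 2 * k) / 6)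

/-- The truncated model. -/
noncomputable def pT (r α : ℝ) (K : ℕ) : ℂ[X] :=
  ∑ k ∈ Finset.range K, monomial k (qk r α k : ℂ)

/-- The polynomial `p` has real coefficients and is close to the model on the circle. -/
def Apx (r α τ : ℝ) (p : ℂ[X]) : Prop :=
  p.map (starRingEnd ℂ) = p ∧
    (∃ c : ℝ, ∀ z : ℂ, ‖z‖ = 1 → ‖p.eval z - c - RR r α 0 z‖ ≤ τ) ∧
    ∀ j : ℕ, 1 ≤ j → j ≤ 4 → ∀ z : ℂ, ‖z‖ = 1 → ‖(Dz^[j] p).eval z - RR r α j z‖ ≤ τ

/-- The polynomial of the construction, before normalisation. -/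
noncomputable def PP (N : ℕ) (η : ℝ) (p : ℂ[X]) : ℂ[X] :=
  C (N : ℂ) * p - Dz p + C (η * I) * reflect N ((Dz p).map (starRingEnd ℂ))

theorem hasDerivAt_uu_poly {r : ℝ} {z : ℂ} (h : 1 - r * z ≠ 0) (hz : z ≠ 0) (p : ℂ[X]) :
    HasDerivAt (fun z => p.eval (uu r z)) ((Du p).eval (uu r z) / z) z := by
  have hu : HasDerivAt (uu r) (r / (1 - r * z) ^ 2) z := by
    have h1 : HasDerivAt (fun z : ℂ => 1 - r * z) (-(r : ℂ)) z := by
      simpa using ((hasDerivAt_id z).const_mul (r : ℂ)).const_sub 1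
    have h2 := (h1.inv h).sub_const (1 / 2 : ℂ)
    have h3 : uu r = fun z : ℂ => (1 - r * z)⁻¹ - 1 / 2 := by
      funext w
      simp [uu]
    rw [h3]
    simpa using h2
  have h4 := (p.hasDerivAt (uu r z)).comp z hu
  have h5 : (Du p).eval (uu r z) / z = (derivative p).eval (uu r z) * (r / (1 - r * z) ^ 2) := by
    simp only [Du, eval_mul, eval_sub, eval_pow, eval_X, eval_C]
    have : uu r z ^ 2 - 1 / 4 = z * (r / (1 - r * z) ^ 2) := by
      unfold uu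
      field_simp
      ring
    rw [this]
    field_simp
  rw [h5]
  exact h4

theorem hasDerivAt_circle (p : ℂ[X]) (θ : ℝ) : HasDerivAt (fun t => p.eval (circleMap 0 1 t))
    (I * (Dz p).eval (circleMap 0 1 θ)) θ := by
  have h1 : HasDerivAt (fun w : ℂ => p.eval w) ((derivative p).eval (circleMap 0 1 θ))
      (circleMap 0 1 θ) := p.hasDerivAt _
  have h2 := h1.scomp θ (hasDerivAt_circleMap 0 1 θ)
  have h3 : I * (Dz p).eval (circleMap 0 1 θ) =
      (circleMap 0 1 θ * I) • (derivative p).eval (circleMap 0 1 θ) := by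
    simp only [Dz, eval_mul, eval_X, smul_eq_mul]
    ring
  rw [h3]
  exact h2

theorem lowB_coeff_Dz (p : ℂ[X]) (k : ℕ) : (Dz p).coeff k = k * p.coeff k := by
  cases k with
  | zero => simp [Dz]
  | succ k =>
    rw [Dz, coeff_X_mul, coeff_derivative]
    push_cast
    ring

theorem lowB_coeff_Dz_iter (p : ℂ[X]) (j k : ℕ) :
    (Dz^[j] p).coeff k = (k : ℂ) ^ j * p.coeff k := by
  induction j with
  | zero => simp
  | succ j ih =>
    rw [Function.iterate_succ_apply', lowB_coeff_Dz, ih]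
    ring

theorem lowB_eval_conj (p : ℂ[X]) (z : ℂ) :
    (p.map (starRingEnd ℂ)).eval (conj z) = conj (p.eval z) := by
  rw [eval_map, eval₂_at_apply]

theorem Dz_conj {p : ℂ[X]} (h : p.map (starRingEnd ℂ) = p) (j : ℕ) (z : ℂ) :
    (Dz^[j] p).eval (conj z) = conj ((Dz^[j] p).eval z) := by
  have h1 : (Dz^[j] p).map (starRingEnd ℂ) = Dz^[j] p := by
    ext k
    have hk : conj (p.coeff k) = p.coeff k := by
      rw [← coeff_map, h]
    rw [coeff_map, lowB_coeff_Dz_iter, map_mul, map_pow, map_natCast, hk]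
  rw [← lowB_eval_conj, h1]

theorem lowB_Du_add (j : ℕ) (p q : ℂ[X]) : Du^[j] (p + q) = Du^[j] p + Du^[j] q := by
  induction j with
  | zero => simp
  | succ j ih =>
    simp only [Function.iterate_succ_apply', ih]
    simp only [Du, derivative_add, mul_add]

theorem lowB_Du_mul (j : ℕ) (c : ℂ) (p : ℂ[X]) : Du^[j] (C c * p) = C c * Du^[j] p := by
  induction j with
  | zero => simp
  | succ j ih =>
    simp only [Function.iterate_succ_apply', ih]
    simp only [Du, derivative_C_mul]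
    ring

theorem lowB_Du_C (j : ℕ) (c : ℂ) : Du^[j + 1] (C c) = 0 := by
  induction j with
  | zero => simp [Du]
  | succ j ih =>
    rw [Function.iterate_succ_apply', ih]
    simp [Du]

theorem lowB_Du_pow (m : ℕ) : Du ((X + C (1 / 2 : ℂ)) ^ (m + 1)) =
    C ((m : ℂ) + 1) * (X + C (1 / 2 : ℂ)) ^ (m + 1 + 1) +
      C (-((m : ℂ) + 1)) * (X + C (1 / 2 : ℂ)) ^ (m + 1) := by
  apply Polynomial.funext
  intro x
  simp only [Du, derivative_X_add_C_pow, eval_mul, eval_sub, eval_pow, eval_X, eval_C, eval_add,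
    Nat.add_sub_cancel]
  push_cast
  ring

theorem lowB_hasSum {w : ℂ} (hw : ‖w‖ < 1) (j m : ℕ) :
    HasSum (fun k : ℕ => (k : ℂ) ^ j * ((k + m).choose m : ℂ) * w ^ k)
      ((Du^[j] ((X + C (1 / 2 : ℂ)) ^ (m + 1))).eval (1 / (1 - w) - 1 / 2)) := by
  induction j generalizing m with
  | zero =>
    have h := hasSum_choose_mul_geometric_of_norm_lt_one m hw
    simpa using h
  | succ j ih =>
    rw [Function.iterate_succ_apply, lowB_Du_pow, lowB_Du_add, lowB_Du_mul, lowB_Du_mul, eval_add,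
      eval_mul, eval_mul, eval_C, eval_C]
    have h := ((ih (m + 1)).mul_left ((m : ℂ) + 1)).add ((ih m).mul_left (-((m : ℂ) + 1)))
    have e : (fun k : ℕ => (k : ℂ) ^ (j + 1) * ((k + m).choose m : ℂ) * w ^ k) = fun k : ℕ =>
        ((m : ℂ) + 1) * ((k : ℂ) ^ j * ((k + (m + 1)).choose (m + 1) : ℂ) * w ^ k) +
          -((m : ℂ) + 1) * ((k : ℂ) ^ j * ((k + m).choose m : ℂ) * w ^ k) := by
      funext k
      have h1 : ((k + m + 1 : ℕ) : ℂ) * ((k + m).choose m : ℂ) =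
          ((k + (m + 1)).choose (m + 1) : ℂ) * ((m + 1 : ℕ) : ℂ) := by
        exact_mod_cast Nat.add_one_mul_choose_eq (k + m) m
      push_cast at h1
      linear_combination ((k : ℂ) ^ j * w ^ k) * h1
    rw [e]
    exact h

theorem lowB_Gp (α : ℝ) : Gp α ^ 2 = C (1 / 4 - α / 4 + α ^ 2 / 16 : ℂ) +
    (C (-1 + 3 / 2 * α - α ^ 2 / 2 : ℂ) * (X + C (1 / 2 : ℂ)) ^ (0 + 1) +
    C (1 - 3 * α + 3 / 2 * α ^ 2 : ℂ) * (X + C (1 / 2 : ℂ)) ^ (1 + 1) +
    C (2 * α - 2 * α ^ 2 : ℂ) * (X + C (1 / 2 : ℂ)) ^ (2 + 1) +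
    C (α ^ 2 : ℂ) * (X + C (1 / 2 : ℂ)) ^ (3 + 1)) := by
  apply Polynomial.funext
  intro x
  simp only [Gp, eval_mul, eval_pow, eval_X, eval_C, eval_add]
  ring

theorem lowB_choose2 (k : ℕ) : ((k + 2).choose 2 : ℂ) = (k + 2) * (k + 1) / 2 := by
  have h : ((k + 1 + 1 : ℕ) : ℂ) * ((k + 1).choose 1 : ℂ) =
      ((k + 2).choose 2 : ℂ) * ((1 + 1 : ℕ) : ℂ) := by
    exact_mod_cast Nat.add_one_mul_choose_eq (k + 1) 1
  rw [Nat.choose_one_right] at h
  push_cast at h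
  linear_combination (-1 / 2 : ℂ) * h

theorem lowB_choose3 (k : ℕ) : ((k + 3).choose 3 : ℂ) = (k + 3) * (k + 2) * (k + 1) / 6 := by
  have h : ((k + 2 + 1 : ℕ) : ℂ) * ((k + 2).choose 2 : ℂ) =
      ((k + 3).choose 3 : ℂ) * ((2 + 1 : ℕ) : ℂ) := by
    exact_mod_cast Nat.add_one_mul_choose_eq (k + 2) 2
  rw [lowB_choose2] at h
  push_cast at h
  linear_combination (-1 / 3 : ℂ) * h

theorem lowB_hasSum_qk {r : ℝ} (α : ℝ) {z : ℂ} (hw : ‖(r : ℂ) * z‖ < 1) (j : ℕ) :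
    HasSum (fun k : ℕ => (k : ℂ) ^ j * (qk r α k : ℂ) * z ^ k)
      (RR r α j z - (Du^[j] (C (1 / 4 - α / 4 + α ^ 2 / 16 : ℂ))).eval (uu r z)) := by
  have h := ((((lowB_hasSum hw j 0).mul_left (-1 + 3 / 2 * α - α ^ 2 / 2 : ℂ)).add
    ((lowB_hasSum hw j 1).mul_left (1 - 3 * α + 3 / 2 * α ^ 2 : ℂ))).add
    ((lowB_hasSum hw j 2).mul_left (2 * α - 2 * α ^ 2 : ℂ))).add
    ((lowB_hasSum hw j 3).mul_left (α ^ 2 : ℂ))
  rw [RR, lowB_Gp, lowB_Du_add, eval_add, add_sub_cancel_left, lowB_Du_add, lowB_Du_add,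
    lowB_Du_add, lowB_Du_mul, lowB_Du_mul, lowB_Du_mul, lowB_Du_mul]
  simp only [eval_add, eval_mul, eval_C]
  have e : (fun k : ℕ => (k : ℂ) ^ j * (qk r α k : ℂ) * z ^ k) = fun k : ℕ =>
      (-1 + 3 / 2 * α - α ^ 2 / 2 : ℂ) * ((k : ℂ) ^ j * ((k + 0).choose 0 : ℂ) * (r * z) ^ k) +
      (1 - 3 * α + 3 / 2 * α ^ 2 : ℂ) * ((k : ℂ) ^ j * ((k + 1).choose 1 : ℂ) * (r * z) ^ k) +
      (2 * α - 2 * α ^ 2 : ℂ) * ((k : ℂ) ^ j * ((k + 2).choose 2 : ℂ) * (r * z) ^ k) +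
      (α ^ 2 : ℂ) * ((k : ℂ) ^ j * ((k + 3).choose 3 : ℂ) * (r * z) ^ k) := by
    funext k
    rw [lowB_choose2, lowB_choose3, Nat.choose_one_right, Nat.choose_zero_right, qk, mul_pow]
    push_cast
    ring
  rw [e]
  exact h

theorem lowB_coeff_pT (r α : ℝ) (K k : ℕ) :
    (pT r α K).coeff k = if k < K then (qk r α k : ℂ) else 0 := by
  simp [pT, finsetSum_coeff, coeff_monomial]

theorem lowB_eval_pT (r α : ℝ) (K j : ℕ) (z : ℂ) :
    (Dz^[j] (pT r α K)).eval z = ∑ k ∈ Finset.range K, (k : ℂ) ^ j * (qk r α k : ℂ) * z ^ k := by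
  have h : Dz^[j] (pT r α K) =
      ∑ k ∈ Finset.range K, monomial k ((k : ℂ) ^ j * (qk r α k : ℂ)) := by
    ext k
    rw [lowB_coeff_Dz_iter, lowB_coeff_pT]
    simp [finsetSum_coeff, coeff_monomial]
  rw [h, eval_finsetSum]
  simp only [eval_monomial]

theorem lowB_term {r α : ℝ} (r0 : 1 / 2 ≤ r) (r1 : r < 1) (α0 : 0 ≤ α) (α1 : α ≤ 1) {K j k : ℕ}
    (hj : j ≤ 4) (hk : K ≤ k) :
    (k : ℝ) ^ j * |qk r α k| ≤ 5040 * Real.exp (-((1 - r) * K / 2)) *
      (((k + 7).choose 7 : ℝ) * ((1 + r) / 2) ^ k) := by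
  have k0 : (0 : ℝ) ≤ k := Nat.cast_nonneg k
  have r0' : 0 ≤ r := by linarith
  have s0 : 0 ≤ (1 + r) / 2 := by linarith
  have s1 : (1 + r) / 2 ≤ 1 := by linarith
  have h1 : (k : ℝ) ^ j ≤ (k + 1) ^ 4 :=
    (pow_le_pow_left₀ k0 (by linarith) j).trans (pow_le_pow_right₀ (by linarith) hj)
  have α2 : α ^ 2 ≤ 1 := pow_le_one₀ α0 α1
  have h2 : k + α * ((k : ℝ) ^ 2 + 1 / 2) + α ^ 2 * ((k : ℝ) ^ 3 + 2 * k) / 6 ≤ (k + 1) ^ 3 := by
    have a1 : α * ((k : ℝ) ^ 2 + 1 / 2) ≤ (k : ℝ) ^ 2 + 1 / 2 :=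
      mul_le_of_le_one_left (by positivity) α1
    have a2 : α ^ 2 * ((k : ℝ) ^ 3 + 2 * k) ≤ (k : ℝ) ^ 3 + 2 * k :=
      mul_le_of_le_one_left (by positivity) α2
    nlinarith [pow_nonneg k0 3, pow_nonneg k0 2]
  have h3 : ((k : ℝ) + 1) ^ 7 ≤ 5040 * ((k + 7).choose 7 : ℝ) := by
    have a1 := Nat.pow_succ_le_ascFactorial (k + 1) 7
    rw [Nat.ascFactorial_eq_factorial_mul_choose] at a1
    have a2 : Nat.factorial 7 = 5040 := by decide
    rw [a2] at a1
    exact_mod_cast a1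
  have h4 : r ^ k ≤ Real.exp (-((1 - r) * K / 2)) * ((1 + r) / 2) ^ k := by
    have a1 : r ^ k ≤ ((1 + r) / 2) ^ k * ((1 + r) / 2) ^ k := by
      rw [← mul_pow]
      exact pow_le_pow_left₀ r0' (by nlinarith [sq_nonneg (1 - r)]) k
    have a2 : ((1 + r) / 2) ^ k ≤ ((1 + r) / 2) ^ K := pow_le_pow_of_le_one s0 s1 hk
    have a3 : ((1 + r) / 2) ^ K ≤ Real.exp (-((1 - r) / 2)) ^ K :=
      pow_le_pow_left₀ s0 (by linarith [Real.add_one_le_exp (-((1 - r) / 2))]) K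
    rw [← Real.exp_nat_mul] at a3
    have a4 : (K : ℝ) * -((1 - r) / 2) = -((1 - r) * K / 2) := by ring
    rw [a4] at a3
    exact a1.trans (mul_le_mul_of_nonneg_right (a2.trans a3) (pow_nonneg s0 k))
  have h5 : |qk r α k| ≤ r ^ k * (k + 1) ^ 3 := by
    rw [abs_of_nonneg (by unfold qk; positivity)]
    exact mul_le_mul_of_nonneg_left h2 (pow_nonneg r0' k)
  calc (k : ℝ) ^ j * |qk r α k| ≤ (k + 1) ^ 4 * (r ^ k * (k + 1) ^ 3) :=
        mul_le_mul h1 h5 (abs_nonneg _) (by positivity)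
    _ = (k + 1) ^ 7 * r ^ k := by ring
    _ ≤ (5040 * ((k + 7).choose 7 : ℝ)) *
        (Real.exp (-((1 - r) * K / 2)) * ((1 + r) / 2) ^ k) :=
        mul_le_mul h3 h4 (pow_nonneg r0' k) (by positivity)
    _ = _ := by ring

theorem lowB_tail {r α : ℝ} (r0 : 1 / 2 ≤ r) (r1 : r < 1) (α0 : 0 ≤ α) (α1 : α ≤ 1) (K : ℕ)
    {j : ℕ} (hj : j ≤ 4) {z : ℂ} (hz : ‖z‖ = 1) :
    ‖(Dz^[j] (pT r α K)).eval z -
      (RR r α j z - (Du^[j] (C (1 / 4 - α / 4 + α ^ 2 / 16 : ℂ))).eval (uu r z))‖ ≤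
      10 ^ 10 / (1 - r) ^ 9 * Real.exp (-((1 - r) * K / 2)) := by
  have hw : ‖(r : ℂ) * z‖ < 1 := by
    rw [norm_mul, hz, mul_one, Complex.norm_real, Real.norm_eq_abs, abs_of_nonneg (by linarith)]
    exact r1
  have h1 := lowB_hasSum_qk α hw j
  have h2 : HasSum (fun k : ℕ => if k ∈ Finset.range K then
      (k : ℂ) ^ j * (qk r α k : ℂ) * z ^ k else 0)
      (∑ k ∈ Finset.range K, (k : ℂ) ^ j * (qk r α k : ℂ) * z ^ k) := by
    have h := hasSum_sum_of_ne_finset_zero (L := SummationFilter.unconditional ℕ)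
      (f := fun k : ℕ => if k ∈ Finset.range K then (k : ℂ) ^ j * (qk r α k : ℂ) * z ^ k else 0)
      (s := Finset.range K) (fun k hk => if_neg hk)
    rwa [Finset.sum_congr rfl fun k hk => if_pos hk] at h
  have hs : ‖(1 + r) / 2‖ < 1 := by
    rw [Real.norm_eq_abs, abs_of_nonneg (by linarith)]
    linarith
  have h3 := (hasSum_choose_mul_geometric_of_norm_lt_one 7 hs).mul_left
    (5040 * Real.exp (-((1 - r) * K / 2)))
  rw [lowB_eval_pT]
  refine ((h2.sub h1).norm_le_of_bounded h3 fun k => ?_).trans ?_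
  · by_cases hk : k ∈ Finset.range K
    · rw [if_pos hk, sub_self, norm_zero]
      have : 0 ≤ (1 + r) / 2 := by linarith
      positivity
    · rw [if_neg hk, zero_sub, norm_neg, norm_mul, norm_mul, norm_pow, norm_pow, hz, one_pow,
        mul_one, Complex.norm_natCast, Complex.norm_real, Real.norm_eq_abs]
      exact lowB_term r0 r1 α0 α1 hj (by simpa using hk)
  · have y0 : 0 < 1 - r := by linarith
    have e : 5040 * Real.exp (-((1 - r) * K / 2)) * (1 / (1 - (1 + r) / 2) ^ (7 + 1)) =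
        5040 * 256 * (1 - r) / (1 - r) ^ 9 * Real.exp (-((1 - r) * K / 2)) := by
      have : 1 - (1 + r) / 2 = (1 - r) / 2 := by ring
      rw [this]
      field_simp
      rw [div_pow]
      norm_num
    rw [e]
    refine mul_le_mul_of_nonneg_right (div_le_div_of_nonneg_right ?_ (by positivity))
      (Real.exp_pos _).le
    linarith

theorem apx {r α : ℝ} (r0 : 1 / 2 ≤ r) (r1 : r < 1) (α0 : 0 ≤ α) (α1 : α ≤ 1) (K : ℕ) :
    Apx r α (10 ^ 10 / (1 - r) ^ 9 * Real.exp (-((1 - r) * K / 2))) (pT r α K) := by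
  refine ⟨?_, ⟨-(1 / 4 - α / 4 + α ^ 2 / 16), fun z hz => ?_⟩, fun j h1 h4 z hz => ?_⟩
  · ext k
    rw [coeff_map, lowB_coeff_pT]
    split_ifs <;> simp
  · have h := lowB_tail r0 r1 α0 α1 K (j := 0) (by norm_num) hz
    simp only [Function.iterate_zero_apply, eval_C] at h
    refine le_of_eq_of_le (congrArg norm ?_) h
    push_cast
    ring
  · have h := lowB_tail r0 r1 α0 α1 K h4 hz
    obtain ⟨i, rfl⟩ : ∃ i, j = i + 1 := ⟨j - 1, by omega⟩
    rwa [lowB_Du_C, eval_zero, sub_zero] at h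

theorem lowB_natDegree_Dz (p : ℂ[X]) : (Dz p).natDegree ≤ p.natDegree := by
  rw [natDegree_le_iff_coeff_eq_zero]
  intro k hk
  rw [lowB_coeff_Dz, coeff_eq_zero_of_natDegree_lt hk, mul_zero]

theorem lowB_eval_reflect {N : ℕ} {q : ℂ[X]} (hq : q.natDegree ≤ N) {z : ℂ} (hz : ‖z‖ = 1) :
    (reflect N (q.map (starRingEnd ℂ))).eval z = z ^ N * conj (q.eval z) := by
  have h1 : conj z * z = 1 := by
    rw [mul_comm, Complex.mul_conj, Complex.normSq_eq_norm_sq, hz]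
    simp
  have h2 : z * conj z = 1 := by rw [mul_comm, h1]
  let _ : Invertible (conj z) := ⟨z, h2, h1⟩
  have h3 := eval₂_reflect_mul_pow (RingHom.id ℂ) (conj z) N (q.map (starRingEnd ℂ))
    (natDegree_map_le.trans hq)
  have h4 : ⅟(conj z) = z := rfl
  rw [h4, eval₂_id, eval₂_id, lowB_eval_conj] at h3
  rw [← h3, mul_left_comm, ← mul_pow, h2, one_pow, mul_one]

theorem lowB_Dz_reflect {N : ℕ} {q : ℂ[X]} (hq : q.natDegree ≤ N) :
    Dz (reflect N (q.map (starRingEnd ℂ))) =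
      reflect N ((C (N : ℂ) * q - Dz q).map (starRingEnd ℂ)) := by
  ext k
  rw [lowB_coeff_Dz, coeff_reflect, coeff_reflect, coeff_map, coeff_map, coeff_sub, coeff_C_mul,
    lowB_coeff_Dz, map_sub, map_mul, map_mul, map_natCast, map_natCast]
  by_cases hk : k ≤ N
  · rw [revAt_le hk, Nat.cast_sub hk]
    ring
  · rw [revAt_eq_self_of_lt (by omega), coeff_eq_zero_of_natDegree_lt (by omega)]
    simp

theorem PP_eval {N : ℕ} {p : ℂ[X]} (hp : p.natDegree ≤ N) (η : ℝ) {z : ℂ} (hz : ‖z‖ = 1) :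
    (PP N η p).eval z = N * p.eval z - (Dz p).eval z + η * I * z ^ N * conj ((Dz p).eval z) ∧
    z * (derivative (PP N η p)).eval z = (N * (Dz p).eval z - (Dz (Dz p)).eval z) +
      η * I * z ^ N * conj (N * (Dz p).eval z - (Dz (Dz p)).eval z) := by
  have h1 : (Dz p).natDegree ≤ N := (lowB_natDegree_Dz p).trans hp
  have h2 : (C (N : ℂ) * Dz p - Dz (Dz p)).natDegree ≤ N :=
    (natDegree_sub_le _ _).trans (max_le ((natDegree_C_mul_le _ _).trans h1)
      ((lowB_natDegree_Dz _).trans h1))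
  constructor
  · rw [PP, eval_add, eval_sub, eval_mul, eval_mul, eval_C, eval_C, lowB_eval_reflect h1 hz]
    ring
  · have h3 : Dz (PP N η p) = C (N : ℂ) * Dz p - Dz (Dz p) +
        C (η * I) * Dz (reflect N ((Dz p).map (starRingEnd ℂ))) := by
      ext k
      simp only [PP, lowB_coeff_Dz, coeff_add, coeff_sub, coeff_C_mul]
      ring
    have h4 : z * (derivative (PP N η p)).eval z = (Dz (PP N η p)).eval z := by
      rw [Dz, eval_mul, eval_X]
    rw [h4, h3, lowB_Dz_reflect h1, eval_add, eval_mul, eval_C, lowB_eval_reflect h2 hz, eval_sub,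
      eval_mul, eval_C]
    ring

theorem PP_coeff {N K J : ℕ} (r α η : ℝ) (hK : 2 * K ≤ N) (h1 : 1 ≤ J) (h2 : J < K) (h3 : 2 ≤ K) :
    (pT r α K).natDegree ≤ N ∧ (PP N η (pT r α K)).natDegree ≤ N - 1 ∧
    (PP N η (pT r α K)).coeff 1 = ((N - 1) * qk r α 1 : ℝ) ∧
    (PP N η (pT r α K)).coeff (N - J) = η * I * (J * qk r α J : ℝ) := by
  have hc : ∀ k, (PP N η (pT r α K)).coeff k = (N - k) * (pT r α K).coeff k +
      η * I * conj ((revAt N k : ℕ) * (pT r α K).coeff (revAt N k)) := by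
    intro k
    rw [PP, coeff_add, coeff_sub, coeff_C_mul, coeff_C_mul, coeff_reflect, coeff_map,
      lowB_coeff_Dz, lowB_coeff_Dz]
    ring
  refine ⟨?_, ?_, ?_, ?_⟩
  · rw [natDegree_le_iff_coeff_eq_zero]
    intro k hk
    rw [lowB_coeff_pT, if_neg (by omega)]
  · rw [natDegree_le_iff_coeff_eq_zero]
    intro k hk
    rw [hc, lowB_coeff_pT, if_neg (by omega)]
    by_cases hN : k ≤ N
    · have : N - k = 0 := by omega
      rw [revAt_le hN, this]
      simp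
    · rw [revAt_eq_self_of_lt (by omega), lowB_coeff_pT, if_neg (by omega)]
      simp
  · rw [hc, revAt_le (by omega), lowB_coeff_pT, lowB_coeff_pT, if_pos (by omega),
      if_neg (by omega)]
    simp
  · have : N - (N - J) = J := by omega
    rw [hc, revAt_le (by omega), this, lowB_coeff_pT, lowB_coeff_pT, if_neg (by omega), if_pos h2]
    simp

end Pool.Agent.P.MP_c09211_an.Sh
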