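import Pool.Agent.P.MP_c09211_an.Sh.LowB

/-!
Geometry of the rational model on the circle.
-/

set_option autoImplicit false

namespace Pool.Agent.P.MP_c09211_an.Sh

open Metric Set Complex Filter Topology Polynomial
open scoped Real ComplexConjugate

/-- The parameter `α` for a given overlap `κ`. -/
noncomputable def al (N : ℕ) (r κ : ℝ) : ℝ := (1 - r ^ 2) / 2 + κ / N

/-- The univalent base of the homotopy. -/
noncomputable def MM (N : ℕ) (r κ : ℝ) (z : ℂ) : ℂ :=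
  N * ((Gp (al N r κ - 1 / N)).eval (uu r z)) ^ 2

/-- The natural size at a point of the circle. -/
noncomputable def sz (N : ℕ) (r κ : ℝ) (z : ℂ) : ℝ :=
  ‖(Gp (al N r κ)).eval (uu r z)‖ * ‖uu r z + 1 / 2‖ ^ 2

/-- The excess of the gap over its least value. -/
noncomputable def gp (N : ℕ) (r κ : ℝ) (z : ℂ) : ℝ :=
  ((Gp (al N r κ)).eval (uu r z)).re + κ / N * ‖uu r z + 1 / 2‖ ^ 2

/-- The standing assumptions on the parameters. -/
def Par (N : ℕ) (r κ a : ℝ) : Prop :=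
  1 / 2 ≤ r ∧ r < 1 ∧ 0 ≤ κ ∧ κ ≤ 1 ∧ 2 ≤ a ∧ a ≤ N * (1 - r)

variable {N : ℕ} {r κ a : ℝ}

theorem Par.c_N (H : Par N r κ a) : 0 < (N : ℝ) ∧ 1 / (N : ℝ) ≤ (1 - r) / 2 ∧
    κ / N ≤ 1 / (N : ℝ) ∧ 0 ≤ κ / N := by
  obtain ⟨h1, h2, h3, h4, h5, h6⟩ := H
  have hN : 0 < (N : ℝ) := by
    by_contra h
    have : (N : ℝ) = 0 := le_antisymm (not_lt.mp h) (Nat.cast_nonneg N)
    rw [this] at h6
    linarith
  refine ⟨hN, ?_, by gcongr, by positivity⟩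
  rw [div_le_iff₀ hN]
  linarith

theorem Par.al_mem (H : Par N r κ a) : 0 ≤ al N r κ ∧ al N r κ ≤ 2 * (1 - r) := by
  obtain ⟨a1, a2, a3, a4⟩ := H.c_N
  obtain ⟨h1, h2, -⟩ := H
  unfold al
  constructor <;> nlinarith

theorem c_ne (h1 : 1 / 2 ≤ r) {z : ℂ} (hz : ‖z‖ < r⁻¹) : (1 : ℂ) - r * z ≠ 0 := by
  intro h
  have e : ‖(r : ℂ) * z‖ = 1 := by rw [← sub_eq_zero.mp h, norm_one]
  have r0 : 0 < r := by linarith
  rw [norm_mul, norm_real, Real.norm_eq_abs, abs_of_pos r0] at e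
  have := mul_lt_mul_of_pos_left hz r0
  rw [mul_inv_cancel₀ r0.ne'] at this
  linarith

theorem c_lt (h1 : 1 / 2 ≤ r) (h2 : r < 1) {z : ℂ} (hz : ‖z‖ ≤ 1) : ‖z‖ < r⁻¹ :=
  hz.trans_lt ((one_lt_inv₀ (by linarith)).mpr h2)

theorem c_uu_deriv (h1 : 1 / 2 ≤ r) {z : ℂ} (hz : ‖z‖ < r⁻¹) :
    HasDerivAt (uu r) (r * (uu r z + 1 / 2) ^ 2) z := by
  have hne := c_ne h1 hz
  have a : HasDerivAt (fun z : ℂ => 1 - r * z) (-(r * 1)) z :=
    ((hasDerivAt_id z).const_mul (r : ℂ)).const_sub 1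
  have b := (a.inv hne).sub_const (1 / 2)
  have e : uu r = fun z : ℂ => (1 - r * z)⁻¹ - 1 / 2 := by
    funext w
    rw [uu, one_div]
  rw [e]
  refine b.congr_deriv ?_
  field_simp
  ring

/-- The basic facts on the closed disc. -/
theorem c_facts (h1 : 1 / 2 ≤ r) (h2 : r < 1) {z : ℂ} (hz : ‖z‖ ≤ 1) :
    (1 - r ^ 2) / 2 * ‖uu r z + 1 / 2‖ ^ 2 ≤ (uu r z).re ∧ 1 / 2 ≤ ‖uu r z + 1 / 2‖ ∧
      (1 - r) * ‖uu r z + 1 / 2‖ ≤ 1 ∧
      uu r z ^ 2 - 1 / 4 = r * z * (uu r z + 1 / 2) ^ 2 := by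
  have hne := c_ne h1 (c_lt h1 h2 hz)
  have e : uu r z + 1 / 2 = (1 - r * z)⁻¹ := by rw [uu]; ring
  have r0 : 0 < r := by linarith
  have n1 : ‖(r : ℂ) * z‖ ≤ r := by
    rw [norm_mul, norm_real, Real.norm_eq_abs, abs_of_pos r0]
    exact mul_le_of_le_one_right r0.le hz
  have n2 : ‖(1 : ℂ) - r * z‖ ≤ 2 := (norm_sub_le _ _).trans (by rw [norm_one]; linarith)
  have n3 : 1 - r ≤ ‖(1 : ℂ) - r * z‖ := by
    have := norm_sub_norm_le (1 : ℂ) (r * z)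
    rw [norm_one] at this
    linarith
  have n4 : 0 < ‖(1 : ℂ) - r * z‖ := norm_pos_iff.mpr hne
  refine ⟨?_, ?_, ?_, ?_⟩
  · have e2 : (uu r z).re = ((1 - r * z)⁻¹ : ℂ).re - 1 / 2 := by
      rw [← e]
      simp
    have n5 : 0 < normSq (1 - r * z) := normSq_pos.mpr hne
    rw [e2, e, norm_inv, inv_pow, Complex.sq_norm, inv_re, ← div_eq_mul_inv, le_sub_iff_add_le,
      div_add' _ _ _ n5.ne', div_le_div_iff_of_pos_right n5]
    have z1 : z.re ^ 2 + z.im ^ 2 ≤ 1 := by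
      have := Complex.sq_norm z
      rw [normSq_apply] at this
      nlinarith [norm_nonneg z]
    simp only [normSq_apply, sub_re, one_re, mul_re, ofReal_re, ofReal_im, sub_im, one_im, mul_im]
    nlinarith [mul_le_mul_of_nonneg_left z1 (sq_nonneg r)]
  · rw [e, norm_inv, le_inv_comm₀ (by norm_num) n4]
    norm_num
    exact n2
  · rw [e, norm_inv, ← div_eq_mul_inv, div_le_one n4]
    exact n3
  · have e3 : uu r z = (1 - r * z)⁻¹ - 1 / 2 := by rw [← e]; ring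
    rw [e, e3]
    field_simp
    ring

theorem c_one_le {u : ℂ} (hu : 0 ≤ u.re) {b : ℝ} (hb : 0 ≤ b) : 1 ≤ ‖1 + b * u‖ := by
  refine le_trans ?_ (re_le_norm _)
  simp only [add_re, one_re, mul_re, ofReal_re, ofReal_im, zero_mul, sub_zero]
  nlinarith [mul_nonneg hb hu]

theorem c_Gp (α : ℝ) (u : ℂ) : (Gp α).eval u = u * (1 + α * u) := by
  simp only [Gp, eval_add, eval_mul, eval_pow, eval_X, eval_C]
  ring

theorem c_re_pos (h1 : 1 / 2 ≤ r) (h2 : r < 1) {z : ℂ} (hz : ‖z‖ ≤ 1) {b : ℝ} (b0 : 0 ≤ b)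
    (b1 : b ≤ (1 - r ^ 2) / 2) : 0 < (uu r z).re ∧ 0 < ((Gp b).eval (uu r z)).re := by
  obtain ⟨f1, f2, -, -⟩ := c_facts h1 h2 hz
  have x0 : 0 < (1 - r ^ 2) / 2 := by nlinarith
  have p : 0 < (uu r z).re := lt_of_lt_of_le (by positivity) f1
  refine ⟨p, ?_⟩
  rw [Complex.sq_norm, normSq_apply] at f1
  rw [c_Gp]
  generalize uu r z = u at *
  generalize (1 - r ^ 2) / 2 = x at *
  simp only [add_re, one_re, mul_re, ofReal_re, ofReal_im, zero_mul, sub_zero, add_im, one_im,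
    mul_im, add_zero, zero_add, div_ofNat_re, div_ofNat_im, zero_div] at f1 ⊢
  nlinarith [mul_le_mul_of_nonneg_right b1 (mul_self_nonneg u.im),
    mul_nonneg b0 (mul_self_nonneg u.re), mul_pos x0 (mul_pos (add_pos p one_half_pos)
      (add_pos p one_half_pos))]

theorem c_MM_deriv (h1 : 1 / 2 ≤ r) {z : ℂ} (hz : ‖z‖ < r⁻¹) :
    HasDerivAt (MM N r κ) (N * (2 * (Gp (al N r κ - 1 / N)).eval (uu r z) *
      ((1 + (2 * (al N r κ - 1 / N) : ℝ) * uu r z) * (r * (uu r z + 1 / 2) ^ 2)))) z := by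
  have a := c_uu_deriv h1 hz
  have b := (((Gp (al N r κ - 1 / N)).hasDerivAt (uu r z)).comp z a).pow 2
  refine (b.const_mul (N : ℂ)).congr_deriv ?_
  simp only [Gp, derivative_add, derivative_X, derivative_mul, derivative_C, derivative_X_pow,
    eval_add, eval_mul, eval_pow, eval_X, eval_C, eval_one, eval_zero, Function.comp]
  push_cast
  ring

theorem Par.base (H : Par N r κ a) : DifferentiableOn ℂ (MM N r κ) (ball 0 r⁻¹) ∧
    InjOn (MM N r κ) (closedBall 0 1) ∧ ∀ z : ℂ, ‖z‖ ≤ 1 → deriv (MM N r κ) z ≠ 0 := by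
  obtain ⟨a1, a2, a3, a4⟩ := H.c_N
  obtain ⟨h1, h2, -⟩ := H
  have b0 : 0 ≤ al N r κ - 1 / N := by unfold al; nlinarith
  have b1 : al N r κ - 1 / N ≤ (1 - r ^ 2) / 2 := by unfold al; linarith
  have N0 : (N : ℂ) ≠ 0 := by exact_mod_cast a1.ne'
  have r0 : (r : ℂ) ≠ 0 := by exact_mod_cast (show (0 : ℝ) < r by linarith).ne'
  refine ⟨fun z hz => (c_MM_deriv h1
    (mem_ball_zero_iff.mp hz)).differentiableAt.differentiableWithinAt, fun z hz w hw e => ?_,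
    fun z hz => ?_⟩
  · rw [mem_closedBall_zero_iff] at hz hw
    obtain ⟨p1, p2⟩ := c_re_pos h1 h2 hz b0 b1
    obtain ⟨q1, q2⟩ := c_re_pos h1 h2 hw b0 b1
    have e1 := mul_left_cancel₀ N0 e
    have s1 : (Gp (al N r κ - 1 / N)).eval (uu r z) + (Gp (al N r κ - 1 / N)).eval (uu r w) ≠ 0 :=
      fun h => by
        have := congrArg re h
        rw [add_re, zero_re] at this
        linarith
    have s2 : (1 : ℂ) + (al N r κ - 1 / N : ℝ) * (uu r z + uu r w) ≠ 0 := by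
      have := c_one_le (u := uu r z + uu r w) (by rw [add_re]; linarith) b0
      exact norm_pos_iff.mp (by linarith)
    have e2 := (sq_eq_sq_iff_eq_or_eq_neg.mp e1).resolve_right
      fun h => s1 (by rw [h, neg_add_cancel])
    rw [c_Gp, c_Gp] at e2
    have e3 : uu r z = uu r w := by
      refine sub_eq_zero.mp ((mul_eq_zero.mp ?_).resolve_right s2)
      linear_combination e2
    have e4 : (1 : ℂ) - r * z = 1 - r * w := by
      have : (1 - r * z : ℂ)⁻¹ = (1 - r * w)⁻¹ := by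
        rw [uu, uu, one_div, one_div (1 - r * w : ℂ)] at e3
        linear_combination e3
      exact inv_injective this
    exact mul_left_cancel₀ r0 (by linear_combination -e4)
  · obtain ⟨p1, p2⟩ := c_re_pos h1 h2 hz b0 b1
    obtain ⟨-, f2, -, -⟩ := c_facts h1 h2 hz
    rw [(c_MM_deriv h1 (c_lt h1 h2 hz)).deriv]
    have s1 : (Gp (al N r κ - 1 / N)).eval (uu r z) ≠ 0 := fun h => by
      rw [h, zero_re] at p2
      exact lt_irrefl _ p2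
    have s2 := c_one_le p1.le (b := 2 * (al N r κ - 1 / N)) (by linarith)
    have s3 : uu r z + 1 / 2 ≠ 0 := norm_pos_iff.mp (by linarith)
    exact mul_ne_zero N0 (mul_ne_zero (mul_ne_zero two_ne_zero s1)
      (mul_ne_zero (norm_pos_iff.mp (by linarith)) (mul_ne_zero r0 (pow_ne_zero 2 s3))))

/-- The facts on the circle. -/
theorem Par.c_circ (H : Par N r κ a) {z : ℂ} (hz : ‖z‖ = 1) :
    0 ≤ (uu r z).re ∧ 1 / 2 ≤ ‖uu r z + 1 / 2‖ ∧ ‖uu r z‖ ≤ ‖uu r z + 1 / 2‖ ∧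
      (1 - r) * ‖uu r z‖ ≤ 1 ∧ 3 * (1 - r) / 16 ≤ ‖uu r z‖ ∧
      ‖uu r z ^ 2 - 1 / 4‖ = r * ‖uu r z + 1 / 2‖ ^ 2 ∧
      (1 - r) * ‖uu r z ^ 2 - 1 / 4‖ ≤ 3 * ‖uu r z‖ ∧ al N r κ * ‖uu r z‖ ≤ 2 := by
  obtain ⟨a1, a2⟩ := H.al_mem
  obtain ⟨h1, h2, -⟩ := H
  obtain ⟨f1, f2, f3, f4⟩ := c_facts h1 h2 hz.le
  have y0 : 0 < 1 - r := by linarith
  have x1 : 3 * (1 - r) / 4 ≤ (1 - r ^ 2) / 2 := by nlinarith
  have p : 0 ≤ (uu r z).re := le_trans (mul_nonneg (by linarith) (sq_nonneg _)) f1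
  have g1 : ‖uu r z‖ ≤ ‖uu r z + 1 / 2‖ := by
    refine (sq_le_sq₀ (norm_nonneg _) (norm_nonneg _)).mp ?_
    rw [Complex.sq_norm, Complex.sq_norm, normSq_apply, normSq_apply]
    simp only [add_re, add_im, div_ofNat_re, div_ofNat_im, one_re, one_im, zero_div, add_zero]
    nlinarith
  have g2 : (1 - r) * ‖uu r z‖ ≤ 1 := (mul_le_mul_of_nonneg_left g1 y0.le).trans f3
  have g3 : 3 * (1 - r) / 4 * ‖uu r z + 1 / 2‖ ^ 2 ≤ ‖uu r z‖ :=
    ((mul_le_mul_of_nonneg_right x1 (sq_nonneg _)).trans f1).trans (re_le_norm _)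
  have g4 : ‖uu r z ^ 2 - 1 / 4‖ = r * ‖uu r z + 1 / 2‖ ^ 2 := by
    rw [f4, norm_mul, norm_mul, hz, norm_pow, norm_real, Real.norm_eq_abs,
      abs_of_pos (by linarith), mul_one]
  have g5 : 1 / 4 ≤ ‖uu r z + 1 / 2‖ ^ 2 := by nlinarith
  refine ⟨p, f2, g1, g2, by nlinarith, g4, ?_, by nlinarith [norm_nonneg (uu r z)]⟩
  rw [g4]
  nlinarith [mul_nonneg (mul_nonneg y0.le y0.le) (sq_nonneg ‖uu r z + 1 / 2‖),
    norm_nonneg (uu r z)]

theorem c_RR (r α : ℝ) (z : ℂ) {u w p : ℂ} (hu : u = uu r z) (hw : w = u ^ 2 - 1 / 4)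
    (hp : p = 2 * u * (1 + α * u) * (1 + (2 * α : ℝ) * u)) :
    RR r α 0 z = (u * (1 + α * u)) ^ 2 ∧ RR r α 1 z = w * p ∧
    RR r α 2 z = w * (2 * u * p + w * (2 + 12 * (α * u) + 12 * (α * u) ^ 2)) ∧
    RR r α 3 z = w * ((4 * u ^ 2 + 2 * w) * p + 6 * u * (w * (2 + 12 * (α * u) +
      12 * (α * u) ^ 2)) + w ^ 2 * (α * (12 + 24 * (α * u)))) ∧
    RR r α 4 z = w * ((8 * u ^ 3 + 16 * u * w) * p + (28 * u ^ 2 + 8 * w) *
      (w * (2 + 12 * (α * u) + 12 * (α * u) ^ 2)) + 12 * u * (w ^ 2 * (α * (12 + 24 * (α * u)))) +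
      w ^ 3 * (24 * α ^ 2)) := by
  subst hp
  simp only [RR, ← hu, Function.iterate_succ', Function.iterate_zero, Function.comp, id]
  refine ⟨?_, ?_, ?_, ?_, ?_⟩ <;>
  · simp only [Du, Gp, derivative_add, derivative_sub, derivative_X, derivative_mul, derivative_C,
      derivative_pow, derivative_one, derivative_zero,
      eval_add, eval_sub, eval_mul, eval_pow, eval_X, eval_C, eval_one, eval_zero, hw,
      Nat.add_one_sub_one, pow_one]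
    push_cast
    ring

theorem c_T {u w p : ℂ} {α K : ℝ} (α0 : 0 ≤ α) (hu : ‖u‖ ≤ K) (hw : ‖w‖ ≤ K * ‖u‖)
    (hα : α * ‖u‖ ≤ 2) (hp : 2 * ‖u‖ ≤ ‖p‖) :
    ‖w * (2 + 12 * (α * u) + 12 * (α * u) ^ 2)‖ ≤ 37 * K * ‖p‖ ∧
    ‖w ^ 2 * (α * (12 + 24 * (α * u)))‖ ≤ 60 * K ^ 2 * ‖p‖ ∧
    ‖w ^ 3 * (24 * α ^ 2)‖ ≤ 48 * K ^ 3 * ‖p‖ := by
  have K0 : 0 ≤ K := (norm_nonneg _).trans hu
  have nα : ‖(α : ℂ)‖ = α := by rw [norm_real, Real.norm_eq_abs, abs_of_nonneg α0]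
  have t : ‖(α : ℂ) * u‖ ≤ 2 := by rw [norm_mul, nα]; exact hα
  have u0 := norm_nonneg u
  refine ⟨?_, ?_, ?_⟩
  · have : ‖2 + 12 * (α * u) + 12 * (α * u) ^ 2‖ ≤ 2 + 12 * 2 + 12 * 2 ^ 2 := by
      refine norm_add₃_le.trans ?_
      rw [norm_mul 12, norm_mul 12, norm_pow, Complex.norm_ofNat, Complex.norm_ofNat]
      gcongr
    rw [norm_mul]
    calc _ ≤ K * ‖u‖ * (2 + 12 * 2 + 12 * 2 ^ 2) := by gcongr
      _ = 37 * K * (2 * ‖u‖) := by ring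
      _ ≤ _ := by gcongr
  · have : ‖12 + 24 * (α * u)‖ ≤ 12 + 24 * 2 := by
      refine (norm_add_le _ _).trans ?_
      rw [norm_mul 24, Complex.norm_ofNat, Complex.norm_ofNat]
      gcongr
    rw [norm_mul, norm_mul, norm_pow, nα]
    calc _ ≤ (K * ‖u‖) ^ 2 * (α * (12 + 24 * 2)) := by gcongr
      _ = 60 * K ^ 2 * ((α * ‖u‖) * ‖u‖) := by ring
      _ ≤ 60 * K ^ 2 * (2 * ‖u‖) := by gcongr
      _ ≤ _ := by gcongr
  · rw [norm_mul, norm_mul, norm_pow, norm_pow, nα, Complex.norm_ofNat]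
    calc _ ≤ (K * ‖u‖) ^ 3 * (24 * α ^ 2) := by gcongr
      _ = 24 * K ^ 3 * ((α * ‖u‖) ^ 2 * ‖u‖) := by ring
      _ ≤ 24 * K ^ 3 * (2 ^ 2 * ‖u‖) := by gcongr
      _ = 48 * K ^ 3 * (2 * ‖u‖) := by ring
      _ ≤ _ := by gcongr

theorem c_pi {u : ℂ} (hu : 0 ≤ u.re) {α : ℝ} (α0 : 0 ≤ α) :
    2 * ‖u‖ ≤ ‖2 * u * (1 + α * u) * (1 + (2 * α : ℝ) * u)‖ := by
  have a := c_one_le hu α0
  have b := c_one_le hu (b := 2 * α) (by linarith)
  rw [norm_mul, norm_mul, norm_mul, Complex.norm_ofNat]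
  calc 2 * ‖u‖ = 2 * ‖u‖ * 1 * 1 := by ring
    _ ≤ _ := by gcongr

theorem Par.RR_le (H : Par N r κ a) {z : ℂ} (hz : ‖z‖ = 1) :
    (1 - r) / 32 ≤ ‖RR r (al N r κ) 1 z‖ ∧ ∀ j : ℕ, j ≤ 3 →
      ‖RR r (al N r κ) (j + 1) z‖ ≤ (120 / (1 - r)) ^ j * ‖RR r (al N r κ) 1 z‖ := by
  obtain ⟨f1, f2, f3, f4, f5, f6, f7, f8⟩ := H.c_circ hz
  obtain ⟨a1, -⟩ := H.al_mem
  obtain ⟨h1, h2, -⟩ := H
  obtain ⟨-, e1, e2, e3, e4⟩ := c_RR r (al N r κ) z rfl rfl rfl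
  have hp := c_pi f1 a1
  have y0 : 0 < 1 - r := by linarith
  have hu : ‖uu r z‖ ≤ 3 / (1 - r) := by
    rw [le_div_iff₀ y0]
    linarith
  have hw : ‖uu r z ^ 2 - 1 / 4‖ ≤ 3 / (1 - r) * ‖uu r z‖ := by
    rw [div_mul_eq_mul_div, le_div_iff₀ y0]
    linarith
  obtain ⟨t1, t2, t3⟩ := c_T a1 hu hw f8 hp
  have eK : 120 / (1 - r) = 40 * (3 / (1 - r)) := by ring
  have K0 : 0 < 3 / (1 - r) := by positivity
  have w0 : 1 / 8 ≤ ‖uu r z ^ 2 - 1 / 4‖ := by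
    rw [f6]
    nlinarith
  rw [eK]
  generalize 3 / (1 - r) = K at *
  generalize 2 * uu r z * (1 + al N r κ * uu r z) * (1 + (2 * al N r κ : ℝ) * uu r z) = p at *
  generalize (uu r z ^ 2 - 1 / 4) * (2 + 12 * (al N r κ * uu r z) +
    12 * (al N r κ * uu r z) ^ 2) = T1 at *
  generalize (uu r z ^ 2 - 1 / 4) ^ 2 * (al N r κ * (12 + 24 * (al N r κ * uu r z))) = T2 at *
  generalize (uu r z ^ 2 - 1 / 4) ^ 3 * (24 * (al N r κ : ℂ) ^ 2) = T3 at *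
  generalize uu r z ^ 2 - 1 / 4 = w at *
  generalize uu r z = u at *
  have hw2 : ‖w‖ ≤ K * K := hw.trans (by gcongr)
  have p0 := norm_nonneg p
  have n2 : ‖4 * u ^ 2 + 2 * w‖ ≤ 4 * K ^ 2 + 2 * (K * K) := by
    refine (norm_add_le _ _).trans ?_
    rw [norm_mul, norm_mul, norm_pow, Complex.norm_ofNat, Complex.norm_ofNat]
    gcongr
  have n3 : ‖8 * u ^ 3 + 16 * u * w‖ ≤ 8 * K ^ 3 + 16 * K * (K * K) := by
    refine (norm_add_le _ _).trans ?_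
    rw [norm_mul, norm_mul, norm_mul, norm_pow, Complex.norm_ofNat, Complex.norm_ofNat]
    gcongr
  have n4 : ‖28 * u ^ 2 + 8 * w‖ ≤ 28 * K ^ 2 + 8 * (K * K) := by
    refine (norm_add_le _ _).trans ?_
    rw [norm_mul, norm_mul, norm_pow, Complex.norm_ofNat, Complex.norm_ofNat]
    gcongr
  refine ⟨?_, fun j hj => ?_⟩
  · rw [e1, norm_mul]
    calc (1 - r) / 32 ≤ 1 / 8 * (2 * (3 * (1 - r) / 16)) := by linarith
      _ ≤ ‖w‖ * (2 * ‖u‖) := by gcongr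
      _ ≤ _ := by gcongr
  · interval_cases j
    · simp
    · rw [e1, e2, norm_mul, norm_mul, mul_left_comm]
      refine mul_le_mul_of_nonneg_left ((norm_add_le _ _).trans ?_) (norm_nonneg _)
      rw [norm_mul, norm_mul, Complex.norm_ofNat]
      calc _ ≤ 2 * K * ‖p‖ + 37 * K * ‖p‖ := by gcongr
        _ ≤ _ := by nlinarith [mul_nonneg K0.le p0]
    · rw [e1, e3, norm_mul, norm_mul, mul_left_comm]
      refine mul_le_mul_of_nonneg_left (norm_add₃_le.trans ?_) (norm_nonneg _)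
      rw [norm_mul, norm_mul, norm_mul, Complex.norm_ofNat]
      calc _ ≤ (4 * K ^ 2 + 2 * (K * K)) * ‖p‖ + 6 * K * (37 * K * ‖p‖) + 60 * K ^ 2 * ‖p‖ := by
            gcongr
        _ ≤ _ := by nlinarith [mul_nonneg (sq_nonneg K) p0]
    · rw [e1, e4, norm_mul, norm_mul, mul_left_comm]
      refine mul_le_mul_of_nonneg_left ((norm_add_le _ _).trans
        ((add_le_add_left norm_add₃_le _).trans ?_)) (norm_nonneg _)
      rw [norm_mul, norm_mul, norm_mul, norm_mul, Complex.norm_ofNat]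
      calc _ ≤ (8 * K ^ 3 + 16 * K * (K * K)) * ‖p‖ + (28 * K ^ 2 + 8 * (K * K)) * (37 * K * ‖p‖) +
            12 * K * (60 * K ^ 2 * ‖p‖) + 48 * K ^ 3 * ‖p‖ := by gcongr
        _ ≤ _ := by nlinarith [mul_nonneg (pow_nonneg K0.le 3) p0]

theorem Par.c_uN (H : Par N r κ a) {z : ℂ} (hz : ‖z‖ = 1) : ‖uu r z / N‖ ≤ 1 / 2 := by
  obtain ⟨-, -, -, f4, -⟩ := H.c_circ hz
  obtain ⟨a1, a2, -⟩ := H.c_N
  rw [norm_div, Complex.norm_natCast, div_eq_mul_one_div]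
  nlinarith [mul_le_mul_of_nonneg_left a2 (norm_nonneg (uu r z))]

theorem Par.MM_deriv (H : Par N r κ a) {z : ℂ} (hz : ‖z‖ = 1) :
    ‖z * deriv (MM N r κ) z - N * RR r (al N r κ) 1 z‖ ≤
      240 / (1 - r) * ‖RR r (al N r κ) 1 z‖ := by
  obtain ⟨f1, f2, f3, f4, f5, f6, f7, f8⟩ := H.c_circ hz
  obtain ⟨a1, -⟩ := H.al_mem
  have g := H.c_uN hz
  have N0 : (N : ℂ) ≠ 0 := by exact_mod_cast H.c_N.1.ne'
  obtain ⟨h1, h2, -⟩ := H
  obtain ⟨-, e1, -⟩ := c_RR r (al N r κ) z rfl rfl rfl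
  obtain ⟨-, -, -, e2⟩ := c_facts h1 h2 hz.le
  have hp := c_pi f1 a1
  have y0 : 0 < 1 - r := by linarith
  have e : z * deriv (MM N r κ) z - N * RR r (al N r κ) 1 z = (uu r z ^ 2 - 1 / 4) *
      (uu r z * (uu r z * (-6 + -8 * (al N r κ * uu r z) + 4 * (uu r z / N)))) := by
    rw [(c_MM_deriv h1 (c_lt h1 h2 hz.le)).deriv, e1, e2, c_Gp]
    push_cast
    field_simp
    ring
  have t : ‖(al N r κ : ℂ) * uu r z‖ ≤ 2 := by
    rw [norm_mul, norm_real, Real.norm_eq_abs, abs_of_nonneg a1]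
    exact f8
  have n : ‖-6 + -8 * (al N r κ * uu r z) + 4 * (uu r z / N)‖ ≤ 6 + 8 * 2 + 4 * (1 / 2) := by
    refine norm_add₃_le.trans ?_
    rw [norm_mul (-8), norm_mul 4, norm_neg, norm_neg, Complex.norm_ofNat, Complex.norm_ofNat,
      Complex.norm_ofNat]
    gcongr
  have hu : ‖uu r z‖ ≤ 1 / (1 - r) := by
    rw [le_div_iff₀ y0]
    linarith
  rw [e, e1, norm_mul, norm_mul (uu r z ^ 2 - 1 / 4), mul_left_comm (240 / (1 - r))]
  refine mul_le_mul_of_nonneg_left ?_ (norm_nonneg _)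
  rw [norm_mul, norm_mul]
  calc _ ≤ 1 / (1 - r) * (‖uu r z‖ * (6 + 8 * 2 + 4 * (1 / 2))) := by gcongr
    _ = 12 / (1 - r) * (2 * ‖uu r z‖) := by ring
    _ ≤ _ := by gcongr; norm_num

theorem Par.sz_le (H : Par N r κ a) {z : ℂ} (hz : ‖z‖ = 1) :
    (1 - r) / 32 ≤ sz N r κ z ∧ ‖RR r (al N r κ) 1 z‖ ≤ 10 * sz N r κ z ∧
      ‖MM N r κ z - N * RR r (al N r κ) 0 z‖ ≤ 3 * sz N r κ z := by
  obtain ⟨f1, f2, f3, f4, f5, f6, f7, f8⟩ := H.c_circ hz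
  obtain ⟨a1, -⟩ := H.al_mem
  have g := H.c_uN hz
  have N0 : (N : ℂ) ≠ 0 := by exact_mod_cast H.c_N.1.ne'
  obtain ⟨h1, h2, -⟩ := H
  obtain ⟨e0, e1, -⟩ := c_RR r (al N r κ) z rfl rfl rfl
  have y0 : 0 < 1 - r := by linarith
  have b := c_one_le f1 a1
  have G1 : ‖uu r z‖ ≤ ‖uu r z * (1 + al N r κ * uu r z)‖ := by
    rw [norm_mul]
    exact le_mul_of_one_le_right (norm_nonneg _) b
  have t : ‖1 + ((2 * al N r κ : ℝ) : ℂ) * uu r z‖ ≤ 5 := by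
    refine (norm_add_le _ _).trans ?_
    rw [norm_mul, norm_real, Real.norm_eq_abs, abs_of_nonneg (by linarith), norm_one]
    linarith
  have e : MM N r κ z - N * RR r (al N r κ) 0 z =
      uu r z ^ 2 * (-2 * (uu r z * (1 + al N r κ * uu r z)) + uu r z * (uu r z / N)) := by
    rw [e0, MM, c_Gp]
    push_cast
    field_simp
    ring
  rw [sz, c_Gp, e, e1, mul_assoc 2]
  generalize uu r z * (1 + al N r κ * uu r z) = G at *
  rw [norm_mul, norm_mul, norm_mul, norm_mul (uu r z ^ 2), f6, Complex.norm_ofNat, norm_pow]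
  refine ⟨?_, ?_, ?_⟩
  · calc (1 - r) / 32 ≤ 3 * (1 - r) / 16 * (1 / 2) ^ 2 := by linarith
      _ ≤ _ := by gcongr; exact f5.trans G1
  · calc _ ≤ 1 * ‖uu r z + 1 / 2‖ ^ 2 * (2 * ‖G‖ * 5) := by gcongr
      _ = _ := by ring
  · have n : ‖-2 * G + uu r z * (uu r z / N)‖ ≤ 2 * ‖G‖ + ‖G‖ * 1 := by
      refine (norm_add_le _ _).trans ?_
      rw [norm_mul, norm_mul, norm_neg, Complex.norm_ofNat]
      gcongr
      linarith
    calc _ ≤ ‖uu r z + 1 / 2‖ ^ 2 * (2 * ‖G‖ + ‖G‖ * 1) := by gcongr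
      _ = _ := by ring

end Pool.Agent.P.MP_c09211_an.Sh
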