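import Pool.Agent.P.MP_c09211_an.Sh.LowA
import Pool.Agent.P.MP_c09211_an.Sh.LowC

/-!
Pairs of points of the circle: nearby pairs.
-/

set_option autoImplicit false

namespace Pool.Agent.P.MP_c09211_an.Sh

open Metric Set Complex Filter Topology Polynomial
open scoped Real ComplexConjugate

/-- The low frequency part of `z P'`. -/
noncomputable def AA (N : ℕ) (p : ℂ[X]) : ℂ[X] := C (N : ℂ) * Dz p - Dz (Dz p)

/-- The value of the construction on the circle. -/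
noncomputable def Pv (N : ℕ) (η : ℝ) (p : ℂ[X]) (z : ℂ) : ℂ :=
  N * p.eval z - (Dz p).eval z + η * I * z ^ N * conj ((Dz p).eval z)

/-- The difference along the homotopy. -/
noncomputable def Dl (N : ℕ) (r κ η c : ℝ) (p : ℂ[X]) (z₁ z₂ : ℂ) : ℂ :=
  (1 - c) * (MM N r κ z₂ - MM N r κ z₁) + c * (Pv N η p z₂ - Pv N η p z₁)

variable {N : ℕ} {r κ a : ℝ} {p : ℂ[X]}

private lemma AA_eval (N : ℕ) (p : ℂ[X]) (z : ℂ) :
    (AA N p).eval z = N * (Dz p).eval z - (Dz (Dz p)).eval z := by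
  simp [AA]

private lemma Dz_AA (N : ℕ) (p : ℂ[X]) : Dz (AA N p) = AA N (Dz p) := by
  unfold AA
  generalize Dz p = q
  simp only [Dz, derivative_sub, derivative_mul, derivative_C, zero_mul, zero_add]
  ring

private lemma Par.facts (H : Par N r κ a) :
    0 < 1 - r ∧ 2 ≤ (1 - r)⁻¹ ∧ a * (1 - r)⁻¹ ≤ N ∧ (0 : ℝ) < N := by
  obtain ⟨h1, h2, -, -, h5, h6⟩ := H
  have y0 : 0 < 1 - r := by linarith
  have hN : (0 : ℝ) < N := by
    by_contra h
    nlinarith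
  refine ⟨y0, ?_, ?_, hN⟩
  · rw [le_inv_comm₀ two_pos y0]; linarith
  · rw [← div_eq_mul_inv, div_le_iff₀ y0]; exact h6

theorem hat (H : Par N r κ a) (ha : 10000 ≤ a) (hp : Apx r (al N r κ) ((1 - r) / (a * N)) p)
    {z : ℂ} (hz : ‖z‖ = 1) :
    0 < ‖(Dz p).eval z‖ ∧
    N * ‖(Dz p).eval z - RR r (al N r κ) 1 z‖ ≤ 32 / a * ‖RR r (al N r κ) 1 z‖ ∧
    ‖(Dz (Dz p)).eval z‖ ≤ 250 / (1 - r) * ‖(Dz p).eval z‖ ∧
    ‖(Dz (AA N p)).eval z‖ ≤ 250 / (1 - r) * ‖(AA N p).eval z‖ ∧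
    ‖(Dz (Dz (AA N p))).eval z‖ ≤ (250 / (1 - r)) ^ 2 * ‖(AA N p).eval z‖ ∧
    ‖z * deriv (MM N r κ) z - (AA N p).eval z‖ ≤ 1000 / a * ‖(AA N p).eval z‖ := by
  obtain ⟨y0, L2, LN, N0⟩ := H.facts
  obtain ⟨r0, rj⟩ := H.RR_le hz
  have m := H.MM_deriv hz
  have b1 : ‖(Dz p).eval z - RR r (al N r κ) 1 z‖ ≤ _ := hp.2.2 1 le_rfl (by norm_num) z hz
  have b2 : ‖(Dz (Dz p)).eval z - RR r (al N r κ) 2 z‖ ≤ _ :=
    hp.2.2 2 (by norm_num) (by norm_num) z hz
  have b3 : ‖(Dz (Dz (Dz p))).eval z - RR r (al N r κ) 3 z‖ ≤ _ :=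
    hp.2.2 3 (by norm_num) (by norm_num) z hz
  have b4 : ‖(Dz (Dz (Dz (Dz p)))).eval z - RR r (al N r κ) 4 z‖ ≤ _ :=
    hp.2.2 4 (by norm_num) (by norm_num) z hz
  have r2 : ‖RR r (al N r κ) 2 z‖ ≤ _ := rj 1 (by norm_num)
  have r3 : ‖RR r (al N r κ) 3 z‖ ≤ _ := rj 2 (by norm_num)
  have r4 : ‖RR r (al N r κ) 4 z‖ ≤ _ := rj 3 (by norm_num)
  rw [Dz_AA, Dz_AA, AA_eval, AA_eval, AA_eval]
  generalize (Dz (Dz (Dz (Dz p)))).eval z = B4 at *
  generalize (Dz (Dz (Dz p))).eval z = B3 at *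
  generalize (Dz (Dz p)).eval z = B2 at *
  generalize (Dz p).eval z = B1 at *
  generalize z * deriv (MM N r κ) z = D at *
  generalize RR r (al N r κ) 1 z = R1 at *
  generalize RR r (al N r κ) 2 z = R2 at *
  generalize RR r (al N r κ) 3 z = R3 at *
  generalize RR r (al N r κ) 4 z = R4 at *
  have a0 : 0 < a := by linarith
  have ρ0 : 0 < ‖R1‖ := lt_of_lt_of_le (by positivity) r0
  have hδ : N * ((1 - r) / (a * N)) ≤ 32 / a * ‖R1‖ := by
    have : N * ((1 - r) / (a * N)) = 32 / a * ((1 - r) / 32) := by field_simp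
    rw [this]; gcongr
  have δ0 : 0 ≤ (1 - r) / (a * N) := by positivity
  generalize (1 - r) / (a * N) = δ at *
  simp only [div_eq_mul_inv] at *
  generalize (1 - r)⁻¹ = L at *
  have ai : a⁻¹ ≤ 1 / 10000 := by rw [inv_le_comm₀ a0 (by norm_num)]; linarith
  have ai0 : 0 < a⁻¹ := inv_pos.2 a0
  have LN' : L ≤ a⁻¹ * N := by
    rw [← div_eq_inv_mul, le_div_iff₀ a0]; linarith
  generalize a⁻¹ = e at *
  generalize hρ : ‖R1‖ = ρ at *
  have L0 : 0 < L := by linarith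
  have LN2 : 10000 * L ≤ N := by
    have := mul_le_mul_of_nonneg_right ha L0.le
    linarith
  have N1 : (20000 : ℝ) ≤ N := by linarith
  have d1 : N * δ ≤ ρ / 100 := by
    have := mul_le_mul_of_nonneg_right ai ρ0.le
    linarith
  have d2 : δ ≤ ρ / 100 := by
    have := mul_le_mul_of_nonneg_right N1 δ0
    linarith
  have n1 : 99 / 100 * ρ ≤ ‖B1‖ := by
    have := norm_sub_norm_le R1 B1
    rw [norm_sub_rev] at this
    linarith
  have n1' : ‖B1‖ ≤ 101 / 100 * ρ := by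
    have := norm_le_norm_add_norm_sub' B1 R1
    linarith
  have Lρ : 2 * ρ ≤ L * ρ := by gcongr
  have L2ρ : 2 * (L * ρ) ≤ L * (L * ρ) := by gcongr
  have L3ρ : 2 * (L * (L * ρ)) ≤ L * (L * (L * ρ)) := by gcongr
  have n2 : ‖B2‖ ≤ 121 * (L * ρ) := by
    have := norm_le_norm_add_norm_sub' B2 R2
    linarith
  have n3 : ‖B3‖ ≤ 14401 * (L * (L * ρ)) := by
    have := norm_le_norm_add_norm_sub' B3 R3
    linarith
  have n4 : ‖B4‖ ≤ 1728001 * (L * (L * (L * ρ))) := by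
    have := norm_le_norm_add_norm_sub' B4 R4
    linarith
  have k1 : 10000 * L * ρ ≤ N * ρ := by gcongr
  have k2 : 10000 * L * (L * ρ) ≤ N * (L * ρ) := by gcongr
  have k3 : 10000 * L * (L * (L * ρ)) ≤ N * (L * (L * ρ)) := by gcongr
  have nN : ‖(N : ℂ)‖ = N := Complex.norm_natCast N
  have nA : 97 / 100 * (N * ρ) ≤ ‖N * B1 - B2‖ := by
    have h1 := norm_sub_norm_le (N * B1) B2
    rw [norm_mul, nN] at h1
    have : N * (99 / 100 * ρ) ≤ N * ‖B1‖ := by gcongr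
    linarith
  refine ⟨by linarith, le_trans (by gcongr) hδ, ?_, ?_, ?_, ?_⟩
  · have : 250 * L * (99 / 100 * ρ) ≤ 250 * L * ‖B1‖ := by gcongr
    linarith
  · have h1 := norm_sub_le (N * B2) B3
    rw [norm_mul, nN] at h1
    have h2 : N * ‖B2‖ ≤ N * (121 * (L * ρ)) := by gcongr
    have h3 : 250 * L * (97 / 100 * (N * ρ)) ≤ 250 * L * ‖N * B1 - B2‖ := by gcongr
    have : 0 < N * (L * ρ) := by positivity
    linarith
  · have h1 := norm_sub_le (N * B3) B4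
    rw [norm_mul, nN] at h1
    have h2 : N * ‖B3‖ ≤ N * (14401 * (L * (L * ρ))) := by gcongr
    have h3 : (250 * L) ^ 2 * (97 / 100 * (N * ρ)) ≤ (250 * L) ^ 2 * ‖N * B1 - B2‖ := by gcongr
    have : 0 < N * (L * (L * ρ)) := by positivity
    linarith
  · have h1 : D - (N * B1 - B2) = (D - N * R1) - N * (B1 - R1) + B2 := by ring
    have h2 : ‖D - (N * B1 - B2)‖ ≤ ‖D - N * R1‖ + N * ‖B1 - R1‖ + ‖B2‖ := by
      rw [h1]
      refine (norm_add_le _ _).trans (add_le_add ((norm_sub_le _ _).trans ?_) le_rfl)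
      rw [norm_mul, nN]
    have h3 : N * ‖B1 - R1‖ ≤ N * δ := by gcongr
    have h4 : 1000 * e * (97 / 100 * (N * ρ)) ≤ 1000 * e * ‖N * B1 - B2‖ := by gcongr
    have h5 : L * ρ ≤ e * N * ρ := by gcongr
    linarith

private lemma K_le (H : Par N r κ a) : 0 ≤ 250 / (1 - r) ∧ 250 / (1 - r) * a ≤ 250 * N := by
  obtain ⟨y0, -, LN, -⟩ := H.facts
  refine ⟨by positivity, ?_⟩
  rw [div_eq_mul_inv]
  linarith

private lemma AA_ge (H : Par N r κ a) (ha : 10000 ≤ a)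
    (hp : Apx r (al N r κ) ((1 - r) / (a * N)) p) {z : ℂ} (hz : ‖z‖ = 1) :
    39 / 40 * (N * ‖(Dz p).eval z‖) ≤ ‖(AA N p).eval z‖ ∧ 0 < ‖(AA N p).eval z‖ := by
  obtain ⟨h1, -, h3, -⟩ := hat H ha hp hz
  obtain ⟨K0, K1⟩ := K_le H
  have N0 := H.facts.2.2.2
  generalize 250 / (1 - r) = K at *
  have h4 := norm_sub_norm_le (N * (Dz p).eval z) ((Dz (Dz p)).eval z)
  rw [norm_mul, Complex.norm_natCast, ← AA_eval] at h4
  have h5 : 40 * K ≤ N := by nlinarith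
  have h6 : 39 / 40 * (N * ‖(Dz p).eval z‖) ≤ ‖(AA N p).eval z‖ := by nlinarith
  exact ⟨h6, lt_of_lt_of_le (by positivity) h6⟩

theorem diag (H : Par N r κ a) (ha : 10000 ≤ a) (hp : Apx r (al N r κ) ((1 - r) / (a * N)) p)
    {η c : ℝ} (η0 : 0 ≤ η) (η1 : η < 1) (c0 : 0 ≤ c) (c1 : c ≤ 1) {z : ℂ} (hz : ‖z‖ = 1) :
    (1 - c) * (z * deriv (MM N r κ) z) +
      c * ((AA N p).eval z + η * I * z ^ N * conj ((AA N p).eval z)) ≠ 0 := by
  obtain ⟨-, -, -, -, -, h6⟩ := hat H ha hp hz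
  have h0 := (AA_ge H ha hp hz).2
  generalize (AA N p).eval z = A at *
  generalize z * deriv (MM N r κ) z = D at *
  intro h
  have e : A = -(((1 - c : ℝ) : ℂ) * (D - A) + c * (η * I * z ^ N * conj A)) := by
    push_cast
    linear_combination h
  have h1 : ‖A‖ ≤ (1 - c) * ‖D - A‖ + c * (η * ‖A‖) := by
    conv_lhs => rw [e, norm_neg]
    refine (norm_add_le _ _).trans (le_of_eq ?_)
    simp only [norm_mul, norm_real, Real.norm_eq_abs, abs_of_nonneg c0, abs_of_nonneg η0,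
      abs_of_nonneg (sub_nonneg.2 c1), norm_I, norm_pow, hz, one_pow, mul_one, RCLike.norm_conj]
  have h2 : 1000 / a ≤ 1 / 10 := by rw [div_le_iff₀ (by linarith)]; linarith
  have h3 : ‖D - A‖ ≤ 1 / 10 * ‖A‖ := h6.trans (by gcongr)
  have h4 : (1 - c) * ‖D - A‖ ≤ (1 - c) * (1 / 10 * ‖A‖) := by gcongr
  have h5 : 0 < 9 / 10 * (1 - c) + c * (1 - η) := by
    rcases c1.eq_or_lt with h | h
    · rw [h]; linarith
    · have : 0 ≤ c * (1 - η) := mul_nonneg c0 (by linarith)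
      linarith
  nlinarith [mul_pos h5 h0]

private lemma nc (t : ℝ) : ‖circleMap 0 1 t‖ = 1 := by simp

private lemma dM (H : Par N r κ a) (θ : ℝ) : HasDerivAt (fun t => MM N r κ (circleMap 0 1 t))
    (I * (circleMap 0 1 θ * deriv (MM N r κ) (circleMap 0 1 θ))) θ := by
  have r0 : 0 < r := by linarith [H.1]
  have h : circleMap 0 1 θ ∈ ball (0 : ℂ) r⁻¹ := by
    rw [mem_ball_zero_iff, nc]
    exact (one_lt_inv₀ r0).2 H.2.1
  have h1 := (H.base.1.differentiableAt (isOpen_ball.mem_nhds h)).hasDerivAt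
  exact (h1.comp θ (hasDerivAt_circleMap 0 1 θ)).congr_deriv (by ring)

private lemma dL (N : ℕ) (p : ℂ[X]) (θ : ℝ) :
    HasDerivAt (fun t => N * p.eval (circleMap 0 1 t) - (Dz p).eval (circleMap 0 1 t))
      (I * (AA N p).eval (circleMap 0 1 θ)) θ :=
  (((hasDerivAt_circle p θ).const_mul (N : ℂ)).sub (hasDerivAt_circle (Dz p) θ)).congr_deriv
    (by rw [AA_eval]; ring)

private lemma cpow (N : ℕ) (t : ℝ) : circleMap 0 1 t ^ N = exp (N * t * I) := by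
  rw [circleMap, zero_add, ofReal_one, one_mul, ← Complex.exp_nat_mul, mul_assoc]

private lemma dH (N : ℕ) (p : ℂ[X]) (θ : ℝ) :
    HasDerivAt (fun t : ℝ => exp (N * t * I) * conj ((Dz p).eval (circleMap 0 1 t)))
      (I * (exp (N * θ * I) * conj ((AA N p).eval (circleMap 0 1 θ)))) θ := by
  have h1 : HasDerivAt (fun t : ℝ => exp (N * t * I)) (exp (N * θ * I) * (N * 1 * I)) θ :=
    (((hasDerivAt_id θ).ofReal_comp.const_mul (N : ℂ)).mul_const I).cexp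
  have h2 : HasDerivAt (fun t : ℝ => conj ((Dz p).eval (circleMap 0 1 t)))
      (conj (I * (Dz (Dz p)).eval (circleMap 0 1 θ))) θ := (hasDerivAt_circle (Dz p) θ).star
  refine (h1.mul h2).congr_deriv ?_
  rw [AA_eval]
  simp only [map_mul, map_sub, conj_I, map_natCast]
  ring

private lemma re_deriv {f : ℝ → ℂ} {f' : ℂ} {t : ℝ} (h : HasDerivAt f f' t) :
    HasDerivAt (fun t => (f t).re) f'.re t := reCLM.hasFDerivAt.comp_hasDerivAt t h

private lemma key_num {y k c x : ℝ} (y0 : 0 < y) (y1 : y ≤ 3 / 2) (k0 : 0 ≤ k) (k1 : k ≤ 1 / 4000)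
    (c0 : 0 ≤ c) (c1 : c ≤ 1) (x1 : x ≤ 1) (x2 : x ≤ 1 - y ^ 2 / 8) :
    4 * (k * y) ^ 2 + (1 - c) * (1 / 400) + c * (x * (2 + 4 * (k * y) ^ 2) + y * (4 * (k * y))) < 2 := by
  have q0 : 0 < y ^ 2 := by positivity
  have q2 : k * y ^ 2 ≤ 1 / 4000 * y ^ 2 := by gcongr
  have q1 : k * (k * y ^ 2) ≤ 1 * (k * y ^ 2) := by gcongr; linarith
  have q3 : x * (k * y) ^ 2 ≤ 1 * (k * y) ^ 2 := by gcongr
  have q4 : y ^ 2 ≤ 9 / 4 := by nlinarith
  have q5 : x * (2 + 4 * (k * y) ^ 2) + y * (4 * (k * y)) ≤ 2 - y ^ 2 / 5 := by linarith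
  have q6 := mul_le_mul_of_nonneg_left q5 c0
  have q7 : 0 ≤ (1 - c) * (9 / 4 - y ^ 2) := mul_nonneg (by linarith) (by linarith)
  linarith

private lemma key_small {A0 Ap Am Dp Dm w : ℂ} {y k c η : ℝ} (hw : ‖w‖ = 1) (y0 : 0 < y)
    (y1 : y ≤ 3 / 2) (k0 : 0 ≤ k) (k1 : k ≤ 1 / 4000) (η0 : 0 ≤ η) (η1 : η ≤ 1) (c0 : 0 ≤ c)
    (c1 : c ≤ 1) (n0 : 0 < ‖A0‖) (h1 : ‖Ap - A0‖ ≤ 2 * (k * y) * ‖A0‖)
    (h2 : ‖Am - A0‖ ≤ 2 * (k * y) * ‖A0‖) (h3 : ‖Ap + Am - 2 * A0‖ ≤ 4 * (k * y) ^ 2 * ‖A0‖)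
    (h4 : ‖Dp - Ap‖ ≤ 1 / 1000 * ‖Ap‖) (h5 : ‖Dm - Am‖ ≤ 1 / 1000 * ‖Am‖) :
    0 < (((1 - c) * (Dp + Dm) + c * (Ap + Am + η * I * (w * exp (y * I) * conj Ap +
      w * exp (-y * I) * conj Am))) * conj A0).re := by
  have e : ((1 - c) * (Dp + Dm) + c * (Ap + Am + η * I * (w * exp (y * I) * conj Ap +
      w * exp (-y * I) * conj Am))) = 2 * A0 + ((Ap + Am - 2 * A0) +
      ((1 - c : ℝ) : ℂ) * ((Dp - Ap) + (Dm - Am)) + c * (η * I * w *
        ((Real.cos y : ℝ) * conj (Ap + Am) + (Real.sin y : ℝ) * I * conj (Ap - Am)))) := by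
    rw [exp_mul_I, exp_mul_I, Complex.cos_neg, Complex.sin_neg]
    simp only [map_add, map_sub]
    push_cast
    ring
  have pi3 := Real.pi_gt_three
  have cs0 : 0 ≤ Real.cos y := Real.cos_nonneg_of_mem_Icc ⟨by linarith, by linarith⟩
  have sn0 : 0 ≤ Real.sin y := Real.sin_nonneg_of_nonneg_of_le_pi y0.le (by linarith)
  have sn1 : Real.sin y ≤ y := Real.sin_le y0.le
  have cs1 : Real.cos y ≤ 1 - y ^ 2 / 8 := by
    have h := Real.cos_le_one_sub_mul_cos_sq (x := y) (by rw [abs_of_pos y0]; linarith)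
    have h' : 1 / 8 ≤ 2 / π ^ 2 := by
      rw [div_le_div_iff₀ (by norm_num) (by positivity)]
      nlinarith [Real.pi_lt_four]
    nlinarith [sq_nonneg y]
  have ky : k * y ≤ 1 / 2000 := by
    have := mul_le_mul_of_nonneg_right k1 y0.le
    linarith
  have ky0 : 0 ≤ k * y := by positivity
  generalize hn : ‖A0‖ = n at *
  have kn := mul_le_mul_of_nonneg_right ky n0.le
  have p1 : ‖Ap‖ ≤ 1001 / 1000 * n := by
    have := norm_le_norm_add_norm_sub' Ap A0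
    linarith
  have p2 : ‖Am‖ ≤ 1001 / 1000 * n := by
    have := norm_le_norm_add_norm_sub' Am A0
    linarith
  have p3 : ‖Ap + Am‖ ≤ 2 * n + 4 * (k * y) ^ 2 * n := by
    have := norm_le_norm_add_norm_sub' (Ap + Am) (2 * A0)
    rw [norm_mul, Complex.norm_ofNat, hn] at this
    linarith
  have p4 : ‖Ap - Am‖ ≤ 4 * (k * y) * n := by
    have := norm_sub_le_norm_sub_add_norm_sub Ap A0 Am
    rw [norm_sub_rev A0] at this
    linarith
  have p5 : ‖(Real.cos y : ℝ) * conj (Ap + Am) + (Real.sin y : ℝ) * I * conj (Ap - Am)‖ ≤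
      Real.cos y * (2 * n + 4 * (k * y) ^ 2 * n) + y * (4 * (k * y) * n) := by
    refine (norm_add_le _ _).trans ?_
    simp only [norm_mul, norm_real, Real.norm_eq_abs, abs_of_nonneg cs0, abs_of_nonneg sn0,
      norm_I, mul_one, RCLike.norm_conj]
    gcongr
  rw [e]
  generalize (Real.cos y : ℝ) * conj (Ap + Am) + (Real.sin y : ℝ) * I * conj (Ap - Am) = X at *
  have p6 : ‖(Ap + Am - 2 * A0) + ((1 - c : ℝ) : ℂ) * ((Dp - Ap) + (Dm - Am)) +
      c * (η * I * w * X)‖ ≤ 4 * (k * y) ^ 2 * n + (1 - c) * (1 / 400 * n) +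
        c * (Real.cos y * (2 * n + 4 * (k * y) ^ 2 * n) + y * (4 * (k * y) * n)) := by
    refine norm_add₃_le.trans (add_le_add_three h3 ?_ ?_)
    · rw [norm_mul, norm_real, Real.norm_eq_abs, abs_of_nonneg (sub_nonneg.2 c1)]
      have := norm_add_le (Dp - Ap) (Dm - Am)
      gcongr
      linarith
    · simp only [norm_mul, norm_real, Real.norm_eq_abs, abs_of_nonneg c0, abs_of_nonneg η0,
        norm_I, mul_one, hw]
      have : η * ‖X‖ ≤ 1 * ‖X‖ := by gcongr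
      gcongr
      linarith
  generalize (Ap + Am - 2 * A0) + ((1 - c : ℝ) : ℂ) * ((Dp - Ap) + (Dm - Am)) +
      c * (η * I * w * X) = Y at *
  have p7 : ((2 * A0 + Y) * conj A0).re = 2 * n ^ 2 + (Y * conj A0).re := by
    rw [add_mul, mul_assoc, mul_conj', hn, add_re]
    norm_cast
  have p8 : |(Y * conj A0).re| ≤ ‖Y‖ * n := by
    refine (abs_re_le_norm _).trans (le_of_eq ?_)
    rw [norm_mul, RCLike.norm_conj, hn]
  have p9 : ‖Y‖ < 2 * n := by
    refine p6.trans_lt ?_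
    have q7 := mul_lt_mul_of_pos_right (key_num y0 y1 k0 k1 c0 c1 (Real.cos_le_one y) cs1) n0
    linarith
  rw [p7]
  linarith [neg_abs_le (Y * conj A0).re, mul_lt_mul_of_pos_right p9 n0]

private lemma slowA (H : Par N r κ a) (ha : 10000 ≤ a)
    (hp : Apx r (al N r κ) ((1 - r) / (a * N)) p) {s t : ℝ} (h : 250 / (1 - r) * |t - s| ≤ 1) :
    ‖(AA N p).eval (circleMap 0 1 t) - (AA N p).eval (circleMap 0 1 s)‖ ≤
      2 * (250 / (1 - r) * |t - s|) * ‖(AA N p).eval (circleMap 0 1 s)‖ :=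
  slow (hasDerivAt_circle (AA N p)) (fun t => by
    rw [norm_mul, norm_I, one_mul]; exact (hat H ha hp (nc t)).2.2.2.1) (K_le H).1 h

theorem near_small (H : Par N r κ a) (ha : 10 ^ 6 ≤ a)
    (hp : Apx r (al N r κ) ((1 - r) / (a * N)) p) {η c : ℝ} (η0 : 0 ≤ η) (η1 : η ≤ 1) (c0 : 0 ≤ c)
    (c1 : c ≤ 1) (θ : ℝ) {τ : ℝ} (τ0 : 0 < τ) (τ1 : N * τ ≤ 3 / 2) :
    Dl N r κ η c p (circleMap 0 1 (θ - τ)) (circleMap 0 1 (θ + τ)) ≠ 0 := by
  have ha' : 10000 ≤ a := by linarith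
  have N0 := H.facts.2.2.2
  obtain ⟨K0, K1⟩ := K_le H
  obtain ⟨A, hA⟩ : ∃ A : ℝ → ℂ, A = fun t => (AA N p).eval (circleMap 0 1 t) := ⟨_, rfl⟩
  obtain ⟨D, hD⟩ : ∃ D : ℝ → ℂ, D = fun t =>
    circleMap 0 1 t * deriv (MM N r κ) (circleMap 0 1 t) := ⟨_, rfl⟩
  obtain ⟨G, hG⟩ : ∃ G : ℝ → ℂ, G = fun t => (1 - c) * MM N r κ (circleMap 0 1 t) +
    c * Pv N η p (circleMap 0 1 t) := ⟨_, rfl⟩
  have dG : ∀ t, HasDerivAt G
      (I * ((1 - c) * D t + c * (A t + η * I * (exp (N * t * I) * conj (A t))))) t := by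
    intro t
    have h := ((dM H t).const_mul (1 - c : ℂ)).add
      (((dL N p t).add ((dH N p t).const_mul (η * I))).const_mul (c : ℂ))
    refine (h.congr_deriv ?_).congr_of_eventuallyEq (Eventually.of_forall fun s => ?_)
    · rw [hA, hD]; ring
    · simp only [hG, Pv, cpow, Pi.add_apply]; ring
  have n0 : 0 < ‖A θ‖ := by rw [hA]; exact (AA_ge H ha' hp (nc θ)).2
  have dF : ∀ t, HasDerivAt (fun t => ((G (θ + t) - G (θ - t)) * (-I * conj (A θ))).re)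
      ((((1 - c) * (D (θ + t) + D (θ - t)) + c * (A (θ + t) + A (θ - t) + η * I *
        (exp (N * θ * I) * exp ((N * t : ℝ) * I) * conj (A (θ + t)) +
          exp (N * θ * I) * exp (-(N * t : ℝ) * I) * conj (A (θ - t))))) * conj (A θ)).re) t := by
    intro t
    have h := (((dG (θ + t)).comp_const_add θ t).sub
      ((dG (θ - t)).comp_const_sub θ t)).mul_const (-I * conj (A θ))
    refine re_deriv (h.congr_deriv ?_)
    have e1 : exp (N * ((θ + t : ℝ) : ℂ) * I) = exp (N * θ * I) * exp ((N * t : ℝ) * I) := by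
      rw [← Complex.exp_add]; push_cast; ring_nf
    have e2 : exp (N * ((θ - t : ℝ) : ℂ) * I) = exp (N * θ * I) * exp (-(N * t : ℝ) * I) := by
      rw [← Complex.exp_add]; push_cast; ring_nf
    rw [e1, e2]
    linear_combination (-(((1 - c) * (D (θ + t) + D (θ - t)) + c * (A (θ + t) + A (θ - t) + η * I *
        (exp (N * θ * I) * exp ((N * t : ℝ) * I) * conj (A (θ + t)) +
          exp (N * θ * I) * exp (-(N * t : ℝ) * I) * conj (A (θ - t))))) * conj (A θ))) * I_mul_I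
  obtain ⟨t, ⟨t0, t1⟩, ht⟩ := exists_hasDerivAt_eq_slope _ _ τ0
    (fun t _ => (dF t).continuousAt.continuousWithinAt) fun t _ => dF t
  have hk : 250 / (1 - r) = 250 / (1 - r) / N * N := by field_simp
  have k1 : 250 / (1 - r) / N ≤ 1 / 4000 := by
    rw [div_le_iff₀ N0]; nlinarith
  have y1 : N * t ≤ 3 / 2 := by nlinarith
  have Kt : 250 / (1 - r) * t = 250 / (1 - r) / N * (N * t) := by field_simp
  have Kt1 : 250 / (1 - r) * t ≤ 1 / 2 := by
    rw [Kt]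
    have : 0 ≤ 250 / (1 - r) / N := by positivity
    nlinarith
  have sl : ∀ x, |x - θ| ≤ t → ‖A x - A θ‖ ≤ 2 * (250 / (1 - r) * t) * ‖A θ‖ := by
    intro x hx
    have h1 : 250 / (1 - r) * |x - θ| ≤ 250 / (1 - r) * t := by gcongr
    rw [hA]
    exact (slowA H ha' hp (by linarith)).trans (by gcongr)
  have sd : ‖A (θ + t) + A (θ - t) - 2 * A θ‖ ≤
      2 * ((250 / (1 - r)) ^ 2 * (2 * ‖A θ‖)) * t ^ 2 := by
    have h2 : ∀ x, |x - θ| ≤ t → ‖I * (I * (Dz (Dz (AA N p))).eval (circleMap 0 1 x))‖ ≤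
        (250 / (1 - r)) ^ 2 * (2 * ‖A θ‖) := by
      intro x hx
      rw [norm_mul, norm_mul, norm_I, one_mul, one_mul]
      refine (hat H ha' hp (nc x)).2.2.2.2.1.trans ?_
      have h3 := norm_le_norm_add_norm_sub' (A x) (A θ)
      have h4 := sl x hx
      have h5 : ‖A x‖ ≤ 2 * ‖A θ‖ := by nlinarith
      rw [hA] at h5
      gcongr
      rw [hA]
      exact h5
    rw [hA] at *
    exact second_diff (hasDerivAt_circle (AA N p))
      (fun x => (hasDerivAt_circle (Dz (AA N p)) x).const_mul I) t0.le h2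
  have dA : ∀ x, ‖D x - A x‖ ≤ 1 / 1000 * ‖A x‖ := by
    intro x
    have h2 : 1000 / a ≤ 1 / 1000 := by rw [div_le_iff₀ (by linarith)]; linarith
    rw [hA, hD]
    exact (hat H ha' hp (nc x)).2.2.2.2.2.trans (by gcongr)
  have key := key_small (w := exp (N * θ * I)) (y := N * t) (k := 250 / (1 - r) / N)
    (by rw [← cpow, norm_pow, nc, one_pow]) (by positivity) y1 (by positivity) k1 η0 η1 c0 c1 n0
    (Kt ▸ sl (θ + t) (by rw [add_sub_cancel_left, abs_of_pos t0]))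
    (Kt ▸ sl (θ - t) (by rw [sub_sub_cancel_left, abs_neg, abs_of_pos t0]))
    (sd.trans (le_of_eq (by rw [← Kt]; ring))) (dA _) (dA _)
  intro h0
  have h1 : G (θ + τ) - G (θ - τ) = 0 := by
    rw [← h0, hG, Dl]; ring
  rw [ht, h1] at key
  simp at key

theorem near_mid (H : Par N r κ a) {b : ℝ} (hb : 1 ≤ b) (ha : 10 ^ 6 * b ≤ a)
    (hp : Apx r (al N r κ) ((1 - r) / (a * N)) p) {η c : ℝ} (η0 : 0 ≤ η) (η1 : η ≤ 1) (c0 : 0 ≤ c)
    (c1 : c ≤ 1) (θ : ℝ) {τ : ℝ} (τ0 : 3 / 2 ≤ N * τ) (τ1 : N * τ ≤ b) :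
    Dl N r κ η c p (circleMap 0 1 (θ - τ)) (circleMap 0 1 (θ + τ)) ≠ 0 := by
  have ha' : 10000 ≤ a := by linarith
  have N0 := H.facts.2.2.2
  obtain ⟨K0, K1⟩ := K_le H
  have t0 : 0 < τ := by
    by_contra h
    nlinarith
  have Kt : 250 / (1 - r) * τ ≤ 1 / 4000 := by
    have h1 : 250 / (1 - r) * a * τ ≤ 250 * N * τ := by gcongr
    have h2 : 250 / (1 - r) * τ * a ≤ 1 / 4000 * a := by linarith
    exact le_of_mul_le_mul_right h2 (by linarith)
  obtain ⟨nA, n0⟩ := AA_ge H ha' hp (nc θ)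
  have b0 := (hat H ha' hp (nc θ)).1
  have dG : ∀ t, HasDerivAt (fun t => (1 - c) * MM N r κ (circleMap 0 1 t) +
      c * (N * p.eval (circleMap 0 1 t) - (Dz p).eval (circleMap 0 1 t)))
      ((1 - c) * (I * (circleMap 0 1 t * deriv (MM N r κ) (circleMap 0 1 t))) +
        c * (I * (AA N p).eval (circleMap 0 1 t))) t := fun t =>
    ((dM H t).const_mul (1 - c : ℂ)).add ((dL N p t).const_mul (c : ℂ))
  have la := lin_approx dG (s := θ - τ) (t := θ + τ)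
    (E := 1 / 500 * ‖(AA N p).eval (circleMap 0 1 θ)‖)
    (a := I * (AA N p).eval (circleMap 0 1 θ)) fun x hx => by
      rw [uIcc_of_le (by linarith)] at hx
      have hx' : |x - θ| ≤ τ := abs_le.2 ⟨by linarith [hx.1], by linarith [hx.2]⟩
      have h1 : 250 / (1 - r) * |x - θ| ≤ 250 / (1 - r) * τ := by gcongr
      have h2 := slowA H ha' hp (s := θ) (t := x) (by linarith)
      have h3 := (hat H ha' hp (nc x)).2.2.2.2.2
      have h4 : 1000 / a ≤ 1 / 1000 := by rw [div_le_iff₀ (by linarith)]; linarith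
      generalize (AA N p).eval (circleMap 0 1 x) = A at *
      generalize (AA N p).eval (circleMap 0 1 θ) = A0 at *
      generalize circleMap 0 1 x * deriv (MM N r κ) (circleMap 0 1 x) = D at *
      have e : (1 - c) * (I * D) + c * (I * A) - I * A0 =
          I * (((1 - c : ℝ) : ℂ) * (D - A) + (A - A0)) := by push_cast; ring
      have h5 := norm_add_le (((1 - c : ℝ) : ℂ) * (D - A)) (A - A0)
      rw [norm_mul, norm_real, Real.norm_eq_abs, abs_of_nonneg (sub_nonneg.2 c1)] at h5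
      have h6 := norm_le_norm_add_norm_sub' A A0
      have h7 : ‖D - A‖ ≤ 1 / 1000 * ‖A‖ := h3.trans (by gcongr)
      have h8 : ‖A - A0‖ ≤ 1 / 2000 * ‖A0‖ := h2.trans (by gcongr; linarith)
      have h9 := mul_nonneg c0 (norm_nonneg (D - A))
      rw [e, norm_mul, norm_I, one_mul]
      linarith
  have sB : ∀ x, |x - θ| = τ → ‖(Dz p).eval (circleMap 0 1 x)‖ ≤
      2001 / 2000 * ‖(Dz p).eval (circleMap 0 1 θ)‖ := by
    intro x hx
    have h2 := slow (hasDerivAt_circle (Dz p)) (fun t => by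
      rw [norm_mul, norm_I, one_mul]; exact (hat H ha' hp (nc t)).2.2.1) (s := θ) (t := x) K0
      (by rw [hx]; linarith)
    have h3 := norm_le_norm_add_norm_sub' ((Dz p).eval (circleMap 0 1 x))
      ((Dz p).eval (circleMap 0 1 θ))
    rw [hx] at h2
    nlinarith
  have s1 := sB (θ + τ) (by rw [add_sub_cancel_left, abs_of_pos t0])
  have s2 := sB (θ - τ) (by rw [sub_sub_cancel_left, abs_neg, abs_of_pos t0])
  intro h0
  have z1 := nc (θ + τ)
  have z2 := nc (θ - τ)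
  unfold Dl Pv at h0
  rw [show θ + τ - (θ - τ) = 2 * τ by ring, abs_of_pos (by linarith)] at la
  generalize circleMap 0 1 (θ + τ) = zp at *
  generalize circleMap 0 1 (θ - τ) = zm at *
  generalize (AA N p).eval (circleMap 0 1 θ) = A0 at *
  have e : ((2 * τ : ℝ) : ℂ) * (I * A0) =
      -((1 - c) * MM N r κ zp + c * (N * p.eval zp - (Dz p).eval zp) -
        ((1 - c) * MM N r κ zm + c * (N * p.eval zm - (Dz p).eval zm)) -
        (((θ + τ : ℝ) : ℂ) - ((θ - τ : ℝ) : ℂ)) * (I * A0)) -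
      c * (η * I * (zp ^ N * conj ((Dz p).eval zp) - zm ^ N * conj ((Dz p).eval zm))) := by
    push_cast
    linear_combination h0
  have h1 := congrArg norm e
  have h2 := norm_sub_le (zp ^ N * conj ((Dz p).eval zp)) (zm ^ N * conj ((Dz p).eval zm))
  simp only [norm_mul, norm_pow, z1, z2, one_pow, one_mul, RCLike.norm_conj] at h2
  have h3 := h1.le.trans (norm_sub_le _ _)
  rw [norm_neg] at h3
  simp only [norm_mul, norm_real, Real.norm_eq_abs, norm_I, one_mul, mul_one, abs_of_nonneg c0,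
    abs_of_nonneg η0, abs_of_pos t0, abs_two] at h3
  generalize ‖zp ^ N * conj ((Dz p).eval zp) - zm ^ N * conj ((Dz p).eval zm)‖ = X at *
  have X0 : c * (η * X) ≤ 2001 / 1000 * ‖(Dz p).eval (circleMap 0 1 θ)‖ := by
    have h4 : c * η ≤ 1 := mul_le_one₀ c1 η0 η1
    have h5 : X ≤ 2001 / 1000 * ‖(Dz p).eval (circleMap 0 1 θ)‖ := by linarith
    have h6 : c * η * X ≤ c * η * (2001 / 1000 * ‖(Dz p).eval (circleMap 0 1 θ)‖) := by gcongr
    nlinarith
  have h7 : τ * (39 / 40 * (N * ‖(Dz p).eval (circleMap 0 1 θ)‖)) ≤ τ * ‖A0‖ := by gcongr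
  nlinarith [mul_le_mul_of_nonneg_right τ0 b0.le]

end Pool.Agent.P.MP_c09211_an.Sh
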