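import Pool.Agent.P.MP_c09211_an.Sh.LowC

/-!
Distant pairs and the thin part of the slit.
-/

set_option autoImplicit false

namespace Pool.Agent.P.MP_c09211_an.Sh

open Metric Set Complex Filter Topology Polynomial
open scoped Real ComplexConjugate

variable {N : ℕ} {r κ a : ℝ}

theorem lr_G (α : ℝ) (u : ℂ) : (Gp α).eval u = u + α * u ^ 2 := by simp [Gp]

theorem lr_R0 (r α : ℝ) (z : ℂ) : RR r α 0 z = ((Gp α).eval (uu r z)) ^ 2 := by simp [RR]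

theorem lr_R1 (r α : ℝ) (z : ℂ) : RR r α 1 z = 2 * (uu r z + α * uu r z ^ 2) *
    (1 + 2 * α * uu r z) * (uu r z ^ 2 - 1 / 4) := by
  simp [RR, Du, Gp, derivative_pow]
  ring

theorem lr_uu_conj (r : ℝ) (z : ℂ) : uu r (conj z) = conj (uu r z) := by
  simp [uu, map_ofNat]

theorem lr_G_conj (α : ℝ) (u : ℂ) : (Gp α).eval (conj u) = conj ((Gp α).eval u) := by
  simp [lr_G]

theorem lr_den {z : ℂ} (r0 : 0 ≤ r) (hz : ‖z‖ = 1) : 1 - r ≤ ‖1 - (r : ℂ) * z‖ := by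
  have h := norm_sub_norm_le (1 : ℂ) (r * z)
  rwa [norm_one, norm_mul, hz, norm_real, Real.norm_of_nonneg r0, mul_one] at h

theorem lr_v (r : ℝ) (z : ℂ) : uu r z + 1 / 2 = 1 / (1 - r * z) := by
  simp [uu]

theorem lr_v_le {z : ℂ} (r0 : 0 ≤ r) (r1 : r < 1) (hz : ‖z‖ = 1) :
    (1 - r) * ‖uu r z + 1 / 2‖ ≤ 1 := by
  have h := lr_den r0 hz
  have h0 : 0 < ‖1 - (r : ℂ) * z‖ := lt_of_lt_of_le (by linarith) h
  rw [lr_v, norm_div, norm_one, mul_one_div, div_le_one h0]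
  exact h

theorem lr_re {z : ℂ} (r0 : 0 ≤ r) (r1 : r < 1) (hz : ‖z‖ = 1) :
    (uu r z).re = (1 - r ^ 2) / 2 * ‖uu r z + 1 / 2‖ ^ 2 := by
  have h0 : (1 : ℂ) - r * z ≠ 0 := norm_pos_iff.1 (lt_of_lt_of_le (by linarith) (lr_den r0 hz))
  have e : uu r z + 1 / 2 - 1 = r * z * (uu r z + 1 / 2) := by
    rw [lr_v]
    field_simp
    ring
  have e2 : ‖uu r z + 1 / 2 - 1‖ ^ 2 = r ^ 2 * ‖uu r z + 1 / 2‖ ^ 2 := by
    rw [e, norm_mul, norm_mul, hz, norm_real, Real.norm_of_nonneg r0]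
    ring
  have e3 : ‖uu r z + 1 / 2 - 1‖ ^ 2 = ‖uu r z + 1 / 2‖ ^ 2 - 2 * (uu r z).re := by
    rw [Complex.sq_norm, Complex.sq_norm, normSq_apply, normSq_apply]
    simp
    ring
  linarith

theorem lr_sq (u : ℂ) : ‖u + 1 / 2‖ ^ 2 = (u.re + 1 / 2) ^ 2 + u.im ^ 2 := by
  rw [Complex.sq_norm, normSq_apply]
  simp
  ring

theorem lr_diff {z₁ z₂ : ℂ} (r0 : 0 ≤ r) (r1 : r < 1) (h1 : ‖z₁‖ = 1) (h2 : ‖z₂‖ = 1) :
    ‖uu r z₂ - uu r z₁‖ = r * ‖z₂ - z₁‖ * (‖uu r z₁ + 1 / 2‖ * ‖uu r z₂ + 1 / 2‖) := by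
  have a1 : (1 : ℂ) - r * z₁ ≠ 0 := norm_pos_iff.1 (lt_of_lt_of_le (by linarith) (lr_den r0 h1))
  have a2 : (1 : ℂ) - r * z₂ ≠ 0 := norm_pos_iff.1 (lt_of_lt_of_le (by linarith) (lr_den r0 h2))
  have e : uu r z₂ - uu r z₁ = r * (z₂ - z₁) * ((uu r z₁ + 1 / 2) * (uu r z₂ + 1 / 2)) := by
    rw [lr_v, lr_v]
    unfold uu
    field_simp
    ring
  rw [e, norm_mul, norm_mul, norm_mul, norm_real, Real.norm_of_nonneg r0]

theorem Par.lr_N (H : Par N r κ a) : (0 : ℝ) < N := by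
  obtain ⟨h1, h2, -, -, h5, h6⟩ := H
  have : (0 : ℝ) ≤ N := Nat.cast_nonneg _
  rcases this.eq_or_lt with h | h
  · rw [← h] at h6
    linarith
  · exact h

theorem Par.lr_re0 (H : Par N r κ a) {z : ℂ} (hz : ‖z‖ = 1) : 0 ≤ (uu r z).re := by
  obtain ⟨h1, h2, -⟩ := H
  rw [lr_re (by linarith) h2 hz]
  have : 0 ≤ 1 - r ^ 2 := by nlinarith
  positivity

theorem Par.lr_reG (H : Par N r κ a) {z : ℂ} (hz : ‖z‖ = 1) :
    ((Gp (al N r κ)).eval (uu r z)).re = (1 - r ^ 2) / 2 * ((uu r z).re + 1 / 2) ^ 2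
      + al N r κ * (uu r z).re ^ 2 - κ / N * (uu r z).im ^ 2 := by
  have e := lr_re (by linarith [H.1]) H.2.1 hz
  rw [lr_sq] at e
  rw [lr_G]
  simp only [add_re, mul_re, ofReal_re, ofReal_im, zero_mul, sub_zero, sq]
  unfold al
  linear_combination e

theorem Par.lr_gp (H : Par N r κ a) {z : ℂ} (hz : ‖z‖ = 1) :
    gp N r κ z = (1 - r ^ 2) / 2 * ((uu r z).re + 1 / 2) ^ 2
      + al N r κ * (uu r z).re ^ 2 + κ / N * ((uu r z).re + 1 / 2) ^ 2 := by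
  unfold gp
  rw [H.lr_reG hz, lr_sq]
  ring

theorem Par.gp_nonneg (H : Par N r κ a) {z : ℂ} (hz : ‖z‖ = 1) : 0 ≤ gp N r κ z := by
  rw [H.lr_gp hz]
  have h0 := H.al_mem.1
  obtain ⟨h1, h2, h3, -⟩ := H
  have : 0 ≤ 1 - r ^ 2 := by nlinarith
  positivity

theorem Par.lr_sep (H : Par N r κ a) {K : ℝ} (hK : 0 ≤ K) (ha : 2 * K ≤ a) {z₁ z₂ : ℂ}
    (h1 : ‖z₁‖ = 1) (h2 : ‖z₂‖ = 1) (h : 4 * K / N ≤ ‖z₂ - z₁‖) :
    K * ‖uu r z₁ + 1 / 2‖ ^ 2 / N ≤ ‖uu r z₂ - uu r z₁‖ := by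
  have hN := H.lr_N
  obtain ⟨r0, r1, -, -, -, h6⟩ := H
  have e := lr_diff (by linarith) r1 h1 h2
  have b1 := lr_v_le (by linarith) r1 h1
  have t : ‖uu r z₁ + 1 / 2‖ - ‖uu r z₂ + 1 / 2‖ ≤ ‖uu r z₂ - uu r z₁‖ := by
    have := norm_sub_norm_le (uu r z₁ + 1 / 2) (uu r z₂ + 1 / 2)
    rwa [add_sub_add_right_eq_sub, norm_sub_rev] at this
  set p := ‖uu r z₁ + 1 / 2‖
  set q := ‖uu r z₂ + 1 / 2‖
  have p0 : 0 ≤ p := norm_nonneg _
  have q0 : 0 ≤ q := norm_nonneg _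
  rcases le_total p (2 * q) with c | c
  · rw [e]
    calc K * p ^ 2 / N = 1 / 2 * (4 * K / N) * (p * (p / 2)) := by ring
      _ ≤ r * ‖z₂ - z₁‖ * (p * q) := by
        gcongr
        linarith
  · refine le_trans ?_ (le_trans (by linarith : p / 2 ≤ p - q) t)
    rw [div_le_iff₀ hN]
    have c1 : K * p ^ 2 ≤ N * (1 - r) / 2 * p ^ 2 := by
      gcongr
      linarith
    have c2 : N * p / 2 * ((1 - r) * p) ≤ N * p / 2 * 1 := by gcongr
    nlinarith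

theorem Par.lr_sepG (H : Par N r κ a) {K : ℝ} (hK : 0 ≤ K) (ha : 2 * K ≤ a) {z₁ z₂ : ℂ}
    (h1 : ‖z₁‖ = 1) (h2 : ‖z₂‖ = 1) (h : 4 * K / N ≤ ‖z₂ - z₁‖) :
    K * max (‖uu r z₁ + 1 / 2‖ ^ 2) (‖uu r z₂ + 1 / 2‖ ^ 2) / N ≤
      ‖(Gp (al N r κ)).eval (uu r z₂) - (Gp (al N r κ)).eval (uu r z₁)‖ := by
  have a1 := H.lr_sep hK ha h1 h2 h
  have a2 := H.lr_sep hK ha h2 h1 (by rwa [norm_sub_rev])
  rw [norm_sub_rev] at a2
  have a3 : K * max (‖uu r z₁ + 1 / 2‖ ^ 2) (‖uu r z₂ + 1 / 2‖ ^ 2) / N ≤ ‖uu r z₂ - uu r z₁‖ := by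
    rcases max_choice (‖uu r z₁ + 1 / 2‖ ^ 2) (‖uu r z₂ + 1 / 2‖ ^ 2) with c | c <;> rw [c] <;>
      assumption
  have e : (Gp (al N r κ)).eval (uu r z₂) - (Gp (al N r κ)).eval (uu r z₁) =
      (uu r z₂ - uu r z₁) * (1 + al N r κ * (uu r z₁ + uu r z₂)) := by
    rw [lr_G, lr_G]
    ring
  have b : 1 ≤ ‖1 + al N r κ * (uu r z₁ + uu r z₂)‖ := by
    refine le_trans ?_ (re_le_norm _)
    have := mul_nonneg H.al_mem.1 (add_nonneg (H.lr_re0 h1) (H.lr_re0 h2))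
    simp only [add_re, one_re, mul_re, ofReal_re, ofReal_im, zero_mul, sub_zero]
    linarith
  rw [e, norm_mul]
  exact a3.trans (le_mul_of_one_le_right (norm_nonneg _) b)

theorem Par.far_pair (H : Par N r κ a) {K : ℝ} (hK : 0 ≤ K) (ha : 6 * K + 18 ≤ a) {z₁ z₂ : ℂ}
    (h1 : ‖z₁‖ = 1) (h2 : ‖z₂‖ = 1) (h : (12 * K + 36) / N ≤ ‖z₂ - z₁‖)
    (h' : (12 * K + 36) / N ≤ ‖z₂ - conj z₁‖ ∨
      (K + 2) * max (‖uu r z₁ + 1 / 2‖ ^ 2) (‖uu r z₂ + 1 / 2‖ ^ 2) / N ≤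
        gp N r κ z₁ + gp N r κ z₂) :
    K * max (sz N r κ z₁) (sz N r κ z₂) ≤
      N * ‖RR r (al N r κ) 0 z₂ - RR r (al N r κ) 0 z₁‖ := by
  have hN := H.lr_N
  have e4 : 4 * (3 * K + 9) = 12 * K + 36 := by ring
  have s1 := H.lr_sepG (K := 3 * K + 9) (by linarith) (by linarith) h1 h2 (by rwa [e4])
  have g1 := H.gp_nonneg h1
  have g2 := H.gp_nonneg h2
  have hc : ‖conj z₁‖ = 1 := by rw [Complex.norm_conj, h1]
  have ec : ‖uu r (conj z₁) + 1 / 2‖ = ‖uu r z₁ + 1 / 2‖ := by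
    rw [lr_uu_conj, ← Complex.norm_conj (uu r z₁ + 1 / 2)]
    simp [map_ofNat]
  have s2 := fun hh => H.lr_sepG (K := 3 * K + 9) (by linarith) (by linarith) hc h2 hh
  rw [ec, lr_uu_conj, lr_G_conj, e4] at s2
  obtain ⟨-, -, k0, k1, -⟩ := H
  unfold gp at g1 g2 h'
  unfold sz
  rw [lr_R0, lr_R0]
  set G₁ := (Gp (al N r κ)).eval (uu r z₁)
  set G₂ := (Gp (al N r κ)).eval (uu r z₂)
  set p := ‖uu r z₁ + 1 / 2‖ ^ 2
  set q := ‖uu r z₂ + 1 / 2‖ ^ 2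
  have p0 : 0 ≤ p := sq_nonneg _
  have q0 : 0 ≤ q := sq_nonneg _
  have pV := le_max_left p q
  have qV := le_max_right p q
  set V := max p q
  have V0 : 0 ≤ V / N := div_nonneg (p0.trans pV) hN.le
  have kp : κ / N * p ≤ V / N := by
    rw [div_mul_eq_mul_div]
    gcongr
    nlinarith
  have kq : κ / N * q ≤ V / N := by
    rw [div_mul_eq_mul_div]
    gcongr
    nlinarith
  have kp0 : 0 ≤ κ / N * p := by positivity
  have kq0 : 0 ≤ κ / N * q := by positivity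
  have re1 : G₁.re + G₂.re ≤ ‖G₂ + G₁‖ := by
    have := re_le_norm (G₂ + G₁)
    rw [add_re] at this
    linarith
  have s3 : K * (V / N) ≤ ‖G₂ + G₁‖ := by
    rcases h' with c | c
    · have c1 := s2 c
      have c2 : ‖G₂ - conj G₁‖ ≤ ‖G₂ + G₁‖ + 2 * |G₁.re| := by
        have e : G₂ - conj G₁ = (G₂ + G₁) - ((2 * G₁.re : ℝ) : ℂ) := by
          rw [← add_conj]
          ring
        rw [e]
        refine (norm_sub_le _ _).trans (le_of_eq ?_)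
        rw [norm_real, Real.norm_eq_abs, abs_mul, abs_two]
      have c3 : |G₁.re| ≤ ‖G₂ + G₁‖ + V / N := by
        rw [abs_le]
        constructor <;> linarith [norm_nonneg (G₂ + G₁)]
      have c4 : (3 * K + 9) * V / N = 3 * (K * (V / N)) + 9 * (V / N) := by ring
      linarith
    · have c4 : (K + 2) * V / N = K * (V / N) + 2 * (V / N) := by ring
      linarith
  have s4 : K * (V / N) ≤ ‖G₂ - G₁‖ := by
    have c4 : (3 * K + 9) * V / N = 3 * (K * (V / N)) + 9 * (V / N) := by ring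
    have := mul_nonneg hK V0
    linarith
  have m1 : 2 * ‖G₁‖ ≤ ‖G₂ + G₁‖ + ‖G₂ - G₁‖ := by
    have := norm_sub_le (G₂ + G₁) (G₂ - G₁)
    rwa [show G₂ + G₁ - (G₂ - G₁) = 2 * G₁ by ring, norm_mul, Complex.norm_two] at this
  have m2 : 2 * ‖G₂‖ ≤ ‖G₂ + G₁‖ + ‖G₂ - G₁‖ := by
    have := norm_add_le (G₂ + G₁) (G₂ - G₁)
    rwa [show G₂ + G₁ + (G₂ - G₁) = 2 * G₂ by ring, norm_mul, Complex.norm_two] at this
  rw [sq_sub_sq, norm_mul]
  set s := ‖G₂ + G₁‖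
  set d := ‖G₂ - G₁‖
  have s0 : 0 ≤ s := norm_nonneg _
  have d0 : 0 ≤ d := norm_nonneg _
  have m3 : max (‖G₁‖ * p) (‖G₂‖ * q) ≤ (s + d) / 2 * V := by
    refine max_le ?_ ?_ <;> gcongr <;> linarith
  have m4 : (s + d) / 2 * (K * (V / N)) ≤ s * d := by
    have := mul_le_mul_of_nonneg_left s4 s0
    have := mul_le_mul_of_nonneg_left s3 d0
    linarith
  calc K * max (‖G₁‖ * p) (‖G₂‖ * q) ≤ K * ((s + d) / 2 * V) := by gcongr
    _ = N * ((s + d) / 2 * (K * (V / N))) := by field_simp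
    _ ≤ N * (s * d) := by gcongr

theorem Par.v_comp (H : Par N r κ a) {z₁ z₂ : ℂ} (h1 : ‖z₁‖ = 1) (h2 : ‖z₂‖ = 1)
    (h : ‖z₂ - conj z₁‖ ≤ a / (4 * N)) :
    ‖uu r z₁ + 1 / 2‖ ^ 2 ≤ 2 * ‖uu r z₂ + 1 / 2‖ ^ 2 ∧
      ‖uu r z₂ + 1 / 2‖ ^ 2 ≤ 2 * ‖uu r z₁ + 1 / 2‖ ^ 2 := by
  have hN := H.lr_N
  obtain ⟨r0, r1, -, -, -, h6⟩ := H
  have hc : ‖conj z₁‖ = 1 := by rw [Complex.norm_conj, h1]
  have ec : ‖uu r (conj z₁) + 1 / 2‖ = ‖uu r z₁ + 1 / 2‖ := by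
    rw [lr_uu_conj, ← Complex.norm_conj (uu r z₁ + 1 / 2)]
    simp [map_ofNat]
  have e := lr_diff (by linarith) r1 hc h2
  have t := abs_norm_sub_norm_le (uu r z₂ + 1 / 2) (uu r (conj z₁) + 1 / 2)
  rw [add_sub_add_right_eq_sub, e, ec, abs_le] at t
  have b1 := lr_v_le (by linarith) r1 h1
  have b2 := lr_v_le (by linarith) r1 h2
  have h3 : ‖z₂ - conj z₁‖ ≤ (1 - r) / 4 := by
    refine h.trans ?_
    rw [div_le_div_iff₀ (by positivity) (by norm_num)]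
    linarith
  set p := ‖uu r z₁ + 1 / 2‖
  set q := ‖uu r z₂ + 1 / 2‖
  have p0 : 0 ≤ p := norm_nonneg _
  have q0 : 0 ≤ q := norm_nonneg _
  have c : r * ‖z₂ - conj z₁‖ * (p * q) ≤ 1 * ((1 - r) / 4) * (p * q) := by gcongr
  have c1 := mul_le_mul_of_nonneg_right b1 q0
  have c2 := mul_le_mul_of_nonneg_right b2 p0
  have d1 : p ≤ 5 / 4 * q := by nlinarith [t.1]
  have d2 : q ≤ 5 / 4 * p := by nlinarith [t.2]
  constructor <;> nlinarith

theorem lr_Du_conj {p : ℂ[X]} (h : p.map (starRingEnd ℂ) = p) (j : ℕ) :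
    (Du^[j] p).map (starRingEnd ℂ) = Du^[j] p := by
  induction j with
  | zero => exact h
  | succ j ih =>
    rw [Function.iterate_succ_apply', Du, Polynomial.map_mul, ← derivative_map, ih]
    simp [map_ofNat]

theorem RR_conj (r α : ℝ) (j : ℕ) (z : ℂ) : RR r α j (conj z) = conj (RR r α j z) := by
  have h : (Gp α ^ 2).map (starRingEnd ℂ) = Gp α ^ 2 := by simp [Gp]
  unfold RR
  rw [lr_uu_conj]
  conv_lhs => rw [← lr_Du_conj h j]
  rw [eval_map, eval₂_at_apply]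

theorem lr_step {p q : ℂ} {c δ : ℝ} (hc : 0 ≤ c) (h1 : δ ≤ 1) (hp : ‖p - 1‖ ≤ c * δ)
    (hq : ‖q - 1‖ ≤ δ) : ‖p * q - 1‖ ≤ (2 * c + 1) * δ := by
  have h0 : 0 ≤ δ := (norm_nonneg _).trans hq
  have e : p * q - 1 = (p - 1) * (q - 1) + (p - 1) + (q - 1) := by ring
  have h2 : ‖(p - 1) * (q - 1)‖ ≤ c * δ * 1 := by
    rw [norm_mul]
    exact mul_le_mul hp (hq.trans h1) (norm_nonneg _) (by positivity)
  rw [e]
  refine (norm_add₃_le).trans ?_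
  linarith

theorem lr_ratio (u : ℂ) (t g : ℝ) (hB : u.im ≠ 0) (h : |u.re + t| ≤ g * |u.im|) :
    ‖(u + t) / (I * u.im) - 1‖ ≤ g := by
  have b0 : (u.im : ℂ) ≠ 0 := ofReal_ne_zero.2 hB
  have e : (u + t) / (I * u.im) - 1 = ((u.re + t : ℝ) : ℂ) / (I * u.im) := by
    have := re_add_im u
    push_cast
    field_simp
    linear_combination -this
  rw [e, norm_div, norm_mul, norm_I, one_mul, norm_real, norm_real, Real.norm_eq_abs,
    Real.norm_eq_abs, div_le_iff₀ (abs_pos.2 hB)]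
  exact h

theorem lr_core {u : ℂ} {α n κ g γ : ℝ} (g0 : 0 < g) (g1 : 400 * g ≤ 1) (g2 : 400 * g ≤ γ)
    (hA : 0 ≤ u.re) (a0 : 0 ≤ α) (a1 : α * ‖u + 1 / 2‖ ≤ 3 * g) (hn : 0 < n)
    (n1 : ‖u + 1 / 2‖ ≤ g * n) (hre : u.re + 1 / 2 ≤ g * ‖u + 1 / 2‖) (k0 : 0 ≤ κ) (k1 : κ ≤ 1)
    (hG : -(κ * u.im ^ 2) ≤ n * (u + α * u ^ 2).re) {R : ℂ}
    (hR : R = 2 * (u + α * u ^ 2) * (1 + 2 * α * u) * (u ^ 2 - 1 / 4)) :
    |R.re| ≤ γ * ‖R‖ ∧
      ‖n * (u + (α - 1 / n : ℝ) * u ^ 2) ^ 2 - n * (u + α * u ^ 2) ^ 2 + R‖ ≤ γ * ‖R‖ ∧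
      n * ((u + α * u ^ 2) ^ 2).im * R.im ≤ (κ + γ) * R.im ^ 2 := by
  have sq1 := lr_sq u
  have hu : ‖u‖ ≤ ‖u + 1 / 2‖ := by
    refine (sq_le_sq₀ (norm_nonneg _) (norm_nonneg _)).1 ?_
    rw [sq1, Complex.sq_norm, normSq_apply]
    linarith
  have hu' : ‖u - 1 / 2‖ ≤ ‖u + 1 / 2‖ := by
    refine (sq_le_sq₀ (norm_nonneg _) (norm_nonneg _)).1 ?_
    rw [sq1, Complex.sq_norm, normSq_apply]
    simp
    linarith
  set v := ‖u + 1 / 2‖ with hv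
  have v0 : 0 ≤ v := norm_nonneg _
  have v1 : 1 ≤ 2 * g * v := by linarith
  have vp : 0 < v := by
    rcases v0.eq_or_lt with c | c
    · rw [← c] at v1
      norm_num at v1
    · exact c
  set b := |u.im| with hb
  have b0 : 0 ≤ b := abs_nonneg _
  have vb : v ≤ 2 * b := by
    refine (sq_le_sq₀ v0 (by positivity)).1 ?_
    have c1 : (u.re + 1 / 2) ^ 2 ≤ (g * v) ^ 2 := by gcongr
    have c2 : g * v ≤ 1 / 2 * v := by
      gcongr
      linarith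
    have c3 : (g * v) ^ 2 ≤ (1 / 2 * v) ^ 2 := by gcongr
    rw [mul_pow, hb, sq_abs]
    linarith [sq_nonneg u.im]
  have bp : 0 < b := by linarith
  have hB : u.im ≠ 0 := abs_pos.1 bp
  have gv : g * v ≤ 6 * g * b := by
    linarith [mul_le_mul_of_nonneg_left vb g0.le, mul_nonneg g0.le b0]
  have p1 := lr_ratio u 0 (6 * g) hB (by rw [add_zero, abs_of_nonneg hA]; linarith)
  have p2 := lr_ratio u (1 / 2) (6 * g) hB (by rw [abs_of_nonneg (by linarith)]; linarith)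
  have p3 := lr_ratio u (-(1 / 2)) (6 * g) hB (by rw [abs_le]; constructor <;> linarith)
  have au : ‖(α : ℂ) * u‖ ≤ 3 * g := by
    rw [norm_mul, norm_real, Real.norm_of_nonneg a0]
    exact (mul_le_mul_of_nonneg_left hu a0).trans a1
  have au2 : ‖2 * (α : ℂ) * u‖ ≤ 6 * g := by
    rw [mul_assoc, norm_mul, Complex.norm_two]
    linarith
  have p4 : ‖1 + (α : ℂ) * u - 1‖ ≤ 6 * g := by
    rw [add_sub_cancel_left]
    linarith
  have p5 : ‖1 + 2 * (α : ℂ) * u - 1‖ ≤ 6 * g := by rwa [add_sub_cancel_left]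
  have d1 : 6 * g ≤ 1 := by linarith
  have q := lr_step (by norm_num) d1 (lr_step (by norm_num) d1 (lr_step (by norm_num) d1
    (lr_step zero_le_one d1 (p1.trans_eq (one_mul _).symm) p2) p3) p4) p5
  obtain ⟨P, hP, eR⟩ : ∃ P : ℂ, ‖P - 1‖ ≤ 186 * g ∧ R = ((-2 * u.im ^ 3 : ℝ) : ℂ) * (I * P) := by
    refine ⟨_, q.trans (le_of_eq (by ring)), ?_⟩
    have b0 : I * (u.im : ℂ) ≠ 0 := mul_ne_zero I_ne_zero (ofReal_ne_zero.2 hB)
    have b1 : ((-2 * u.im ^ 3 : ℝ) : ℂ) * I = 2 * (I * u.im) ^ 3 := by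
      push_cast
      rw [mul_pow, I_pow_three]
      ring
    rw [hR, ← mul_assoc _ I, b1]
    generalize I * (u.im : ℂ) = c at b0
    push_cast
    field_simp
    ring
  have Pim : |P.im| ≤ 186 * g := by
    have := abs_im_le_norm (P - 1)
    simp only [sub_im, one_im, sub_zero] at this
    linarith
  have Pre : 1 - 186 * g ≤ P.re := by
    have := abs_le.1 ((abs_re_le_norm (P - 1)).trans hP)
    simp only [sub_re, one_re] at this
    linarith [this.1]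
  have Pn : 1 / 2 ≤ ‖P‖ := le_trans (by linarith) (re_le_norm P)
  have eb : |(-2 * u.im ^ 3)| = 2 * b ^ 3 := by
    rw [abs_mul, abs_pow, abs_neg, abs_two]
  have nR : ‖R‖ = 2 * b ^ 3 * ‖P‖ := by
    rw [eR, norm_mul, norm_mul, norm_I, one_mul, norm_real, Real.norm_eq_abs, eb]
  have b3 : 0 ≤ b ^ 3 := by positivity
  have nR' : b ^ 3 ≤ ‖R‖ := by
    rw [nR]
    linarith [mul_le_mul_of_nonneg_left Pn b3]
  have γ0 : 0 ≤ γ := by linarith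
  have fin : 400 * g * b ^ 3 ≤ γ * ‖R‖ := mul_le_mul g2 nR' b3 γ0
  refine ⟨?_, ?_, ?_⟩
  · have e : R.re = -2 * u.im ^ 3 * -P.im := by
      rw [eR, re_ofReal_mul, I_mul_re]
    rw [e, abs_mul, eb, abs_neg]
    have : 2 * b ^ 3 * |P.im| ≤ 2 * b ^ 3 * (186 * g) := by gcongr
    linarith [mul_nonneg g0.le b3]
  · have n0 : (n : ℂ) ≠ 0 := ofReal_ne_zero.2 hn.ne'
    have e : n * (u + (α - 1 / n : ℝ) * u ^ 2) ^ 2 - n * (u + α * u ^ 2) ^ 2 + R =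
        2 * (u * (1 + α * u)) * (-(1 / 4) + 2 * α * u * ((u + 1 / 2) * (u - 1 / 2)))
          + u ^ 4 / n := by
      rw [hR]
      push_cast
      field_simp
      ring
    have c1 : ‖1 + (α : ℂ) * u‖ ≤ 2 := by
      refine (norm_add_le _ _).trans ?_
      rw [norm_one]
      linarith
    have c2 : ‖-(1 / 4) + 2 * α * u * ((u + 1 / 2) * (u - 1 / 2))‖ ≤ 1 / 4 + 6 * g * (v * v) := by
      refine (norm_add_le _ _).trans (add_le_add (by simp) ?_)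
      rw [norm_mul, norm_mul (u + 1 / 2)]
      gcongr
    have c3 : ‖u ^ 4 / n‖ ≤ g * v ^ 3 := by
      rw [norm_div, norm_pow, norm_real, Real.norm_of_nonneg hn.le, div_le_iff₀ hn]
      calc ‖u‖ ^ 4 ≤ v ^ 4 := by gcongr
        _ = v ^ 3 * v := by ring
        _ ≤ v ^ 3 * (g * n) := by gcongr
        _ = g * v ^ 3 * n := by ring
    have c4 : ‖2 * (u * (1 + α * u)) * (-(1 / 4) + 2 * α * u * ((u + 1 / 2) * (u - 1 / 2)))‖ ≤
        2 * (v * 2) * (1 / 4 + 6 * g * (v * v)) := by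
      rw [norm_mul, norm_mul, norm_mul, Complex.norm_two]
      gcongr
    have c5 : v ≤ g * v ^ 3 := by
      have f1 : 1 * 1 ≤ (2 * g * v) * (2 * g * v) := by gcongr
      have f2 : 4 * g * (g * v ^ 2) ≤ 1 * (g * v ^ 2) := by
        gcongr
        linarith
      have f3 : v * 1 ≤ v * (g * v ^ 2) := by
        gcongr
        linarith
      linarith
    have c6 : g * v ^ 3 ≤ g * (2 * b) ^ 3 := by gcongr
    have c7 : 0 ≤ g * b ^ 3 := by positivity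
    rw [e]
    refine (norm_add_le _ _).trans ?_
    linarith
  · have e : R.im = -2 * u.im ^ 3 * P.re := by
      rw [eR, im_ofReal_mul, I_mul_im]
    have e2 : ((u + α * u ^ 2) ^ 2).im = 2 * (u + α * u ^ 2).re * (u.im * (1 + 2 * α * u.re)) := by
      have : (u + α * u ^ 2).im = u.im * (1 + 2 * α * u.re) := by
        rw [add_im, im_ofReal_mul, sq, mul_im]
        ring
      rw [sq, mul_im, this]
      ring
    have c0 : 0 ≤ α * u.re := mul_nonneg a0 hA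
    have c1 : α * u.re ≤ 3 * g :=
      (mul_le_mul_of_nonneg_left ((re_le_norm u).trans hu) a0).trans a1
    have P0 : 0 ≤ P.re := by linarith
    have c2 : κ * (1 + 2 * α * u.re) ≤ (κ + γ) * P.re := by
      have f1 : (κ + γ) * (1 - 186 * g) ≤ (κ + γ) * P.re := by gcongr
      have f2 : κ * (α * u.re) ≤ 1 * (3 * g) := by gcongr
      have f3 : κ * g ≤ 1 * g := by gcongr
      have f4 : γ * (400 * g) ≤ γ * 1 := by gcongr
      linarith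
    have c3 : 0 ≤ 4 * u.im ^ 4 * (1 + 2 * α * u.re) * P.re := by
      have : 0 ≤ 1 + 2 * α * u.re := by linarith
      positivity
    have c4 := mul_le_mul_of_nonneg_right hG c3
    have c5 : 0 ≤ 4 * u.im ^ 6 * P.re := by positivity
    have c6 := mul_le_mul_of_nonneg_right c2 c5
    rw [e, e2]
    linarith

theorem regime {γ K : ℝ} (hγ : 0 < γ) (hK : 0 < K) : ∃ a₀ : ℝ, ∀ (N : ℕ) (r κ a : ℝ), Par N r κ a →
    a₀ ≤ a → ∀ z : ℂ, ‖z‖ = 1 → gp N r κ z ≤ K * ‖uu r z + 1 / 2‖ ^ 2 / N →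
      |(RR r (al N r κ) 1 z).re| ≤ γ * ‖RR r (al N r κ) 1 z‖ ∧
      ‖MM N r κ z - N * RR r (al N r κ) 0 z + RR r (al N r κ) 1 z‖ ≤
        γ * ‖RR r (al N r κ) 1 z‖ ∧
      N * (RR r (al N r κ) 0 z).im * (RR r (al N r κ) 1 z).im ≤
        (κ + γ) * (RR r (al N r κ) 1 z).im ^ 2 := by
  obtain ⟨g, g0, g1, g2⟩ : ∃ g : ℝ, 0 < g ∧ 400 * g ≤ 1 ∧ 400 * g ≤ γ :=
    ⟨min 1 γ / 400, by positivity, by linarith [min_le_left 1 γ], by linarith [min_le_right 1 γ]⟩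
  refine ⟨2 * K / g ^ 2, fun N r κ a H ha z hz hg => ?_⟩
  have hN := H.lr_N
  have hA := H.lr_re0 hz
  have hal := H.al_mem
  have eG := H.lr_reG hz
  rw [H.lr_gp hz] at hg
  obtain ⟨r0, r1, k0, k1, a2, aN⟩ := H
  have eA := lr_re (by linarith) r1 hz
  set x := (1 - r ^ 2) / 2 with hx
  have x1 : 3 / 4 * (1 - r) ≤ x := by
    linarith [mul_nonneg (sub_nonneg.2 r0) (sub_nonneg.2 r1.le)]
  have x0 : 0 < x := by linarith
  have xN : 3 / 4 * a ≤ N * x := by linarith [mul_le_mul_of_nonneg_left x1 hN.le]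
  set u := uu r z with hu
  set v := ‖u + 1 / 2‖ with hv
  have v0 : 0 ≤ v := norm_nonneg _
  have hre : u.re + 1 / 2 ≤ g * v := by
    refine (sq_le_sq₀ (by linarith) (by positivity)).1 ?_
    have c1 : 0 ≤ al N r κ * u.re ^ 2 := mul_nonneg hal.1 (sq_nonneg _)
    have c2 : 0 ≤ κ / N * (u.re + 1 / 2) ^ 2 := by positivity
    have c3 : x * (u.re + 1 / 2) ^ 2 * N ≤ K * v ^ 2 := (le_div_iff₀ hN).1 (by linarith)
    rw [div_le_iff₀ (by positivity)] at ha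
    have c4 : K ≤ N * x * g ^ 2 := by linarith [mul_le_mul_of_nonneg_right xN (sq_nonneg g)]
    have c5 : K * v ^ 2 ≤ N * x * g ^ 2 * v ^ 2 := by gcongr
    refine le_of_mul_le_mul_left ?_ (mul_pos hN x0)
    linarith
  have xv : x * v ≤ g := by
    rcases v0.eq_or_lt with c | c
    · rw [← c, mul_zero]
      exact g0.le
    · refine le_of_mul_le_mul_right ?_ c
      linarith
  have a1 : al N r κ * v ≤ 3 * g := by
    have : al N r κ * v ≤ 3 * x * v := by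
      gcongr
      linarith [hal.2]
    linarith
  have n1 : v ≤ g * N := by
    have c1 : 1 * v ≤ N * x * v := by
      gcongr
      linarith
    have c2 : N * (x * v) ≤ N * g := by gcongr
    linarith
  have hG : -(κ * u.im ^ 2) ≤ N * (u + al N r κ * u ^ 2).re := by
    rw [← lr_G, eG]
    have c1 : 0 ≤ N * (x * (u.re + 1 / 2) ^ 2 + al N r κ * u.re ^ 2) := by
      have := mul_nonneg hal.1 (sq_nonneg u.re)
      positivity
    have c2 : N * (κ / N * u.im ^ 2) = κ * u.im ^ 2 := by field_simp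
    linarith
  have := lr_core g0 g1 g2 hA hal.1 a1 hN n1 hre k0 k1 hG (lr_R1 r (al N r κ) z)
  unfold MM
  rw [lr_R0, lr_G, lr_G]
  exact_mod_cast this

end Pool.Agent.P.MP_c09211_an.Sh
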