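import Pool.Agent.P.MP_c09211_an.Sh.LowD
import Pool.Agent.P.MP_c09211_an.Sh.LowR

/-!
Pairs of points of the circle: distant pairs and mirror pairs; the lower bound.
-/

set_option autoImplicit false

namespace Pool.Agent.P.MP_c09211_an.Sh

open Metric Set Complex Filter Topology Polynomial
open scoped Real ComplexConjugate

variable {N : ℕ} {r κ a : ℝ} {p : ℂ[X]}

private lemma lowE_par (H : Par N r κ a) :
    1 ≤ (N : ℝ) ∧ 0 < 1 - r ∧ 0 < a ∧ N * ((1 - r) / (a * N)) = (1 - r) / a ∧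
      (1 - r) / (a * N) ≤ (1 - r) / a ∧ 1 / (1 - r) ≤ N / a := by
  obtain ⟨r0, r1, -, -, a0, a1⟩ := H
  have h0 : (0 : ℝ) ≤ N := Nat.cast_nonneg N
  have h1 : 1 ≤ (N : ℝ) := by nlinarith
  have h2 : 0 < 1 - r := by linarith
  have h3 : 0 < a := by linarith
  refine ⟨h1, h2, h3, by field_simp, ?_, ?_⟩
  · exact div_le_div_of_nonneg_left h2.le h3 (le_mul_of_one_le_right h3.le h1)
  · rw [div_le_div_iff₀ h2 h3]; linarith

theorem far_case (H : Par N r κ a) (ha : 10000 ≤ a)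
    (hp : Apx r (al N r κ) ((1 - r) / (a * N)) p) {η c : ℝ} (η0 : 0 ≤ η) (η1 : η ≤ 1) (c0 : 0 ≤ c)
    (c1 : c ≤ 1) {z₁ z₂ : ℂ} (h1 : ‖z₁‖ = 1) (h2 : ‖z₂‖ = 1)
    (h : 100 * max (sz N r κ z₁) (sz N r κ z₂) ≤
      N * ‖RR r (al N r κ) 0 z₂ - RR r (al N r κ) 0 z₁‖) : Dl N r κ η c p z₁ z₂ ≠ 0 := by
  obtain ⟨hN, hr, ha0, e1, e2, -⟩ := lowE_par H
  obtain ⟨k, hk⟩ := hp.2.1
  have key : ∀ z : ℂ, ‖z‖ = 1 → 0 < sz N r κ z ∧ ‖(1 - c) * MM N r κ z + c * Pv N η p z -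
      N * RR r (al N r κ) 0 z - c * N * k‖ ≤ 24 * sz N r κ z := by
    intro z hz
    obtain ⟨s1, s2, s3⟩ := H.sz_le hz
    have s0 : 0 < sz N r κ z := lt_of_lt_of_le (by positivity) s1
    have t1 : (1 - r) / a ≤ sz N r κ z := by
      rw [div_le_iff₀ ha0]; nlinarith
    have t2 : ‖(N : ℂ) * (p.eval z - k - RR r (al N r κ) 0 z)‖ ≤ sz N r κ z := by
      rw [norm_mul, Complex.norm_natCast]
      exact (mul_le_mul_of_nonneg_left (hk z hz) (by positivity)).trans (e1.le.trans t1)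
    have t3 : ‖(Dz p).eval z‖ ≤ 11 * sz N r κ z := by
      have := hp.2.2 1 le_rfl (by norm_num) z hz
      have h3 := norm_le_norm_add_norm_sub' ((Dz p).eval z) (RR r (al N r κ) 1 z)
      rw [Function.iterate_one] at this
      linarith
    have t4 : ‖η * I * z ^ N * conj ((Dz p).eval z)‖ ≤ 11 * sz N r κ z := by
      rw [norm_mul, norm_mul, norm_mul, norm_pow, hz, norm_I, norm_real, RCLike.norm_conj,
        Real.norm_of_nonneg η0, one_pow, mul_one, mul_one]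
      exact (mul_le_of_le_one_left (norm_nonneg _) η1).trans t3
    have t5 : (1 - c) * MM N r κ z + c * Pv N η p z - N * RR r (al N r κ) 0 z - c * N * k =
        ((1 - c : ℝ) : ℂ) * (MM N r κ z - N * RR r (al N r κ) 0 z) +
          c * (N * (p.eval z - k - RR r (al N r κ) 0 z) - (Dz p).eval z +
            η * I * z ^ N * conj ((Dz p).eval z)) := by
      unfold Pv; push_cast; ring
    refine ⟨s0, ?_⟩
    rw [t5]
    refine (norm_add_le _ _).trans ?_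
    rw [norm_mul, norm_mul, norm_real, norm_real, Real.norm_of_nonneg c0,
      Real.norm_of_nonneg (sub_nonneg.2 c1)]
    have t6 := (norm_add_le (N * (p.eval z - k - RR r (al N r κ) 0 z) - (Dz p).eval z)
      (η * I * z ^ N * conj ((Dz p).eval z))).trans (add_le_add (norm_sub_le _ _) le_rfl)
    have t7 := mul_le_mul_of_nonneg_left (t6.trans (add_le_add (add_le_add t2 t3) t4)) c0
    have t8 := mul_le_mul_of_nonneg_left s3 (sub_nonneg.2 c1)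
    nlinarith
  obtain ⟨p1, q1⟩ := key z₁ h1
  obtain ⟨p2, q2⟩ := key z₂ h2
  intro h0
  have e : (N : ℂ) * (RR r (al N r κ) 0 z₂ - RR r (al N r κ) 0 z₁) =
      ((1 - c) * MM N r κ z₁ + c * Pv N η p z₁ - N * RR r (al N r κ) 0 z₁ - c * N * k) -
        ((1 - c) * MM N r κ z₂ + c * Pv N η p z₂ - N * RR r (al N r κ) 0 z₂ - c * N * k) := by
    unfold Dl at h0
    linear_combination h0
  have e' := congrArg norm e
  rw [norm_mul, Complex.norm_natCast] at e'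
  have := (e'.le.trans (norm_sub_le _ _)).trans (add_le_add q1 q2)
  have := le_max_left (sz N r κ z₁) (sz N r κ z₂)
  have := le_max_right (sz N r κ z₁) (sz N r κ z₂)
  linarith

private lemma lowE_alg {M₁ M₂ Q₁ Q₂ B₁ B P₁ P₂ D₁ D₂ w : ℂ} {n ζ η c k ε b m κ d : ℝ}
    (hdot : ∀ ζ d' c : ℝ, d ≤ d' → |c| ≤ 1 → m ≤ ‖(ζ : ℂ) + I * d' - c * exp (I * ζ)‖)
    (hm : 0 < m) (hB : 0 < ‖B‖) (hw : ‖w‖ = 1) (η0 : 0 ≤ η) (η1 : η ≤ 1) (c0 : 0 ≤ c) (c1 : c ≤ 1)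
    (ε0 : 0 < ε) (ε1 : ε ≤ 1 / 8) (ε2 : ε ≤ 1 - κ - d) (ε3 : (22 + 10 * b) * ε ≤ m) (hζ : |ζ| ≤ b)
    (h1 : ‖M₂ - n * Q₂ + B‖ ≤ ε * ‖B‖) (h2 : ‖M₁ - n * Q₁ + B₁‖ ≤ 2 * (ε * ‖B‖))
    (h3 : ‖n * (P₂ - k - Q₂)‖ ≤ ε * ‖B‖) (h4 : ‖n * (P₁ - k - Q₁)‖ ≤ ε * ‖B‖)
    (h5 : ‖D₂ - B‖ ≤ ε * ‖B‖) (h6 : ‖D₁ - B₁‖ ≤ ε * ‖B‖) (h7 : ‖conj D₁ - B‖ ≤ 4 * (ε * ‖B‖))
    (h8 : ‖n * (conj P₁ - P₂) + 2 * ζ * I * B‖ ≤ 8 * b * (ε * ‖B‖)) (h9 : |B.re| ≤ ε * ‖B‖)
    (h10 : n * Q₂.im * B.im ≤ (κ + ε) * B.im ^ 2) :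
    (1 - c) * (M₂ - M₁) + c * ((n * P₂ - D₂ + η * I * (exp (I * ζ) * w) * conj D₂) -
      (n * P₁ - D₁ + η * I * (exp (I * ζ) * conj w) * conj D₁)) ≠ 0 := by
  intro h0
  have hE : ‖exp (I * ζ)‖ = 1 := norm_exp_I_mul_ofReal ζ
  have hy : ‖B‖ / 2 ≤ |B.im| := by
    have := norm_le_abs_re_add_abs_im B
    nlinarith
  have hy0 : B.im ≠ 0 := abs_pos.1 (lt_of_lt_of_le (by positivity) hy)
  obtain ⟨s, hs⟩ : ∃ s, s = (w * conj B).im := ⟨_, rfl⟩
  have hs1 : |s| ≤ ‖B‖ := by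
    have := abs_im_le_norm (w * conj B)
    rwa [norm_mul, hw, one_mul, RCLike.norm_conj, ← hs] at this
  have hs2 : w * conj B - conj w * B = 2 * s * I := by
    have := sub_conj (w * conj B)
    rw [map_mul, conj_conj, ← hs] at this
    rw [this]; push_cast; ring
  have hcη : |c * η| ≤ 1 := by
    rw [abs_of_nonneg (mul_nonneg c0 η0)]; exact mul_le_one₀ c1 η0 η1
  have hd := hdot ζ (1 - n * Q₂.im / B.im) (-(c * η * (s * B.im / ‖B‖ ^ 2))) (by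
    have : n * Q₂.im / B.im ≤ κ + ε := by
      rw [show n * Q₂.im / B.im = n * Q₂.im * B.im / B.im ^ 2 by field_simp,
        div_le_iff₀ (by positivity)]
      exact h10
    linarith) (by
    rw [abs_neg, abs_mul]
    refine mul_le_one₀ hcη (abs_nonneg _) ?_
    rw [abs_div, abs_mul, abs_of_pos (by positivity : 0 < ‖B‖ ^ 2), div_le_one (by positivity), sq]
    exact mul_le_mul hs1 (abs_im_le_norm B) (abs_nonneg _) hB.le)
  have hq := sub_conj Q₂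
  have hb1 : B = B.re + B.im * I := (re_add_im B).symm
  have hb2 : conj B = B.re - B.im * I := by
    apply Complex.ext <;> simp
  have hn : ((‖B‖ : ℝ) : ℂ) ^ 2 = B.re ^ 2 + B.im ^ 2 := by
    have := Complex.sq_norm B
    rw [normSq_apply] at this
    exact_mod_cast this.trans (by ring)
  have hn0 : ((‖B‖ : ℝ) : ℂ) ≠ 0 := ofReal_ne_zero.2 hB.ne'
  have hy1 : ((B.im : ℝ) : ℂ) ≠ 0 := ofReal_ne_zero.2 hy0
  have hx : ((B.im : ℝ) : ℂ) ^ 2 / ((‖B‖ : ℝ) : ℂ) ^ 2 = 1 - B.re ^ 2 / ((‖B‖ : ℝ) : ℂ) ^ 2 := by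
    field_simp
    linear_combination -hn
  have hmain : (2 * B.im : ℂ) * ((ζ : ℂ) + I * (1 - n * Q₂.im / B.im : ℝ) -
      (-(c * η * (s * B.im / ‖B‖ ^ 2)) : ℝ) * exp (I * ζ)) =
      n * (P₂ - k - Q₂) - conj (n * (P₂ - k - Q₂)) - conj (n * (conj P₁ - P₂) + 2 * ζ * I * B) -
        (D₂ - B) + conj (conj D₁ - B) + ((1 - c : ℝ) : ℂ) * ((M₂ - n * Q₂ + B) -
          n * (P₂ - k - Q₂) + (D₂ - B) - (M₁ - n * Q₁ + B₁) + n * (P₁ - k - Q₁) - (D₁ - B₁)) +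
        (c * η : ℝ) * I * exp (I * ζ) * (w * conj (D₂ - B) - conj w * (conj D₁ - B)) -
        2 * ζ * I * B.re - 2 * (c * η : ℝ) * exp (I * ζ) * (s * (B.re ^ 2 / ‖B‖ ^ 2) : ℝ) := by
    have e1 : (2 * B.im : ℂ) * (n * Q₂.im / B.im) = 2 * n * Q₂.im := by field_simp
    simp only [map_sub, map_add, map_mul, conj_ofReal, conj_conj, conj_I, map_ofNat]
    push_cast at hq ⊢
    generalize exp (I * ζ) = E at h0 ⊢
    linear_combination (-1 : ℂ) * h0 - I * e1 + 2 * c * η * E * s * hx + n * hq +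
      c * η * I * E * hs2 - hb1 + (1 - 2 * ζ * I) * hb2 +
      (2 * ζ * B.im + 2 * c * η * E * s) * I_mul_I
  have hl : m * ‖B‖ ≤ ‖(2 * B.im : ℂ) * ((ζ : ℂ) + I * (1 - n * Q₂.im / B.im : ℝ) -
      (-(c * η * (s * B.im / ‖B‖ ^ 2)) : ℝ) * exp (I * ζ))‖ := by
    rw [norm_mul, norm_mul, norm_real, Real.norm_eq_abs, Complex.norm_two, mul_comm m]
    exact mul_le_mul (by linarith) hd hm.le (by positivity)
  rw [hmain] at hl
  generalize n * (P₂ - k - Q₂) = a3 at h3 hl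
  generalize n * (P₁ - k - Q₁) = a4 at h4 hl
  generalize M₂ - n * Q₂ + B = a1 at h1 hl
  generalize M₁ - n * Q₁ + B₁ = a2 at h2 hl
  generalize D₂ - B = a5 at h5 hl
  generalize D₁ - B₁ = a6 at h6 hl
  generalize conj D₁ - B = a7 at h7 hl
  generalize n * (conj P₁ - P₂) + 2 * ζ * I * B = a8 at h8 hl
  have u0 : 0 < ε * ‖B‖ := by positivity
  have u1 : ‖((1 - c : ℝ) : ℂ) * (a1 - a3 + a5 - a2 + a4 - a6)‖ ≤ 7 * (ε * ‖B‖) := by
    rw [norm_mul, norm_real, Real.norm_of_nonneg (sub_nonneg.2 c1)]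
    refine (mul_le_of_le_one_left (norm_nonneg _) (by linarith)).trans ?_
    have := norm_sub_le (a1 - a3 + a5 - a2 + a4) a6
    have := norm_add_le (a1 - a3 + a5 - a2) a4
    have := norm_sub_le (a1 - a3 + a5) a2
    have := norm_add_le (a1 - a3) a5
    have := norm_sub_le a1 a3
    linarith
  have u2 : ‖(c * η : ℝ) * I * exp (I * ζ) * (w * conj a5 - conj w * a7)‖ ≤ 5 * (ε * ‖B‖) := by
    rw [norm_mul, norm_mul, norm_mul, hE, norm_I, norm_real, mul_one, mul_one, Real.norm_eq_abs]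
    refine (mul_le_of_le_one_left (norm_nonneg _) hcη).trans ((norm_sub_le _ _).trans ?_)
    rw [norm_mul, norm_mul, RCLike.norm_conj, RCLike.norm_conj, hw]
    linarith
  have u3 : ‖2 * ζ * I * B.re‖ ≤ 2 * b * (ε * ‖B‖) := by
    rw [norm_mul, norm_mul, norm_mul, norm_I, norm_real, norm_real, Complex.norm_two, mul_one,
      Real.norm_eq_abs, Real.norm_eq_abs]
    exact mul_le_mul (by linarith) h9 (abs_nonneg _) (by linarith [abs_nonneg ζ])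
  have u4 : ‖2 * (c * η : ℝ) * exp (I * ζ) * (s * (B.re ^ 2 / ‖B‖ ^ 2) : ℝ)‖ ≤
      2 * (ε * ‖B‖) := by
    rw [norm_mul, norm_mul, norm_mul, hE, norm_real, norm_real, Complex.norm_two, mul_one,
      Real.norm_eq_abs, Real.norm_eq_abs, abs_mul s, abs_of_nonneg (by positivity :
        0 ≤ B.re ^ 2 / ‖B‖ ^ 2)]
    have v1 : B.re ^ 2 / ‖B‖ ^ 2 ≤ ε := by
      rw [div_le_iff₀ (by positivity), ← sq_abs]
      have := pow_le_pow_left₀ (abs_nonneg _) h9 2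
      have v2 : ε ^ 2 ≤ ε := by nlinarith
      have := mul_le_mul_of_nonneg_right v2 (sq_nonneg ‖B‖)
      rw [mul_pow] at *
      linarith
    refine mul_le_mul (by linarith) ?_ (by positivity) zero_le_two
    rw [mul_comm ε]
    exact mul_le_mul hs1 v1 (by positivity) hB.le
  generalize ((1 - c : ℝ) : ℂ) * (a1 - a3 + a5 - a2 + a4 - a6) = b1 at u1 hl
  generalize (c * η : ℝ) * I * exp (I * ζ) * (w * conj a5 - conj w * a7) = b2 at u2 hl
  generalize 2 * ζ * I * B.re = b3 at u3 hl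
  generalize 2 * (c * η : ℝ) * exp (I * ζ) * (s * (B.re ^ 2 / ‖B‖ ^ 2) : ℝ) = b4 at u4 hl
  have := norm_sub_le (a3 - conj a3 - conj a8 - a5 + conj a7 + b1 + b2 - b3) b4
  have := norm_sub_le (a3 - conj a3 - conj a8 - a5 + conj a7 + b1 + b2) b3
  have := norm_add_le (a3 - conj a3 - conj a8 - a5 + conj a7 + b1) b2
  have := norm_add_le (a3 - conj a3 - conj a8 - a5 + conj a7) b1
  have := norm_add_le (a3 - conj a3 - conj a8 - a5) (conj a7)
  have := norm_sub_le (a3 - conj a3 - conj a8) a5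
  have := norm_sub_le (a3 - conj a3) (conj a8)
  have := norm_sub_le a3 (conj a3)
  have := RCLike.norm_conj (K := ℂ) a3
  have := RCLike.norm_conj (K := ℂ) a7
  have := RCLike.norm_conj (K := ℂ) a8
  have := mul_le_mul_of_nonneg_right ε3 hB.le
  nlinarith

theorem mirror_case {d m κ b K : ℝ} (hm : 0 < m) (hd : d < 1 - κ) (hb : 0 < b) (hK : 0 < K)
    (hdot : ∀ ζ d' c : ℝ, d ≤ d' → |c| ≤ 1 → m ≤ ‖(ζ : ℂ) + I * d' - c * exp (I * ζ)‖) :
    ∃ a₀ : ℝ, ∀ (N : ℕ) (r a : ℝ) (p : ℂ[X]), Par N r κ a → a₀ ≤ a →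
      Apx r (al N r κ) ((1 - r) / (a * N)) p → ∀ η c : ℝ, 0 ≤ η → η ≤ 1 → 0 ≤ c → c ≤ 1 →
      ∀ z₁ z₂ : ℂ, ‖z₁‖ = 1 → ‖z₂‖ = 1 → ‖z₂ - conj z₁‖ ≤ b / N →
      gp N r κ z₁ ≤ K * ‖uu r z₁ + 1 / 2‖ ^ 2 / N → gp N r κ z₂ ≤ K * ‖uu r z₂ + 1 / 2‖ ^ 2 / N →
      Dl N r κ η c p z₁ z₂ ≠ 0 := by
  obtain ⟨ε, ε0, ε1, ε2, ε3⟩ : ∃ ε : ℝ, 0 < ε ∧ ε ≤ 1 / 8 ∧ ε ≤ 1 - κ - d ∧
      (22 + 10 * b) * ε ≤ m := by
    refine ⟨min (min (1 / 8) (1 - κ - d)) (m / (22 + 10 * b)),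
      lt_min (lt_min (by norm_num) (by linarith)) (by positivity),
      (min_le_left _ _).trans (min_le_left _ _), (min_le_left _ _).trans (min_le_right _ _), ?_⟩
    rw [← le_div_iff₀' (by positivity)]
    exact min_le_right _ _
  obtain ⟨a₁, hreg⟩ := regime ε0 hK
  refine ⟨max (max a₁ 10000) (max (32 / ε) (500 * b / ε)), fun N r a p H ha hp η c η0 η1 c0 c1
    z₁ z₂ h1 h2 h12 g1 g2 => ?_⟩
  simp only [max_le_iff] at ha
  obtain ⟨⟨a1, a2⟩, a3, a4⟩ := ha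
  obtain ⟨hN, hr, ha0, e1, e2, e3⟩ := lowE_par H
  obtain ⟨k, hk⟩ := hp.2.1
  obtain ⟨ψ, φ, hz2, hz1, hφ⟩ := sym_angles (z₁ := conj z₁) (by rwa [RCLike.norm_conj]) h2
  obtain ⟨r1, r2, r3⟩ := hreg N r κ a H a1 z₂ h2 g2
  obtain ⟨-, r4, -⟩ := hreg N r κ a H a1 z₁ h1 g1
  have hB1 := (H.RR_le h2).1
  have hD : ∀ z : ℂ, ‖z‖ = 1 → ‖(Dz p).eval z - RR r (al N r κ) 1 z‖ ≤ (1 - r) / a := fun z hz =>
    (hp.2.2 1 le_rfl (by norm_num) z hz).trans e2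
  have hP : ∀ z : ℂ, ‖z‖ = 1 → ‖(N : ℝ) * (p.eval z - k - RR r (al N r κ) 0 z)‖ ≤ (1 - r) / a := by
    intro z hz
    rw [norm_mul, norm_real, Real.norm_of_nonneg (by positivity)]
    exact (mul_le_mul_of_nonneg_left (hk z hz) (by positivity)).trans e1.le
  generalize hB : RR r (al N r κ) 1 z₂ = B at r1 r2 r3 hB1
  have hB0 : 0 < ‖B‖ := lt_of_lt_of_le (by positivity) hB1
  have hτ : (1 - r) / a ≤ ε * ‖B‖ := by
    rw [div_le_iff₀ ε0] at a3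
    rw [div_le_iff₀ ha0]
    nlinarith [mul_le_mul_of_nonneg_left a3 hB0.le]
  have hφ' : |φ| ≤ b / N := hφ.trans h12
  have hc : ∀ t : ℝ, ‖circleMap 0 1 t‖ = 1 := fun t => by simp
  have h5 : ‖(Dz p).eval z₂ - B‖ ≤ ε * ‖B‖ := (hB ▸ hD z₂ h2).trans hτ
  have harc : ∀ t ∈ uIcc (ψ + φ) (ψ - φ),
      ‖(Dz p).eval (circleMap 0 1 t) - B‖ ≤ 4 * (ε * ‖B‖) := by
    intro t ht
    have t1 : |t - (ψ + φ)| ≤ 2 * (b / N) := by
      have := abs_sub_left_of_mem_uIcc ht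
      rw [show ψ - φ - (ψ + φ) = -(2 * φ) by ring, abs_neg, abs_mul, abs_two] at this
      linarith
    have t2 : 250 / (1 - r) * |t - (ψ + φ)| ≤ ε := by
      have v1 : 250 / (1 - r) ≤ 250 * (N / a) := by
        rw [div_eq_mul_one_div]; linarith
      refine (mul_le_mul v1 t1 (abs_nonneg _) (by positivity)).trans ?_
      rw [div_le_iff₀ ε0] at a4
      rw [show 250 * (N / a) * (2 * (b / N)) = 500 * b / a by field_simp; norm_num,
        div_le_iff₀ ha0]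
      linarith
    have t3 := slow (hasDerivAt_circle (Dz p)) (K := 250 / (1 - r)) (fun x => by
      rw [norm_mul, norm_I, one_mul]
      exact (hat H a2 hp (hc x)).2.2.1) (s := ψ + φ) (t := t) (by positivity) (by linarith)
    rw [← hz2] at t3
    have t4 := norm_le_norm_add_norm_sub' ((Dz p).eval z₂) B
    have t5 := norm_sub_le_norm_sub_add_norm_sub ((Dz p).eval (circleMap 0 1 t))
      ((Dz p).eval z₂) B
    have t6 : 2 * (250 / (1 - r) * |t - (ψ + φ)|) * ‖(Dz p).eval z₂‖ ≤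
        2 * ε * (‖B‖ + ε * ‖B‖) :=
      mul_le_mul (by linarith) (by linarith) (norm_nonneg _) (by positivity)
    nlinarith [mul_le_mul_of_nonneg_right ε1 (mul_pos ε0 hB0).le]
  have hc0 : p.eval (conj z₁) = conj (p.eval z₁) := Dz_conj hp.1 0 z₁
  have hc1 : (Dz p).eval (conj z₁) = conj ((Dz p).eval z₁) := Dz_conj hp.1 1 z₁
  have h7 : ‖conj ((Dz p).eval z₁) - B‖ ≤ 4 * (ε * ‖B‖) := by
    rw [← hc1, hz1]; exact harc _ right_mem_uIcc
  have h6 := (hD z₁ h1).trans hτ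
  have hζ : |N * φ| ≤ b := by
    rw [abs_mul, abs_of_nonneg (by positivity : (0 : ℝ) ≤ N), ← le_div_iff₀' (by positivity)]
    exact hφ'
  have h8 : ‖(N : ℝ) * (conj (p.eval z₁) - p.eval z₂) + 2 * (N * φ : ℝ) * I * B‖ ≤
      8 * b * (ε * ‖B‖) := by
    have t1 := lin_approx (hasDerivAt_circle p) (s := ψ + φ) (t := ψ - φ) (a := I * B)
      (E := 4 * (ε * ‖B‖)) fun x hx => by
        rw [← mul_sub, norm_mul, norm_I, one_mul]; exact harc x hx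
    rw [← hz2, ← hz1, hc0, show ψ - φ - (ψ + φ) = -(2 * φ) by ring, abs_neg, abs_mul,
      abs_two] at t1
    have t2 : (N : ℝ) * (conj (p.eval z₁) - p.eval z₂) + 2 * (N * φ : ℝ) * I * B =
        (N : ℝ) * (conj (p.eval z₁) - p.eval z₂ - (((ψ - φ : ℝ) : ℂ) - (ψ + φ : ℝ)) * (I * B)) := by
      push_cast; ring
    rw [t2, norm_mul, norm_real, Real.norm_of_nonneg (by positivity)]
    refine (mul_le_mul_of_nonneg_left t1 (by positivity)).trans ?_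
    rw [abs_mul, abs_of_nonneg (by positivity : (0 : ℝ) ≤ N)] at hζ
    nlinarith [mul_le_mul_of_nonneg_right hζ (mul_pos ε0 hB0).le]
  have h2' : ‖MM N r κ z₁ - (N : ℝ) * RR r (al N r κ) 0 z₁ + RR r (al N r κ) 1 z₁‖ ≤
      2 * (ε * ‖B‖) := by
    have t1 := norm_le_norm_add_norm_sub' (conj ((Dz p).eval z₁)) B
    have t2 := norm_le_norm_add_norm_sub ((Dz p).eval z₁) (RR r (al N r κ) 1 z₁)
    rw [RCLike.norm_conj] at t1
    have t3 : ‖RR r (al N r κ) 1 z₁‖ ≤ 2 * ‖B‖ := by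
      nlinarith [mul_le_mul_of_nonneg_right ε1 hB0.le]
    refine (le_trans (le_of_eq ?_) r4).trans ?_
    · rw [ofReal_natCast]
    · nlinarith [mul_le_mul_of_nonneg_left t3 ε0.le]
  have key := lowE_alg (κ := κ) (M₂ := MM N r κ z₂) (Q₂ := RR r (al N r κ) 0 z₂)
    (w := exp (I * (N * ψ : ℝ))) hdot hm hB0 (norm_exp_I_mul_ofReal _) η0 η1 c0 c1 ε0 ε1 ε2 ε3 hζ
    (by rw [ofReal_natCast]; exact r2) h2' ((hP z₂ h2).trans hτ) ((hP z₁ h1).trans hτ) h5 h6 h7 h8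
    r1 r3
  have w2 : z₂ ^ N = exp (I * (N * φ : ℝ)) * exp (I * (N * ψ : ℝ)) := by
    rw [hz2, circleMap, ← Complex.exp_add, zero_add, ofReal_one, one_mul, ← Complex.exp_nat_mul]
    congr 1
    push_cast; ring
  have w1 : z₁ ^ N = exp (I * (N * φ : ℝ)) * conj (exp (I * (N * ψ : ℝ))) := by
    rw [← conj_conj z₁, hz1, circleMap, zero_add, ofReal_one, one_mul, ← exp_conj, ← exp_conj,
      ← Complex.exp_add, ← Complex.exp_nat_mul, map_mul, map_mul, conj_ofReal, conj_ofReal, conj_I]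
    congr 1
    push_cast; ring
  rw [← w1, ← w2, ofReal_natCast] at key
  exact key

theorem inj_PP {t κ : ℝ} (t0 : 0 < t) (t1 : t < π / 2) (ht : Real.cos t ≤ t)
    (hκ : κ < 1 - Real.sin t) : ∃ a₀ : ℝ, ∀ (N : ℕ) (r a : ℝ) (p : ℂ[X]), Par N r κ a → a₀ ≤ a →
      Apx r (al N r κ) ((1 - r) / (a * N)) p → p.natDegree ≤ N → ∀ η : ℝ, 0 ≤ η → η < 1 →
      InjOn (fun z => (PP N η p).eval z) (closedBall 0 1) := by
  obtain ⟨m, hm, hdot⟩ := dot t0 t1 ht (d := (Real.sin t + (1 - κ)) / 2) (by linarith)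
  obtain ⟨a₁, hmir⟩ := mirror_case (κ := κ) (b := 1236) (K := 204) hm (by linarith) (by norm_num)
    (by norm_num) hdot
  refine ⟨max a₁ (10 ^ 6 * 1236), fun N r a p H ha hp hdeg η η0 η1 => ?_⟩
  obtain ⟨a1, a2⟩ := max_le_iff.1 ha
  obtain ⟨hN, hr, ha0, -⟩ := lowE_par H
  obtain ⟨b1, b2, b3⟩ := H.base
  have r0 : 0 < r := by linarith [H.1]
  have near : ∀ c : ℝ, 0 ≤ c → c ≤ 1 → ∀ θ τ : ℝ, 0 < τ → τ ≤ 1236 / N →
      Dl N r κ η c p (circleMap 0 1 (θ - τ)) (circleMap 0 1 (θ + τ)) ≠ 0 := by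
    intro c c0 c1 θ τ τ0 τ1
    rcases le_total (N * τ) (3 / 2) with h | h
    · exact near_small H (by linarith) hp η0 η1.le c0 c1 θ τ0 h
    · exact near_mid H (b := 1236) (by norm_num) a2 hp η0 η1.le c0 c1 θ h
        ((le_div_iff₀' (by positivity)).1 τ1)
  refine bidisc (M := MM N r κ) (R := r⁻¹) ((one_lt_inv₀ r0).2 H.2.1) b1
    (PP N η p).differentiable.differentiableOn b2 b3 (fun z₁ z₂ h1 h2 h12 c c0 c1 => ?_)
    fun z hz c c0 c1 h0 => ?_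
  · rw [(PP_eval hdeg η h1).1, (PP_eval hdeg η h2).1]
    change Dl N r κ η c p z₁ z₂ ≠ 0
    rcases le_total ‖z₂ - z₁‖ (1236 / N) with h | h
    · obtain ⟨θ, τ, e2, e1, hτ⟩ := sym_angles h1 h2
      rcases lt_trichotomy τ 0 with h3 | h3 | h3
      · have h4 := near c c0 c1 θ (-τ) (by linarith) ((neg_le_abs τ).trans (hτ.trans h))
        rw [sub_neg_eq_add, ← sub_eq_add_neg, ← e1, ← e2] at h4
        intro h5
        refine h4 ?_
        unfold Dl at h5 ⊢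
        linear_combination -h5
      · exact absurd (by rw [e1, e2, h3, add_zero, sub_zero]) h12
      · rw [e1, e2]
        exact near c c0 c1 θ τ h3 ((le_abs_self τ).trans (hτ.trans h))
    by_cases h' : (12 * 100 + 36) / N ≤ ‖z₂ - conj z₁‖ ∨
      (100 + 2) * max (‖uu r z₁ + 1 / 2‖ ^ 2) (‖uu r z₂ + 1 / 2‖ ^ 2) / N ≤
        gp N r κ z₁ + gp N r κ z₂
    · exact far_case H (by linarith) hp η0 η1.le c0 c1 h1 h2
        (H.far_pair (K := 100) (by norm_num) (by linarith) h1 h2 (by norm_num at h ⊢; exact h) h')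
    · obtain ⟨h3, h4⟩ := not_or.1 h'
      rw [not_le] at h3 h4
      have h5 : ‖z₂ - conj z₁‖ ≤ 1236 / N := h3.le.trans (le_of_eq (by norm_num))
      obtain ⟨v1, v2⟩ := H.v_comp h1 h2 (h5.trans (by
        rw [div_le_div_iff₀ (by positivity) (by positivity)]
        nlinarith))
      have g1 := H.gp_nonneg h1
      have g2 := H.gp_nonneg h2
      have m1 : max (‖uu r z₁ + 1 / 2‖ ^ 2) (‖uu r z₂ + 1 / 2‖ ^ 2) ≤
        2 * ‖uu r z₁ + 1 / 2‖ ^ 2 := max_le (by linarith [sq_nonneg ‖uu r z₁ + 1 / 2‖]) v2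
      have m2 : max (‖uu r z₁ + 1 / 2‖ ^ 2) (‖uu r z₂ + 1 / 2‖ ^ 2) ≤
        2 * ‖uu r z₂ + 1 / 2‖ ^ 2 := max_le v1 (by linarith [sq_nonneg ‖uu r z₂ + 1 / 2‖])
      refine hmir N r a p H a1 hp η c η0 η1.le c0 c1 z₁ z₂ h1 h2 h5 ?_ ?_
      · exact ((le_add_of_nonneg_right g2).trans h4.le).trans
          (div_le_div_of_nonneg_right (by linarith) (by positivity))
      · exact ((le_add_of_nonneg_left g1).trans h4.le).trans
          (div_le_div_of_nonneg_right (by linarith) (by positivity))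
  · refine diag H (by linarith) hp η0 η1 c0 c1 hz ?_
    have e1 : (AA N p).eval z = N * (Dz p).eval z - (Dz (Dz p)).eval z := by
      rw [AA, eval_sub, eval_mul, eval_C]
    rw [e1, ← (PP_eval hdeg η hz).2]
    rw [Polynomial.deriv] at h0
    linear_combination z * h0

end Pool.Agent.P.MP_c09211_an.Sh
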