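import Pool.Agent.P.MP_c09211_an.Sh.CauchyB
import Pool.Agent.P.MP_c09211_an.Robertson

/-!
A holomorphic family of injective maps off the support of a Beltrami coefficient.
-/

set_option autoImplicit false

namespace Pool.Agent.P.MP_c09211_an.Sh

open Metric Set Complex Filter Topology MeasureTheory
open scoped Real ContDiff

/-- The iterates of the Beurling transform multiplied by `μ`. -/
noncomputable def itr (μ ψ : ℂ → ℂ) : ℕ → ℂ → ℂ
  | 0 => ψ
  | k + 1 => fun w => μ w * dz (cT (itr μ ψ k)) w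

theorem itr_tst {μ ψ : ℂ → ℂ} (hμ : Tst μ) (hψ : Tst ψ) : ∀ k, Tst (itr μ ψ k)
  | 0 => hψ
  | k + 1 => (itr_tst hμ hψ k).step hμ

theorem itr_supp {μ ψ : ℂ → ℂ} (h : tsupport ψ ⊆ tsupport μ) :
    ∀ k, tsupport (itr μ ψ k) ⊆ tsupport μ
  | 0 => h
  | _ + 1 => tsupport_mul_subset_left

theorem itr_l2 {μ ψ : ℂ → ℂ} (hμ : Tst μ) (h1 : ∀ w, ‖μ w‖ ≤ 1) (hψ : Tst ψ) :
    ∀ k, ∫ w : ℂ, ‖itr μ ψ k w‖ ^ 2 ≤ ∫ w : ℂ, ‖ψ w‖ ^ 2
  | 0 => le_rfl
  | k + 1 => (cT_iso (itr_tst hμ hψ k) hμ h1).trans (itr_l2 hμ h1 hψ k)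

theorem l1_le {φ : ℂ → ℂ} (h : Tst φ) {K : Set ℂ} (hK : IsCompact K) (hs : tsupport φ ⊆ K) :
    ∫ t : ℂ, ‖φ t‖ ≤ volume.real K + ∫ t : ℂ, ‖φ t‖ ^ 2 := by
  have c := h.1.continuous
  have i1 : Integrable (fun t => ‖φ t‖) := (c.integrable_of_hasCompactSupport h.2).norm
  have i2 : Integrable (fun t => ‖φ t‖ ^ 2) :=
    Continuous.integrable_of_hasCompactSupport (f := (fun z : ℂ => ‖z‖ ^ 2) ∘ φ)
      (Continuous.comp (by fun_prop) c) (h.2.comp_left (by simp))
  have i3 : Integrable (K.indicator (1 : ℂ → ℝ)) :=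
    (integrable_indicator_iff hK.measurableSet).mpr (integrableOn_const hK.measure_ne_top)
  rw [← integral_indicator_one hK.measurableSet, ← integral_add i3 i2]
  refine integral_mono i1 (i3.add i2) fun t => ?_
  by_cases ht : t ∈ K
  · simp only [indicator_of_mem ht, Pi.one_apply]
    nlinarith [sq_nonneg (‖φ t‖ - 1), norm_nonneg (φ t)]
  · simp [indicator_of_notMem ht, image_eq_zero_of_notMem_tsupport fun a => ht (hs a)]

theorem itr_bound {μ ψ : ℂ → ℂ} (hμ : Tst μ) (h1 : ∀ w, ‖μ w‖ ≤ 1) (hψ : Tst ψ)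
    (hs : tsupport ψ ⊆ tsupport μ) {d : ℝ} (hd : 0 < d) :
    ∃ C : ℝ, ∀ k w, (∀ t ∈ tsupport μ, d ≤ ‖t - w‖) → ‖cT (itr μ ψ k) w‖ ≤ C := by
  refine ⟨(π * d)⁻¹ * (volume.real (tsupport μ) + ∫ t : ℂ, ‖ψ t‖ ^ 2), fun k w hw => ?_⟩
  refine (cT_bound (itr_tst hμ hψ k) hd fun t ht => hw t (itr_supp hs k ht)).trans ?_
  have := Real.pi_pos
  gcongr
  exact (l1_le (itr_tst hμ hψ k) hμ.2 (itr_supp hs k)).trans (by
    have := itr_l2 hμ h1 hψ k
    linarith)

theorem exists_dist {K : Set ℂ} (hK : IsClosed K) {w : ℂ} (hw : w ∉ K) :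
    ∃ d : ℝ, 0 < d ∧ ∀ t ∈ K, d ≤ ‖t - w‖ := by
  obtain ⟨d, d0, hd⟩ := Metric.isOpen_iff.mp hK.isOpen_compl w hw
  refine ⟨d, d0, fun t ht => not_lt.mp fun a => hd (mem_ball_iff_norm.mpr a) ht⟩

section series

open PowerSeries Finset

theorem ex_th {c : ℕ → ℂ} (hc : c 0 = 0) :
    th (PowerSeries.mk (ex c)) = PowerSeries.mk (ex c) * PowerSeries.mk c := by
  ext k
  rw [coeff_th, coeff_mul_zero (by simpa using hc)]
  cases k with
  | zero => simp
  | succ k =>
    have : ((k + 1 : ℕ) : ℂ) ≠ 0 := by exact_mod_cast k.succ_ne_zero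
    simp only [coeff_mk]
    rw [ex, ← Nat.cast_succ, mul_div_cancel₀ _ this,
      Finset.sum_range (fun j => ex c j * c (k + 1 - j))]
    exact sum_congr rfl fun j _ => mul_comm _ _

theorem ser_deriv {A : ℂ⟦X⟧} {C : ℝ} (hA : ∀ k, ‖coeff k A‖ ≤ C) {z : ℂ} (hz : ‖z‖ < 1) :
    HasDerivAt (fun z : ℂ => ∑' k, coeff k A * z ^ k) (∑' k, coeff k (d⁄dX ℂ A) * z ^ k) z ∧
      (Summable fun k => ‖coeff k A * z ^ k‖) ∧
      Summable fun k => ‖coeff k (d⁄dX ℂ A) * z ^ k‖ := by
  obtain ⟨r, r0, r1⟩ := exists_between hz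
  have rp : 0 ≤ r := (norm_nonneg _).trans r0.le
  have su : Summable fun k : ℕ => C * r ^ k := (summable_geometric_of_lt_one rp r1).mul_left C
  have b : ∀ (k : ℕ) (w : ℂ), w ∈ ball (0 : ℂ) r → ‖coeff k A * w ^ k‖ ≤ C * r ^ k :=
    fun k w hw => by
      rw [norm_mul, norm_pow]
      exact mul_le_mul (hA k) (pow_le_pow_left₀ (norm_nonneg _) (mem_ball_zero_iff.mp hw).le k)
        (by positivity) ((norm_nonneg _).trans (hA k))
  have m : z ∈ ball (0 : ℂ) r := mem_ball_zero_iff.mpr r0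
  have d : ∀ k : ℕ, DifferentiableOn ℂ (fun w : ℂ => coeff k A * w ^ k) (ball 0 r) :=
    fun k => by fun_prop
  have h1 := differentiableOn_tsum_of_summable_norm su d isOpen_ball b
  have h2 := hasSum_deriv_of_summable_norm su d isOpen_ball b m
  have h3 := (hasSum_nat_add_iff' 1).mpr h2
  have e : ∀ k : ℕ, deriv (fun w : ℂ => coeff (k + 1) A * w ^ (k + 1)) z =
      coeff k (d⁄dX ℂ A) * z ^ k := fun k => by
    rw [coeff_derivative, deriv_const_mul_field, deriv_pow_field]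
    push_cast
    simp [mul_assoc]
  simp only [e, range_one, sum_singleton, pow_zero, mul_one, deriv_const', sub_zero] at h3
  refine ⟨h3.tsum_eq ▸ (h1.differentiableAt (isOpen_ball.mem_nhds m)).hasDerivAt,
    Summable.of_nonneg_of_le (fun _ => norm_nonneg _) (fun k => b k z m) su, h3.summable.norm⟩

theorem exp_series {E S : ℂ⟦X⟧} {C : ℝ} (hE : ∀ k, ‖coeff k E‖ ≤ C) (hS : ∀ k, ‖coeff k S‖ ≤ C)
    (h0 : coeff 0 E = 1) (h : th E = E * th S) {z : ℂ} (hz : ‖z‖ < 1) :
    ∑' k, coeff k E * z ^ k ≠ 0 := by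
  have hd : d⁄dX ℂ E = E * d⁄dX ℂ S :=
    mul_left_cancel₀ X_ne_zero (by simp only [th] at h; linear_combination h)
  have key : ∀ w ∈ ball (0 : ℂ) 1, HasDerivAt (fun w : ℂ => (∑' k, coeff k E * w ^ k) *
      exp (-∑' k, coeff k S * w ^ k)) 0 w := fun w hw => by
    obtain ⟨a1, a2, a3⟩ := ser_deriv hE (mem_ball_zero_iff.mp hw)
    obtain ⟨b1, b2, b3⟩ := ser_deriv hS (mem_ball_zero_iff.mp hw)
    have p := tsum_mul_tsum_eq_tsum_sum_antidiagonal_of_summable_norm a2 b3
    have q : ∑' k, coeff k (d⁄dX ℂ E) * w ^ k =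
        (∑' k, coeff k E * w ^ k) * ∑' k, coeff k (d⁄dX ℂ S) * w ^ k := by
      rw [p, hd]
      refine tsum_congr fun k => ?_
      rw [coeff_mul, sum_mul]
      refine sum_congr rfl fun x hx => ?_
      rw [← mem_antidiagonal.mp hx]
      ring
    refine (a1.mul b1.fun_neg.cexp).congr_deriv ?_
    rw [q]
    ring
  have c := (convex_ball (0 : ℂ) 1).is_const_of_fderivWithin_eq_zero (𝕜 := ℂ)
    (fun w hw => (key w hw).differentiableAt.differentiableWithinAt)
    (fun w hw => by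
      rw [fderivWithin_of_isOpen isOpen_ball hw, (key w hw).hasFDerivAt.fderiv]
      ext
      simp) (mem_ball_zero_iff.mpr hz) (mem_ball_self one_pos)
  intro e
  rw [e, zero_mul, tsum_eq_single 0 (fun k hk => by simp [hk]), h0] at c
  simpa using c.symm

/-- The coefficients of the exponential of `∑ s k * X ^ k`. -/
noncomputable def eE (s : ℕ → ℂ → ℂ) (k : ℕ) (w : ℂ) : ℂ := ex (fun j => j * s j w) k

theorem eE_zero (s : ℕ → ℂ → ℂ) : eE s 0 = fun _ => 1 := by
  funext w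
  simp [eE, ex]

theorem eE_succ (s : ℕ → ℂ → ℂ) (k : ℕ) : eE s (k + 1) = fun w =>
    (∑ j : Fin (k + 1), ((k + 1 - j : ℕ) : ℂ) * s (k + 1 - j) w * eE s j w) / (k + 1) := by
  funext w
  rw [eE, ex]
  rfl

theorem eE_smooth {s : ℕ → ℂ → ℂ} (hs : ∀ k, ContDiff ℝ ∞ (s k)) (k : ℕ) :
    ContDiff ℝ ∞ (eE s k) := by
  induction k using Nat.strong_induction_on with
  | _ k ih =>
    cases k with
    | zero => rw [eE_zero]; exact contDiff_const
    | succ k =>
      rw [eE_succ]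
      exact (ContDiff.sum fun (j : Fin (k + 1)) _ =>
        (contDiff_const.mul (hs _)).mul (ih j j.2)).div_const _

theorem eE_th (s : ℕ → ℂ → ℂ) (w : ℂ) : th (PowerSeries.mk fun k => eE s k w) =
    (PowerSeries.mk fun k => eE s k w) * th (PowerSeries.mk fun k => s k w) := by
  have e : th (PowerSeries.mk fun k => s k w) = PowerSeries.mk fun j => j * s j w := by
    ext k
    simp [coeff_th]
  rw [e]
  exact ex_th (by simp)

theorem eE_fderiv {s : ℕ → ℂ → ℂ} (hs : ∀ k, ContDiff ℝ ∞ (s k)) (s0 : s 0 = fun _ => 0)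
    (w v : ℂ) (k : ℕ) : fderiv ℝ (eE s k) w v =
      ∑ p ∈ antidiagonal k, eE s p.1 w * fderiv ℝ (s p.2) w v := by
  have dE : ∀ k, DifferentiableAt ℝ (eE s k) w := fun k =>
    (eE_smooth hs k).differentiable (by simp) w
  have ds : ∀ k, DifferentiableAt ℝ (s k) w := fun k => (hs k).differentiable (by simp) w
  set E := PowerSeries.mk fun k => eE s k w with hE
  set S := PowerSeries.mk fun k => s k w with hS
  set E' := PowerSeries.mk fun k => fderiv ℝ (eE s k) w v with hE'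
  set S' := PowerSeries.mk fun k => fderiv ℝ (s k) w v with hS'
  have a : th E = E * th S := eE_th s w
  have b : th E' = E' * th S + E * th S' := by
    ext k
    have f : (fun w => (k : ℂ) * eE s k w) =
        fun w => ∑ p ∈ antidiagonal k, eE s p.1 w * (p.2 * s p.2 w) := by
      funext w
      have := congrArg (coeff k) (eE_th s w)
      simpa only [coeff_th, coeff_mul, coeff_mk] using this
    have g1 : HasFDerivAt (fun w => (k : ℂ) * eE s k w) ((k : ℂ) • fderiv ℝ (eE s k) w) w :=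
      (dE k).hasFDerivAt.const_mul _
    have g2 := HasFDerivAt.fun_sum (u := antidiagonal k) fun p _ =>
      (dE p.1).hasFDerivAt.fun_mul ((ds p.2).hasFDerivAt.const_mul (p.2 : ℂ))
    rw [← f] at g2
    have := congrArg (fun L => L v) (g1.unique g2)
    simp only [smul_apply, smul_eq_mul, _root_.sum_apply,
      add_apply] at this
    simp only [coeff_th, map_add, coeff_mul, hE, hS, hE', hS', coeff_mk, ← sum_add_distrib]
    rw [this]
    exact sum_congr rfl fun p _ => by ring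
  have c := ex_unique (c := th S) (A := E' - E * S') (B := 0) (by simp [coeff_th])
    (by simp [hE', hS', eE_zero, s0]) (by rw [th_sub, th_mul, a, b]; ring) (by simp [th])
  have := congrArg (coeff k) (sub_eq_zero.mp c)
  simpa only [coeff_mul, hE, hE', hS', coeff_mk] using this

theorem eE_db {s : ℕ → ℂ → ℂ} (hs : ∀ k, ContDiff ℝ ∞ (s k)) (s0 : s 0 = fun _ => 0) (w : ℂ)
    (k : ℕ) : db (eE s k) w = ∑ p ∈ antidiagonal k, eE s p.1 w * db (s p.2) w ∧
      dz (eE s k) w = ∑ p ∈ antidiagonal k, eE s p.1 w * dz (s p.2) w := by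
  simp only [db, dz, eE_fderiv hs s0, mul_sum, ← sum_add_distrib, ← sum_sub_distrib, sum_div]
  exact ⟨sum_congr rfl fun p _ => by ring, sum_congr rfl fun p _ => by ring⟩

/-- Decay of order one at infinity. -/
def Dec (f : ℂ → ℂ) : Prop := ∃ C : ℝ, ∀ w, (1 + ‖w‖) * ‖f w‖ ≤ C

theorem Dec.bdd {f : ℂ → ℂ} (h : Dec f) : ∃ C : ℝ, ∀ w, ‖f w‖ ≤ C := by
  obtain ⟨C, hC⟩ := h
  exact ⟨C, fun w => le_trans (by nlinarith [norm_nonneg w, norm_nonneg (f w)]) (hC w)⟩

theorem eE_dec {s : ℕ → ℂ → ℂ} (hs : ∀ k, Dec (s k)) (k : ℕ) :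
    (∃ C : ℝ, ∀ w, ‖eE s k w‖ ≤ C) ∧ Dec (eE s (k + 1)) := by
  have step : ∀ k, (∀ j ≤ k, ∃ C : ℝ, ∀ w, ‖eE s j w‖ ≤ C) → Dec (eE s (k + 1)) := fun k h => by
    choose a ha using hs
    choose b hb using fun j : Fin (k + 1) => h j (Nat.lt_succ_iff.mp j.2)
    refine ⟨∑ j : Fin (k + 1), ((k + 1 - j : ℕ) : ℝ) * a (k + 1 - j) * b j, fun w => ?_⟩
    rw [eE_succ]
    have k1 : (1 : ℝ) ≤ ‖(k + 1 : ℂ)‖ := by
      rw [← Nat.cast_succ, Complex.norm_natCast]
      exact_mod_cast k.succ_pos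
    simp only [norm_div]
    refine le_trans (mul_le_mul_of_nonneg_left ((div_le_self (norm_nonneg _) k1).trans
      (norm_sum_le _ _)) (by positivity)) ?_
    rw [mul_sum]
    refine sum_le_sum fun j _ => ?_
    rw [norm_mul, norm_mul, Complex.norm_natCast]
    have := ha (k + 1 - j) w
    calc _ = ((k + 1 - j : ℕ) : ℝ) * ((1 + ‖w‖) * ‖s (k + 1 - j) w‖) * ‖eE s j w‖ := by ring
      _ ≤ _ := by
        have := hb j w
        have : 0 ≤ a (k + 1 - j) := le_trans (by positivity) (ha (k + 1 - j) w)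
        gcongr
  have all : ∀ k, ∀ j ≤ k, ∃ C : ℝ, ∀ w, ‖eE s j w‖ ≤ C := fun k => by
    induction k with
    | zero => exact fun j hj => ⟨1, fun w => by simp [Nat.le_zero.mp hj, eE_zero]⟩
    | succ k ih =>
      intro j hj
      rcases hj.eq_or_lt with rfl | hj
      · exact (step k ih).bdd
      · exact ih j (Nat.lt_succ_iff.mp hj)
  exact ⟨all k k le_rfl, step k (all k)⟩

theorem d_lin {f : ℂ → ℂ} {w : ℂ} (hf : DifferentiableAt ℝ f w) (a : ℂ) :
    db (fun w => (w - a) * f w) w = (w - a) * db f w ∧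
      dz (fun w => (w - a) * f w) w = (w - a) * dz f w + f w := by
  have h := (((hasFDerivAt_id (𝕜 := ℝ) w).sub_const a).fun_mul hf.hasFDerivAt).fderiv
  simp only [id] at h
  simp only [db, dz, h, add_apply, smul_apply,
    ContinuousLinearMap.id_apply, smul_eq_mul]
  constructor
  · linear_combination (f w / 2) * I_mul_I
  · linear_combination (-f w / 2) * I_mul_I

theorem key_id {μ : ℂ → ℂ} (hμ : Tst μ) {a : ℂ} (ha : a ∉ tsupport μ) {s : ℕ → ℂ → ℂ}
    (s0 : s 0 = fun _ => 0) (s1 : ∀ k, s (k + 1) = cT (itr μ (fun t => μ t / (t - a) ^ 1) k))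
    (k : ℕ) : (fun w => (w - a) * eE s (k + 1) w) =
      fun w => cT (itr μ μ k) w - cT (itr μ μ k) a := by
  have hψ := hμ.div ha 1
  have sm : ∀ k, ContDiff ℝ ∞ (s k) := fun k => by
    cases k with
    | zero => rw [s0]; exact contDiff_const
    | succ k => rw [s1]; exact cT_smooth (itr_tst hμ hψ k)
  have sd : ∀ k, Dec (s k) := fun k => by
    cases k with
    | zero => exact ⟨0, fun w => by simp [s0]⟩
    | succ k => rw [s1]; exact cT_decay (itr_tst hμ hψ k)
  have dE : ∀ k w, DifferentiableAt ℝ (eE s k) w := fun k w =>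
    (eE_smooth sm k).differentiable (by simp) w
  have rec1 : ∀ k w, db (fun w => (w - a) * eE s (k + 1) w) w =
      μ w * dz (fun w => (w - a) * eE s k w) w := fun k w => by
    have m : (w - a) * (μ w / (w - a) ^ 1) = μ w := by
      by_cases h : w = a
      · rw [h, image_eq_zero_of_notMem_tsupport ha]; simp
      · have := sub_ne_zero.mpr h
        field_simp
    have e : ∀ j, db (s (j + 1)) w =
        μ w * dz (s j) w + if j = 0 then μ w / (w - a) ^ 1 else 0 := fun j => by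
      rw [s1, db_cT (itr_tst hμ hψ j)]
      cases j with
      | zero => simp [itr, s0, dz]
      | succ j => simp [itr, s1]
    rw [(d_lin (dE _ w) a).1, (d_lin (dE _ w) a).2, (eE_db sm s0 w _).1, (eE_db sm s0 w _).2,
      Finset.Nat.sum_antidiagonal_succ' (f := fun p => eE s p.1 w * db (s p.2) w)]
    simp only [e, mul_add, sum_add_distrib, mul_ite, mul_zero]
    rw [sum_eq_single (f := fun p : ℕ × ℕ => if p.2 = 0 then eE s p.1 w * (μ w / (w - a) ^ 1)
      else 0) (k, 0) (fun p hp hn => if_neg fun h => hn (by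
        have := mem_antidiagonal.mp hp
        ext
        · simp only; omega
        · exact h)) (fun h => absurd (by simp) h), if_pos rfl,
      sum_congr rfl (g := fun p : ℕ × ℕ => μ w * (eE s p.1 w * dz (s p.2) w)) fun p _ => by ring,
      ← mul_sum]
    have z : db (s 0) w = 0 := by simp [s0, db]
    rw [z]
    linear_combination eE s k w * m
  have step : ∀ k, (∀ w, μ w * dz (fun w => (w - a) * eE s k w) w = itr μ μ k w) →
      (fun w => (w - a) * eE s (k + 1) w) = fun w => cT (itr μ μ k) w - cT (itr μ μ k) a := by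
    intro k h
    have c1 := (cT_smooth (itr_tst hμ hμ k)).differentiable (by simp)
    have d1 : Differentiable ℝ fun w => (w - a) * eE s (k + 1) w := fun w =>
      (differentiableAt_id.sub_const a).mul (dE _ w)
    have d2 : Differentiable ℂ fun w => (w - a) * eE s (k + 1) w - cT (itr μ μ k) w := fun w =>
      diff_of_db ((d1 w).sub (c1 w)) (by
        have x1 := (rec1 k w).trans (h w)
        have x2 := db_cT (itr_tst hμ hμ k) w
        simp only [db] at x1 x2 ⊢
        rw [fderiv_fun_sub (d1 w) (c1 w)]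
        simp only [sub_apply]
        linear_combination x1 - x2)
    obtain ⟨A, hA⟩ := (eE_dec sd k).2
    obtain ⟨B, hB⟩ := Dec.bdd (cT_decay (itr_tst hμ hμ k))
    funext w
    have := d2.apply_eq_apply_of_bounded (isBounded_iff_forall_norm_le.mpr
      ⟨(1 + ‖a‖) * A + B, by
        rintro _ ⟨w, rfl⟩
        refine (norm_sub_le _ _).trans (add_le_add ?_ (hB w))
        rw [norm_mul]
        have x1 := norm_sub_le w a
        have x2 : ‖w - a‖ ≤ (1 + ‖a‖) * (1 + ‖w‖) := by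
          nlinarith [norm_nonneg w, norm_nonneg a]
        calc _ ≤ (1 + ‖a‖) * (1 + ‖w‖) * ‖eE s (k + 1) w‖ := by gcongr
          _ ≤ _ := by rw [mul_assoc]; gcongr; exact hA w⟩) w a
    simp only [sub_self, zero_mul] at this
    linear_combination this
  induction k with
  | zero =>
    refine step 0 fun w => ?_
    rw [(d_lin (dE 0 w) a).2]
    simp [eE_zero, dz, itr]
  | succ k ih =>
    refine step (k + 1) fun w => ?_
    rw [ih]
    simp only [itr, dz, fderiv_sub_const]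

end series

theorem motion {μ : ℂ → ℂ} (hμ : Tst μ) (h1 : ∀ w, ‖μ w‖ ≤ 1) : ∃ V : ℕ → ℂ → ℂ,
    V 0 = cT μ ∧ (∀ k, ∀ w ∉ tsupport μ, DifferentiableAt ℂ (V k) w) ∧
    (∀ d : ℝ, 0 < d → ∃ C : ℝ, ∀ k w, (∀ t ∈ tsupport μ, d ≤ ‖t - w‖) → ‖V k w‖ ≤ C) ∧
    ∀ l : ℂ, ‖l‖ < 1 → InjOn (fun w => w + ∑' k, l ^ (k + 1) * V k w) (tsupport μ)ᶜ := by
  refine ⟨fun k => cT (itr μ μ k), rfl, fun k w hw => cT_diff (itr_tst hμ hμ k)
    fun a => hw (itr_supp subset_rfl k a), fun d hd => itr_bound hμ h1 hμ subset_rfl hd,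
    fun l hl w hw a ha e => ?_⟩
  by_contra hne
  have wa := sub_ne_zero.mpr hne
  obtain ⟨d1, p1, q1⟩ := exists_dist (isClosed_tsupport μ) hw
  obtain ⟨d2, p2, q2⟩ := exists_dist (isClosed_tsupport μ) ha
  obtain ⟨C1, b1⟩ := itr_bound hμ h1 hμ subset_rfl p1
  obtain ⟨C2, b2⟩ := itr_bound hμ h1 hμ subset_rfl p2
  have hψ := hμ.div ha 1
  obtain ⟨C3, b3⟩ := itr_bound hμ h1 hψ (by
    simp only [div_eq_mul_inv]; exact tsupport_mul_subset_left) p1
  let s : ℕ → ℂ → ℂ := fun k => Nat.casesOn k (fun _ => 0)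
    fun k => cT (itr μ (fun t => μ t / (t - a) ^ 1) k)
  have id1 := fun k => congrFun (key_id hμ ha (s := s) rfl (fun _ => rfl) k) w
  have n1 : 0 ≤ (C1 + C2) / ‖w - a‖ := div_nonneg (add_nonneg
    ((norm_nonneg _).trans (b1 0 w q1)) ((norm_nonneg _).trans (b2 0 a q2))) (norm_nonneg _)
  have n3 : 0 ≤ C3 := (norm_nonneg _).trans (b3 0 w q1)
  have hE : ∀ k, ‖PowerSeries.coeff k (PowerSeries.mk fun k => eE s k w)‖ ≤
      1 + (C1 + C2) / ‖w - a‖ + C3 := fun k => by
    rw [PowerSeries.coeff_mk]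
    cases k with
    | zero => simp only [eE_zero, norm_one]; linarith
    | succ k =>
      have : ‖eE s (k + 1) w‖ ≤ (C1 + C2) / ‖w - a‖ := by
        rw [le_div_iff₀' (norm_pos_iff.mpr wa), ← norm_mul, id1]
        exact (norm_sub_le _ _).trans (add_le_add (b1 k w q1) (b2 k a q2))
      linarith
  have ne := exp_series hE (S := PowerSeries.mk fun k => s k w) (fun k => by
    rw [PowerSeries.coeff_mk]
    cases k with
    | zero => simp only [s, Nat.rec_zero, norm_zero]; linarith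
    | succ k => have := b3 k w q1; simp only [s]; linarith) (by simp [eE_zero]) (eE_th s w) hl
  have su : ∀ {x : ℂ} {C : ℝ}, (∀ k, ‖cT (itr μ μ k) x‖ ≤ C) →
      Summable fun k => l ^ (k + 1) * cT (itr μ μ k) x := fun {x C} h =>
    Summable.of_norm_bounded ((summable_geometric_of_lt_one (norm_nonneg l) hl).mul_right C)
      fun k => by
        rw [norm_mul, norm_pow]
        exact mul_le_mul (pow_le_pow_of_le_one (norm_nonneg _) hl.le k.le_succ) (h k)
          (norm_nonneg _) (by positivity)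
  have s0 := (ser_deriv hE hl).2.1.of_norm
  simp only [PowerSeries.coeff_mk] at ne s0
  apply mul_ne_zero wa ne
  rw [s0.tsum_eq_zero_add, mul_add, ← tsum_mul_left, tsum_congr (g := fun k => l ^ (k + 1) *
    cT (itr μ μ k) w - l ^ (k + 1) * cT (itr μ μ k) a) (fun k => by
      linear_combination l ^ (k + 1) * id1 k),
    (su fun k => b1 k w q1).tsum_sub (su fun k => b2 k a q2)]
  simp only [eE_zero]
  linear_combination e

end Pool.Agent.P.MP_c09211_an.Sh
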