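import Pool.Agent.P.MP_c09211_an.Sh.StabA

/-!
Stability in the inequality of Lebedev and Milin.
-/

set_option autoImplicit false

namespace Pool.Agent.P.MP_c09211_an.Sh

open Metric Set Finset PowerSeries Complex Filter Topology Real
open scoped ComplexConjugate

theorem sb_shift {f : ℕ → ℝ} (hf : ∀ i, 0 ≤ f i) {b L K : ℕ} (h : b + L ≤ K) :
    ∑ i ∈ range L, f (b + i) ≤ ∑ i ∈ range K, f i := by
  have h1 : ∑ i ∈ range (b + L), f i ≤ ∑ i ∈ range K, f i :=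
    sum_le_sum_of_subset_of_nonneg (range_subset_range.mpr h) fun i _ _ => hf i
  have h2 : 0 ≤ ∑ i ∈ range b, f i := sum_nonneg fun i _ => hf i
  rw [sum_range_add] at h1
  linarith

theorem sb_unit (z : ℂ) : ∃ u : ℂ, ‖u‖ = 1 ∧ z = (‖z‖ : ℂ) * u := by
  by_cases hz : z = 0
  · exact ⟨1, norm_one, by simp [hz]⟩
  · have h : (‖z‖ : ℂ) ≠ 0 := by exact_mod_cast norm_ne_zero_iff.mpr hz
    refine ⟨z / ‖z‖, ?_, by field_simp⟩
    rw [norm_div, Complex.norm_real, norm_norm, div_self (norm_ne_zero_iff.mpr hz)]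

theorem sb_line {E : Type*} [NormedAddCommGroup E] [NormedSpace ℂ E] (A B x : E) (l m : ℂ) :
    ∃ ν : ℂ, ‖ν‖ = 1 ∧ ‖A - ν • B‖ ≤ 2 * ‖A - l • x‖ + 2 * ‖B - m • x‖ + |‖A‖ - ‖B‖| := by
  obtain ⟨p, hp, ep⟩ := sb_unit l
  obtain ⟨q, hq, eq⟩ := sb_unit m
  have q0 : q ≠ 0 := norm_ne_zero_iff.mp (by rw [hq]; exact one_ne_zero)
  have hν : ‖p / q‖ = 1 := by rw [norm_div, hp, hq, div_one]
  refine ⟨p / q, hν, ?_⟩
  have e1 : l - p / q * m = ((‖l‖ - ‖m‖ : ℝ) : ℂ) * p := by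
    have : p / q * m = ‖m‖ * p := by
      calc p / q * m = p / q * (‖m‖ * q) := by rw [← eq]
        _ = ‖m‖ * p := by field_simp
    rw [this]
    push_cast
    linear_combination ep
  have e2 : ‖(l - p / q * m) • x‖ = |‖l • x‖ - ‖m • x‖| := by
    rw [e1, norm_smul, norm_smul, norm_smul, norm_mul, hp, mul_one, Complex.norm_real,
      Real.norm_eq_abs, ← sub_mul, abs_mul, abs_norm]
  have e3 : A - (p / q) • B = (A - l • x) - (p / q) • (B - m • x) + (l - p / q * m) • x := by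
    rw [smul_sub, sub_smul, mul_smul]; abel
  have h1 := abs_norm_sub_norm_le A (l • x)
  have h2 := abs_norm_sub_norm_le B (m • x)
  have h3 : |‖l • x‖ - ‖m • x‖| ≤ ‖A - l • x‖ + ‖B - m • x‖ + |‖A‖ - ‖B‖| := by
    have a := abs_le.mp h1
    have b := abs_le.mp h2
    have c := le_abs_self (‖A‖ - ‖B‖)
    have d := neg_abs_le (‖A‖ - ‖B‖)
    rw [abs_le]
    constructor <;> linarith [a.1, a.2, b.1, b.2]
  have h4 := norm_add_le ((A - l • x) - (p / q) • (B - m • x)) ((l - p / q * m) • x)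
  have h5 := norm_sub_le (A - l • x) ((p / q) • (B - m • x))
  rw [norm_smul, hν, one_mul] at h5
  rw [e3]
  linarith

theorem sb_line_sum (k : ℕ) (A B x : ℕ → ℂ) (l m : ℂ) : ∃ ν : ℂ, ‖ν‖ = 1 ∧
    ∑ i ∈ range k, ‖A i - ν * B i‖ ^ 2 ≤ 12 * ∑ i ∈ range k, ‖A i - l * x i‖ ^ 2 +
      12 * ∑ i ∈ range k, ‖B i - m * x i‖ ^ 2 +
      3 * |∑ i ∈ range k, ‖A i‖ ^ 2 - ∑ i ∈ range k, ‖B i‖ ^ 2| := by
  let V : (ℕ → ℂ) → EuclideanSpace ℂ (Fin k) := fun f => WithLp.toLp 2 fun i => f i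
  have hV : ∀ f, ∑ i ∈ range k, ‖f i‖ ^ 2 = ‖V f‖ ^ 2 := fun f => by
    rw [EuclideanSpace.norm_sq_eq, Finset.sum_range]
  have hW : ∀ (f g : ℕ → ℂ) (s : ℂ), V (fun i => f i - s * g i) = V f - s • V g := fun f g s => rfl
  obtain ⟨ν, hν, H⟩ := sb_line (V A) (V B) (V x) l m
  refine ⟨ν, hν, ?_⟩
  rw [hV, hV, hV, hV, hV, hW, hW, hW]
  have h1 : |‖V A‖ - ‖V B‖| ^ 2 ≤ |‖V A‖ ^ 2 - ‖V B‖ ^ 2| := by
    rw [sq_sub_sq, abs_mul, sq]
    refine mul_le_mul_of_nonneg_right ?_ (abs_nonneg _)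
    rw [abs_of_nonneg (by positivity : 0 ≤ ‖V A‖ + ‖V B‖), abs_le]
    constructor <;> linarith [norm_nonneg (V A), norm_nonneg (V B)]
  have h2 := pow_le_pow_left₀ (norm_nonneg _) H 2
  set a := ‖V A - l • V x‖
  set b := ‖V B - m • V x‖
  set c := |‖V A‖ - ‖V B‖|
  nlinarith [sq_nonneg (2 * a - 2 * b), sq_nonneg (2 * a - c), sq_nonneg (2 * b - c)]

theorem sb_proj (k : ℕ) (B y : ℕ → ℂ) {G : ℝ} (hG : G = ∑ i ∈ range k, ‖y i‖ ^ 2) (h0 : 0 < G) :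
    ∃ l : ℂ, ∑ i ∈ range k, ‖B i - l * conj (y i)‖ ^ 2 =
      ∑ i ∈ range k, ‖B i‖ ^ 2 - ‖∑ i ∈ range k, B i * y i‖ ^ 2 / G := by
  set p := ∑ i ∈ range k, B i * y i with hp
  refine ⟨p / G, ?_⟩
  have e1 : ∀ i, ‖B i - p / G * conj (y i)‖ ^ 2 =
      ‖B i‖ ^ 2 + ‖p‖ ^ 2 / G ^ 2 * ‖y i‖ ^ 2 - 2 * (conj (p / G) * (B i * y i)).re := by
    intro i
    rw [Complex.sq_norm, Complex.normSq_sub, ← Complex.sq_norm, ← Complex.sq_norm, norm_mul,
      norm_div, Complex.norm_conj, Complex.norm_real, Real.norm_eq_abs, abs_of_pos h0, map_mul,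
      Complex.conj_conj, mul_pow, div_pow]
    congr 3
    ring
  have e2 : (conj (p / G) * p).re = ‖p‖ ^ 2 / G := by
    rw [map_div₀, Complex.conj_ofReal, div_mul_eq_mul_div, ← Complex.normSq_eq_conj_mul_self,
      ← Complex.ofReal_div, Complex.ofReal_re, Complex.sq_norm]
  rw [sum_congr rfl fun i _ => e1 i, sum_sub_distrib, sum_add_distrib, ← mul_sum, ← mul_sum,
    ← Complex.re_sum, ← mul_sum, ← hp, ← hG, e2]
  field_simp
  ring

/-- Sums of squares of the coefficients of the logarithmic derivative. -/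
noncomputable def GG (c : ℂ⟦X⟧) (k : ℕ) : ℝ := ∑ j ∈ range k, ‖coeff (j + 1) c‖ ^ 2

/-- The relative loss in the inequality of Cauchy and Schwarz. -/
noncomputable def ee (h c : ℂ⟦X⟧) (k : ℕ) : ℝ :=
  (SS h k * GG c k - (k : ℝ) ^ 2 * ‖coeff k h‖ ^ 2) / (SS h k * ((k : ℝ) ^ 2 + GG c k))

theorem sb_SS_nonneg (h : ℂ⟦X⟧) (k : ℕ) : 0 ≤ SS h k := by unfold SS; positivity

theorem sb_GG_nonneg (c : ℂ⟦X⟧) (k : ℕ) : 0 ≤ GG c k := by unfold GG; positivity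

theorem sb_SS_add (h : ℂ⟦X⟧) (a b : ℕ) :
    ∑ i ∈ range b, ‖coeff (a + i) h‖ ^ 2 = SS h (a + b) - SS h a := by
  unfold SS; rw [sum_range_add]; ring

theorem sb_GG (c : ℂ⟦X⟧) (k : ℕ) : GG c k = ∑ i ∈ range k, ‖coeff (k - i) c‖ ^ 2 := by
  unfold GG
  rw [← sum_range_reflect (fun j => ‖coeff (j + 1) c‖ ^ 2)]
  refine sum_congr rfl fun j hj => ?_
  have := mem_range.mp hj
  rw [show k - 1 - j + 1 = k - j by omega]

theorem sb_conv {h c : ℂ⟦X⟧} (H : LM h c) (k : ℕ) :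
    ‖∑ i ∈ range k, coeff i h * coeff (k - i) c‖ ^ 2 = (k : ℝ) ^ 2 * ‖coeff k h‖ ^ 2 := by
  rw [← coeff_mul_zero H.1, ← H.2.2.1, coeff_th, norm_mul, Complex.norm_natCast, mul_pow]

theorem sb_cs {h c : ℂ⟦X⟧} (H : LM h c) (k : ℕ) :
    (k : ℝ) ^ 2 * ‖coeff k h‖ ^ 2 ≤ SS h k * GG c k := by
  rw [← sb_conv H, sb_GG]
  refine le_trans (pow_le_pow_left₀ (norm_nonneg _) (norm_sum_le _ _) 2) ?_
  simp only [norm_mul]
  exact sum_mul_sq_le_sq_mul_sq _ _ _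

theorem sb_ee_nonneg {h c : ℂ⟦X⟧} (H : LM h c) (k : ℕ) : 0 ≤ ee h c k :=
  div_nonneg (sub_nonneg.mpr (sb_cs H k))
    (mul_nonneg (sb_SS_nonneg h k) (add_nonneg (sq_nonneg _) (sb_GG_nonneg c k)))

theorem sb_SS_pos {h c : ℂ⟦X⟧} (H : LM h c) {k : ℕ} (hk : 1 ≤ k) : 0 < SS h k := by
  have := sb_shift (f := fun i => ‖coeff i h‖ ^ 2) (fun i => by positivity) (b := 0) (L := 1)
    (K := k) (by omega)
  simp only [range_one, sum_singleton, add_zero, H.2.1, norm_one, one_pow] at this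
  exact lt_of_lt_of_le one_pos this

theorem sb_lm {h c : ℂ⟦X⟧} (H : LM h c) (n : ℕ) :
    SS h (n + 1) ≤ (n + 1) * Real.exp (∑ k ∈ range n,
      (‖coeff (k + 1) c‖ ^ 2 - 1) * (1 / ((k : ℝ) + 1) - 1 / ((n : ℝ) + 1))) *
      Real.exp (-∑ k ∈ range (n + 1), ee h c k) := by
  induction n with
  | zero => simp [SS, ee, H.2.1]
  | succ n ih =>
    have A0 := sb_GG_nonneg c (n + 1)
    have B0 := sb_SS_pos H (k := n + 1) (by omega)
    have e0 : SS h (n + 1 + 1) = SS h (n + 1) * (1 + GG c (n + 1) / (n + 1) ^ 2) *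
        (1 - ee h c (n + 1)) := by
      rw [show SS h (n + 1 + 1) = SS h (n + 1) + ‖coeff (n + 1) h‖ ^ 2 from sum_range_succ _ _, ee]
      push_cast
      field_simp
      ring
    set A := GG c (n + 1) with hA
    set B := SS h (n + 1) with hB
    have e2 : ∑ k ∈ range (n + 1), (‖coeff (k + 1) c‖ ^ 2 - 1) *
        (1 / ((k : ℝ) + 1) - 1 / (((n + 1 : ℕ) : ℝ) + 1)) = ∑ k ∈ range n,
        (‖coeff (k + 1) c‖ ^ 2 - 1) * (1 / ((k : ℝ) + 1) - 1 / ((n : ℝ) + 1)) +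
          (A - (n + 1)) / ((n + 1) * (n + 2)) := by
      have : A - (n + 1) = ∑ k ∈ range (n + 1), (‖coeff (k + 1) c‖ ^ 2 - 1) := by
        rw [sum_sub_distrib, hA, GG]; simp
      rw [this, sum_div, ← add_zero (∑ k ∈ range n, _), ← mul_zero (‖coeff (n + 1) c‖ ^ 2 - 1),
        ← sub_self (1 / ((n : ℝ) + 1)), ← sum_range_succ (fun k => (‖coeff (k + 1) c‖ ^ 2 - 1) *
          (1 / ((k : ℝ) + 1) - 1 / ((n : ℝ) + 1))), ← sum_add_distrib]
      refine sum_congr rfl fun k _ => ?_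
      push_cast
      field_simp
      ring
    rw [e0, e2, Real.exp_add, sum_range_succ (ee h c) (n + 1), neg_add, Real.exp_add]
    set E := Real.exp (∑ k ∈ range n,
      (‖coeff (k + 1) c‖ ^ 2 - 1) * (1 / ((k : ℝ) + 1) - 1 / ((n : ℝ) + 1)))
    set F := Real.exp (-∑ k ∈ range (n + 1), ee h c k)
    have e3 := Real.add_one_le_exp ((A - (n + 1)) / ((n + 1) * (n + 2)))
    have e4 := Real.one_sub_le_exp_neg (ee h c (n + 1))
    have e5 : (n + 1) * (1 + A / (n + 1) ^ 2) =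
        (n + 2) * ((A - (n + 1)) / ((n + 1) * (n + 2)) + 1) := by
      field_simp
      ring
    have E0 : 0 ≤ E := (Real.exp_pos _).le
    have F0 : 0 ≤ F := (Real.exp_pos _).le
    set R := Real.exp (-ee h c (n + 1))
    have R0 : 0 ≤ R := (Real.exp_pos _).le
    calc _ ≤ B * (1 + A / (n + 1) ^ 2) * R := by gcongr
      _ ≤ (n + 1) * E * F * (1 + A / (n + 1) ^ 2) * R := by gcongr
      _ = E * F * R * ((n + 2) * ((A - (n + 1)) / ((n + 1) * (n + 2)) + 1)) := by rw [← e5]; ring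
      _ ≤ E * F * R * ((n + 2) * Real.exp ((A - (n + 1)) / ((n + 1) * (n + 2)))) := by gcongr
      _ = _ := by push_cast; ring

theorem sb_sum_ee {h c : ℂ⟦X⟧} (H : LM h c) {J : ℕ} (hJ : 1 ≤ J) {δ : ℝ}
    (h1 : δ ≤ 1 / 2) (hS : (J : ℝ) - δ * J ≤ SS h J) : ∑ k ∈ range J, ee h c k ≤ 2 * δ := by
  obtain ⟨n, rfl⟩ : ∃ n, J = n + 1 := ⟨J - 1, by omega⟩
  have a := sb_lm H n
  have b := Real.exp_le_one_iff.mpr (H.2.2.2 n)
  set s := ∑ k ∈ range (n + 1), ee h c k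
  have n0 : (0 : ℝ) < n + 1 := by positivity
  have c1 : ((n : ℝ) + 1) * (1 - δ) ≤ (n + 1) * Real.exp (-s) := by
    push_cast at hS
    refine le_trans (by linarith) (a.trans ?_)
    gcongr
    exact mul_le_of_le_one_right n0.le b
  have c2 := le_of_mul_le_mul_left c1 n0
  have c3 := Real.add_one_le_exp s
  have c4 : Real.exp (-s) * Real.exp s = 1 := by rw [← Real.exp_add]; simp
  have c5 : (1 - δ) * (s + 1) ≤ 1 := by
    calc (1 - δ) * (s + 1) ≤ (1 - δ) * Real.exp s := by gcongr; linarith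
      _ ≤ Real.exp (-s) * Real.exp s := by gcongr
      _ = 1 := c4
  have s0 : 0 ≤ s := sum_nonneg fun k _ => sb_ee_nonneg H k
  nlinarith

theorem sb_G_low {h c : ℂ⟦X⟧} (H : LM h c) {k : ℕ} (hk : 1 ≤ k) {D : ℝ}
    (hS : (k : ℝ) - D ≤ SS h k) : ((k : ℝ) - 1) / 2 - D ≤ GG c k := by
  have e1 : ∀ n : ℕ, n * SS h n - (n : ℝ) * (n + 1) / 2 ≤
      ∑ i ∈ range n, (i : ℝ) * ‖coeff i h‖ ^ 2 := by
    intro n
    induction n with
    | zero => simp
    | succ n ih =>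
      have a := H.ss (n + 1)
      have b : SS h (n + 1) = SS h n + ‖coeff n h‖ ^ 2 := sum_range_succ _ _
      rw [sum_range_succ]
      push_cast at a ⊢
      nlinarith
  have e2 : ∀ i ∈ range k, (i : ℝ) * ‖coeff i h‖ ^ 2 ≤ GG c k := by
    intro i hi
    have hi' := mem_range.mp hi
    have a : GG c i ≤ GG c k :=
      sum_le_sum_of_subset_of_nonneg (range_subset_range.mpr hi'.le) fun j _ _ => by positivity
    rcases Nat.eq_zero_or_pos i with rfl | i0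
    · simpa using sb_GG_nonneg c k
    have i1 : (0 : ℝ) < i := by exact_mod_cast i0
    have b := sb_cs H i
    have d := mul_le_mul_of_nonneg_right (H.ss i) (sb_GG_nonneg c i)
    refine le_trans (le_of_mul_le_mul_left ?_ i1) a
    nlinarith
  have e3 := (e1 k).trans (sum_le_card_nsmul _ _ _ e2)
  rw [card_range, nsmul_eq_mul] at e3
  have k0 : (0 : ℝ) < k := by exact_mod_cast hk
  refine le_of_mul_le_mul_left ?_ k0
  nlinarith

theorem sb_near {h c : ℂ⟦X⟧} (H : LM h c) {k J : ℕ} (hJ : k ≤ J) {D : ℝ} (hD : 0 ≤ D)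
    (hk : 2 + 4 * D ≤ k) (hS : (k : ℝ) - D ≤ SS h k) : ∃ l : ℂ,
    ∑ i ∈ range k, ‖coeff i h - l * conj (coeff (k - i) c)‖ ^ 2 ≤ 5 * (J : ℝ) ^ 2 * ee h c k := by
  have k2 : (2 : ℝ) ≤ k := by linarith
  have k1 : 1 ≤ k := by exact_mod_cast (by linarith : (1 : ℝ) ≤ k)
  have hG : (k : ℝ) / 4 ≤ GG c k := le_trans (by linarith) (sb_G_low H k1 hS)
  have G0 : 0 < GG c k := by linarith
  obtain ⟨l, hl⟩ := sb_proj k (fun i => coeff i h) (fun i => coeff (k - i) c) (sb_GG c k) G0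
  refine ⟨l, ?_⟩
  have S0 := sb_SS_pos H k1
  have e1 : ∑ i ∈ range k, ‖coeff i h‖ ^ 2 - (k : ℝ) ^ 2 * ‖coeff k h‖ ^ 2 / GG c k =
      SS h k * (1 + (k : ℝ) ^ 2 / GG c k) * ee h c k := by
    rw [show ∑ i ∈ range k, ‖coeff i h‖ ^ 2 = SS h k from rfl, ee]
    field_simp
    ring
  rw [hl, sb_conv H, e1]
  refine mul_le_mul_of_nonneg_right ?_ (sb_ee_nonneg H k)
  have a : (k : ℝ) ^ 2 / GG c k ≤ 4 * k := by
    rw [div_le_iff₀ G0]; nlinarith
  have b : (k : ℝ) ≤ J := by exact_mod_cast hJ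
  calc SS h k * (1 + (k : ℝ) ^ 2 / GG c k) ≤ k * (1 + 4 * k) := by
        gcongr; exact H.ss k
    _ ≤ 5 * (k : ℝ) ^ 2 := by nlinarith
    _ ≤ 5 * (J : ℝ) ^ 2 := by gcongr

theorem sb_step {h c : ℂ⟦X⟧} (H : LM h c) {J L d : ℕ} {δ : ℝ} (h0 : 0 ≤ δ) (h1 : δ ≤ 1 / 2)
    (hL : 2 + 4 * (δ * J) ≤ L) (hd : d + 2 * L ≤ J)
    (hS : ∀ K ≤ J, (K : ℝ) - δ * J ≤ SS h K) : ∃ ν : ℂ, ‖ν‖ = 1 ∧
    ∑ i ∈ range (J - d - L), ‖coeff (d + i) h - ν * coeff i h‖ ^ 2 ≤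
      240 * δ * (J : ℝ) ^ 2 / L + 6 * (δ * J) := by
  have D0 : 0 ≤ δ * J := by positivity
  have L0 : (0 : ℝ) < L := by linarith
  have L1 : 0 < L := by exact_mod_cast L0
  have hE := sb_sum_ee H (J := J) (by omega) h1 (hS J le_rfl)
  have a1 := sb_shift (sb_ee_nonneg H) (b := J - d - L) (L := L) (K := J) (by omega)
  have a2 := sb_shift (sb_ee_nonneg H) (b := J - L) (L := L) (K := J) (by omega)
  obtain ⟨j, hj, hj'⟩ : ∃ j ∈ range L,
      ee h c (J - d - L + j) + ee h c (J - L + j) ≤ 4 * δ / L := by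
    refine exists_le_of_sum_le (nonempty_range_iff.mpr L1.ne') ?_
    rw [sum_add_distrib, sum_const, card_range, nsmul_eq_mul, mul_div_cancel₀ _ L0.ne']
    linarith
  have hj1 := mem_range.mp hj
  obtain ⟨k, hk⟩ : ∃ k, k = J - d - L + j := ⟨_, rfl⟩
  rw [← hk, show J - L + j = d + k by omega] at hj'
  have k1 : (L : ℝ) ≤ k := by exact_mod_cast (by omega : L ≤ k)
  have k2 : (L : ℝ) ≤ (d + k : ℕ) := by exact_mod_cast (by omega : L ≤ d + k)
  obtain ⟨m, hm⟩ := sb_near H (k := k) (J := J) (by omega) D0 (hL.trans k1) (hS k (by omega))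
  obtain ⟨l, hl⟩ := sb_near H (k := d + k) (J := J) (by omega) D0 (hL.trans k2)
    (hS (d + k) (by omega))
  obtain ⟨ν, hν, Hν⟩ := sb_line_sum k (fun i => coeff (d + i) h) (fun i => coeff i h)
    (fun i => conj (coeff (k - i) c)) l m
  refine ⟨ν, hν, ?_⟩
  have b1 := sb_shift (f := fun i => ‖coeff i h - l * conj (coeff (d + k - i) c)‖ ^ 2)
    (fun i => by positivity) (b := d) (L := k) (K := d + k) le_rfl
  simp only [Nat.add_sub_add_left] at b1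
  have b2 : ∑ i ∈ range (J - d - L), ‖coeff (d + i) h - ν * coeff i h‖ ^ 2 ≤
      ∑ i ∈ range k, ‖coeff (d + i) h - ν * coeff i h‖ ^ 2 :=
    sum_le_sum_of_subset_of_nonneg (range_subset_range.mpr (by omega)) fun i _ _ => by positivity
  have b3 : |∑ i ∈ range k, ‖coeff (d + i) h‖ ^ 2 - ∑ i ∈ range k, ‖coeff i h‖ ^ 2| ≤
      2 * (δ * J) := by
    rw [sb_SS_add, show ∑ i ∈ range k, ‖coeff i h‖ ^ 2 = SS h k from rfl, abs_le]
    have p1 := H.ss (d + k)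
    have p2 := H.ss d
    have p3 := H.ss k
    have q1 := hS (d + k) (by omega)
    have q2 := hS d (by omega)
    have q3 := hS k (by omega)
    push_cast at p1 q1
    constructor <;> linarith
  have b4 : 60 * (J : ℝ) ^ 2 * (ee h c k + ee h c (d + k)) ≤ 60 * (J : ℝ) ^ 2 * (4 * δ / L) := by
    gcongr
  have b5 : 60 * (J : ℝ) ^ 2 * (4 * δ / L) = 240 * δ * (J : ℝ) ^ 2 / L := by ring
  linarith

theorem sb_three (a b c : ℂ) : ‖a + b + c‖ ^ 2 ≤ 3 * (‖a‖ ^ 2 + ‖b‖ ^ 2 + ‖c‖ ^ 2) := by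
  have h := pow_le_pow_left₀ (norm_nonneg _) (norm_add₃_le (a := a) (b := b) (c := c)) 2
  nlinarith [sq_nonneg (‖a‖ - ‖b‖), sq_nonneg (‖a‖ - ‖c‖), sq_nonneg (‖b‖ - ‖c‖)]

theorem sb_two (a b : ℂ) : ‖a + b‖ ^ 2 ≤ 2 * (‖a‖ ^ 2 + ‖b‖ ^ 2) := by
  have h := pow_le_pow_left₀ (norm_nonneg _) (norm_add_le a b) 2
  nlinarith [sq_nonneg (‖a‖ - ‖b‖)]

theorem sb_main {h : ℂ⟦X⟧} {J L M : ℕ} (hJ : J = M + 2 * L) (hL : 0 < L) {D g η : ℝ}
    (h0 : 0 < η) (h1 : η ≤ 1 / 10) (hU : ∀ K, SS h K ≤ K) (hS : ∀ K ≤ J, (K : ℝ) - D ≤ SS h K)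
    (hD : D < L) (hg : 9 * g ≤ η ^ 2 * (L - D))
    (hP : ∀ d ≤ M, ∃ ν : ℂ, ‖ν‖ = 1 ∧
      ∑ i ∈ range (J - d - L), ‖coeff (d + i) h - ν * coeff i h‖ ^ 2 ≤ g) :
    ∃ u a : ℂ, ‖u‖ = 1 ∧ ‖a‖ = 1 ∧ ∑ k ∈ range J, ‖coeff k h - a * u ^ k‖ ^ 2 ≤
      12 * (M * (2 * g + 200 * η ^ 2 * L) / L) + 5 * D + 8 * L := by
  have L0 : (0 : ℝ) < L := by exact_mod_cast hL
  choose! ν hν hP using hP
  have Q : ∀ d b, d + b ≤ M →
      ∑ i ∈ range L, ‖coeff (d + (b + i)) h - ν d * coeff (b + i) h‖ ^ 2 ≤ g := fun d b hb =>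
    (sb_shift (f := fun i => ‖coeff (d + i) h - ν d * coeff i h‖ ^ 2) (fun i => by positivity)
      (by omega)).trans (hP d (by omega))
  have Q0 : ∀ d, d ≤ M → ∑ i ∈ range L, ‖coeff (d + i) h - ν d * coeff i h‖ ^ 2 ≤ g := by
    intro d hd
    simpa only [zero_add] using Q d 0 hd
  have SL := hS L (by omega)
  obtain ⟨u, hu, Hu⟩ := hyers (H := M) (ν := ν) h1 hν (by
    intro a b hab
    have e : ∀ i ∈ range L, ‖ν (a + b) - ν a * ν b‖ ^ 2 * ‖coeff i h‖ ^ 2 ≤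
        3 * (‖coeff (a + b + i) h - ν (a + b) * coeff i h‖ ^ 2 +
          ‖coeff (a + (b + i)) h - ν a * coeff (b + i) h‖ ^ 2 +
          ‖coeff (b + i) h - ν b * coeff i h‖ ^ 2) := by
      intro i _
      have := sb_three (-(coeff (a + b + i) h - ν (a + b) * coeff i h))
        (coeff (a + (b + i)) h - ν a * coeff (b + i) h) (ν a * (coeff (b + i) h - ν b * coeff i h))
      rw [norm_neg, norm_mul, hν a (by omega), one_mul] at this
      refine le_trans (le_of_eq ?_) this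
      rw [← mul_pow, ← norm_mul, add_assoc a b i]
      congr 2
      ring
    have e1 := sum_le_sum e
    rw [← mul_sum, ← mul_sum, sum_add_distrib, sum_add_distrib,
      show ∑ i ∈ range L, ‖coeff i h‖ ^ 2 = SS h L from rfl] at e1
    have e2 := Q0 (a + b) hab
    have e3 := Q a b hab
    have e4 := Q0 b (by omega)
    have e5 := mul_le_mul_of_nonneg_left SL (sq_nonneg ‖ν (a + b) - ν a * ν b‖)
    refine (pow_le_pow_iff_left₀ (norm_nonneg _) h0.le two_ne_zero).mp ?_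
    refine le_of_mul_le_mul_right ?_ (sub_pos.mpr hD)
    linarith)
  have R : ∀ d ∈ range M, ∑ i ∈ range L, ‖coeff (i + d) h - coeff i h * u ^ d‖ ^ 2 ≤
      2 * g + 200 * η ^ 2 * L := by
    intro d hd
    have hd' := (mem_range.mp hd).le
    have e : ∀ i ∈ range L, ‖coeff (i + d) h - coeff i h * u ^ d‖ ^ 2 ≤
        2 * (‖coeff (d + i) h - ν d * coeff i h‖ ^ 2 + (10 * η) ^ 2 * ‖coeff i h‖ ^ 2) := by
      intro i _
      have a := sb_two (coeff (d + i) h - ν d * coeff i h) ((ν d - u ^ d) * coeff i h)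
      have b := pow_le_pow_left₀ (norm_nonneg _) (Hu d hd') 2
      have c := mul_le_mul_of_nonneg_right b (sq_nonneg ‖coeff i h‖)
      rw [norm_mul, mul_pow, show coeff (d + i) h - ν d * coeff i h + (ν d - u ^ d) * coeff i h =
        coeff (i + d) h - coeff i h * u ^ d by rw [add_comm i d]; ring] at a
      linarith
    have e1 := sum_le_sum e
    rw [← mul_sum, sum_add_distrib, ← mul_sum,
      show ∑ i ∈ range L, ‖coeff i h‖ ^ 2 = SS h L from rfl] at e1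
    have e2 := Q0 d hd'
    have e3 := mul_le_mul_of_nonneg_left (hU L) (sq_nonneg (10 * η))
    linarith
  obtain ⟨j, hj, Hj⟩ : ∃ j ∈ range L, ∑ d ∈ range M, ‖coeff (j + d) h - coeff j h * u ^ d‖ ^ 2 ≤
      M * (2 * g + 200 * η ^ 2 * L) / L := by
    refine exists_le_of_sum_le (nonempty_range_iff.mpr hL.ne') ?_
    rw [sum_const, card_range, nsmul_eq_mul, mul_div_cancel₀ _ L0.ne', sum_comm]
    have := sum_le_card_nsmul _ _ _ R
    rwa [card_range, nsmul_eq_mul] at this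
  have hj' := mem_range.mp hj
  obtain ⟨a, ha, Ha⟩ := sb_line_sum M (fun d => coeff (j + d) h) (fun d => u ^ (j + d))
    (fun d => u ^ d) (coeff j h) (u ^ j)
  refine ⟨u, a, hu, ha, ?_⟩
  simp only [← pow_add, sub_self, norm_zero, ne_eq, OfNat.ofNat_ne_zero, not_false_eq_true,
    zero_pow, sum_const_zero, mul_zero, add_zero, norm_pow, hu, one_pow, sum_const, card_range,
    nsmul_eq_mul, mul_one, sb_SS_add] at Ha
  have p1 := hU (j + M)
  have p2 := hU j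
  have p3 := hU J
  have q1 := hS (j + M) (by omega)
  have q2 := hS j (by omega)
  push_cast at p1 q1
  have b1 : |SS h (j + M) - SS h j - M| ≤ D := by
    rw [abs_le]; constructor <;> linarith
  have b2 := sb_shift (f := fun i => 2 * ‖coeff i h‖ ^ 2 + 2 - ‖coeff i h - a * u ^ i‖ ^ 2)
    (fun i => by
      have := sb_two (coeff i h) (-(a * u ^ i))
      rw [norm_neg, norm_mul, norm_pow, hu, ha, ← sub_eq_add_neg] at this
      simp only [one_pow, mul_one] at this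
      linarith) (b := j) (L := M) (K := J) (by omega)
  simp only [sum_sub_distrib, sum_add_distrib, ← mul_sum, sum_const, card_range, nsmul_eq_mul,
    sb_SS_add] at b2
  have b3 : (J : ℝ) = M + 2 * L := by exact_mod_cast hJ
  rw [show ∑ i ∈ range J, ‖coeff i h‖ ^ 2 = SS h J from rfl] at b2
  linarith

theorem stab {ε : ℝ} (hε : 0 < ε) : ∃ δ : ℝ, 0 < δ ∧ ∃ J₀ : ℕ, ∀ J ≥ J₀, ∀ h c : ℂ⟦X⟧, LM h c →
    (∀ K ≤ J, (K : ℝ) - δ * J ≤ SS h K) → ∃ u a, NK J ε h u a := by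
  obtain ⟨t, t0, t1, t2⟩ : ∃ t : ℝ, 0 < t ∧ t ≤ 1 / 100 ∧ 100 * t ≤ ε :=
    ⟨min ε 1 / 100, by positivity, by linarith [min_le_right ε 1], by linarith [min_le_left ε 1]⟩
  refine ⟨t ^ 4 / 4500, by positivity, ⌈8 / t⌉₊, fun J hJ h c H hS => ?_⟩
  have hJ1 : 8 ≤ t * J := by
    have := Nat.ceil_le.mp hJ
    rw [div_le_iff₀ t0] at this
    linarith
  have J0 : (0 : ℝ) < J := (mul_pos_iff_of_pos_left t0).mp (by linarith)
  have t3 : t ^ 3 ≤ 1 := pow_le_one₀ t0.le (by linarith)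
  have t4 : t ^ 4 / 4500 * J ≤ t * J / 4500 := by
    have : t ^ 4 / 4500 * J = t ^ 3 * (t * J / 4500) := by ring
    rw [this]
    exact mul_le_of_le_one_left (by positivity) t3
  obtain ⟨L, l1, l2⟩ : ∃ L : ℕ, t * J ≤ L ∧ (L : ℝ) ≤ 2 * (t * J) :=
    ⟨⌈t * J⌉₊, Nat.le_ceil _, by linarith [Nat.ceil_lt_add_one (by linarith : 0 ≤ t * J)]⟩
  have L0 : (0 : ℝ) < L := by linarith
  have l3 : 2 * L ≤ J := by
    have : (2 : ℝ) * L ≤ J := by nlinarith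
    exact_mod_cast this
  obtain ⟨M, hM⟩ : ∃ M, J = M + 2 * L := ⟨J - 2 * L, by omega⟩
  have hg : 240 * (t ^ 4 / 4500) * (J : ℝ) ^ 2 / L + 6 * (t ^ 4 / 4500 * J) ≤ t ^ 3 * J / 18 := by
    have a : 240 * (t ^ 4 / 4500) * (J : ℝ) ^ 2 / L ≤ 240 / 4500 * (t ^ 3 * J) := by
      rw [div_le_iff₀ L0]
      calc 240 * (t ^ 4 / 4500) * (J : ℝ) ^ 2 = 240 / 4500 * (t ^ 3 * J) * (t * J) := by ring
        _ ≤ _ := by gcongr
    have b : t ^ 4 / 4500 * J ≤ t ^ 3 * J / 4500 := by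
      have : t ^ 4 / 4500 * J = t * (t ^ 3 * J / 4500) := by ring
      rw [this]
      exact mul_le_of_le_one_left (by positivity) (by linarith)
    have : 0 ≤ t ^ 3 * J := by positivity
    linarith
  obtain ⟨u, a, hu, ha, Hs⟩ := sb_main (h := h) hM (by exact_mod_cast L0) (D := t ^ 4 / 4500 * J)
    (g := t ^ 3 * J / 18) t0 (by linarith) H.ss hS (by linarith)
    (by
      have : t ^ 2 * (t * J / 2) ≤ t ^ 2 * (L - t ^ 4 / 4500 * J) := by
        gcongr; linarith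
      linarith)
    (fun d hd => by
      obtain ⟨ν, hν, Hν⟩ := sb_step H (J := J) (L := L) (d := d) (δ := t ^ 4 / 4500)
        (by positivity) (by nlinarith) (by linarith) (by omega) hS
      exact ⟨ν, hν, Hν.trans hg⟩)
  refine ⟨u, a, hu, ha, Hs.trans ?_⟩
  have m1 : (M : ℝ) ≤ J := by exact_mod_cast (by omega : M ≤ J)
  have m2 : M * (2 * (t ^ 3 * J / 18) + 200 * t ^ 2 * L) / L ≤ 201 * t * (t * J) := by
    rw [div_le_iff₀ L0]
    have a : 2 * (t ^ 3 * J / 18) ≤ t ^ 2 * L := by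
      have : t ^ 2 * (t * J) ≤ t ^ 2 * L := by gcongr
      have : 0 ≤ t ^ 2 * (t * J) := by positivity
      linarith
    calc M * (2 * (t ^ 3 * J / 18) + 200 * t ^ 2 * L) ≤ J * (t ^ 2 * L + 200 * t ^ 2 * L) := by
          gcongr
      _ = _ := by ring
  have m3 : 201 * t * (t * J) ≤ 201 * (1 / 100) * (t * J) := by gcongr
  have m4 : 100 * t * J ≤ ε * J := by gcongr
  linarith

end Pool.Agent.P.MP_c09211_an.Sh
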