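import Pool.Agent.P.MP_c09211_an.Sh.GeoP
import Pool.Agent.P.MP_c09211_an.Sh.Area
import Pool.Agent.P.MP_c09211_an.Sh.Zcoef

/-!
The sharpened upper bound.
-/

set_option autoImplicit false

namespace Pool.Agent.P.MP_c09211_an.Sh

open Metric Set Finset PowerSeries Complex Filter Topology Real
open scoped ComplexConjugate

theorem upa_nk_mono {J : ℕ} {δ δ' : ℝ} {h : ℂ⟦X⟧} {u a : ℂ} (H : NK J δ h u a) (hδ : δ ≤ δ') :
    NK J δ' h u a :=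
  ⟨H.1, H.2.1, H.2.2.trans (mul_le_mul_of_nonneg_right hδ (Nat.cast_nonneg _))⟩

theorem upa_mean_le {n J : ℕ} {P : Polynomial ℂ} (H : Hyp n P) {r : ℝ} (r0 : 0 < r) (r1 : r ≤ 1) :
    circleAverage (fun z => ‖Wf n J P z / z ^ (J - 1)‖) 0 r ≤
      circleAverage (fun z => ‖Yf n J P z‖) 0 r := by
  have hs : sphere (0 : ℂ) r ⊆ closedBall 0 1 \ {0} := fun z hz => by
    have hz' := mem_sphere_zero_iff_norm.mp hz
    refine ⟨mem_closedBall_zero_iff.mpr (hz'.trans_le r1), fun h0 => ?_⟩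
    rw [mem_singleton_iff.mp h0, norm_zero] at hz'
    exact r0.ne hz'
  refine circleAverage_mono (ContinuousOn.circleIntegrable r0.le ?_)
    (ContinuousOn.circleIntegrable r0.le (H.Yf_cont.mono hs).norm) fun z hz => ?_
  · refine ContinuousOn.norm (ContinuousOn.div
      (H.Wf_diff.continuousOn.mono fun z hz => (hs hz).1) (by fun_prop) fun z hz => ?_)
    exact pow_ne_zero _ (hs hz).2
  · rw [abs_of_pos r0] at hz
    have hz1 := (hs hz).1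
    have e := H.Wf_eq (J := J) (hs hz).2 (mem_closedBall_zero_iff.mp hz1)
    rw [e.1, e.2, norm_mul]
    exact mul_le_of_le_one_right (norm_nonneg _) (H.schur.2 z hz1)

theorem upa_qG {n J : ℕ} {P : Polynomial ℂ} (H : Hyp n P) (hn : n ≤ 2 * J ^ 2) (hJ : 5 ≤ J)
    {L r : ℝ} (hL : 0 < L) (hJL : 4 * L ≤ J) (hr : 1 - L / (J : ℝ) ^ 2 ≤ r) (r1 : r < 1)
    {z z' : ℂ} (hz : ‖z‖ = r) (hz' : ‖z'‖ = r) :
    ‖qf n J P z‖ * ‖Gf n P z'‖ ≤ (J : ℝ) ^ 20 := by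
  have j5 : (5 : ℝ) ≤ J := by exact_mod_cast hJ
  have j0 : (0 : ℝ) < J := by linarith
  set x := L / (J : ℝ) ^ 2 with hx
  have x0 : 0 < x := by positivity
  have x1 : J * x ≤ 1 / 4 := by
    rw [hx, show (J : ℝ) * (L / (J : ℝ) ^ 2) = L / J by field_simp, div_le_iff₀ j0]
    linarith
  have x2 : x ≤ 1 / 20 := by nlinarith
  have b := one_add_mul_le_pow (show (-2 : ℝ) ≤ -(2 * x) by linarith) J
  have y := H.yf_le (J := J) (by omega) (ρ := 1 + -(2 * x)) (by linarith) (by linarith) (z := z)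
    (by linarith) (by linarith)
  have i := H.inv_le (z := z) (by linarith) (by linarith)
  have g := H.Gf_le (z := z') (by linarith)
  have n2 : (n : ℝ) ≤ 2 * (J : ℝ) ^ 2 := by exact_mod_cast hn
  have j6 : (5 : ℝ) ^ 6 ≤ (J : ℝ) ^ 6 := by gcongr
  calc ‖qf n J P z‖ * ‖Gf n P z'‖ ≤ (3 * (J : ℝ) ^ 2 * 8 ^ 2) * (2 * (J : ℝ) ^ 2) ^ 6 := by
        rw [qf, norm_mul, norm_pow]
        refine mul_le_mul ?_ (g.trans ?_) (norm_nonneg _) (by positivity)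
        · gcongr
        · gcongr
    _ = 12288 * (J : ℝ) ^ 14 := by ring
    _ ≤ (J : ℝ) ^ 6 * (J : ℝ) ^ 14 := by
        gcongr
        linarith
    _ = (J : ℝ) ^ 20 := by ring

theorem circP {ε₀ : ℝ} (hε₀ : 0 < ε₀) : ∃ η : ℝ, 0 < η ∧ ∀ L : ℝ, 0 < L → ∀ ε₁ : ℝ, 0 < ε₁ →
    ∃ δ : ℝ, 0 < δ ∧ ∃ J₀ : ℕ, ∀ J ≥ J₀, ∀ n : ℕ, J ^ 2 ≤ n + 1 → n ≤ 2 * J ^ 2 →
    ∀ (P : Polynomial ℂ) (h g : ℂ⟦X⟧) (a : ℂ) (r r₀ : ℝ), Hyp n P →
      X * h ^ 2 = (P : ℂ⟦X⟧) → LM h g → NK J δ h 1 a →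
      (1 - δ) * (J : ℝ) ^ 2 ≤ ‖Lam J (om n P) (P : ℂ⟦X⟧)‖ → 1 - L / (J : ℝ) ^ 2 ≤ r → r < 1 →
      1 - L / (J : ℝ) ^ 2 ≤ r₀ → r₀ < 1 →
      circleAverage (fun z => ‖Yf n J P z‖) 0 r₀ ≤ (1 + η) * (J : ℝ) ^ 3 →
      (1 - ε₁) * (J : ℝ) ^ 3 + r ^ (2 * (n + 1)) * ((1 - ε₀) * (J : ℝ) ^ 3) ≤
        circleAverage (fun z => ‖Yf n J P z‖) 0 r := by
  obtain ⟨A, hA, η₁, hη₁, H1⟩ := circ hε₀
  obtain ⟨τ, τ0, τ1, δ₁, δ₁0, H2⟩ := geo hA hη₁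
  obtain ⟨η, η0, H3⟩ := H1 τ τ0 τ1
  refine ⟨η, η0, fun L hL ε₁ hε₁ => ?_⟩
  obtain ⟨β, β0, ε₂, ε₂0, H4⟩ := H3 L hL ε₁ hε₁
  obtain ⟨γ, γ0, H5⟩ := H2 β β0
  obtain ⟨J₁, H6⟩ := H4 γ γ0
  obtain ⟨J₂, H7⟩ := H5 L hL
  obtain ⟨δ₂, δ₂0, H8⟩ := zcoef (half_pos ε₂0)
  obtain ⟨J₃, hJ₃⟩ := exists_nat_ge (4 * L + 2 / ε₂)
  refine ⟨min δ₁ δ₂, lt_min δ₁0 δ₂0, J₁ + J₂ + J₃ + 5,
    fun J hJ n hn1 hn2 P h g a r r₀ H e hl hk hΛ hr r1 hr₀ r₀1 hm => ?_⟩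
  have j5 : (5 : ℝ) ≤ J := by exact_mod_cast (show 5 ≤ J by omega)
  have j0 : (0 : ℝ) < J := by linarith
  have j3 : 4 * L + 2 / ε₂ ≤ J := hJ₃.trans (by exact_mod_cast (show J₃ ≤ J by omega))
  have p2 : 0 < 2 / ε₂ := by positivity
  have jL : 4 * L ≤ J := by linarith
  have jε : 2 ≤ J * ε₂ := (div_le_iff₀ ε₂0).mp (by linarith)
  have x1 : L / (J : ℝ) ^ 2 ≤ 1 / 2 := by
    rw [div_le_iff₀ (by positivity)]
    nlinarith
  have r0 : 0 < r := by linarith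
  have r₀0 : 0 < r₀ := by linarith
  have J3 : (0 : ℝ) < (J : ℝ) ^ 3 := by positivity
  by_cases hb : circleAverage (fun z => ‖Yf n J P z‖) 0 r ≤ 2 * (J : ℝ) ^ 3
  swap
  · have a1 : r ^ (2 * (n + 1)) ≤ 1 := pow_le_one₀ r0.le r1.le
    have a2 : 0 ≤ r ^ (2 * (n + 1)) := by positivity
    have a3 : r ^ (2 * (n + 1)) * ((1 - ε₀) * (J : ℝ) ^ 3) ≤ r ^ (2 * (n + 1)) * (J : ℝ) ^ 3 :=
      mul_le_mul_of_nonneg_left (by linarith [mul_pos hε₀ J3]) a2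
    have a4 : r ^ (2 * (n + 1)) * (J : ℝ) ^ 3 ≤ (J : ℝ) ^ 3 := mul_le_of_le_one_left J3.le a1
    have a5 := mul_pos hε₁ J3
    linarith [not_le.mp hb]
  have J2 : (0 : ℝ) ≤ (J : ℝ) ^ 2 := by positivity
  have l1 : (1 - δ₁) * (J : ℝ) ^ 2 ≤ ‖Lam J (om n P) (P : ℂ⟦X⟧)‖ :=
    (mul_le_mul_of_nonneg_right (by linarith [min_le_left δ₁ δ₂]) J2).trans hΛ
  have l2 : (1 - δ₂) * (J : ℝ) ^ 2 ≤ ‖Lam J (om n P) (X * h ^ 2)‖ := by
    rw [e]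
    exact (mul_le_mul_of_nonneg_right (by linarith [min_le_right δ₁ δ₂]) J2).trans hΛ
  have G := H7 J (by omega) n P h g a r H e hl (upa_nk_mono hk (min_le_left _ _)) l1 hr r1 hb
  obtain ⟨c, c1, hc⟩ := H8 J h (om n P) a H.schur hl.ss (upa_nk_mono hk (min_le_right _ _)) l2
  rw [e] at hc
  refine (H6 J (by omega) (n + 1) hn1 (Wf n J P) (Gf n P) (qf n J P) r r₀ c H.Wf_diff
    Gf_diff.differentiableOn (fun z hz => H.Gf_pos hz) hr r1 hr₀ r₀1 (fun z hz => ?_)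
    (fun z z' hz hz' => upa_qG H hn2 (by omega) hL jL hr r1 hz hz') c1 (fun j hj => ?_)
    ((upa_mean_le H r₀0 r₀1.le).trans hm) G).trans (upa_mean_le H r0 r1.le)
  · exact (H.Wf_eq (norm_pos_iff.mp (hz ▸ r0)) (hz.trans_le r1.le)).1
  · have := (norm_sub_le_norm_sub_add_norm_sub _ _ _).trans (add_le_add (H.Wf_coeff hj) (hc j hj))
    have b : (J : ℝ) ^ 2 * 2 ≤ (J : ℝ) ^ 2 * (J * ε₂) := mul_le_mul_of_nonneg_left jε J2
    linarith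

theorem upa_int {M : ℝ → ℝ} {ρ a b : ℝ} (n : ℕ) (ρ0 : 0 < ρ) (ρ1 : ρ < 1)
    (hM : ContinuousOn M (Set.Icc ρ 1)) (h : ∀ r ∈ Set.Ioo ρ 1, a + r ^ (2 * (n + 1)) * b ≤ M r) :
    a * (-Real.log ρ) + b * ((1 - ρ ^ (2 * (n + 1))) / (2 * (n + 1))) ≤
      ∫ r in ρ..1, M r / r := by
  have hne : ∀ r ∈ Set.uIcc ρ 1, r ≠ 0 := fun r hr => by
    rw [Set.uIcc_of_le ρ1.le] at hr
    exact (ρ0.trans_le hr.1).ne'
  have i1 : IntervalIntegrable (fun r : ℝ => a * r⁻¹) MeasureTheory.volume ρ 1 :=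
    ContinuousOn.intervalIntegrable (continuousOn_const.mul (continuousOn_id.inv₀ hne))
  have i2 : IntervalIntegrable (fun r : ℝ => b * r ^ (2 * n + 1)) MeasureTheory.volume ρ 1 :=
    Continuous.intervalIntegrable (by fun_prop) _ _
  have i3 : IntervalIntegrable (fun r : ℝ => M r / r) MeasureTheory.volume ρ 1 :=
    ContinuousOn.intervalIntegrable (ContinuousOn.div (by rwa [Set.uIcc_of_le ρ1.le])
      continuousOn_id hne)
  refine le_trans (le_of_eq ?_)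
    (intervalIntegral.integral_mono_on_of_le_Ioo ρ1.le (i1.add i2) i3 fun r hr => ?_)
  · rw [intervalIntegral.integral_add i1 i2, intervalIntegral.integral_const_mul,
      intervalIntegral.integral_const_mul, integral_inv_of_pos ρ0 one_pos, integral_pow, one_div,
      Real.log_inv, one_pow, show 2 * n + 1 + 1 = 2 * (n + 1) by ring]
    push_cast
    ring
  · have r0 : 0 < r := ρ0.trans hr.1
    rw [le_div_iff₀ r0]
    refine le_trans (le_of_eq ?_) (h r hr)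
    field_simp
    ring

theorem upa_area {n J : ℕ} {P : Polynomial ℂ} (H : Hyp n P) (hJ : 1 ≤ J) {ρ : ℝ} (ρ0 : 0 < ρ)
    (ρ1 : ρ < 1) (hl : J * (-Real.log ρ) ≤ 1) :
    ∫ r in ρ..1, circleAverage (fun z => ‖Yf n J P z‖) 0 r / r ≤
      (J : ℝ) ^ 3 * (-Real.log ρ) + (J : ℝ) ^ 4 * (-Real.log ρ) ^ 2 +
        ((J : ℝ) ^ 2 - ‖Lam J (om n P) (P : ℂ⟦X⟧)‖) := by
  obtain ⟨R, hR, hi⟩ := H.2.2.2
  have a := area_polar (P := fun z => P.eval z) P.differentiable hR hi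
    (by rw [← Polynomial.coeff_zero_eq_eval_zero, H.2.1]) ρ0 ρ1 hJ (l := Lc n J P)
    (B := (J : ℝ) ^ 2 / ρ ^ (J - 1))
    (fun Φ a1 a2 a3 a4 a5 => H.fb hJ ρ0 ρ1.le a1 a2 a3 a4 a5)
  simp only [Polynomial.deriv] at a
  have e1 : Lc n J P 1 = Lam J (om n P) (P : ℂ⟦X⟧) := by rw [Lc, pow_one]
  rw [e1] at a
  refine le_trans a ?_
  set l := -Real.log ρ with hl'
  have l0 : 0 ≤ l := neg_nonneg.mpr (Real.log_nonpos ρ0.le ρ1.le)
  have jl : 0 ≤ J * l := by positivity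
  have e2 : (ρ ^ J)⁻¹ = Real.exp (J * l) := by
    rw [Real.exp_nat_mul, hl', Real.exp_neg, Real.exp_log ρ0, inv_pow]
  have e3 : (ρ ^ (J - 1))⁻¹ ≤ (ρ ^ J)⁻¹ :=
    inv_anti₀ (by positivity) (pow_le_pow_of_le_one ρ0.le ρ1.le (Nat.sub_le _ _))
  have e4 := (abs_le.mp (Real.abs_exp_sub_one_sub_id_le (x := J * l) (by rwa [abs_of_nonneg jl]))).2
  have e5 : (ρ ^ (J - 1))⁻¹ ≤ 1 + J * l + (J * l) ^ 2 := by linarith
  have e6 := mul_le_mul_of_nonneg_left e5 (show (0 : ℝ) ≤ (J : ℝ) ^ 2 by positivity)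
  rw [div_eq_mul_inv]
  linarith

theorem core1 {ε : ℝ} (hε : 0 < ε) : ∃ δ : ℝ, 0 < δ ∧ ∃ J₀ : ℕ, ∀ J ≥ J₀, ∀ n : ℕ,
    J ^ 2 ≤ n + 1 → n ≤ 2 * J ^ 2 → ∀ (P : Polynomial ℂ) (h g : ℂ⟦X⟧) (a : ℂ), Hyp n P →
      X * h ^ 2 = (P : ℂ⟦X⟧) → LM h g → NK J δ h 1 a →
      ‖Lam J (om n P) (P : ℂ⟦X⟧)‖ ≤ (J : ℝ) ^ 2 - (1 / 2 - ε) * ((J : ℝ) ^ 3 / (n + 1)) := by
  obtain ⟨η, η0, H1⟩ := circP (ε₀ := ε / 4) (by positivity)
  set L := 1 / η + 4 / ε with hL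
  have p1 : 0 < 1 / η := by positivity
  have p2 : 0 < 4 / ε := by positivity
  have L0 : 0 < L := by positivity
  have Lη : 1 ≤ η * L := by
    have : η * (1 / η) = 1 := by field_simp
    have := mul_pos η0 p2
    rw [hL]
    linarith
  have Lε : 4 ≤ ε * L := by
    have : ε * (4 / ε) = 4 := by field_simp
    have := mul_pos hε p1
    rw [hL]
    linarith
  clear_value L
  obtain ⟨δ, δ0, J₁, H2⟩ := H1 L L0 (ε / (24 * L)) (by positivity)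
  obtain ⟨J₂, hJ₂⟩ := exists_nat_ge (2 * L + 8 * L ^ 2 + 24 * L ^ 2 / ε + 1 / δ)
  refine ⟨δ, δ0, J₁ + J₂ + 1, fun J hJ n hn1 hn2 P h g a H e hl hk => ?_⟩
  by_contra hc
  rw [not_le] at hc
  have j1 : (1 : ℝ) ≤ J := by exact_mod_cast (show 1 ≤ J by omega)
  have j0 : (0 : ℝ) < J := by linarith
  have j2 : 2 * L + 8 * L ^ 2 + 24 * L ^ 2 / ε + 1 / δ ≤ J :=
    hJ₂.trans (by exact_mod_cast (show J₂ ≤ J by omega))
  have q1 : 0 < 24 * L ^ 2 / ε := by positivity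
  have q2 : 0 < 1 / δ := by positivity
  have q3 : 0 < 8 * L ^ 2 := by positivity
  have jδ : 1 ≤ J * δ := (div_le_iff₀ δ0).mp (by linarith)
  have jε : 24 * L ^ 2 ≤ J * ε := (div_le_iff₀ hε).mp (by linarith)
  have jL : 2 * L ≤ J := by linarith
  have jL2 : 8 * L ^ 2 ≤ J := by linarith
  have N1 : (J : ℝ) ^ 2 ≤ n + 1 := by exact_mod_cast hn1
  have N2 : (n : ℝ) ≤ 2 * (J : ℝ) ^ 2 := by exact_mod_cast hn2
  have N0 : (0 : ℝ) < n + 1 := by positivity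
  have J2 : (0 : ℝ) < (J : ℝ) ^ 2 := by positivity
  have J3 : (0 : ℝ) < (J : ℝ) ^ 3 := by positivity
  set t := (J : ℝ) ^ 3 / (n + 1) with ht
  have t0 : 0 < t := by positivity
  have t1 : t ≤ J := by
    rw [ht, div_le_iff₀ N0]
    linarith [mul_le_mul_of_nonneg_left N1 j0.le]
  have t2 : J ≤ 3 * t := by
    rw [ht, ← mul_div_assoc, le_div_iff₀ N0]
    have : (n : ℝ) + 1 ≤ 3 * (J : ℝ) ^ 2 := by linarith [one_le_pow₀ (n := 2) j1]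
    linarith [mul_le_mul_of_nonneg_left this j0.le]
  set Λ := ‖Lam J (om n P) (P : ℂ⟦X⟧)‖ with hΛ
  have D1 : (J : ℝ) ^ 2 - Λ < J / 2 := by linarith [mul_pos hε t0]
  have D2 : (1 - δ) * (J : ℝ) ^ 2 ≤ Λ := by linarith [mul_le_mul_of_nonneg_left jδ j0.le]
  set x := L / (J : ℝ) ^ 2 with hx
  have x0 : 0 < x := by positivity
  have x1 : (J : ℝ) ^ 2 * x = L := by rw [hx]; field_simp
  have x2 : J * x ≤ 1 / 2 := by
    rw [hx, show (J : ℝ) * (L / (J : ℝ) ^ 2) = L / J by field_simp, div_le_iff₀ j0]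
    linarith
  have x3 : x ≤ 1 / 2 := (le_mul_of_one_le_left x0.le j1).trans x2
  have ρ0 : 0 < 1 - x := by linarith
  have ρ1 : 1 - x < 1 := by linarith
  set l := -Real.log (1 - x) with hl'
  have l1 : x ≤ l := by linarith [Real.log_le_sub_one_of_pos ρ0]
  have l2 : l ≤ 2 * x := by
    have a1 := Real.log_le_sub_one_of_pos (inv_pos.mpr ρ0)
    rw [Real.log_inv] at a1
    have a2 : (1 - x)⁻¹ ≤ 1 + 2 * x := by
      rw [inv_le_iff_one_le_mul₀ ρ0]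
      linarith [mul_le_mul_of_nonneg_left x3 x0.le]
    linarith
  have l0 : 0 ≤ l := by linarith
  have l3 : L ≤ (J : ℝ) ^ 2 * l := x1 ▸ mul_le_mul_of_nonneg_left l1 J2.le
  have l4 : (J : ℝ) ^ 2 * l ≤ 2 * L := by
    have := mul_le_mul_of_nonneg_left l2 J2.le
    linarith
  have ar := upa_area H (J := J) (by omega) ρ0 ρ1 (by
    have := mul_le_mul_of_nonneg_left l2 j0.le
    linarith)
  rw [← hl', ← hΛ] at ar
  have hM : ContinuousOn (circleAverage (fun z => ‖Yf n J P z‖) 0) (Set.Icc (1 - x) 1) := by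
    refine Real.ContinuousOn.circleAverage (H.Yf_cont.mono fun z hz => ?_).norm
      fun r hr => (ρ0.trans_le hr.1).le
    rw [Set.mem_ofPred_eq, sub_zero] at hz
    exact ⟨mem_closedBall_zero_iff.mpr hz.2, norm_pos_iff.mp (ρ0.trans_le hz.1)⟩
  set u := (J : ℝ) ^ 2 * l with hu
  have u1 : (J : ℝ) ^ 3 * l = J * u := by rw [hu]; ring
  have u2 : (J : ℝ) ^ 4 * l ^ 2 ≤ 4 * L ^ 2 := by
    rw [show (J : ℝ) ^ 4 * l ^ 2 = u ^ 2 by rw [hu]; ring]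
    linarith [pow_le_pow_left₀ (L0.le.trans l3) l4 2]
  rw [u1] at ar
  have ex : ∃ r₀ ∈ Set.Ioo (1 - x) 1,
      circleAverage (fun z => ‖Yf n J P z‖) 0 r₀ ≤ (1 + η) * (J : ℝ) ^ 3 := by
    by_contra hx
    push Not at hx
    have a1 := (upa_int (a := (1 + η) * (J : ℝ) ^ 3) (b := 0) 0 ρ0 ρ1 hM fun r hr => by
      simpa using (hx r hr).le).trans ar
    rw [← hl', zero_mul, add_zero, mul_assoc, u1] at a1
    have a2 : J * (η * L) ≤ J * (η * u) := by gcongr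
    have a3 : J * 1 ≤ J * (η * L) := by gcongr
    linarith
  obtain ⟨r₀, hr₀, hm⟩ := ex
  have a1 := (upa_int (a := (1 - ε / (24 * L)) * (J : ℝ) ^ 3) (b := (1 - ε / 4) * (J : ℝ) ^ 3) n
    ρ0 ρ1 hM fun r hr => H2 J (by omega) n hn1 hn2 P h g a r r₀ H e hl hk D2 hr.1.le hr.2
      hr₀.1.le hr₀.2 hm).trans ar
  rw [← hl', mul_assoc, u1] at a1
  set y := (1 - x) ^ (2 * (n + 1)) with hy
  have y0 : 0 ≤ y := by positivity
  have y1 : y ≤ ε / 4 := by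
    have b1 : y ≤ Real.exp (-x) ^ (2 * (n + 1)) :=
      pow_le_pow_left₀ ρ0.le (by linarith [Real.add_one_le_exp (-x)]) _
    rw [← Real.exp_nat_mul] at b1
    have b2 : ((2 * (n + 1) : ℕ) : ℝ) * -x ≤ -L := by
      push_cast
      linarith [mul_le_mul_of_nonneg_right N1 x0.le]
    have b3 : Real.exp (-L) * L ≤ 1 := by
      rw [Real.exp_neg, inv_mul_le_iff₀ (Real.exp_pos _)]
      linarith [Real.add_one_le_exp L]
    have b4 := b1.trans (Real.exp_le_exp.mpr b2)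
    have b5 : y * L ≤ ε / 4 * L := by linarith [mul_le_mul_of_nonneg_right b4 L0.le]
    exact le_of_mul_le_mul_right b5 L0
  have e1 : (1 - ε / 4) * (J : ℝ) ^ 3 * ((1 - y) / (2 * (n + 1))) =
      (1 - ε / 4) * (1 - y) * t / 2 := by
    rw [ht]
    field_simp
  have e2 : (1 - ε / 2) * t ≤ (1 - ε / 4) * (1 - y) * t :=
    mul_le_mul_of_nonneg_right (by linarith [mul_nonneg hε.le y0]) t0.le
  have e3 : ε / (24 * L) * (J * u) ≤ ε * J / 12 := by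
    have : ε / (24 * L) * (J * u) ≤ ε / (24 * L) * (J * (2 * L)) := by gcongr
    refine this.trans (le_of_eq ?_)
    field_simp
    ring
  rw [e1] at a1
  have e4 : ε * J ≤ ε * (3 * t) := by gcongr
  linarith

end Pool.Agent.P.MP_c09211_an.Sh
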