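import Pool.Agent.P.MP_c09211_an.Sh.Ker

/-!
The gain from the top frequencies.
-/

set_option autoImplicit false

namespace Pool.Agent.P.MP_c09211_an.Sh

open Metric Set Finset PowerSeries Complex Filter Topology Real
open scoped ComplexConjugate

theorem wn_norm (f : ℂ → ℂ) (r : ℝ) :
    ‖circleAverage f 0 r‖ ≤ circleAverage (fun z => ‖f z‖) 0 r := by
  rw [circleAverage_def, circleAverage_def, norm_smul, smul_eq_mul,
    Real.norm_of_nonneg (by positivity)]
  exact mul_le_mul_of_nonneg_left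
    (intervalIntegral.norm_integral_le_integral_norm Real.two_pi_pos.le) (by positivity)

theorem wn_cont0 {G : ℂ → ℂ} (hG : DifferentiableOn ℂ G (closedBall 0 1)) {r : ℝ}
    (r1 : r ≤ 1) : ContinuousOn G (sphere 0 r) :=
  hG.continuousOn.mono (sphere_subset_closedBall.trans (closedBall_subset_closedBall r1))

theorem wn_cont {G : ℂ → ℂ} (hG : DifferentiableOn ℂ G (closedBall 0 1)) {r : ℝ} (r0 : 0 < r)
    (r1 : r ≤ 1) (k : ℕ) : ContinuousOn (fun z => G z / z ^ k) (sphere 0 r) := by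
  refine (wn_cont0 hG r1).div (by fun_prop) fun z hz => pow_ne_zero _ ?_
  rw [mem_sphere_zero_iff_norm] at hz
  exact norm_pos_iff.mp (hz ▸ r0)

theorem wn_an {G : ℂ → ℂ} (hG : DifferentiableOn ℂ G (closedBall 0 1)) : AnalyticAt ℂ G 0 :=
  hG.analyticAt (closedBall_mem_nhds _ one_pos)

theorem wn_two {H : ℂ → ℂ} (hH : DifferentiableOn ℂ H (closedBall 0 1)) (a : ℂ) (k l : ℕ) :
    circleAverage (fun z => a * (H z / z ^ k) + H z / z ^ l) 0 1 =
      a * coeff k (tay H) + coeff l (tay H) := by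
  have c1 : ContinuousOn (fun z => a * (H z / z ^ k)) (sphere 0 1) :=
    continuousOn_const.mul (wn_cont hH one_pos le_rfl k)
  have c2 := wn_cont hH one_pos le_rfl l
  rw [circleAverage_fun_add (c1.circleIntegrable zero_le_one)
    (c2.circleIntegrable zero_le_one), ← avgR hH one_pos le_rfl k, ← avgR hH one_pos le_rfl l]
  exact congrArg (· + _) (circleAverage_fun_smul (a := a))

theorem wn_den {N : ℕ} {σ z : ℂ} (hσ : ‖σ‖ < 1) (hz : ‖z‖ ≤ 1) : 1 - σ * z ^ N ≠ 0 := by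
  intro e
  have e1 : ‖σ * z ^ N‖ = 1 := by rw [← sub_eq_zero.mp e, norm_one]
  have e2 : ‖z‖ ^ N ≤ 1 := pow_le_one₀ (norm_nonneg _) hz
  rw [norm_mul, norm_pow] at e1
  nlinarith [norm_nonneg σ]

theorem wn_quot {T : ℂ → ℂ} (hT : DifferentiableOn ℂ T (closedBall 0 1)) {M N : ℕ} (hMN : M < N)
    {σ : ℂ} (hσ : ‖σ‖ < 1) :
    DifferentiableOn ℂ (fun z => T z / (1 - σ * z ^ N)) (closedBall 0 1) ∧
      coeff M (tay fun z => T z / (1 - σ * z ^ N)) = coeff M (tay T) ∧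
      coeff (N + M) (tay fun z => T z / (1 - σ * z ^ N)) =
        coeff (N + M) (tay T) + σ * coeff M (tay T) := by
  have hH : DifferentiableOn ℂ (fun z => T z / (1 - σ * z ^ N)) (closedBall 0 1) :=
    hT.div (by fun_prop) fun z hz => wn_den hσ (mem_closedBall_zero_iff.mp hz)
  set H : ℂ → ℂ := fun z => T z / (1 - σ * z ^ N) with hdef
  have e : tay H = tay T + C σ * (X ^ N * tay H) := by
    have e1 : H =ᶠ[𝓝 0] fun z => T z + σ * (z ^ N * H z) := by
      filter_upwards [closedBall_mem_nhds (0 : ℂ) one_pos] with z hz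
      have := wn_den (N := N) hσ (mem_closedBall_zero_iff.mp hz)
      simp only [hdef]
      field_simp
      ring
    have a1 : AnalyticAt ℂ (fun z : ℂ => z ^ N) 0 := by fun_prop
    have a2 : AnalyticAt ℂ (fun z : ℂ => z ^ N * H z) 0 := a1.fun_mul (wn_an hH)
    have e2 := tay_congr e1
    rw [tay_add (wn_an hT) (analyticAt_const.fun_mul a2), tay_cmul σ a2, tay_mul a1 (wn_an hH),
      tay_pow (f := fun z => z) (by fun_prop), tay_id] at e2
    exact e2
  have e1 : coeff M (tay H) = coeff M (tay T) := by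
    have := congrArg (coeff M) e
    rwa [map_add, coeff_C_mul, coeff_X_pow_mul', if_neg (by omega), mul_zero, add_zero] at this
  refine ⟨hH, e1, ?_⟩
  have := congrArg (coeff (N + M)) e
  rwa [map_add, coeff_C_mul, add_comm N M, coeff_X_pow_mul, e1, add_comm M N] at this

theorem wn_top {T : ℂ → ℂ} (hT : DifferentiableOn ℂ T (closedBall 0 1)) {M N : ℕ} (hMN : M < N)
    (h : ∀ z : ℂ, ‖z‖ = 1 → ∃ b : ℝ, 0 ≤ b ∧ T z = b * z ^ (N + M)) :
    2 * ‖coeff M (tay T)‖ ≤ (coeff (N + M) (tay T)).re := by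
  have key : ∀ σ : ℂ, ‖σ‖ < 1 → 0 ≤ (coeff (N + M) (tay T) + 2 * σ * coeff M (tay T)).re := by
    intro σ hσ
    obtain ⟨hH, e1, e2⟩ := wn_quot hT hMN hσ
    have e := wn_two hH σ M (N + M)
    rw [e1, e2] at e
    have e3 : coeff (N + M) (tay T) + 2 * σ * coeff M (tay T) =
        σ * coeff M (tay T) + (coeff (N + M) (tay T) + σ * coeff M (tay T)) := by ring
    have ci := ((continuousOn_const (c := σ).mul (wn_cont hH one_pos le_rfl M)).add
      (wn_cont hH one_pos le_rfl (N + M))).circleIntegrable zero_le_one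
    have e4 := reCLM.circleAverage_comp_comm ci
    rw [e3, ← e]
    refine le_of_le_of_eq (circleAverage_nonneg_of_nonneg fun z hz => ?_) e4
    rw [abs_one, mem_sphere_zero_iff_norm] at hz
    obtain ⟨b, b0, hb⟩ := h z hz
    have z0 : z ≠ 0 := norm_pos_iff.mp (hz ▸ one_pos)
    have d0 := wn_den (N := N) hσ hz.le
    have e5 : σ * (T z / (1 - σ * z ^ N) / z ^ M) + T z / (1 - σ * z ^ N) / z ^ (N + M) =
        b * ((1 + σ * z ^ N) / (1 - σ * z ^ N)) := by
      rw [hb]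
      field_simp
      ring
    have e6 : ‖σ * z ^ N‖ < 1 := by rw [norm_mul, norm_pow, hz, one_pow, mul_one]; exact hσ
    change 0 ≤ (σ * (T z / (1 - σ * z ^ N) / z ^ M) + T z / (1 - σ * z ^ N) / z ^ (N + M)).re
    rw [e5, re_ofReal_mul]
    refine mul_nonneg b0 ?_
    generalize σ * z ^ N = x at e6
    have e7 : x.re * x.re + x.im * x.im < 1 := by
      rw [← normSq_apply, normSq_eq_norm_sq]
      nlinarith [norm_nonneg x]
    rw [div_re, ← add_div]
    refine div_nonneg ?_ (normSq_nonneg _)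
    simp only [add_re, one_re, sub_re, add_im, one_im, sub_im]
    nlinarith
  obtain ⟨u, hu, e⟩ := exists_norm_eq_mul_self (coeff M (tay T))
  have k2 : ∀ t : ℝ, 0 ≤ t → t < 1 → t * (2 * ‖coeff M (tay T)‖) ≤ (coeff (N + M) (tay T)).re := by
    intro t t0 t1
    have := key (-(t * u)) (by
      rw [norm_neg, norm_mul, hu, mul_one, norm_real, Real.norm_of_nonneg t0]; exact t1)
    have e2 : 2 * -(t * u) * coeff M (tay T) = ((-(t * (2 * ‖coeff M (tay T)‖)) : ℝ) : ℂ) := by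
      push_cast
      rw [e]
      ring
    rw [e2, add_re, ofReal_re] at this
    linarith
  have A0 := k2 0 le_rfl one_pos
  rw [zero_mul] at A0
  by_contra hc
  rw [not_le] at hc
  have p0 : 0 < 2 * ‖coeff M (tay T)‖ := A0.trans_lt hc
  obtain ⟨t, t0, t1⟩ := exists_between ((div_lt_one p0).mpr hc)
  have := k2 t ((div_nonneg A0 p0.le).trans t0.le) t1
  rw [div_lt_iff₀ p0] at t0
  linarith

theorem win1 {T : ℂ → ℂ} (hT : DifferentiableOn ℂ T (closedBall 0 1)) {M N : ℕ} (hMN : M < N)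
    (h : ∀ z : ℂ, ‖z‖ = 1 → ∃ b : ℝ, 0 ≤ b ∧ T z = b * z ^ (N + M)) {r : ℝ} (r0 : 0 < r)
    (r1 : r < 1) :
    r ^ M * (1 + r ^ (2 * N)) * ‖coeff M (tay T)‖ ≤ circleAverage (fun z => ‖T z‖) 0 r := by
  have top := wn_top hT hMN h
  obtain ⟨u, hu, e⟩ := exists_norm_mul_eq_self (coeff M (tay T))
  have hr : ‖(r : ℂ)‖ = r := by rw [norm_real, Real.norm_of_nonneg r0.le]
  have m : MapsTo (fun z : ℂ => (r : ℂ) * z) (closedBall 0 1) (closedBall 0 1) := fun z hz => by
    rw [mem_closedBall_zero_iff] at *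
    rw [norm_mul, hr]
    exact mul_le_one₀ r1.le (norm_nonneg _) hz
  have hT' : DifferentiableOn ℂ (fun z => T (r * z)) (closedBall 0 1) := hT.comp (by fun_prop) m
  have uu : u * conj u = 1 := by rw [mul_conj, normSq_eq_norm_sq, hu]; simp
  have hσ : ‖-((r : ℂ) ^ N * conj u)‖ < 1 := by
    rw [norm_neg, norm_mul, norm_pow, hr, norm_conj, hu, mul_one]
    exact pow_lt_one₀ r0.le r1 (by omega)
  obtain ⟨hH, e1, e2⟩ := wn_quot hT' hMN hσ
  have e3 := wn_two hH (r ^ N * u) (N + M) M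
  rw [e1, e2, tay_scale (wn_an hT), coeff_rescale, coeff_rescale] at e3
  have e4 := wn_norm (fun z => r ^ N * u *
    (T (r * z) / (1 - -((r : ℂ) ^ N * conj u) * z ^ N) / z ^ (N + M)) +
    T (r * z) / (1 - -((r : ℂ) ^ N * conj u) * z ^ N) / z ^ M) 1
  rw [e3] at e4
  rw [circleAverage_eq_circleAverage_zero_one]
  refine le_trans ?_ (e4.trans_eq (circleAverage_congr_sphere fun z hz => ?_))
  · set A := coeff (N + M) (tay T)
    set B := coeff M (tay T)
    have e5 : (r : ℂ) ^ N * u * (r ^ (N + M) * A + -((r : ℂ) ^ N * conj u) * (r ^ M * B)) +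
        r ^ M * B = u * (((r ^ M * r ^ (2 * N) : ℝ) : ℂ) * A +
          ((r ^ M * (1 - r ^ (2 * N)) * ‖B‖ : ℝ) : ℂ)) := by
      push_cast
      linear_combination (-(r : ℂ) ^ M * r ^ (2 * N) * B) * uu -
        ((r : ℂ) ^ M * (1 - r ^ (2 * N))) * e
    rw [e5, norm_mul, hu, one_mul]
    refine le_trans ?_ (re_le_norm _)
    rw [add_re, re_ofReal_mul, ofReal_re]
    have := mul_le_mul_of_nonneg_left top (show 0 ≤ r ^ M * r ^ (2 * N) by positivity)
    linarith
  · rw [abs_one, mem_sphere_zero_iff_norm] at hz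
    have z0 : z ≠ 0 := norm_pos_iff.mp (hz ▸ one_pos)
    have d0 := wn_den (N := N) hσ hz.le
    have zz : z * conj z = 1 := by rw [mul_conj, normSq_eq_norm_sq, hz]; simp
    have zc : conj z = z⁻¹ := (inv_eq_of_mul_eq_one_right zz).symm
    set D := 1 - -((r : ℂ) ^ N * conj u) * z ^ N with hD
    have e5 : conj D = 1 + r ^ N * u / z ^ N := by
      rw [hD]
      simp only [map_sub, map_one, map_mul, map_neg, map_pow, conj_ofReal, conj_conj, zc]
      rw [inv_pow]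
      ring
    have e6 : r ^ N * u * (T (r * z) / D / z ^ (N + M)) + T (r * z) / D / z ^ M =
        T (r * z) * (conj D / D) / z ^ M := by
      rw [e5]
      field_simp
      ring
    simp only [add_zero]
    rw [e6, norm_div, norm_mul, norm_div, norm_conj, div_self (norm_ne_zero_iff.mpr d0), norm_pow,
      hz, one_pow, mul_one, div_one]

/-- The coefficient of a function against the mean of its modulus. -/
theorem wn_coef {F : ℂ → ℂ} (hF : DifferentiableOn ℂ F (closedBall 0 1)) {r : ℝ} (r0 : 0 < r)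
    (r1 : r ≤ 1) (M k : ℕ) :
    r ^ M * ‖coeff (M + k) (tay F)‖ ≤ circleAverage (fun z => ‖F z / z ^ k‖) 0 r := by
  rw [← avgR hF r0 r1]
  refine (mul_le_mul_of_nonneg_left (wn_norm _ r) (by positivity)).trans_eq ?_
  rw [← smul_eq_mul, ← circleAverage_fun_smul]
  refine circleAverage_congr_sphere fun z hz => ?_
  rw [abs_of_pos r0, mem_sphere_zero_iff_norm] at hz
  simp only [smul_eq_mul, norm_div, norm_pow, hz]
  field_simp
  ring

theorem wn_split {M : ℕ} {τ : ℕ → ℂ → ℂ} (hτ : Ker M τ) {W : ℂ → ℂ}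
    (hW : DifferentiableOn ℂ W (closedBall 0 1)) (S : Finset ℕ) (k : ℕ) :
    coeff k (tay fun z => (∑ w ∈ S, τ w z) * W z) =
      ∑ w ∈ S, coeff k (tay fun z => τ w z * W z) := by
  simp only [sum_mul]
  rw [tay_sum S fun w _ => ((hτ.1 w).analyticAt 0).fun_mul (wn_an hW), map_sum]

theorem wn_all {M : ℕ} {τ : ℕ → ℂ → ℂ} (hτ : Ker M τ) {W : ℂ → ℂ}
    (hW : DifferentiableOn ℂ W (closedBall 0 1)) (k : ℕ) :
    coeff k (tay W) = ∑ w ∈ range (M + 1), coeff (M + k) (tay fun z => τ w z * W z) := by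
  rw [← wn_split hτ hW]
  simp only [hτ.2.1]
  rw [tay_mul (by fun_prop) (wn_an hW), tay_pow (f := fun z => z) (by fun_prop), tay_id,
    add_comm M k, coeff_X_pow_mul]

theorem wn_mean {M : ℕ} {τ : ℕ → ℂ → ℂ} (hτ : Ker M τ) {W : ℂ → ℂ}
    (hW : DifferentiableOn ℂ W (closedBall 0 1)) {r : ℝ} (r0 : 0 < r) (r1 : r ≤ 1)
    (S : Finset ℕ) (k : ℕ) :
    ∑ w ∈ S, circleAverage (fun z => ‖τ w z * W z / z ^ k‖) 0 r =
      circleAverage (fun z => (∑ w ∈ S, ‖τ w z‖) * ‖W z / z ^ k‖) 0 r := by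
  rw [← circleAverage_fun_sum fun w _ =>
    (wn_cont ((hτ.1 w).differentiableOn.fun_mul hW) r0 r1 k).norm.circleIntegrable r0.le]
  refine circleAverage_congr_sphere fun z _ => ?_
  simp only [sum_mul, mul_div_assoc, norm_mul]

theorem wn_one {M N k : ℕ} {t W G q : ℂ → ℂ} (ht : Differentiable ℂ t)
    (ht1 : ∀ z : ℂ, ‖z‖ = 1 → ∃ b : ℝ, 0 ≤ b ∧ t z = b * z ^ M) (hMN : M < N)
    (hW : DifferentiableOn ℂ W (closedBall 0 1)) (hG : DifferentiableOn ℂ G (closedBall 0 1))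
    (h : ∀ z : ℂ, ‖z‖ = 1 → ∃ b : ℝ, 0 ≤ b ∧ G z = b * z ^ N) {r : ℝ} (r0 : 0 < r) (r1 : r < 1)
    (hq : ∀ z : ℂ, ‖z‖ = r → W z / z ^ k = q z * G z) {c : ℂ} {β Θ : ℝ} (β0 : 0 ≤ β) (Θ0 : 0 ≤ Θ)
    (he : ∀ z : ℂ, ‖z‖ = r →
      ‖t z‖ * (‖q z - c‖ * ‖G z‖) ≤ β * (‖t z‖ * ‖W z / z ^ k‖) + Θ) :
    (1 + r ^ (2 * N)) * (r ^ M * ‖coeff (M + k) (tay fun z => t z * W z)‖) ≤
      (1 + 3 * β) * circleAverage (fun z => ‖t z * W z / z ^ k‖) 0 r + 3 * Θ := by
  have d1 : DifferentiableOn ℂ (fun z => t z * W z) (closedBall 0 1) :=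
    ht.differentiableOn.fun_mul hW
  have d2 : DifferentiableOn ℂ (fun z => t z * G z) (closedBall 0 1) :=
    ht.differentiableOn.fun_mul hG
  have d3 : DifferentiableOn ℂ (fun z => z ^ k * (t z * G z)) (closedBall 0 1) :=
    DifferentiableOn.fun_mul (by fun_prop) d2
  have d4 : DifferentiableOn ℂ (fun z => t z * W z + -c * (z ^ k * (t z * G z)))
      (closedBall 0 1) := d1.fun_add (d3.const_mul _)
  have w1 := win1 d2 hMN (fun z hz => by
    obtain ⟨a, a0, ha⟩ := ht1 z hz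
    obtain ⟨b, b0, hb⟩ := h z hz
    refine ⟨a * b, mul_nonneg a0 b0, ?_⟩
    rw [ha, hb]
    push_cast
    ring) r0 r1
  have w2 := wn_coef d4 r0 r1.le M k
  rw [tay_add (wn_an d1) (analyticAt_const.fun_mul (wn_an d3)), tay_cmul _ (wn_an d3),
    tay_mul (f := fun z => z ^ k) (by fun_prop) (wn_an d2),
    tay_pow (f := fun z => z) (by fun_prop), tay_id, map_add, coeff_C_mul,
    coeff_X_pow_mul] at w2
  have c1 := (wn_cont d1 r0 r1.le k).norm
  have c2 := (wn_cont0 d2 r1.le).norm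
  have c4 := (wn_cont d4 r0 r1.le k).norm
  have pt : ∀ z : ℂ, ‖z‖ = r → (t z * W z + -c * (z ^ k * (t z * G z))) / z ^ k =
      t z * W z / z ^ k - c * (t z * G z) := fun z hz => by
    have z0 : z ≠ 0 := norm_pos_iff.mp (hz ▸ r0)
    field_simp
    ring
  have c5 : ContinuousOn (fun z => β • ‖t z * W z / z ^ k‖) (sphere 0 r) :=
    continuousOn_const.mul c1
  have w3 : circleAverage (fun z => ‖(t z * W z + -c * (z ^ k * (t z * G z))) / z ^ k‖) 0 r ≤
      β * circleAverage (fun z => ‖t z * W z / z ^ k‖) 0 r + Θ := by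
    rw [← smul_eq_mul β, ← circleAverage_fun_smul, ← circleAverage_const Θ 0 r,
      ← circleAverage_fun_add (c5.circleIntegrable r0.le) (circleIntegrable_const _ _ _)]
    refine circleAverage_mono (c4.circleIntegrable r0.le)
      ((c5.add continuousOn_const).circleIntegrable r0.le) fun z hz => ?_
    rw [abs_of_pos r0, mem_sphere_zero_iff_norm] at hz
    have e : t z * W z / z ^ k - c * (t z * G z) = t z * ((q z - c) * G z) := by
      rw [mul_div_assoc, hq z hz]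
      ring
    rw [pt z hz, e, mul_div_assoc, norm_mul, norm_mul, norm_mul]
    exact he z hz
  have c6 : ContinuousOn (fun z => ‖c‖ * ‖t z * G z‖) (sphere 0 r) := continuousOn_const.mul c2
  have w4 : ‖c‖ * circleAverage (fun z => ‖t z * G z‖) 0 r ≤
      circleAverage (fun z => ‖t z * W z / z ^ k‖) 0 r +
      circleAverage (fun z => ‖(t z * W z + -c * (z ^ k * (t z * G z))) / z ^ k‖) 0 r := by
    rw [← smul_eq_mul ‖c‖, ← circleAverage_fun_smul,
      ← circleAverage_fun_add (c1.circleIntegrable r0.le) (c4.circleIntegrable r0.le)]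
    refine circleAverage_mono (c6.circleIntegrable r0.le)
      ((c1.add c4).circleIntegrable r0.le) fun z hz => ?_
    rw [abs_of_pos r0, mem_sphere_zero_iff_norm] at hz
    rw [pt z hz, smul_eq_mul, ← norm_mul]
    exact norm_le_norm_add_norm_sub _ _
  set m := circleAverage (fun z => ‖t z * W z / z ^ k‖) 0 r
  have m0 : 0 ≤ m := circleAverage_nonneg_of_nonneg fun z _ => norm_nonneg _
  set I := coeff (M + k) (tay fun z => t z * W z)
  set K := coeff M (tay fun z => t z * G z)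
  have w5 : ‖I‖ ≤ ‖I + -c * K‖ + ‖c‖ * ‖K‖ := by
    rw [← norm_mul]
    exact (congrArg norm (by ring)).trans_le (norm_add_le _ _)
  have w6 := mul_le_mul_of_nonneg_left w1 (norm_nonneg c)
  have w7 := mul_le_mul_of_nonneg_left w5 (show 0 ≤ r ^ M by positivity)
  have s0 : 0 ≤ r ^ (2 * N) := by positivity
  have s1 : r ^ (2 * N) ≤ 1 := pow_le_one₀ r0.le r1.le
  have e0 : 0 ≤ β * m + Θ := by positivity
  have w8 : r ^ M * ‖I‖ ≤ β * m + Θ + r ^ M * (‖c‖ * ‖K‖) := by linarith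
  have w9 := mul_le_mul_of_nonneg_left w8 (show 0 ≤ 1 + r ^ (2 * N) by positivity)
  have w10 := mul_le_mul_of_nonneg_right s1 e0
  linarith

theorem win {M N J : ℕ} {τ : ℕ → ℂ → ℂ} (hτ : Ker M τ) (hMN : M < N) {W G q : ℂ → ℂ}
    (hW : DifferentiableOn ℂ W (closedBall 0 1)) (hG : DifferentiableOn ℂ G (closedBall 0 1))
    (h : ∀ z : ℂ, ‖z‖ = 1 → ∃ b : ℝ, 0 ≤ b ∧ G z = b * z ^ N) {r : ℝ} (r0 : 0 < r) (r1 : r < 1)
    (hq : ∀ z : ℂ, ‖z‖ = r → W z / z ^ (J - 1) = q z * G z) {S : Finset ℕ}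
    (hS : S ⊆ range (M + 1)) {c : ℕ → ℂ} {β Θ : ℝ} (β0 : 0 ≤ β) (Θ0 : 0 ≤ Θ)
    (he : ∀ w ∈ S, ∀ z : ℂ, ‖z‖ = r →
      ‖τ w z‖ * (‖q z - c w‖ * ‖G z‖) ≤ β * (‖τ w z‖ * ‖W z / z ^ (J - 1)‖) + Θ) :
    r ^ M * (‖coeff (J - 1) (tay W)‖ + r ^ (2 * N) *
      ‖coeff (M + (J - 1)) (tay fun z => (∑ w ∈ S, τ w z) * W z)‖) ≤
      (1 + 3 * β) * circleAverage (fun z => ‖W z / z ^ (J - 1)‖) 0 r + 3 * (M + 1) * Θ := by
  generalize J - 1 = k at *
  rw [wn_split hτ hW, wn_all hτ hW k]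
  set I : ℕ → ℂ := fun w => coeff (M + k) (tay fun z => τ w z * W z) with hI
  set m : ℕ → ℝ := fun w => circleAverage (fun z => ‖τ w z * W z / z ^ k‖) 0 r with hm
  have a1 : ∑ w ∈ range (M + 1), m w ≤ circleAverage (fun z => ‖W z / z ^ k‖) 0 r := by
    have c1 := (wn_cont hW r0 r1.le k).norm
    have c2 : ContinuousOn (fun z => ∑ w ∈ range (M + 1), ‖τ w z‖) (sphere 0 r) :=
      continuousOn_finsetSum _ fun w _ => (hτ.1 w).continuous.continuousOn.norm
    refine (wn_mean hτ hW r0 r1.le _ k).trans_le (circleAverage_mono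
      ((c2.mul c1).circleIntegrable r0.le) (c1.circleIntegrable r0.le) fun z hz => ?_)
    rw [abs_of_pos r0, mem_sphere_zero_iff_norm] at hz
    exact mul_le_of_le_one_left (norm_nonneg _) (hτ.2.2.1 z (hz.trans_le r1.le))
  have a2 : ∀ w ∈ range (M + 1), r ^ M * ‖I w‖ + (if w ∈ S then r ^ (2 * N) * (r ^ M * ‖I w‖)
      else 0) ≤ (1 + 3 * β) * m w + 3 * Θ := fun w _ => by
    split_ifs with hw
    · have := wn_one (hτ.1 w) (hτ.2.2.2 w) hMN hW hG h r0 r1 hq β0 Θ0 (he w hw)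
      linarith
    · have := wn_coef ((hτ.1 w).differentiableOn.fun_mul hW) r0 r1.le M k
      have m0 : 0 ≤ m w := circleAverage_nonneg_of_nonneg fun z _ => norm_nonneg _
      have := mul_nonneg β0 m0
      linarith
  have a3 := sum_le_sum a2
  rw [sum_add_distrib, sum_add_distrib, sum_ite_mem, Finset.inter_eq_right.mpr hS, sum_const,
    card_range, nsmul_eq_mul, ← mul_sum, ← mul_sum, ← mul_sum, ← mul_sum] at a3
  have a4 := mul_le_mul_of_nonneg_left (norm_sum_le (range (M + 1)) I)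
    (show 0 ≤ r ^ M by positivity)
  have a5 := mul_le_mul_of_nonneg_left (norm_sum_le S I)
    (show 0 ≤ r ^ (2 * N) * r ^ M by positivity)
  have a6 := mul_le_mul_of_nonneg_left a1 (show 0 ≤ 1 + 3 * β by positivity)
  push_cast at a3
  linarith

theorem win_deep {M J : ℕ} {τ : ℕ → ℂ → ℂ} (hτ : Ker M τ) {W : ℂ → ℂ}
    (hW : DifferentiableOn ℂ W (closedBall 0 1)) {r : ℝ} (r0 : 0 < r) (r1 : r < 1) {S : Finset ℕ}
    (hS : S ⊆ range (M + 1)) :
    r ^ M * ‖coeff (J - 1) (tay W)‖ ≤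
      r ^ M * ‖coeff (M + (J - 1)) (tay fun z => (∑ w ∈ S, τ w z) * W z)‖ +
      circleAverage (fun z => (∑ w ∈ range (M + 1) \ S, ‖τ w z‖) * ‖W z / z ^ (J - 1)‖) 0 r := by
  generalize J - 1 = k
  rw [wn_split hτ hW, wn_all hτ hW k, ← wn_mean hτ hW r0 r1.le, ← sum_sdiff hS]
  have a1 := sum_le_sum fun w (_ : w ∈ range (M + 1) \ S) =>
    wn_coef ((hτ.1 w).differentiableOn.fun_mul hW) r0 r1.le M k
  rw [← mul_sum] at a1
  have a2 := mul_le_mul_of_nonneg_left ((norm_add_le _ (∑ w ∈ S,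
    coeff (M + k) (tay fun z => τ w z * W z))).trans (add_le_add_left (norm_sum_le
    (range (M + 1) \ S) fun w => coeff (M + k) (tay fun z => τ w z * W z)) _))
    (show 0 ≤ r ^ M by positivity)
  linarith

end Pool.Agent.P.MP_c09211_an.Sh
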